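import Pool.Agent.Work.MP_76acb6_an.Claims

/-!
# Item B8: `B A` is close to the identity
-/

set_option autoImplicit false

namespace Pool.Agent.Work.MP_76acb6_an

open Set Filter Topology MeasureTheory
open scoped ComplexConjugate

theorem BA_yr (hn y : ℕ) (mj mj' d d' : WK) : ∀ (ws ws' : List WK) (os : List ℤ),
    chkYr hn y mj mj' ws ws' os = true → ∀ k, k < ws.length →
    chkY1 hn y mj mj' (ws.getD k d) (ws'.getD k d') (os.getD k 0) = true
  | [], _, _, _, k, hk => by simp at hk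
  | _ :: _, [], _, h, _, _ => by simp [chkYr] at h
  | _ :: _, _ :: _, [], h, _, _ => by simp [chkYr] at h
  | w :: ws, w' :: ws', o :: os, h, k, hk => by
    rw [chkYr, Bool.and_eq_true] at h
    cases k with
    | zero => simpa using h.1
    | succ k =>
      have := BA_yr hn y mj mj' d d' ws ws' os h.2 k (by simpa using hk)
      simpa using this

theorem BA_y (hn y : ℕ) (d d' : WK) : ∀ (ws ws' : List WK) (om : List (List ℤ)),
    chkY hn y ws ws' om = true → ∀ j k, j < k → k < ws.length →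
    chkY1 hn y (ws.getD j d).mm (ws'.getD j d').mm (ws.getD k d) (ws'.getD k d')
      ((om.getD j []).getD (k - j - 1) 0) = true
  | [], _, _, _, _, k, _, hk => by simp at hk
  | _ :: _, [], _, h, _, _, _, _ => by simp [chkY] at h
  | _ :: _, _ :: _, [], h, _, _, _, _ => by simp [chkY] at h
  | w :: ws, w' :: ws', o :: os, h, j, k, hjk, hk => by
    rw [chkY, Bool.and_eq_true] at h
    cases k with
    | zero => omega
    | succ k =>
      cases j with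
      | zero =>
        have := BA_yr hn y w.mm w'.mm d d' ws ws' o h.1 k (by simpa using hk)
        simpa using this
      | succ j =>
        have := BA_y hn y d d' ws ws' os h.2 j k (by omega) (by simpa using hk)
        simpa using this

/-- Integer valued column. -/
noncomputable def BA_F (c : Col) (x : ℝ) : X :=
  (⟨evR c.a.re x, evR c.a.im x⟩, ⟨evR c.b.re x, evR c.b.im x⟩)

theorem BA_rep (h2 : ClaimCK) (c : Col) : RepX (WK.ofCol c) (BA_F c) := ⟨h2.ofCP _, h2.ofCP _⟩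

theorem BA_mm (h2 : ClaimCK) (k : WK) (f : ℝ → X) (h : RepX k f) :
    RepX k.mm (fun x => (2 * (f x).1 + (f x).2, (f x).1 + 2 * (f x).2)) := by
  constructor
  · have := h2.add _ _ _ _ (h2.scN k.a _ 2 h.1) h.2
    simpa [WK.mm] using this
  · have := h2.add _ _ _ _ h.1 (h2.scN k.b _ 2 h.2)
    simpa [WK.mm] using this

theorem BA_y1 (h1 : ClaimPK) (h2 : ClaimCK) (hn y : ℕ) (mj mj' wk wk' : WK) (om : ℤ)
    (M M' G G' : ℝ → X) (hM : RepX mj M) (hM' : RepX mj' M') (hG : RepX wk G)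
    (hG' : RepX wk' G') (h : chkY1 hn y mj mj' wk wk' om = true) :
    ∀ x ∈ Icc (-1 : ℝ) 1,
      |(((conj (M x).1 * (G' x).1).re + (conj (M x).2 * (G' x).2).re) -
        ((conj (M' x).1 * (G x).1).re + (conj (M' x).2 * (G x).2).re) -
        ((om * 2 ^ hn : ℤ) : ℝ)) / 2 ^ 48| ≤ (y : ℝ) / 2 ^ 60 := by
  have hr := h1.sub _ _ _ _ (h1.sub _ _ _ _
    (h1.add _ _ _ _ (h2.rip mj.a wk'.a _ _ hM.1 hG'.1) (h2.rip mj.b wk'.b _ _ hM.2 hG'.2))
    (h1.add _ _ _ _ (h2.rip mj'.a wk.a _ _ hM'.1 hG.1) (h2.rip mj'.b wk.b _ _ hM'.2 hG.2)))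
    (h1.const (om * 2 ^ hn))
  exact h1.bd _ _ _ _ hr h

theorem BA_ip (c c' : Col) (x : ℝ) :
    ip (c.f 24 x) (c'.f 24 x) = ip (BA_F c x) (BA_F c' x) / 2 ^ 48 := by
  simp only [ip, Col.f, CP.f, BA_F, Complex.mul_re, Complex.add_re, Complex.add_im,
    Complex.mul_im, Complex.conj_re, Complex.conj_im, map_add, map_mul]
  simp
  ring

theorem BA_ip_symm (x y : X) : ip x y = ip y x := by
  simp only [ip, Complex.mul_re, Complex.add_re, Complex.add_im,
    Complex.mul_im, Complex.conj_re, Complex.conj_im, map_add, map_mul]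
  simp
  ring

theorem BA_ip_comb (x : X) (W : Fin 8 → X) (ζ : Z) :
    ip x (comb W ζ) = ∑ k, ζ k * ip x (W k) := by
  have h1 : ∀ y y' : X, ip x (y + y') = ip x y + ip x y' := by
    intro y y'
    simp only [ip, Prod.fst_add, Prod.snd_add, mul_add, Complex.add_re]
    ring
  have h2 : ∀ (r : ℝ) (y : X), ip x (r • y) = r * ip x y := by
    intro r y
    simp only [ip, Prod.smul_fst, Prod.smul_snd, Complex.real_smul, Complex.add_re,
      Complex.mul_re, Complex.mul_im, Complex.ofReal_re, Complex.ofReal_im]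
    ring
  have h3 : ip x 0 = 0 := by simp [ip]
  have h4 : ∀ s : Finset (Fin 8), ip x (∑ k ∈ s, ζ k • W k) = ∑ k ∈ s, ζ k * ip x (W k) := by
    intro s
    induction s using Finset.induction_on with
    | empty => simp [h3]
    | insert a s ha ih => rw [Finset.sum_insert ha, Finset.sum_insert ha, h1, h2, ih]
  exact h4 Finset.univ

theorem BA_Ylt (h1 : ClaimPK) (h2 : ClaimCK) (O om : List (List ℤ)) (p : PD)
    (hg : Good O om p) (x : ℝ) (hx : x ∈ Icc (-1 : ℝ) 1) (j k : Fin 8) (hjk : j < k) :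
    |ip (p.Wf x j) (p.W1f x k) - ip (p.W1f x j) (p.Wf x k) -
      (p.hQ : ℝ) * ((Ment om j k : ℝ) / 2 ^ 45)| ≤ (N60 p.y : ℝ) := by
  obtain ⟨-, hsh, hc⟩ := hg
  have hlen : p.w.length = 8 := by
    simp only [PD.shape, Bool.and_eq_true, decide_eq_true_eq] at hsh
    exact hsh.1.1.1.1.1
  have hY : chkY p.hn p.y (p.w.map WK.ofCol) (p.w.map fun c => WK.ofCol c.der) om = true := by
    simp only [chk, Bool.and_eq_true] at hc
    exact hc.2
  have hY1 := BA_y p.hn p.y (WK.ofCol Col.zero) (WK.ofCol Col.zero.der) _ _ _ hY j k hjk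
    (by rw [List.length_map, hlen]; exact k.2)
  rw [List.getD_map, List.getD_map, List.getD_map,
    List.getD_map (f := fun c : Col => WK.ofCol c.der)] at hY1
  have hb := BA_y1 h1 h2 _ _ _ _ _ _ _ _ _ _ _
    (BA_mm h2 _ _ (BA_rep h2 (p.w.getD j Col.zero)))
    (BA_mm h2 _ _ (BA_rep h2 (p.w.getD j Col.zero).der))
    (BA_rep h2 (p.w.getD k Col.zero))
    (BA_rep h2 (p.w.getD k Col.zero).der) hY1 x hx
  have e1 : ip (p.Wf x j) (p.W1f x k) = ip (BA_F (p.w.getD j Col.zero) x)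
      (BA_F (p.w.getD k Col.zero).der x) / 2 ^ 48 := BA_ip _ _ _
  have e2 : ip (p.W1f x j) (p.Wf x k) = ip (BA_F (p.w.getD j Col.zero).der x)
      (BA_F (p.w.getD k Col.zero) x) / 2 ^ 48 := BA_ip _ _ _
  have e3 : (p.hQ : ℝ) = 2 ^ p.hn / 8 := by simp [PD.hQ]
  have e4 : ((N60 p.y : ℚ) : ℝ) = (p.y : ℝ) / 2 ^ 60 := by simp [N60]
  have e5 : Ment om j k = (om.getD j []).getD (k - j - 1 : ℕ) 0 := by
    rw [Ment, if_pos hjk]
  rw [e1, e2, e3, e4, e5]
  refine le_trans (le_of_eq ?_) hb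
  congr 1
  simp only [ip, Complex.add_re, Int.cast_mul, Int.cast_pow, Int.cast_ofNat]
  ring

theorem BA_Y (h1 : ClaimPK) (h2 : ClaimCK) (O om : List (List ℤ)) (p : PD)
    (hg : Good O om p) (x : ℝ) (hx : x ∈ Icc (-1 : ℝ) 1) (j k : Fin 8) :
    |ip (p.Wf x j) (p.W1f x k) - ip (p.W1f x j) (p.Wf x k) -
      (p.hQ : ℝ) * ((Ment om j k : ℝ) / 2 ^ 45)| ≤ (N60 p.y : ℝ) := by
  rcases lt_trichotomy j k with hjk | hjk | hjk
  · exact BA_Ylt h1 h2 O om p hg x hx j k hjk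
  · subst hjk
    rw [BA_ip_symm (p.W1f x j) (p.Wf x j), sub_self]
    have : Ment om j j = 0 := by simp [Ment]
    rw [this]
    simp [N60]
    positivity
  · have := BA_Ylt h1 h2 O om p hg x hx k j hjk
    have e : Ment om j k = - Ment om k j := by
      rw [Ment, Ment, if_neg (not_lt.2 hjk.le), if_pos hjk, if_pos hjk]
    rw [BA_ip_symm (p.Wf x j), BA_ip_symm (p.W1f x j), e, ← abs_neg]
    refine le_trans (le_of_eq ?_) this
    congr 1
    push_cast
    ring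

theorem BA_O1 (O om : List (List ℤ)) (h : chkO O om = true) (i : Fin 8) :
    ∑ j, |OR O i j| ≤ 3 / 4 := by
  simp only [chkO, Bool.and_eq_true, decide_eq_true_eq] at h
  have h1 := h.1.2 i
  have h2 : ∑ j, |OR O i j| = ((∑ j : Fin 8, (Oent O i j).natAbs : ℕ) : ℝ) / 2 ^ 24 := by
    rw [Nat.cast_sum, Finset.sum_div]
    refine Finset.sum_congr rfl fun j _ => ?_
    rw [OR, abs_div, abs_of_pos (by positivity : (0 : ℝ) < 2 ^ 24), Nat.cast_natAbs, Int.cast_abs]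
  rw [h2, div_le_iff₀ (by positivity)]
  have h3 : ((∑ j : Fin 8, (Oent O i j).natAbs : ℕ) : ℝ) ≤ ((3 * 2 ^ 22 : ℕ) : ℝ) :=
    Nat.cast_le.2 h1
  refine h3.trans ?_
  norm_num

theorem BA_O2 (O om : List (List ℤ)) (h : chkO O om = true) (i : Fin 8) :
    ∑ k, |∑ j, OR O i j * ((Ment om j k : ℝ) / 2 ^ 45) - if i = k then 1 else 0| ≤ 1 / 2 ^ 17 := by
  simp only [chkO, Bool.and_eq_true, decide_eq_true_eq] at h
  have h1 := h.2 i
  have h2 : ∑ k, |∑ j, OR O i j * ((Ment om j k : ℝ) / 2 ^ 45) - if i = k then 1 else 0| =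
      ((∑ k : Fin 8, (∑ j : Fin 8, Oent O i j * Ment om j k -
        if i = k then 2 ^ 69 else 0).natAbs : ℕ) : ℝ) / 2 ^ 69 := by
    rw [Nat.cast_sum, Finset.sum_div]
    refine Finset.sum_congr rfl fun k _ => ?_
    rw [Nat.cast_natAbs, Int.cast_abs, ← abs_of_pos (by positivity : (0 : ℝ) < 2 ^ 69), ← abs_div]
    congr 1
    push_cast
    rw [sub_div, Finset.sum_div]
    congr 1
    · refine Finset.sum_congr rfl fun j _ => ?_
      rw [OR]
      ring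
    · split_ifs
      · norm_num
      · simp
  rw [h2, div_le_iff₀ (by positivity)]
  refine (Nat.cast_le.2 h1).trans ?_
  norm_num

theorem claimBA (h1 : ClaimPK) (h2 : ClaimCK) : ClaimBA := by
  intro O om p hg x hx ζ
  have hh : 0 < (p.hQ : ℝ) := by
    have e3 : (p.hQ : ℝ) = 2 ^ p.hn / 8 := by simp [PD.hQ]
    rw [e3]; positivity
  have hy0 : 0 ≤ (N60 p.y : ℝ) := by
    have : ((N60 p.y : ℚ) : ℝ) = (p.y : ℝ) / 2 ^ 60 := by simp [N60]
    rw [this]; positivity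
  have heps : (p.epsQ : ℝ) = 1 / 2 ^ 17 + 6 * (N60 p.y : ℝ) / (p.hQ : ℝ) := by
    simp [PD.epsQ]
  have hζ : ∀ k, |ζ k| ≤ ‖ζ‖ := fun k => norm_le_pi_norm ζ k
  refine (pi_norm_le_iff_of_nonneg ?_).2 fun i => ?_
  · rw [heps]; positivity
  rw [Real.norm_eq_abs]
  have hO1 := BA_O1 O om hg.1 i
  have hO2 := BA_O2 O om hg.1 i
  have hY := BA_Y h1 h2 O om p hg x hx
  obtain ⟨Y, hYdef⟩ : ∃ Y : Fin 8 → Fin 8 → ℝ, Y = fun j k => ip (p.Wf x j) (p.W1f x k) -
      ip (p.W1f x j) (p.Wf x k) - (p.hQ : ℝ) * ((Ment om j k : ℝ) / 2 ^ 45) := ⟨_, rfl⟩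
  have hYb : ∀ j k, |Y j k| ≤ (N60 p.y : ℝ) := fun j k => by rw [hYdef]; exact hY j k
  have hsplit : ∀ j, ip (p.Wf x j) (comb (p.W1f x) ζ) - ip (p.W1f x j) (comb (p.Wf x) ζ) =
      ∑ k, (ζ k * Y j k + (p.hQ : ℝ) * (((Ment om j k : ℝ) / 2 ^ 45) * ζ k)) := by
    intro j
    rw [BA_ip_comb, BA_ip_comb, ← Finset.sum_sub_distrib]
    refine Finset.sum_congr rfl fun k _ => ?_
    rw [hYdef]
    ring
  have hmain : (p.hQ : ℝ)⁻¹ * ∑ j, OR O i j * (ip (p.Wf x j) (comb (p.W1f x) ζ) -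
      ip (p.W1f x j) (comb (p.Wf x) ζ)) - ζ i =
      (p.hQ : ℝ)⁻¹ * ∑ j, OR O i j * ∑ k, ζ k * Y j k +
      ∑ k, (∑ j, OR O i j * ((Ment om j k : ℝ) / 2 ^ 45) - if i = k then 1 else 0) * ζ k := by
    have ea : ∑ k, (∑ j, OR O i j * ((Ment om j k : ℝ) / 2 ^ 45) - if i = k then 1 else 0) * ζ k
        = (p.hQ : ℝ)⁻¹ * ∑ j, OR O i j * ∑ k, (p.hQ : ℝ) * (((Ment om j k : ℝ) / 2 ^ 45) * ζ k)
          - ζ i := by
      simp only [sub_mul, Finset.sum_sub_distrib, ite_mul, one_mul, zero_mul,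
        Finset.sum_ite_eq, Finset.mem_univ, if_true]
      congr 1
      simp only [← Finset.mul_sum]
      simp only [Finset.sum_mul, Finset.mul_sum]
      rw [Finset.sum_comm]
      refine Finset.sum_congr rfl fun j _ => Finset.sum_congr rfl fun k _ => ?_
      field_simp
    rw [ea]
    simp only [hsplit, Finset.sum_add_distrib, mul_add]
    ring
  show |(p.hQ : ℝ)⁻¹ * ∑ j, OR O i j * (ip (p.Wf x j) (comb (p.W1f x) ζ) -
      ip (p.W1f x j) (comb (p.Wf x) ζ)) - ζ i| ≤ _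
  rw [hmain]
  have hA : |(p.hQ : ℝ)⁻¹ * ∑ j, OR O i j * ∑ k, ζ k * Y j k| ≤
      6 * (N60 p.y : ℝ) / (p.hQ : ℝ) * ‖ζ‖ := by
    have hin : ∀ j, |∑ k, ζ k * Y j k| ≤ 8 * (‖ζ‖ * (N60 p.y : ℝ)) := by
      intro j
      refine (Finset.abs_sum_le_sum_abs _ _).trans ?_
      calc ∑ k, |ζ k * Y j k| ≤ ∑ _k : Fin 8, ‖ζ‖ * (N60 p.y : ℝ) := by
            refine Finset.sum_le_sum fun k _ => ?_
            rw [abs_mul]
            exact mul_le_mul (hζ k) (hYb j k) (abs_nonneg _) (norm_nonneg _)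
        _ = 8 * (‖ζ‖ * (N60 p.y : ℝ)) := by simp
    have hsum : |∑ j, OR O i j * ∑ k, ζ k * Y j k| ≤ 3 / 4 * (8 * (‖ζ‖ * (N60 p.y : ℝ))) := by
      refine (Finset.abs_sum_le_sum_abs _ _).trans ?_
      calc ∑ j, |OR O i j * ∑ k, ζ k * Y j k|
          ≤ ∑ j, |OR O i j| * (8 * (‖ζ‖ * (N60 p.y : ℝ))) := by
            refine Finset.sum_le_sum fun j _ => ?_
            rw [abs_mul]
            exact mul_le_mul_of_nonneg_left (hin j) (abs_nonneg _)
        _ = (∑ j, |OR O i j|) * (8 * (‖ζ‖ * (N60 p.y : ℝ))) := by rw [Finset.sum_mul]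
        _ ≤ _ := mul_le_mul_of_nonneg_right hO1 (by positivity)
    rw [abs_mul, abs_of_pos (inv_pos.2 hh)]
    calc (p.hQ : ℝ)⁻¹ * |∑ j, OR O i j * ∑ k, ζ k * Y j k|
        ≤ (p.hQ : ℝ)⁻¹ * (3 / 4 * (8 * (‖ζ‖ * (N60 p.y : ℝ)))) :=
          mul_le_mul_of_nonneg_left hsum (inv_pos.2 hh).le
      _ = 6 * (N60 p.y : ℝ) / (p.hQ : ℝ) * ‖ζ‖ := by field_simp; ring
  have hB : |∑ k, (∑ j, OR O i j * ((Ment om j k : ℝ) / 2 ^ 45) - if i = k then 1 else 0) * ζ k|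
      ≤ 1 / 2 ^ 17 * ‖ζ‖ := by
    refine (Finset.abs_sum_le_sum_abs _ _).trans ?_
    calc ∑ k, |(∑ j, OR O i j * ((Ment om j k : ℝ) / 2 ^ 45) - if i = k then 1 else 0) * ζ k|
        ≤ ∑ k, |∑ j, OR O i j * ((Ment om j k : ℝ) / 2 ^ 45) - if i = k then 1 else 0| * ‖ζ‖ := by
          refine Finset.sum_le_sum fun k _ => ?_
          rw [abs_mul]
          exact mul_le_mul_of_nonneg_left (hζ k) (abs_nonneg _)
      _ = (∑ k, |∑ j, OR O i j * ((Ment om j k : ℝ) / 2 ^ 45) - if i = k then 1 else 0|) * ‖ζ‖ := by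
          rw [Finset.sum_mul]
      _ ≤ _ := mul_le_mul_of_nonneg_right hO2 (norm_nonneg _)
  calc _ ≤ _ := abs_add_le _ _
    _ ≤ 6 * (N60 p.y : ℝ) / (p.hQ : ℝ) * ‖ζ‖ + 1 / 2 ^ 17 * ‖ζ‖ := add_le_add hA hB
    _ = (p.epsQ : ℝ) * ‖ζ‖ := by rw [heps]; ring

end Pool.Agent.Work.MP_76acb6_an
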