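import Pool.Agent.Work.MP_76acb6_an.Claims

/-!
# B7: the approximate inverse
-/

set_option autoImplicit false

namespace Pool.Agent.Work.MP_76acb6_an

open Set Filter Topology MeasureTheory
open scoped ComplexConjugate

namespace B7

/-- Value of a complex polynomial, no scaling. -/
noncomputable def cv (c : CP) (x : ℝ) : ℂ := ⟨evR c.re x, evR c.im x⟩

/-- The function represented by `(WK.ofCol w).mm`. -/
noncomputable def mmf (w : Col) (x : ℝ) : X :=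
  (2 * cv w.a x + cv w.b x, cv w.a x + 2 * cv w.b x)

/-- The function represented by `lc`. -/
noncomputable def lcf : List ℤ → List Col → ℝ → X
  | c :: cs, w :: ws, x => ((c : ℂ) * (mmf w x).1 + (lcf cs ws x).1,
      (c : ℂ) * (mmf w x).2 + (lcf cs ws x).2)
  | [], _, _ => 0
  | _ :: _, [], _ => 0

theorem repX_mm (h2 : ClaimCK) (w : Col) : RepX (WK.ofCol w).mm (mmf w) := by
  have ha := h2.ofCP w.a
  have hb := h2.ofCP w.b
  refine ⟨?_, ?_⟩
  · have h3 := h2.add _ _ _ _ (h2.scN _ _ 2 ha) hb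
    exact_mod_cast h3
  · have h3 := h2.add _ _ _ _ ha (h2.scN _ _ 2 hb)
    exact_mod_cast h3

theorem repX_zero (h1 : ClaimPK) :
    RepX ⟨⟨⟨0, 0, 0, 0⟩, ⟨0, 0, 0, 0⟩⟩, ⟨⟨0, 0, 0, 0⟩, ⟨0, 0, 0, 0⟩⟩⟩ (fun _ => 0) :=
  ⟨⟨h1.zero, h1.zero⟩, ⟨h1.zero, h1.zero⟩⟩

theorem repX_lc (h1 : ClaimPK) (h2 : ClaimCK) : ∀ (cs : List ℤ) (ws : List Col),
    RepX (lc cs ((ws.map WK.ofCol).map WK.mm)) (lcf cs ws)
  | [], [] => repX_zero h1
  | [], _ :: _ => repX_zero h1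
  | _ :: _, [] => repX_zero h1
  | c :: cs, w :: ws => by
    have hm := repX_mm h2 w
    have hr := repX_lc h1 h2 cs ws
    exact ⟨h2.add _ _ _ _ (h2.scZ _ _ c hm.1) hr.1, h2.add _ _ _ _ (h2.scZ _ _ c hm.2) hr.2⟩

theorem lcf_eq : ∀ (n : ℕ) (cs : List ℤ) (ws : List Col) (x : ℝ), cs.length = n → ws.length = n →
    lcf cs ws x = (∑ j ∈ Finset.range n, ((cs.getD j 0 : ℤ) : ℂ) * (mmf (ws.getD j Col.zero) x).1,
      ∑ j ∈ Finset.range n, ((cs.getD j 0 : ℤ) : ℂ) * (mmf (ws.getD j Col.zero) x).2)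
  | 0, cs, ws, x, hc, hw => by
    rw [List.length_eq_zero_iff.mp hc, List.length_eq_zero_iff.mp hw]
    simp only [lcf, Finset.range_zero, Finset.sum_empty]
    rfl
  | n + 1, [], ws, x, hc, hw => by simp at hc
  | n + 1, _ :: _, [], x, hc, hw => by simp at hw
  | n + 1, c :: cs, w :: ws, x, hc, hw => by
    have ih := lcf_eq n cs ws x (by simpa using hc) (by simpa using hw)
    rw [Finset.sum_range_succ', Finset.sum_range_succ']
    simp only [List.getD_cons_succ, List.getD_cons_zero]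
    show ((c : ℂ) * (mmf w x).1 + (lcf cs ws x).1, (c : ℂ) * (mmf w x).2 + (lcf cs ws x).2) = _
    rw [ih]
    simp only [Prod.mk.injEq]
    exact ⟨add_comm _ _, add_comm _ _⟩

theorem chkB_get (mw : List WK) : ∀ (O : List (List ℤ)) (bs : List (ℕ × ℕ)) (i : ℕ),
    chkB mw O bs = true → i < O.length → i < bs.length →
    (lc (O.getD i []) mw).a.nsq.bdSq (2 * (24 + PWW)) (bs.getD i (0, 0)).1 = true ∧
    (lc (O.getD i []) mw).b.nsq.bdSq (2 * (24 + PWW)) (bs.getD i (0, 0)).2 = true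
  | [], _, i, _, h, _ => by simp at h
  | _ :: _, [], i, _, _, h => by simp at h
  | r :: rs, b :: bs, 0, h, _, _ => by
    simp only [chkB, Bool.and_eq_true] at h
    exact ⟨h.1.1, h.1.2⟩
  | r :: rs, b :: bs, i + 1, h, h1, h2 => by
    simp only [chkB, Bool.and_eq_true] at h
    simp only [List.getD_cons_succ]
    exact chkB_get mw rs bs i h.2 (by simpa using h1) (by simpa using h2)

theorem le_foldr_max : ∀ (l : List (ℕ × ℕ)) (i : ℕ),
    (l.getD i (0, 0)).1 + (l.getD i (0, 0)).2 ≤ (l.map fun b => b.1 + b.2).foldr max 0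
  | [], i => by simp
  | a :: l, 0 => by simp
  | a :: l, i + 1 => by
    simp only [List.getD_cons_succ, List.map_cons, List.foldr_cons]
    exact (le_foldr_max l i).trans (le_max_right _ _)

theorem norm_of_bdSq (h1 : ClaimPK) (h2 : ClaimCK) {k : CK} {f : ℝ → ℂ} (hk : RepC k f) {b : ℕ}
    (hb : k.nsq.bdSq (2 * (24 + PWW)) b = true) {x : ℝ} (hx : x ∈ Icc (-1 : ℝ) 1) :
    ‖f x‖ / 2 ^ 48 ≤ (b : ℝ) / 2 ^ 60 := by
  have h3 := h1.bdSq _ _ _ _ (h2.nsq k f hk) hb x hx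
  have e : 2 * (24 + PWW) = 48 * 2 := rfl
  rw [e] at h3
  have h4 : (‖f x‖ / 2 ^ 48) ^ 2 ≤ ((b : ℝ) / 2 ^ 60) ^ 2 := by
    refine le_trans (le_of_eq ?_) ((le_abs_self _).trans h3)
    rw [div_pow, ← pow_mul]
  exact (pow_le_pow_iff_left₀ (by positivity) (by positivity) (by norm_num)).mp h4

end B7

open B7 in
/-- B7. -/
theorem claimB (h1 : ClaimPK) (h2 : ClaimCK) : ClaimB := by
  intro O om p hG x hx y
  obtain ⟨hO, hs, hc⟩ := hG
  simp only [chk, Bool.and_eq_true] at hc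
  have hB : chkB ((p.w.map WK.ofCol).map WK.mm) O p.bj = true := hc.1.2
  simp only [chkO, Bool.and_eq_true, decide_eq_true_eq, List.all_eq_true] at hO
  simp only [PD.shape, Bool.and_eq_true, decide_eq_true_eq] at hs
  have hOl : O.length = 8 := hO.1.1.1
  have hOr : ∀ r ∈ O, r.length = 8 := fun r hr => by simpa using hO.1.1.2 r hr
  have hwl : p.w.length = 8 := hs.1.1.1.1.1
  have hbl : p.bj.length = 8 := hs.1.1.1.1.2
  have hh : (0 : ℝ) < (p.hQ : ℝ) := by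
    have : 0 < p.hQ := by
      unfold PD.hQ
      positivity
    exact_mod_cast this
  set Bm : ℕ := (p.bj.map fun b => b.1 + b.2).foldr max 0 with hBm
  have hbeta : (p.betaQ : ℝ) = (p.hQ : ℝ)⁻¹ * ((Bm : ℝ) / 2 ^ 60) := by
    unfold PD.betaQ N60
    rw [← hBm]
    push_cast
    rw [div_eq_mul_inv, mul_comm]
  have hbn : 0 ≤ (p.betaQ : ℝ) * ‖y‖ := by
    rw [hbeta]
    positivity
  rw [pi_norm_le_iff_of_nonneg hbn]
  intro i
  show ‖(p.hQ : ℝ)⁻¹ * ∑ j, OR O i j * ip (p.Wf x j) y‖ ≤ _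
  have hi : (i : ℕ) < 8 := i.2
  have hiO : (i : ℕ) < O.length := by rw [hOl]; exact hi
  have hr : (O.getD i []).length = 8 := by
    apply hOr
    rw [List.getD_eq_getElem _ _ hiO]
    exact List.getElem_mem hiO
  obtain ⟨g1, g2⟩ := chkB_get _ O p.bj i hB hiO (by rw [hbl]; exact hi)
  have hrep := repX_lc h1 h2 (O.getD i []) p.w
  have n1 := norm_of_bdSq h1 h2 hrep.1 g1 hx
  have n2 := norm_of_bdSq h1 h2 hrep.2 g2 hx
  rw [lcf_eq 8 _ _ x hr hwl] at n1 n2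
  set S1 : ℂ := ∑ j ∈ Finset.range 8, (((O.getD i []).getD j 0 : ℤ) : ℂ) *
    (mmf (p.w.getD j Col.zero) x).1 with hS1
  set S2 : ℂ := ∑ j ∈ Finset.range 8, (((O.getD i []).getD j 0 : ℤ) : ℂ) *
    (mmf (p.w.getD j Col.zero) x).2 with hS2
  have hsum : ∑ j : Fin 8, OR O i j * ip (p.Wf x j) y =
      (conj (S1 / 2 ^ 48) * y.1 + conj (S2 / 2 ^ 48) * y.2).re := by
    have e1 : ∀ j : Fin 8, OR O i j * ip (p.Wf x j) y =
        (conj ((((O.getD i []).getD j 0 : ℤ) : ℂ) * (mmf (p.w.getD j Col.zero) x).1 / 2 ^ 48) * y.1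
          + conj ((((O.getD i []).getD j 0 : ℤ) : ℂ) * (mmf (p.w.getD j Col.zero) x).2 / 2 ^ 48)
            * y.2).re := by
      intro j
      have e2 : ((Oent O i j : ℤ) : ℝ) = (((O.getD i []).getD j 0 : ℤ) : ℝ) := rfl
      unfold OR ip PD.Wf
      rw [e2]
      generalize (O.getD i []).getD j 0 = a
      generalize p.w.getD j Col.zero = w
      have e3 : w.a.f 24 x = cv w.a x / 2 ^ 24 := by
        apply Complex.ext
        · show evR w.a.re x / 2 ^ 24 = (cv w.a x / 2 ^ 24).re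
          have : (2 : ℂ) ^ 24 = ((2 ^ 24 : ℝ) : ℂ) := by push_cast; rfl
          rw [this, Complex.div_ofReal_re]
          rfl
        · show evR w.a.im x / 2 ^ 24 = (cv w.a x / 2 ^ 24).im
          have : (2 : ℂ) ^ 24 = ((2 ^ 24 : ℝ) : ℂ) := by push_cast; rfl
          rw [this, Complex.div_ofReal_im]
          rfl
      have e4 : w.b.f 24 x = cv w.b x / 2 ^ 24 := by
        apply Complex.ext
        · show evR w.b.re x / 2 ^ 24 = (cv w.b x / 2 ^ 24).re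
          have : (2 : ℂ) ^ 24 = ((2 ^ 24 : ℝ) : ℂ) := by push_cast; rfl
          rw [this, Complex.div_ofReal_re]
          rfl
        · show evR w.b.im x / 2 ^ 24 = (cv w.b x / 2 ^ 24).im
          have : (2 : ℂ) ^ 24 = ((2 ^ 24 : ℝ) : ℂ) := by push_cast; rfl
          rw [this, Complex.div_ofReal_im]
          rfl
      show (a : ℝ) / 2 ^ 24 * (conj (2 * w.a.f 24 x + w.b.f 24 x) * y.1 +
        conj (w.a.f 24 x + 2 * w.b.f 24 x) * y.2).re =
        (conj ((a : ℂ) * (2 * cv w.a x + cv w.b x) / 2 ^ 48) * y.1 +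
          conj ((a : ℂ) * (cv w.a x + 2 * cv w.b x) / 2 ^ 48) * y.2).re
      rw [e3, e4, ← Complex.re_ofReal_mul]
      congr 1
      simp only [map_add, map_mul, map_div₀, map_pow, map_ofNat, map_intCast]
      push_cast
      ring
    rw [Finset.sum_congr rfl fun j _ => e1 j]
    rw [← Complex.re_sum, Finset.sum_add_distrib, ← Finset.sum_mul, ← Finset.sum_mul,
      ← map_sum, ← map_sum, ← Finset.sum_div, ← Finset.sum_div, hS1, hS2, Finset.sum_range,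
      Finset.sum_range]
  rw [hsum, norm_mul, Real.norm_eq_abs, abs_of_pos (inv_pos.mpr hh), hbeta, mul_assoc]
  apply mul_le_mul_of_nonneg_left _ (inv_pos.mpr hh).le
  have t48 : ‖(2 : ℂ) ^ 48‖ = 2 ^ 48 := by simp
  have b1 : ‖conj (S1 / 2 ^ 48) * y.1‖ ≤ ((p.bj.getD i (0, 0)).1 : ℝ) / 2 ^ 60 * ‖y‖ := by
    rw [norm_mul, Complex.norm_conj, norm_div, t48]
    exact mul_le_mul n1 (norm_fst_le y) (norm_nonneg _) (by positivity)
  have b2 : ‖conj (S2 / 2 ^ 48) * y.2‖ ≤ ((p.bj.getD i (0, 0)).2 : ℝ) / 2 ^ 60 * ‖y‖ := by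
    rw [norm_mul, Complex.norm_conj, norm_div, t48]
    exact mul_le_mul n2 (norm_snd_le y) (norm_nonneg _) (by positivity)
  have b3 : (p.bj.getD i (0, 0)).1 + (p.bj.getD i (0, 0)).2 ≤ Bm := le_foldr_max p.bj i
  have b3' : ((p.bj.getD i (0, 0)).1 : ℝ) + ((p.bj.getD i (0, 0)).2 : ℝ) ≤ (Bm : ℝ) := by
    exact_mod_cast b3
  calc ‖(conj (S1 / 2 ^ 48) * y.1 + conj (S2 / 2 ^ 48) * y.2).re‖
      ≤ ‖conj (S1 / 2 ^ 48) * y.1 + conj (S2 / 2 ^ 48) * y.2‖ := Complex.abs_re_le_norm _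
    _ ≤ ((p.bj.getD i (0, 0)).1 : ℝ) / 2 ^ 60 * ‖y‖ + ((p.bj.getD i (0, 0)).2 : ℝ) / 2 ^ 60 * ‖y‖ :=
        (norm_add_le _ _).trans (add_le_add b1 b2)
    _ = (((p.bj.getD i (0, 0)).1 : ℝ) + ((p.bj.getD i (0, 0)).2 : ℝ)) / 2 ^ 60 * ‖y‖ := by ring
    _ ≤ (Bm : ℝ) / 2 ^ 60 * ‖y‖ := by
        apply mul_le_mul_of_nonneg_right _ (norm_nonneg y)
        apply div_le_div_of_nonneg_right b3' (by positivity)

end Pool.Agent.Work.MP_76acb6_an
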