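import Pool.Agent.Work.MP_76acb6_an.Claims

/-!
# A11: back to the original problem
-/

set_option autoImplicit false

namespace Pool.Agent.Work.MP_76acb6_an

open Set Filter Topology MeasureTheory Asymptotics
open scoped ComplexConjugate

/-- The three bodies. -/
noncomputable def backP (q : X) : Fin 3 → ℂ := ![q.1, q.2, -(q.1 + q.2)]

lemma backP_smul (r : ℝ) (q : X) (i : Fin 3) : backP (r • q) i = r • backP q i := by
  fin_cases i <;> simp [backP]

lemma backP_sub (q q' : X) (i : Fin 3) : backP (q - q') i = backP q i - backP q' i := by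
  fin_cases i <;> simp [backP]
  ring

lemma back_phi_zero : phi 0 = 0 := by simp [phi]

lemma back_phi_neg (z : ℂ) : phi (-z) = -phi z := by
  unfold phi
  rw [norm_neg, neg_div]

lemma back_phi_eq (z : ℂ) : phi z = (‖z‖ ^ 3)⁻¹ • z := by
  unfold phi
  rw [Complex.real_smul, div_eq_inv_mul]
  push_cast
  rfl

lemma back_phi_smul {a : ℝ} (ha : 0 < a) (z : ℂ) : phi (a • z) = (a ^ 2)⁻¹ • phi z := by
  rw [back_phi_eq, back_phi_eq, norm_smul, Real.norm_of_nonneg ha.le, smul_smul, smul_smul]
  congr 1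
  by_cases hz : ‖z‖ = 0
  · rw [hz]; simp
  · field_simp

lemma back_phi_iso (c : ℂ ≃ₗᵢ[ℝ] ℂ) (z : ℂ) : phi (c z) = c (phi z) := by
  rw [back_phi_eq, back_phi_eq, c.norm_map, c.map_smul]

lemma back_newton (q : X) (i : Fin 3) :
    ∑ j, phi (backP q j - backP q i) = backP (Fo q) i := by
  rw [Fin.sum_univ_three]
  have h0 : q.2 - q.1 = -dd 0 q := by simp [dd]
  have h1 : -(q.1 + q.2) - q.1 = dd 2 q := by simp [dd]; ring
  have h2 : q.1 - q.2 = dd 0 q := rfl
  have h3 : -(q.1 + q.2) - q.2 = -dd 1 q := by simp [dd]; ring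
  have h4 : q.1 - -(q.1 + q.2) = -dd 2 q := by simp [dd]; ring
  have h5 : q.2 - -(q.1 + q.2) = dd 1 q := by simp [dd]; ring
  fin_cases i
  · simp only [backP, Fo, Fin.zero_eta, Matrix.cons_val, h0, h1, back_phi_neg, sub_self,
      back_phi_zero]
    ring
  · simp only [backP, Fo, Fin.mk_one, Matrix.cons_val, h2, h3, back_phi_neg, sub_self,
      back_phi_zero]
    ring
  · simp only [backP, Fo, Fin.reduceFinMk, Matrix.cons_val, h4, h5, back_phi_neg, sub_self,
      back_phi_zero]
    ring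

lemma back_ne {q : X} (hq : ∀ m, dd m q ≠ 0) {i j : Fin 3} (hij : i ≠ j) :
    backP q i ≠ backP q j := by
  have h0 : q.1 - q.2 ≠ 0 := hq 0
  have h1 : q.1 + 2 * q.2 ≠ 0 := hq 1
  have h2 : -(2 * q.1 + q.2) ≠ 0 := hq 2
  intro h
  have h' := sub_eq_zero.2 h
  fin_cases i <;> fin_cases j <;> simp [backP] at hij h' <;>
    first
    | exact h0 (by linear_combination h')
    | exact h0 (by linear_combination -h')
    | exact h1 (by linear_combination h')
    | exact h1 (by linear_combination -h')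
    | exact h2 (by linear_combination h')
    | exact h2 (by linear_combination -h')

lemma back_hasDeriv {Q : ℝ → X} {v : X} {s : ℝ} (h : HasDerivAt Q v s) (i : Fin 3) :
    HasDerivAt (fun t => backP (Q t) i) (backP v i) s := by
  have h1 : HasDerivAt (fun t => (Q t).1) v.1 s := h.fst
  have h2 : HasDerivAt (fun t => (Q t).2) v.2 s := h.snd
  fin_cases i
  · exact h1
  · exact h2
  · exact (h1.add h2).neg

/-- scaled and reflected motion -/
lemma back_aux (c : ℂ ≃ₗᵢ[ℝ] ℂ) {Q V : ℝ → X} {a b : X} {w : ℝ} (hw : 0 < w)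
    (hQ : ∀ t, (∀ m, dd m (Q t) ≠ 0) ∧ HasDerivAt Q (V t) t ∧ HasDerivAt V (Fo (Q t)) t)
    (hb : Tendsto (fun t : ℝ => t⁻¹ • Q t) atTop (𝓝 b))
    (ha : Tendsto (fun t : ℝ => |t|⁻¹ • Q t) atBot (𝓝 a)) :
    ∃ x : ℝ → Fin 3 → ℂ, IsMotion x ∧
      (∀ i, (fun t : ℝ => x t i - |t| • (w • c (backP a i))) =o[atBot] fun t : ℝ => t) ∧
      (∀ i, (fun t : ℝ => x t i - t • (w • c (backP b i))) =o[atTop] fun t : ℝ => t) := by
  have hw2 : 0 < (w ^ 2)⁻¹ := by positivity
  have hw3 : 0 < w ^ 3 := by positivity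
  set x : ℝ → Fin 3 → ℂ := fun t i => (w ^ 2)⁻¹ • c (backP (Q (w ^ 3 * t)) i) with hx
  have hlin : ∀ t : ℝ, HasDerivAt (fun s : ℝ => w ^ 3 * s) (w ^ 3) t := fun t => by
    simpa using (hasDerivAt_id t).const_mul (w ^ 3)
  refine ⟨x, ⟨fun t i j hij h => ?_, fun t i => w • c (backP (V (w ^ 3 * t)) i), fun t i => ?_,
    fun t i => ?_⟩, fun i => ?_, fun i => ?_⟩
  · have h1 := smul_right_injective ℂ hw2.ne' h
    exact back_ne (hQ _).1 hij (c.injective h1)
  · have h1 := back_hasDeriv (hQ (w ^ 3 * t)).2.1 i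
    have h2 := (h1.scomp t (hlin t))
    have h3 := (c.toContinuousLinearEquiv.hasFDerivAt.comp_hasDerivAt t h2).const_smul (w ^ 2)⁻¹
    refine h3.congr_deriv ?_
    simp only [ContinuousLinearEquiv.coe_coe, LinearIsometryEquiv.coe_toContinuousLinearEquiv,
      map_smul, smul_smul]
    congr 1
    field_simp
  · have h1 := back_hasDeriv (hQ (w ^ 3 * t)).2.2 i
    have h2 := (h1.scomp t (hlin t))
    have h3 := (c.toContinuousLinearEquiv.hasFDerivAt.comp_hasDerivAt t h2).const_smul w
    refine h3.congr_deriv ?_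
    have h4 : ∑ j ∈ Finset.univ.erase i, (x t j - x t i) / ((‖x t j - x t i‖ ^ 3 : ℝ) : ℂ) =
        ∑ j, phi (x t j - x t i) := by
      rw [Finset.sum_erase]
      · rfl
      · simp
    have h5 : ∀ j, phi (x t j - x t i) =
        w ^ 4 • c (phi (backP (Q (w ^ 3 * t)) j - backP (Q (w ^ 3 * t)) i)) := by
      intro j
      have : x t j - x t i = (w ^ 2)⁻¹ • c (backP (Q (w ^ 3 * t)) j - backP (Q (w ^ 3 * t)) i) := by
        rw [map_sub, smul_sub]
      rw [this, back_phi_smul hw2, back_phi_iso]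
      congr 1
      field_simp
    rw [h4, Finset.sum_congr rfl fun j _ => h5 j, ← Finset.smul_sum, ← map_sum, back_newton]
    simp only [ContinuousLinearEquiv.coe_coe, LinearIsometryEquiv.coe_toContinuousLinearEquiv,
      map_smul, smul_smul]
    congr 1
    ring
  · -- at minus infinity
    have h1 : Tendsto (fun t : ℝ => w ^ 3 * t) atBot atBot := tendsto_id.const_mul_atBot hw3
    have h2 : Tendsto (fun t : ℝ => ‖w • c (backP (|w ^ 3 * t|⁻¹ • Q (w ^ 3 * t) - a) i)‖) atBot
        (𝓝 0) := by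
      have h3 : Continuous fun q : X => ‖w • c (backP (q - a) i)‖ := by
        have : Continuous fun q : X => backP (q - a) i := by
          fin_cases i <;> simp only [backP, Fin.reduceFinMk, Matrix.cons_val] <;> fun_prop
        fun_prop
      have h4 := (h3.tendsto a).comp (ha.comp h1)
      have h5 : ‖w • c (backP (a - a) i)‖ = 0 := by
        have : backP (0 : X) i = 0 := by fin_cases i <;> simp [backP]
        rw [sub_self, this]; simp
      rw [h5] at h4
      exact h4
    rw [isLittleO_iff]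
    intro ε hε
    filter_upwards [h2.eventually (gt_mem_nhds hε), eventually_lt_atBot (0 : ℝ)] with t ht ht0
    have h6 : x t i - |t| • (w • c (backP a i)) =
        |t| • (w • c (backP (|w ^ 3 * t|⁻¹ • Q (w ^ 3 * t) - a) i)) := by
      have h7 : 0 < |t| := abs_pos.2 ht0.ne
      rw [backP_sub, backP_smul, map_sub, map_smul, hx, abs_mul, abs_of_pos hw3]
      simp only [smul_sub, smul_smul]
      congr 2
      field_simp
    rw [h6, norm_smul, Real.norm_eq_abs, abs_abs, Real.norm_eq_abs, mul_comm]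
    exact mul_le_mul_of_nonneg_right ht.le (abs_nonneg _)
  · have h1 : Tendsto (fun t : ℝ => w ^ 3 * t) atTop atTop := tendsto_id.const_mul_atTop hw3
    have h2 : Tendsto (fun t : ℝ => ‖w • c (backP ((w ^ 3 * t)⁻¹ • Q (w ^ 3 * t) - b) i)‖) atTop
        (𝓝 0) := by
      have h3 : Continuous fun q : X => ‖w • c (backP (q - b) i)‖ := by
        have : Continuous fun q : X => backP (q - b) i := by
          fin_cases i <;> simp only [backP, Fin.reduceFinMk, Matrix.cons_val] <;> fun_prop
        fun_prop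
      have h4 := (h3.tendsto b).comp (hb.comp h1)
      have h5 : ‖w • c (backP (b - b) i)‖ = 0 := by
        have : backP (0 : X) i = 0 := by fin_cases i <;> simp [backP]
        rw [sub_self, this]; simp
      rw [h5] at h4
      exact h4
    rw [isLittleO_iff]
    intro ε hε
    filter_upwards [h2.eventually (gt_mem_nhds hε), eventually_gt_atTop (0 : ℝ)] with t ht ht0
    have h6 : x t i - t • (w • c (backP b i)) =
        t • (w • c (backP ((w ^ 3 * t)⁻¹ • Q (w ^ 3 * t) - b) i)) := by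
      rw [backP_sub, backP_smul, map_sub, map_smul, hx]
      simp only [smul_sub, smul_smul]
      congr 2
      field_simp
    rw [h6, norm_smul, mul_comm]
    exact mul_le_mul_of_nonneg_right ht.le (norm_nonneg _)

/-- A11. -/
theorem claimBack : ClaimBack := by
  rintro ⟨Q, V, hQ, hb, ha⟩ h hh z hz hz1
  have hw : 0 < Real.sqrt h := Real.sqrt_pos.2 hh
  -- the two values of `z`
  have hzz : z ^ 2 + z + 1 = 0 := by
    have h1 : (z - 1) * (z ^ 2 + z + 1) = 0 := by linear_combination hz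
    exact (mul_eq_zero.1 h1).resolve_left (sub_ne_zero.2 hz1)
  have hre : z.re = -1 / 2 ∧ (z.im = Real.sqrt 3 / 2 ∨ z.im = -(Real.sqrt 3 / 2)) := by
    have h1 := congrArg Complex.re hzz
    have h2 := congrArg Complex.im hzz
    simp only [pow_two, Complex.add_re, Complex.mul_re, Complex.one_re, Complex.zero_re,
      Complex.add_im, Complex.mul_im, Complex.one_im, Complex.zero_im] at h1 h2
    have h3 : z.im ≠ 0 := by
      intro h0
      rw [h0] at h1
      nlinarith [sq_nonneg (z.re + 1 / 2)]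
    have h4 : z.re = -1 / 2 := by
      have : z.im * (2 * z.re + 1) = 0 := by linarith
      rcases mul_eq_zero.1 this with h5 | h5
      · exact absurd h5 h3
      · linarith
    refine ⟨h4, ?_⟩
    rw [h4] at h1
    have h5 : (Real.sqrt 3) ^ 2 = 3 := Real.sq_sqrt (by norm_num)
    have h6 : (z.im - Real.sqrt 3 / 2) * (z.im + Real.sqrt 3 / 2) = 0 := by nlinarith
    rcases mul_eq_zero.1 h6 with h7 | h7
    · left; linarith
    · right; linarith
  -- square roots
  have hs1 : Real.sqrt (2 * h / 3) = Real.sqrt h * Real.sqrt (2 / 3) := by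
    rw [← Real.sqrt_mul hh.le]; congr 1; ring
  have hs2 : Real.sqrt (1 / 6) = Real.sqrt (2 / 3) / 2 := by
    rw [Real.sqrt_eq_iff_mul_self_eq (by norm_num) (by positivity)]
    have := Real.mul_self_sqrt (show (0 : ℝ) ≤ 2 / 3 by norm_num)
    nlinarith
  have hs3 : Real.sqrt (1 / 2) = Real.sqrt (2 / 3) * (Real.sqrt 3 / 2) := by
    rw [Real.sqrt_eq_iff_mul_self_eq (by norm_num) (by positivity)]
    have h1 := Real.mul_self_sqrt (show (0 : ℝ) ≤ 2 / 3 by norm_num)
    have h2 := Real.mul_self_sqrt (show (0 : ℝ) ≤ 3 by norm_num)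
    have h3 : Real.sqrt (2 / 3) * (Real.sqrt 3 / 2) * (Real.sqrt (2 / 3) * (Real.sqrt 3 / 2))
        = (Real.sqrt (2 / 3) * Real.sqrt (2 / 3)) * (Real.sqrt 3 * Real.sqrt 3) / 4 := by ring
    rw [h3, h1, h2]
    norm_num
  obtain ⟨c, hc⟩ : ∃ c : ℂ ≃ₗᵢ[ℝ] ℂ, (∀ x : ℝ, c x = x) ∧
      c ⟨-1 / 2, Real.sqrt 3 / 2⟩ = z := by
    rcases hre with ⟨h1, h2 | h2⟩
    · refine ⟨LinearIsometryEquiv.refl ℝ ℂ, fun x => rfl, ?_⟩
      apply Complex.ext
      · simp [h1]
      · simp [h2]
    · refine ⟨Complex.conjLIE, fun x => by simp, ?_⟩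
      apply Complex.ext
      · simp [h1]
      · simp [h2]
  obtain ⟨hcr, hcz⟩ := hc
  have hcz2 : z = -(1 / 2 : ℝ) + (Real.sqrt 3 / 2 : ℝ) * c Complex.I := by
    have h1 : (⟨-1 / 2, Real.sqrt 3 / 2⟩ : ℂ) =
        ((-1 / 2 : ℝ) : ℂ) + (Real.sqrt 3 / 2 : ℝ) • Complex.I := by
      apply Complex.ext <;> simp
    rw [← hcz, h1, map_add, map_smul, hcr, Complex.real_smul]
    push_cast
    ring
  obtain ⟨x, hx1, hx2, hx3⟩ := back_aux c hw hQ hb ha
  refine ⟨x, hx1, fun i => ?_, fun i => ?_⟩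
  · refine (hx2 i).congr_left fun t => ?_
    congr 1
    rw [Complex.real_smul]
    congr 1
    have hI : aX.2 = ((-(Real.sqrt (1 / 6)) : ℝ) : ℂ) + (Real.sqrt (1 / 2)) • Complex.I := by
      apply Complex.ext
      · change -(Real.sqrt (1 / 6)) = _
        rw [Complex.add_re, Complex.ofReal_re, Complex.real_smul, Complex.re_ofReal_mul,
          Complex.I_re, mul_zero, add_zero]
      · change Real.sqrt (1 / 2) = _
        rw [Complex.add_im, Complex.ofReal_im, Complex.real_smul, Complex.im_ofReal_mul,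
          Complex.I_im, mul_one, zero_add]
    have hR : aX.1 = ((Real.sqrt (2 / 3) : ℝ) : ℂ) := by
      apply Complex.ext <;> simp [aX]
    have h2 : c aX.2 = (Real.sqrt (2 / 3) : ℂ) * z := by
      rw [hI, map_add, map_smul, hcr, Complex.real_smul, hs2, hs3, hcz2]
      push_cast
      ring
    have h1 : c aX.1 = (Real.sqrt (2 / 3) : ℂ) := by rw [hR, hcr]
    fin_cases i
    · simp only [backP, aShape, Fin.reduceFinMk, Matrix.cons_val, h1, hs1, Complex.real_smul]
      push_cast
      rfl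
    · simp only [backP, aShape, Fin.reduceFinMk, Matrix.cons_val, h2, hs1, Complex.real_smul]
      push_cast
      ring
    · simp only [backP, aShape, Fin.reduceFinMk, Matrix.cons_val, map_neg, map_add, h1, h2, hs1,
        Complex.real_smul]
      push_cast
      linear_combination (-(Real.sqrt h : ℂ) * Real.sqrt (2 / 3)) * hzz
  · refine (hx3 i).congr_left fun t => ?_
    congr 1
    rw [Complex.real_smul]
    congr 1
    have hc1 := hcr 1
    rw [Complex.ofReal_one] at hc1
    fin_cases i <;> simp [backP, bShape, bX, hc1]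

end Pool.Agent.Work.MP_76acb6_an
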