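import Pool.Agent.Work.MP_76acb6_an.Claims

/-!
# B2: complex packed polynomials
-/

set_option autoImplicit false

namespace Pool.Agent.Work.MP_76acb6_an

open Set Filter Topology
open scoped ComplexConjugate

theorem claimCK_re_bound (z : ℂ) (b : ℝ) (h1 : |z.re| ≤ b) (h2 : |z.im| ≤ b) :
    ‖z‖ ≤ 3 / 2 * b := by
  have hb : 0 ≤ b := le_trans (abs_nonneg _) h1
  have h3 : ‖z‖ ^ 2 ≤ (3 / 2 * b) ^ 2 := by
    rw [← Complex.normSq_eq_norm_sq, Complex.normSq_apply]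
    have e1 : z.re * z.re ≤ b * b := by
      have := mul_self_le_mul_self (abs_nonneg _) h1
      rwa [abs_mul_abs_self] at this
    have e2 : z.im * z.im ≤ b * b := by
      have := mul_self_le_mul_self (abs_nonneg _) h2
      rwa [abs_mul_abs_self] at this
    nlinarith
  exact le_of_sq_le_sq h3 (by positivity)
where
  le_of_sq_le_sq {a b : ℝ} (h : a ^ 2 ≤ b ^ 2) (hb : 0 ≤ b) : a ≤ b := by
    exact le_of_not_gt fun hlt => by nlinarith

theorem claimCK_congr (k : PK) (f g : ℝ → ℝ) (h : Rep k f) (e : ∀ x, f x = g x) : Rep k g := by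
  have : f = g := funext e
  rwa [← this]

theorem claimCK (h : ClaimPK) : ClaimCK where
  ofCP c := ⟨h.ofPo c.re, h.ofPo c.im⟩
  add k l f g hk hl := ⟨h.add _ _ _ _ hk.1 hl.1, h.add _ _ _ _ hk.2 hl.2⟩
  sub k l f g hk hl := ⟨h.sub _ _ _ _ hk.1 hl.1, h.sub _ _ _ _ hk.2 hl.2⟩
  scN k f c hk := ⟨claimCK_congr _ _ _ (h.scN _ _ c hk.1) fun x => by simp,
    claimCK_congr _ _ _ (h.scN _ _ c hk.2) fun x => by simp⟩
  scZ k f c hk := ⟨claimCK_congr _ _ _ (h.scZ _ _ c hk.1) fun x => by simp,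
    claimCK_congr _ _ _ (h.scZ _ _ c hk.2) fun x => by simp⟩
  rm p k f g hp hk := ⟨claimCK_congr _ _ _ (h.mul _ _ _ _ hp hk.1) fun x => by simp,
    claimCK_congr _ _ _ (h.mul _ _ _ _ hp hk.2) fun x => by simp⟩
  nsq k f hk := claimCK_congr _ _ _
    (h.add _ _ _ _ (h.mul _ _ _ _ hk.1 hk.1) (h.mul _ _ _ _ hk.2 hk.2)) fun x => by
      rw [← Complex.normSq_eq_norm_sq, Complex.normSq_apply]
  sq k f hk := ⟨claimCK_congr _ _ _
    (h.sub _ _ _ _ (h.mul _ _ _ _ hk.1 hk.1) (h.mul _ _ _ _ hk.2 hk.2)) fun x => by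
      simp only [pow_two, Complex.mul_re],
    claimCK_congr _ _ _ (h.scN _ _ 2 (h.mul _ _ _ _ hk.1 hk.2)) fun x => by
      simp only [pow_two, Complex.mul_im]; push_cast; ring⟩
  mulConj k l f g hk hl := ⟨claimCK_congr _ _ _
    (h.add _ _ _ _ (h.mul _ _ _ _ hk.1 hl.1) (h.mul _ _ _ _ hk.2 hl.2)) fun x => by
      rw [Complex.mul_re, Complex.conj_re, Complex.conj_im]; ring,
    claimCK_congr _ _ _
    (h.sub _ _ _ _ (h.mul _ _ _ _ hk.2 hl.1) (h.mul _ _ _ _ hk.1 hl.2)) fun x => by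
      rw [Complex.mul_im, Complex.conj_re, Complex.conj_im]; ring⟩
  rip k l f g hk hl := claimCK_congr _ _ _
    (h.add _ _ _ _ (h.mul _ _ _ _ hk.1 hl.1) (h.mul _ _ _ _ hk.2 hl.2)) fun x => by
      rw [Complex.mul_re, Complex.conj_re, Complex.conj_im]; ring
  bdc k f s b hk hb x hx := by
    unfold CK.bdc at hb
    rw [Bool.and_eq_true] at hb
    have e1 := h.bd _ _ s b hk.1 hb.1 x hx
    have e2 := h.bd _ _ s b hk.2 hb.2 x hx
    have e3 : f x / 2 ^ s = f x / ((2 ^ s : ℝ) : ℂ) := by push_cast; rfl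
    refine claimCK_re_bound _ _ ?_ ?_
    · rw [e3, Complex.div_ofReal_re]; exact e1
    · rw [e3, Complex.div_ofReal_im]; exact e2

end Pool.Agent.Work.MP_76acb6_an
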