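import Pool.Agent.Work.MP_76acb6_an.Claims

/-!
# B6: residual of the linearised solutions
-/

set_option autoImplicit false

namespace Pool.Agent.Work.MP_76acb6_an

open Set Filter Topology
open scoped ComplexConjugate

/-! ### lists -/

theorem colsF_sum {α : Type} (z : α) (g : α → ℕ) :
    ∀ (n : ℕ) (l : List α), l.length = n → ∑ j : Fin n, g (l.getD j z) = (l.map g).sum
  | 0, l, h => by
      have : l = [] := List.length_eq_zero_iff.1 h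
      subst this
      simp
  | n + 1, [], h => by simp at h
  | n + 1, a :: t, h => by
      have h' : t.length = n := by simpa using h
      rw [Fin.sum_univ_succ, List.map_cons, List.sum_cons, ← colsF_sum z g n t h']
      simp

theorem colsF_chk (hn ae : ℕ) (al1 al2 al3 : PK) (be1 be2 be3 : CK) :
    ∀ (ws : List Col) (ls : List ℕ) (Ds : List (ℕ × ℕ × ℕ)),
      chkCols hn ae al1 al2 al3 be1 be2 be3 ws ls Ds = true →
      ls.length = ws.length ∧ Ds.length = ws.length ∧ ∀ j < ws.length,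
        chkCol hn ae al1 al2 al3 be1 be2 be3 (WK.ofCol (ws.getD j Col.zero))
          (WK.ofCol (ws.getD j Col.zero).der.der) (ls.getD j 0) (Ds.getD j (0, 0, 0)) = true
  | [], [], [], _ => by simp
  | [], [], _ :: _, h => by simp [chkCols] at h
  | [], _ :: _, _, h => by simp [chkCols] at h
  | _ :: _, [], _, h => by simp [chkCols] at h
  | _ :: _, _ :: _, [], h => by simp [chkCols] at h
  | w :: ws, l :: ls, D :: Ds, h => by
      rw [chkCols, Bool.and_eq_true] at h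
      obtain ⟨h1, h2, h3⟩ := colsF_chk hn ae al1 al2 al3 be1 be2 be3 ws ls Ds h.2
      refine ⟨by simp [h1], by simp [h2], ?_⟩
      intro j hj
      cases j with
      | zero => simpa using h.1
      | succ j =>
        have hj' : j < ws.length := by simpa using hj
        simpa using h3 j hj'

/-! ### one column -/

/-- The unscaled values. -/
noncomputable def colsFraw (c : Col) (x : ℝ) : X :=
  (⟨evR c.a.re x, evR c.a.im x⟩, ⟨evR c.b.re x, evR c.b.im x⟩)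

theorem colsF_raw_f (c : Col) (s : ℕ) (x : ℝ) :
    (colsFraw c x).1 = 2 ^ s * (c.f s x).1 ∧ (colsFraw c x).2 = 2 ^ s * (c.f s x).2 := by
  have h2 : ((2 : ℝ) ^ s) ≠ 0 := pow_ne_zero _ two_ne_zero
  have hc : ((2 : ℂ) ^ s) = (((2 : ℝ) ^ s : ℝ) : ℂ) := by push_cast; rfl
  constructor
  · apply Complex.ext
    · simp only [colsFraw, Col.f, CP.f, hc, Complex.re_ofReal_mul]
      field_simp
    · simp only [colsFraw, Col.f, CP.f, hc, Complex.im_ofReal_mul]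
      field_simp
  · apply Complex.ext
    · simp only [colsFraw, Col.f, CP.f, hc, Complex.re_ofReal_mul]
      field_simp
    · simp only [colsFraw, Col.f, CP.f, hc, Complex.im_ofReal_mul]
      field_simp

theorem colsF_congr {k : CK} {f g : ℝ → ℂ} (h : RepC k f) (hfg : ∀ x, f x = g x) : RepC k g := by
  have : f = g := funext hfg
  rwa [this] at h

theorem colsF_ofCol (h2 : ClaimCK) (c : Col) :
    RepC (WK.ofCol c).a (fun x => (colsFraw c x).1) ∧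
      RepC (WK.ofCol c).b (fun x => (colsFraw c x).2) :=
  ⟨h2.ofCP c.a, h2.ofCP c.b⟩

theorem colsF_d (h2 : ClaimCK) (c : Col) :
    RepC (WK.ofCol c).d1 (fun x => dd 0 (colsFraw c x)) ∧
    RepC (WK.ofCol c).d2 (fun x => dd 1 (colsFraw c x)) ∧
    RepC (WK.ofCol c).d3 (fun x => dd 2 (colsFraw c x)) := by
  obtain ⟨ha, hb⟩ := colsF_ofCol h2 c
  refine ⟨h2.sub _ _ _ _ ha hb, ?_, ?_⟩
  · refine colsF_congr (h2.add _ _ _ _ ha (h2.scN _ _ 2 hb)) fun x => ?_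
    simp [dd]
  · refine colsF_congr (h2.scZ _ _ (-1) (h2.add _ _ _ _ (h2.scN _ _ 2 ha) hb)) fun x => ?_
    simp [dd]

theorem colsF_dd_raw (c : Col) (s : ℕ) (x : ℝ) (i : Fin 3) :
    dd i (colsFraw c x) = 2 ^ s * dd i (c.f s x) := by
  obtain ⟨h1, h2⟩ := colsF_raw_f c s x
  fin_cases i
  · show (colsFraw c x).1 - (colsFraw c x).2 = 2 ^ s * ((c.f s x).1 - (c.f s x).2)
    rw [h1, h2]; ring
  · show (colsFraw c x).1 + 2 * (colsFraw c x).2 = 2 ^ s * ((c.f s x).1 + 2 * (c.f s x).2)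
    rw [h1, h2]; ring
  · show -(2 * (colsFraw c x).1 + (colsFraw c x).2) =
      2 ^ s * (-(2 * (c.f s x).1 + (c.f s x).2))
    rw [h1, h2]; ring

/-- `al * e + be * conj e` with the scale removed. -/
noncomputable def colsFG (P : PairD) (ae : ℕ) (x : ℝ) (e : ℂ) : ℂ :=
  ((evR P.al x / 2 ^ ae : ℝ) : ℂ) * e + P.be.f ae x * conj e

theorem colsF_G (h1 : ClaimPK) (h2 : ClaimCK) (P : PairD) {k : CK} {e : ℝ → ℂ} (he : RepC k e)
    (ae : ℕ) (e' : ℝ → ℂ) (hee : ∀ x, e x = 2 ^ 24 * e' x) :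
    RepC (dpp (PK.ofPo P.al) (CK.ofCP P.be) k)
      (fun x => 2 ^ (ae + 24) * colsFG P ae x (e' x)) := by
  have h3 := h2.rm _ _ _ _ (h1.ofPo P.al) he
  have h4 := h2.mulConj _ _ _ _ (h2.ofCP P.be) he
  refine colsF_congr (h2.add _ _ _ _ h3 h4) fun x => ?_
  have hp : ((2 : ℝ) ^ ae) ≠ 0 := pow_ne_zero _ two_ne_zero
  have hpc : ((2 : ℂ) ^ ae) ≠ 0 := pow_ne_zero _ two_ne_zero
  have hbe : (⟨evR P.be.re x, evR P.be.im x⟩ : ℂ) = 2 ^ ae * P.be.f ae x := by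
    have hc : ((2 : ℂ) ^ ae) = (((2 : ℝ) ^ ae : ℝ) : ℂ) := by push_cast; rfl
    apply Complex.ext
    · simp only [CP.f, hc, Complex.re_ofReal_mul]
      field_simp
    · simp only [CP.f, hc, Complex.im_ofReal_mul]
      field_simp
  have h24 : conj ((2 : ℂ) ^ 24) = 2 ^ 24 := by
    rw [map_pow]
    have : conj (2 : ℂ) = 2 := by
      have := Complex.conj_ofReal 2
      simpa using this
    rw [this]
  rw [hee x, hbe, map_mul, h24, colsFG]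
  push_cast
  rw [pow_add]
  field_simp

theorem colsF_col (h1 : ClaimPK) (h2 : ClaimCK) (hn ae : ℕ) (p1 p2 p3 : PairD) (w : Col) (l : ℕ)
    (D : ℕ × ℕ × ℕ) (x : ℝ) (hx : x ∈ Icc (-1 : ℝ) 1)
    (hchk : chkCol hn ae (PK.ofPo p1.al) (PK.ofPo p2.al) (PK.ofPo p3.al) (CK.ofCP p1.be)
      (CK.ofCP p2.be) (CK.ofCP p3.be) (WK.ofCol w) (WK.ofCol w.der.der) l D = true) :
    ‖(2 ^ (2 * hn) / 64 : ℂ) * (colsFG p3 ae x (dd 2 (w.f 24 x)) -
      colsFG p1 ae x (dd 0 (w.f 24 x))) - (w.der.der.f 24 x).1‖ ≤ 3 / 2 * ((l : ℝ) / 2 ^ 60) ∧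
    ‖(2 ^ (2 * hn) / 64 : ℂ) * (colsFG p1 ae x (dd 0 (w.f 24 x)) -
      colsFG p2 ae x (dd 1 (w.f 24 x))) - (w.der.der.f 24 x).2‖ ≤ 3 / 2 * ((l : ℝ) / 2 ^ 60) ∧
    ‖dd 0 (w.f 24 x)‖ ≤ (D.1 : ℝ) / 2 ^ 60 ∧ ‖dd 1 (w.f 24 x)‖ ≤ (D.2.1 : ℝ) / 2 ^ 60 ∧
    ‖dd 2 (w.f 24 x)‖ ≤ (D.2.2 : ℝ) / 2 ^ 60 := by
  unfold chkCol at hchk
  simp only [Bool.and_eq_true] at hchk
  obtain ⟨⟨⟨⟨c1, c2⟩, c3⟩, c4⟩, c5⟩ := hchk
  obtain ⟨e1, e2, e3⟩ := colsF_d h2 w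
  obtain ⟨wa, wb⟩ := colsF_ofCol h2 w.der.der
  have g1 := colsF_G h1 h2 p1 e1 ae (fun x => dd 0 (w.f 24 x)) (fun x => colsF_dd_raw w 24 x 0)
  have g2 := colsF_G h1 h2 p2 e2 ae (fun x => dd 1 (w.f 24 x)) (fun x => colsF_dd_raw w 24 x 1)
  have g3 := colsF_G h1 h2 p3 e3 ae (fun x => dd 2 (w.f 24 x)) (fun x => colsF_dd_raw w 24 x 2)
  have b1 := h2.bdc _ _ _ _ (h2.sub _ _ _ _ (h2.scN _ _ (2 ^ (2 * hn)) (h2.sub _ _ _ _ g3 g1))
    (h2.scN _ _ (2 ^ (6 + ae)) wa)) c1 x hx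
  have b2 := h2.bdc _ _ _ _ (h2.sub _ _ _ _ (h2.scN _ _ (2 ^ (2 * hn)) (h2.sub _ _ _ _ g1 g2))
    (h2.scN _ _ (2 ^ (6 + ae)) wb)) c2 x hx
  have hsq : ∀ (k : CK) (i : Fin 3) (d : ℕ), RepC k (fun x => dd i (colsFraw w x)) →
      k.nsq.bdSq (2 * PWW) d = true → ‖dd i (w.f 24 x)‖ ≤ (d : ℝ) / 2 ^ 60 := by
    intro k i d hk hd
    have h5 := h1.bdSq _ _ _ _ (h2.nsq _ _ hk) hd x hx
    rw [colsF_dd_raw w 24 x i, norm_mul, mul_pow, norm_pow, Complex.norm_ofNat] at h5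
    have h6 : ((2 : ℝ) ^ 24) ^ 2 * ‖dd i (w.f 24 x)‖ ^ 2 / 2 ^ (2 * PWW) =
        ‖dd i (w.f 24 x)‖ ^ 2 := by
      have : ((2 : ℝ) ^ 24) ^ 2 = 2 ^ (2 * PWW) := by norm_num [PWW]
      rw [this]
      field_simp
    rw [h6, abs_of_nonneg (sq_nonneg _)] at h5
    exact (pow_le_pow_iff_left₀ (norm_nonneg _) (by positivity) two_ne_zero).1 h5
  refine ⟨?_, ?_, hsq _ 0 _ e1 c3, hsq _ 1 _ e2 c4, hsq _ 2 _ e3 c5⟩
  · refine le_trans (le_of_eq (congrArg _ ?_)) b1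
    rw [(colsF_raw_f w.der.der 24 x).1]
    push_cast
    have e : ((2 : ℂ) ^ (ae + PWW + 6)) = 2 ^ ae * 2 ^ 24 * 64 := by
      rw [pow_add, pow_add]; norm_num [PWW]
    rw [e]
    simp only [pow_add]
    have hae : ((2 : ℂ) ^ ae) ≠ 0 := pow_ne_zero _ two_ne_zero
    field_simp
    ring
  · refine le_trans (le_of_eq (congrArg _ ?_)) b2
    rw [(colsF_raw_f w.der.der 24 x).2]
    push_cast
    have e : ((2 : ℂ) ^ (ae + PWW + 6)) = 2 ^ ae * 2 ^ 24 * 64 := by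
      rw [pow_add, pow_add]; norm_num [PWW]
    rw [e]
    simp only [pow_add]
    have hae : ((2 : ℂ) ^ ae) ≠ 0 := pow_ne_zero _ two_ne_zero
    field_simp
    ring

/-! ### linearity -/

theorem colsF_dphi_add (z w w' : ℂ) : dphi z (w + w') = dphi z w + dphi z w' := by
  unfold dphi
  rw [map_add]
  ring

theorem colsF_dphi_smul (z : ℂ) (c : ℝ) (w : ℂ) : dphi z (c • w) = c • dphi z w := by
  unfold dphi
  rw [Complex.real_smul, Complex.real_smul, map_mul, Complex.conj_ofReal]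
  ring

noncomputable def colsFdd (i : Fin 3) : X →ₗ[ℝ] ℂ where
  toFun := dd i
  map_add' a b := by
    fin_cases i
    · show (a.1 + b.1) - (a.2 + b.2) = (a.1 - a.2) + (b.1 - b.2)
      ring
    · show (a.1 + b.1) + 2 * (a.2 + b.2) = (a.1 + 2 * a.2) + (b.1 + 2 * b.2)
      ring
    · show -(2 * (a.1 + b.1) + (a.2 + b.2)) = -(2 * a.1 + a.2) + -(2 * b.1 + b.2)
      ring
  map_smul' c a := by
    fin_cases i
    · show (c • a.1) - (c • a.2) = c • (a.1 - a.2)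
      simp only [Complex.real_smul]; ring
    · show (c • a.1) + 2 * (c • a.2) = c • (a.1 + 2 * a.2)
      simp only [Complex.real_smul]; ring
    · show -(2 * (c • a.1) + (c • a.2)) = c • (-(2 * a.1 + a.2))
      simp only [Complex.real_smul]; ring

noncomputable def colsFD (q : X) : X →ₗ[ℝ] X where
  toFun := DFo q
  map_add' a b := by
    have h : ∀ i, dd i (a + b) = dd i a + dd i b := fun i => (colsFdd i).map_add a b
    refine Prod.ext ?_ ?_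
    · show -dphi (dd 0 q) (dd 0 (a + b)) + dphi (dd 2 q) (dd 2 (a + b)) =
        (-dphi (dd 0 q) (dd 0 a) + dphi (dd 2 q) (dd 2 a)) +
        (-dphi (dd 0 q) (dd 0 b) + dphi (dd 2 q) (dd 2 b))
      rw [h, h, colsF_dphi_add, colsF_dphi_add]; ring
    · show dphi (dd 0 q) (dd 0 (a + b)) - dphi (dd 1 q) (dd 1 (a + b)) =
        (dphi (dd 0 q) (dd 0 a) - dphi (dd 1 q) (dd 1 a)) +
        (dphi (dd 0 q) (dd 0 b) - dphi (dd 1 q) (dd 1 b))
      rw [h, h, colsF_dphi_add, colsF_dphi_add]; ring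
  map_smul' c a := by
    have h : ∀ i, dd i (c • a) = c • dd i a := fun i => (colsFdd i).map_smul c a
    refine Prod.ext ?_ ?_
    · show -dphi (dd 0 q) (dd 0 (c • a)) + dphi (dd 2 q) (dd 2 (c • a)) =
        c • (-dphi (dd 0 q) (dd 0 a) + dphi (dd 2 q) (dd 2 a))
      rw [h, h, colsF_dphi_smul, colsF_dphi_smul, smul_add, smul_neg]
    · show dphi (dd 0 q) (dd 0 (c • a)) - dphi (dd 1 q) (dd 1 (c • a)) =
        c • (dphi (dd 0 q) (dd 0 a) - dphi (dd 1 q) (dd 1 a))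
      rw [h, h, colsF_dphi_smul, colsF_dphi_smul, smul_sub]

theorem colsF_comb {Y : Type} [NormedAddCommGroup Y] [NormedSpace ℝ Y] (f : X →ₗ[ℝ] Y)
    (W : Fin 8 → X) (ζ : Z) : f (comb W ζ) = ∑ j, ζ j • f (W j) := by
  unfold comb
  rw [map_sum]
  exact Finset.sum_congr rfl fun j _ => f.map_smul _ _

theorem colsF_sum_bound {Y : Type} [NormedAddCommGroup Y] [NormedSpace ℝ Y] (v : Fin 8 → Y)
    (B : Fin 8 → ℝ) (ζ : Z) (h : ∀ j, ‖v j‖ ≤ B j) : ‖∑ j, ζ j • v j‖ ≤ (∑ j, B j) * ‖ζ‖ := by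
  refine le_trans (norm_sum_le _ _) ?_
  rw [Finset.sum_mul]
  refine Finset.sum_le_sum fun j _ => ?_
  rw [norm_smul, mul_comm]
  exact mul_le_mul (h j) (norm_le_pi_norm ζ j) (norm_nonneg _) (le_trans (norm_nonneg _) (h j))

theorem colsF_G_dphi (P : PairD) (ae : ℕ) (x : ℝ) (z e : ℂ) {EA EB d : ℝ}
    (ha : |evR P.al x / 2 ^ ae - (-(1 / 2) * ‖z‖⁻¹ ^ 3)| ≤ EA)
    (hb : ‖P.be.f ae x - ((-(3 / 2) * ‖z‖⁻¹ ^ 5 : ℝ) : ℂ) * z ^ 2‖ ≤ EB) (he : ‖e‖ ≤ d) :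
    ‖dphi z e - colsFG P ae x e‖ ≤ (EA + EB) * d := by
  have h1 : dphi z e - colsFG P ae x e =
      -((((evR P.al x / 2 ^ ae - (-(1 / 2) * ‖z‖⁻¹ ^ 3) : ℝ) : ℂ)) * e +
        (P.be.f ae x - ((-(3 / 2) * ‖z‖⁻¹ ^ 5 : ℝ) : ℂ) * z ^ 2) * conj e) := by
    unfold dphi colsFG
    push_cast
    ring
  have hA : 0 ≤ EA := le_trans (abs_nonneg _) ha
  have hB : 0 ≤ EB := le_trans (norm_nonneg _) hb
  rw [h1, norm_neg]
  refine le_trans (norm_add_le _ _) ?_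
  rw [norm_mul, norm_mul, Complex.norm_real, Real.norm_eq_abs, RCLike.norm_conj]
  calc _ ≤ EA * d + EB * d := add_le_add (mul_le_mul ha he (norm_nonneg _) hA)
        (mul_le_mul hb he (norm_nonneg _) hB)
    _ = _ := by ring

theorem colsF_comp (H : ℝ) (hH : 0 ≤ H) {A B A' B' w : ℂ} {r a b : ℝ}
    (h0 : ‖(H : ℂ) * (A' - B') - w‖ ≤ r) (hA : ‖A - A'‖ ≤ a) (hB : ‖B - B'‖ ≤ b) :
    ‖(H : ℂ) * (A - B) - w‖ ≤ r + H * (a + b) := by
  have h1 : (H : ℂ) * (A - B) - w = ((H : ℂ) * (A' - B') - w) + (H : ℂ) * ((A - A') - (B - B')) := by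
    ring
  rw [h1]
  refine le_trans (norm_add_le _ _) (add_le_add h0 ?_)
  rw [norm_mul, Complex.norm_real, Real.norm_eq_abs, abs_of_nonneg hH]
  exact mul_le_mul_of_nonneg_left (le_trans (norm_sub_le _ _) (add_le_add hA hB)) hH

theorem colsF_N60 (n : ℕ) : ((N60 n : ℚ) : ℝ) = (n : ℝ) / 2 ^ 60 := by
  unfold N60
  push_cast
  rfl

theorem claimCols (h1 : ClaimPK) (h2 : ClaimCK) (h3 : ClaimU) : ClaimCols := by
  intro O om p hG x hx ζ
  have hU := h3 O om p hG x hx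
  obtain ⟨_, hS, hC⟩ := hG
  have hw8 : p.w.length = 8 := by
    unfold PD.shape at hS
    simp only [Bool.and_eq_true, decide_eq_true_eq] at hS
    exact hS.1.1.1.1.1
  have hcols : chkCols p.hn p.ae (PK.ofPo p.p1.al) (PK.ofPo p.p2.al) (PK.ofPo p.p3.al)
      (CK.ofCP p.p1.be) (CK.ofCP p.p2.be) (CK.ofCP p.p3.be) p.w p.lj p.Dj = true := by
    unfold chk at hC
    simp only [Bool.and_eq_true] at hC
    exact hC.1.1.2
  obtain ⟨hl, hD, hcol⟩ := colsF_chk _ _ _ _ _ _ _ _ _ _ _ hcols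
  rw [hw8] at hl hD
  have hj : ∀ j : Fin 8, (j : ℕ) < p.w.length := fun j => by rw [hw8]; exact j.2
  have hc := fun j : Fin 8 => colsF_col h1 h2 p.hn p.ae p.p1 p.p2 p.p3 _ _ _ x hx (hcol j (hj j))
  -- sums of the lists
  have sl : ∑ j : Fin 8, ((p.lj.getD j 0 : ℕ) : ℝ) = ((p.lj.sum : ℕ) : ℝ) := by
    have := colsF_sum 0 (fun a : ℕ => a) 8 p.lj hl
    rw [List.map_id'] at this
    rw [← this]; push_cast; rfl
  have sD1 : ∑ j : Fin 8, (((p.Dj.getD j (0, 0, 0)).1 : ℕ) : ℝ) =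
      (((p.Dj.map fun d => d.1).sum : ℕ) : ℝ) := by
    rw [← colsF_sum (0, 0, 0) (fun d : ℕ × ℕ × ℕ => d.1) 8 p.Dj hD]; push_cast; rfl
  have sD2 : ∑ j : Fin 8, (((p.Dj.getD j (0, 0, 0)).2.1 : ℕ) : ℝ) =
      (((p.Dj.map fun d => d.2.1).sum : ℕ) : ℝ) := by
    rw [← colsF_sum (0, 0, 0) (fun d : ℕ × ℕ × ℕ => d.2.1) 8 p.Dj hD]; push_cast; rfl
  have sD3 : ∑ j : Fin 8, (((p.Dj.getD j (0, 0, 0)).2.2 : ℕ) : ℝ) =
      (((p.Dj.map fun d => d.2.2).sum : ℕ) : ℝ) := by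
    rw [← colsF_sum (0, 0, 0) (fun d : ℕ × ℕ × ℕ => d.2.2) 8 p.Dj hD]; push_cast; rfl
  have hH : ((p.hQ : ℝ)) ^ 2 = 2 ^ (2 * p.hn) / 64 := by
    unfold PD.hQ
    push_cast
    rw [div_pow, ← pow_mul, mul_comm p.hn 2]
    norm_num
  have hHc : (2 ^ (2 * p.hn) / 64 : ℂ) = (((p.hQ : ℝ) ^ 2 : ℝ) : ℂ) := by
    rw [hH]; push_cast; rfl
  have hH0 : 0 ≤ (p.hQ : ℝ) ^ 2 := sq_nonneg _
  set H : ℝ := (p.hQ : ℝ) ^ 2 with hHdef
  obtain ⟨u0, u1, u2⟩ : _ ∧ _ ∧ _ := ⟨hU 0, hU 1, hU 2⟩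
  have nonnegE : 0 ≤ ((p.p1.EA : ℝ) + (p.p1.EB : ℝ)) ∧ 0 ≤ ((p.p2.EA : ℝ) + (p.p2.EB : ℝ)) ∧
      0 ≤ ((p.p3.EA : ℝ) + (p.p3.EB : ℝ)) :=
    ⟨add_nonneg (le_trans (abs_nonneg _) u0.2.2.2.1) (le_trans (norm_nonneg _) u0.2.2.2.2),
      add_nonneg (le_trans (abs_nonneg _) u1.2.2.2.1) (le_trans (norm_nonneg _) u1.2.2.2.2),
      add_nonneg (le_trans (abs_nonneg _) u2.2.2.2.1) (le_trans (norm_nonneg _) u2.2.2.2.2)⟩
  -- bound for one column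
  have hone : ∀ j : Fin 8, ‖H • DFo (p.qf x) (p.Wf x j) - p.W2f x j‖ ≤
      3 / 2 * (((p.lj.getD j 0 : ℕ) : ℝ) / 2 ^ 60) +
      H * (((p.p1.EA : ℝ) + (p.p1.EB : ℝ)) * ((((p.Dj.getD j (0, 0, 0)).1 : ℕ) : ℝ) / 2 ^ 60) +
        ((p.p2.EA : ℝ) + (p.p2.EB : ℝ)) * ((((p.Dj.getD j (0, 0, 0)).2.1 : ℕ) : ℝ) / 2 ^ 60) +
        ((p.p3.EA : ℝ) + (p.p3.EB : ℝ)) * ((((p.Dj.getD j (0, 0, 0)).2.2 : ℕ) : ℝ) / 2 ^ 60)) := by
    intro j
    obtain ⟨r1, r2, d0, d1, d2⟩ := hc j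
    rw [hHc] at r1 r2
    have a0 := colsF_G_dphi p.p1 p.ae x _ _ (EA := (p.p1.EA : ℝ)) (EB := (p.p1.EB : ℝ))
      u0.2.2.2.1 u0.2.2.2.2 d0
    have a1 := colsF_G_dphi p.p2 p.ae x _ _ (EA := (p.p2.EA : ℝ)) (EB := (p.p2.EB : ℝ))
      u1.2.2.2.1 u1.2.2.2.2 d1
    have a2 := colsF_G_dphi p.p3 p.ae x _ _ (EA := (p.p3.EA : ℝ)) (EB := (p.p3.EB : ℝ))
      u2.2.2.2.1 u2.2.2.2.2 d2
    have c1 := colsF_comp H hH0 r1 a2 a0
    have c2 := colsF_comp H hH0 r2 a0 a1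
    have q0 : 0 ≤ ((p.p1.EA : ℝ) + (p.p1.EB : ℝ)) *
        ((((p.Dj.getD j (0, 0, 0)).1 : ℕ) : ℝ) / 2 ^ 60) := mul_nonneg nonnegE.1 (by positivity)
    have q1 : 0 ≤ ((p.p2.EA : ℝ) + (p.p2.EB : ℝ)) *
        ((((p.Dj.getD j (0, 0, 0)).2.1 : ℕ) : ℝ) / 2 ^ 60) :=
      mul_nonneg nonnegE.2.1 (by positivity)
    have q2 : 0 ≤ ((p.p3.EA : ℝ) + (p.p3.EB : ℝ)) *
        ((((p.Dj.getD j (0, 0, 0)).2.2 : ℕ) : ℝ) / 2 ^ 60) :=
      mul_nonneg nonnegE.2.2 (by positivity)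
    rw [Prod.norm_def]
    refine max_le ?_ ?_
    · have e1 : (H • DFo (p.qf x) (p.Wf x j) - p.W2f x j).1 =
          (H : ℂ) * (dphi (dd 2 (p.qf x)) (dd 2 ((p.w.getD j Col.zero).f 24 x)) -
            dphi (dd 0 (p.qf x)) (dd 0 ((p.w.getD j Col.zero).f 24 x))) -
          ((p.w.getD j Col.zero).der.der.f 24 x).1 := by
        show H • (-dphi (dd 0 (p.qf x)) (dd 0 ((p.w.getD j Col.zero).f 24 x)) +
          dphi (dd 2 (p.qf x)) (dd 2 ((p.w.getD j Col.zero).f 24 x))) - _ = _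
        rw [Complex.real_smul]
        congr 1
        ring
      rw [e1]
      refine le_trans c1 ?_
      refine add_le_add le_rfl (mul_le_mul_of_nonneg_left ?_ hH0)
      linarith [q0, q1, q2]
    · have e1 : (H • DFo (p.qf x) (p.Wf x j) - p.W2f x j).2 =
          (H : ℂ) * (dphi (dd 0 (p.qf x)) (dd 0 ((p.w.getD j Col.zero).f 24 x)) -
            dphi (dd 1 (p.qf x)) (dd 1 ((p.w.getD j Col.zero).f 24 x))) -
          ((p.w.getD j Col.zero).der.der.f 24 x).2 := by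
        show H • (dphi (dd 0 (p.qf x)) (dd 0 ((p.w.getD j Col.zero).f 24 x)) -
          dphi (dd 1 (p.qf x)) (dd 1 ((p.w.getD j Col.zero).f 24 x))) - _ = _
        rw [Complex.real_smul]
        rfl
      rw [e1]
      refine le_trans c2 ?_
      refine add_le_add le_rfl (mul_le_mul_of_nonneg_left ?_ hH0)
      linarith [q0, q1, q2]
  constructor
  · have e1 : H • DFo (p.qf x) (comb (p.Wf x) ζ) - comb (p.W2f x) ζ =
        ∑ j, ζ j • (H • DFo (p.qf x) (p.Wf x j) - p.W2f x j) := by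
      have := colsF_comb (colsFD (p.qf x)) (p.Wf x) ζ
      have e2 : DFo (p.qf x) (comb (p.Wf x) ζ) = ∑ j, ζ j • DFo (p.qf x) (p.Wf x j) := this
      rw [e2, Finset.smul_sum]
      unfold comb
      rw [← Finset.sum_sub_distrib]
      refine Finset.sum_congr rfl fun j _ => ?_
      rw [smul_sub, smul_comm]
    rw [e1]
    refine le_trans (colsF_sum_bound _ _ ζ hone) (le_of_eq ?_)
    congr 1
    unfold PD.lamQ PD.D1 PD.D2 PD.D3
    simp only [Rat.cast_add, Rat.cast_mul, Rat.cast_div, Rat.cast_pow, Rat.cast_ofNat, colsF_N60]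
    rw [← sl, ← sD1, ← sD2, ← sD3]
    simp only [Finset.sum_add_distrib, ← Finset.mul_sum, ← Finset.sum_div]
    rfl
  · have key : ∀ (i : Fin 3) (d : Fin 8 → ℝ) (Q : ℝ),
        (∀ j, ‖dd i (p.Wf x j)‖ ≤ d j / 2 ^ 60) → (∑ j, d j) / 2 ^ 60 = Q →
        ‖dd i (comb (p.Wf x) ζ)‖ ≤ Q * ‖ζ‖ := by
      intro i d Q hd hQ
      have e2 : dd i (comb (p.Wf x) ζ) = ∑ j, ζ j • dd i (p.Wf x j) :=
        colsF_comb (colsFdd i) (p.Wf x) ζ
      rw [e2]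
      refine le_trans (colsF_sum_bound _ _ ζ hd) (le_of_eq ?_)
      rw [← hQ, Finset.sum_div]
    intro i
    fin_cases i
    · refine key 0 (fun j => (((p.Dj.getD j (0, 0, 0)).1 : ℕ) : ℝ)) _
        (fun j => (hc j).2.2.1) ?_
      rw [sD1]
      show _ = ((p.D1 : ℚ) : ℝ)
      unfold PD.D1
      rw [colsF_N60]
    · refine key 1 (fun j => (((p.Dj.getD j (0, 0, 0)).2.1 : ℕ) : ℝ)) _
        (fun j => (hc j).2.2.2.1) ?_
      rw [sD2]
      show _ = ((p.D2 : ℚ) : ℝ)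
      unfold PD.D2
      rw [colsF_N60]
    · refine key 2 (fun j => (((p.Dj.getD j (0, 0, 0)).2.2 : ℕ) : ℝ)) _
        (fun j => (hc j).2.2.2.2) ?_
      rw [sD3]
      show _ = ((p.D3 : ℚ) : ℝ)
      unfold PD.D3
      rw [colsF_N60]

end Pool.Agent.Work.MP_76acb6_an
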