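import Pool.Agent.Work.MP_76acb6_an.Claims

/-!
# Derivatives of the piece functions
-/

set_option autoImplicit false

namespace Pool.Agent.Work.MP_76acb6_an

open Set Filter Topology MeasureTheory
open scoped ComplexConjugate

lemma derF_pderAux (t : Po) : ∀ (k : ℤ) (x : ℝ),
    evR (pderAux k t) x = k * evR t x + x * evR (pder t) x := by
  induction t with
  | nil => intro k x; simp [pderAux, evR, pder]
  | cons c t ih =>
    intro k x
    have h1 := ih (k + 1) x
    have h2 := ih 1 x
    simp only [pderAux, pder, evR]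
    rw [h1, h2]
    push_cast
    ring

lemma derF_evR (l : Po) (x : ℝ) : HasDerivAt (evR l) (evR (pder l) x) x := by
  induction l generalizing x with
  | nil =>
    have h : evR [] = fun _ => (0 : ℝ) := rfl
    rw [h]
    exact hasDerivAt_const x 0
  | cons c t ih =>
    have h1 : HasDerivAt (fun x : ℝ => (c : ℝ) + x * evR t x)
        (1 * evR t x + x * evR (pder t) x) x := ((hasDerivAt_id x).mul (ih x)).const_add _
    have h2 : evR (pder (c :: t)) x = 1 * evR t x + x * evR (pder t) x := by
      have := derF_pderAux t 1 x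
      rw [Int.cast_one] at this
      exact this
    rw [h2]
    exact h1

lemma derF_evR_cont (l : Po) : Continuous (evR l) :=
  continuous_iff_continuousAt.mpr fun x => (derF_evR l x).continuousAt

lemma derF_CP (a : CP) (s : ℕ) (x : ℝ) : HasDerivAt (a.f s) (a.der.f s x) x := by
  have hf : ∀ b : CP, ∀ y : ℝ, b.f s y = ((evR b.re y / 2 ^ s : ℝ) : ℂ) +
      ((evR b.im y / 2 ^ s : ℝ) : ℂ) * Complex.I := by
    intro b y
    unfold CP.f
    rw [Complex.mk_eq_add_mul_I]
  have h1 : HasDerivAt (fun y : ℝ => ((evR a.re y / 2 ^ s : ℝ) : ℂ))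
      ((evR (pder a.re) x / 2 ^ s : ℝ) : ℂ) x := ((derF_evR a.re x).div_const _).ofReal_comp
  have h2 : HasDerivAt (fun y : ℝ => ((evR a.im y / 2 ^ s : ℝ) : ℂ))
      ((evR (pder a.im) x / 2 ^ s : ℝ) : ℂ) x := ((derF_evR a.im x).div_const _).ofReal_comp
  have h3 := h1.add (h2.mul_const Complex.I)
  rw [hf a.der x]
  have h4 : a.f s = fun y => ((evR a.re y / 2 ^ s : ℝ) : ℂ) +
      ((evR a.im y / 2 ^ s : ℝ) : ℂ) * Complex.I := funext (hf a)
  rw [h4]
  exact h3

lemma derF_Col (c : Col) (s : ℕ) (x : ℝ) : HasDerivAt (c.f s) (c.der.f s x) x :=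
  (derF_CP c.a s x).prodMk (derF_CP c.b s x)

theorem claimDer : ClaimDer :=
  ⟨derF_Col, fun c s => continuous_iff_continuousAt.mpr fun x => (derF_Col c s x).continuousAt⟩

end Pool.Agent.Work.MP_76acb6_an
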