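import Pool.Agent.Work.MP_76acb6_an.Claims

/-!
# Conservation of energy
-/

set_option autoImplicit false

namespace Pool.Agent.Work.MP_76acb6_an

open Set Filter Topology MeasureTheory
open scoped ComplexConjugate

/-- Derivative of `1/|d|`. -/
theorem energy_inv {d : ℝ → ℂ} {d' : ℂ} {s : Set ℝ} {t : ℝ} (hd : HasDerivWithinAt d d' s t)
    (h0 : d t ≠ 0) :
    HasDerivWithinAt (fun r => ‖d r‖⁻¹) (-(phi (d t) * conj d').re) s t := by
  have hn : 0 < ‖d t‖ := norm_pos_iff.2 h0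
  have h1 : HasDerivWithinAt (fun r => ‖d r‖ ^ 2) (2 * inner ℝ (d t) d') s t := hd.norm_sq
  have h2 := h1.sqrt (by positivity)
  have h3 : (fun r => Real.sqrt (‖d r‖ ^ 2)) = fun r => ‖d r‖ := by
    funext r
    exact Real.sqrt_sq (norm_nonneg _)
  rw [h3, Real.sqrt_sq (norm_nonneg _)] at h2
  have h4 := h2.inv hn.ne'
  refine h4.congr_deriv ?_
  have h5 : (phi (d t) * conj d').re = inner ℝ (d t) d' / ‖d t‖ ^ 3 := by
    rw [phi, div_mul_eq_mul_div, Complex.div_ofReal_re, Complex.inner]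
    simp only [Complex.mul_re, Complex.conj_re, Complex.conj_im]
    ring
  rw [h5]
  field_simp

/-- Derivative of the kinetic energy. -/
theorem energy_ke {V : ℝ → X} {A : X} {s : Set ℝ} {t : ℝ} (hV : HasDerivWithinAt V A s t) :
    HasDerivWithinAt (fun r => Ke (V r))
      ((A.1 * conj (2 * (V t).1 + (V t).2)).re + (A.2 * conj ((V t).1 + 2 * (V t).2)).re) s t := by
  have h1 : HasDerivWithinAt (fun r => (V r).1) A.1 s t := hV.fst
  have h2 : HasDerivWithinAt (fun r => (V r).2) A.2 s t := hV.snd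
  have h3 : HasDerivWithinAt (fun r => ‖(V r).1‖ ^ 2) (2 * inner ℝ (V t).1 A.1) s t := h1.norm_sq
  have h4 : HasDerivWithinAt (fun r => ‖(V r).2‖ ^ 2) (2 * inner ℝ (V t).2 A.2) s t := h2.norm_sq
  have h5 : HasDerivWithinAt (fun r => inner ℝ (V r).1 (V r).2)
      (inner ℝ (V t).1 A.2 + inner ℝ A.1 (V t).2) s t := h1.inner ℝ h2
  have h6 : (fun r => Ke (V r)) =
      fun r => ‖(V r).1‖ ^ 2 + ‖(V r).2‖ ^ 2 + inner ℝ (V r).1 (V r).2 := by
    funext r
    rw [Ke, Complex.inner]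
    simp only [Complex.mul_re, Complex.conj_re, Complex.conj_im]
    ring
  rw [h6]
  refine ((h3.add h4).add h5).congr_deriv ?_
  simp only [Complex.inner, Complex.mul_re, Complex.conj_re, Complex.conj_im, Complex.add_re,
    Complex.add_im, Complex.mul_im, Complex.re_ofNat, Complex.im_ofNat]
  ring

/-- The energy has derivative zero. -/
theorem energy_deriv {Q V : ℝ → X} {s : Set ℝ} {t : ℝ} (hne : ∀ m, dd m (Q t) ≠ 0)
    (hQ : HasDerivWithinAt Q (V t) s t) (hV : HasDerivWithinAt V (Fo (Q t)) s t) :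
    HasDerivWithinAt (fun r => Ke (V r) - Ue (Q r)) 0 s t := by
  have h1 : HasDerivWithinAt (fun r => (Q r).1) (V t).1 s t := hQ.fst
  have h2 : HasDerivWithinAt (fun r => (Q r).2) (V t).2 s t := hQ.snd
  have hk := energy_ke hV
  have g0 : HasDerivWithinAt (fun r => dd 0 (Q r)) (dd 0 (V t)) s t := h1.sub h2
  have g1 : HasDerivWithinAt (fun r => dd 1 (Q r)) (dd 1 (V t)) s t := h1.add (h2.const_mul 2)
  have g2 : HasDerivWithinAt (fun r => dd 2 (Q r)) (dd 2 (V t)) s t :=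
    ((h1.const_mul 2).add h2).neg
  have e0 := energy_inv g0 (hne 0)
  have e1 := energy_inv g1 (hne 1)
  have e2 := energy_inv g2 (hne 2)
  have hU : (fun r => Ke (V r) - Ue (Q r)) =
      fun r => Ke (V r) - (‖dd 0 (Q r)‖⁻¹ + ‖dd 1 (Q r)‖⁻¹ + ‖dd 2 (Q r)‖⁻¹) := by
    funext r
    rw [Ue, Fin.sum_univ_three]
  rw [hU]
  refine (hk.sub ((e0.add e1).add e2)).congr_deriv ?_
  simp only [Fo, dd, Complex.mul_re, Complex.conj_re, Complex.conj_im, Complex.add_re,
    Complex.add_im, Complex.mul_im, Complex.re_ofNat, Complex.im_ofNat, Complex.sub_re,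
    Complex.sub_im, Complex.neg_re, Complex.neg_im]
  ring

/-- The energy is constant along a flow. -/
theorem energy_flow (T : ℝ) (y y' : X × X) (h : Flow T y y') :
    Ke y.2 - Ue y.1 = Ke y'.2 - Ue y'.1 := by
  obtain ⟨hT, Q, V, hQ0, hV0, hQT, hVT, hQV⟩ := h
  have hd : ∀ t ∈ Icc 0 T, HasDerivWithinAt (fun r => Ke (V r) - Ue (Q r)) 0 (Icc 0 T) t :=
    fun t ht => energy_deriv (hQV t ht).1 (hQV t ht).2.1 (hQV t ht).2.2
  have hc : ContinuousOn (fun r => Ke (V r) - Ue (Q r)) (Icc 0 T) :=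
    fun t ht => (hd t ht).continuousWithinAt
  have h1 := constant_of_has_deriv_right_zero hc (fun t ht => by
    have h2 := hd t ⟨ht.1, ht.2.le⟩
    apply h2.mono_of_mem_nhdsWithin
    exact mem_of_superset (Icc_mem_nhdsGE ht.2) (Icc_subset_Icc_left ht.1)) T ⟨hT, le_rfl⟩
  simp only [hQ0, hV0, hQT, hVT] at h1
  exact h1.symm

/-- A7. Energy. -/
theorem claimEnergy : ClaimEnergy := by
  refine ⟨energy_flow, ?_⟩
  rintro V0 y hV ⟨Q, V, hQ0, hV0, hQV, hlV, hlQ⟩
  have hconst : ∀ t, 0 ≤ t → Ke y.2 - Ue y.1 = Ke (V t) - Ue (Q t) := by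
    intro t ht
    apply energy_flow t y (Q t, V t)
    refine ⟨ht, Q, V, hQ0, hV0, rfl, rfl, fun s hs => ⟨(hQV s hs.1).1, ?_, ?_⟩⟩
    · exact (hQV s hs.1).2.1.mono Icc_subset_Ici_self
    · exact (hQV s hs.1).2.2.mono Icc_subset_Ici_self
  have hKc : Continuous Ke := by
    unfold Ke
    have := Complex.continuous_conj
    fun_prop
  have hdc : ∀ m, Continuous (dd m) := by
    intro m
    fin_cases m
    · show Continuous fun q : X => q.1 - q.2
      fun_prop
    · show Continuous fun q : X => q.1 + 2 * q.2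
      fun_prop
    · show Continuous fun q : X => -(2 * q.1 + q.2)
      fun_prop
  have hdl : ∀ (m : Fin 3) (c : ℝ) (q : X), dd m (c • q) = (c : ℂ) * dd m q := by
    intro m c q
    fin_cases m
    · show (c • q).1 - (c • q).2 = c * (q.1 - q.2)
      simp only [Prod.smul_fst, Prod.smul_snd, Complex.real_smul]
      ring
    · show (c • q).1 + 2 * (c • q).2 = c * (q.1 + 2 * q.2)
      simp only [Prod.smul_fst, Prod.smul_snd, Complex.real_smul]
      ring
    · show -(2 * (c • q).1 + (c • q).2) = c * -(2 * q.1 + q.2)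
      simp only [Prod.smul_fst, Prod.smul_snd, Complex.real_smul]
      ring
  have hK : Tendsto (fun t => Ke (V t)) atTop (𝓝 (Ke V0)) := (hKc.tendsto V0).comp hlV
  have hm : ∀ m, Tendsto (fun t => ‖dd m (Q t)‖⁻¹) atTop (𝓝 0) := by
    intro m
    have h1 : Tendsto (fun t : ℝ => dd m (t⁻¹ • Q t)) atTop (𝓝 (dd m V0)) :=
      ((hdc m).tendsto V0).comp hlQ
    have h2 : Tendsto (fun t : ℝ => ‖dd m (t⁻¹ • Q t)‖⁻¹) atTop (𝓝 ‖dd m V0‖⁻¹) :=
      h1.norm.inv₀ (norm_ne_zero_iff.2 (hV m))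
    have h3 := (tendsto_inv_atTop_zero (𝕜 := ℝ)).mul h2
    rw [zero_mul] at h3
    refine h3.congr' ?_
    filter_upwards [eventually_gt_atTop 0] with t ht
    rw [hdl, norm_mul, Complex.norm_real, Real.norm_eq_abs, abs_of_pos (inv_pos.2 ht), mul_inv,
      inv_inv, ← mul_assoc, inv_mul_cancel₀ ht.ne', one_mul]
  have hU : Tendsto (fun t => Ue (Q t)) atTop (𝓝 0) := by
    have h1 : (fun t => Ue (Q t)) = fun t => ∑ m, ‖dd m (Q t)‖⁻¹ := rfl
    rw [h1]
    have h2 := tendsto_finsetSum (Finset.univ : Finset (Fin 3)) (fun m _ => hm m)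
    simpa using h2
  have h1 := hK.sub hU
  rw [sub_zero] at h1
  have h2 : Tendsto (fun _ : ℝ => Ke y.2 - Ue y.1) atTop (𝓝 (Ke V0)) := by
    refine h1.congr' ?_
    filter_upwards [eventually_ge_atTop 0] with t ht
    exact (hconst t ht).symm
  exact tendsto_nhds_unique tendsto_const_nhds h2

end Pool.Agent.Work.MP_76acb6_an
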