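import Pool.Agent.Work.MP_76acb6_an.Claims

/-!
# A2: the abstract fixed point lemma in `C([-1,1], Z)`
-/

set_option autoImplicit false

namespace Pool.Agent.Work.MP_76acb6_an

open Set Filter Topology MeasureTheory
open scoped ComplexConjugate

namespace FixA2

/-- The interval. -/
abbrev J : Type := Icc (-1 : ℝ) 1

/-- Extension to the line. -/
noncomputable def ex (θ : C(J, Z)) (x : ℝ) : Z := θ (projIcc (-1) 1 (by norm_num) x)

theorem ex_cont (θ : C(J, Z)) : Continuous (ex θ) := θ.continuous.comp continuous_projIcc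

theorem ex_of_mem (θ : C(J, Z)) {x : ℝ} (hx : x ∈ Icc (-1 : ℝ) 1) : ex θ x = θ ⟨x, hx⟩ := by
  unfold ex
  rw [projIcc_of_mem _ hx]

theorem ex_sub_le (θ θ' : C(J, Z)) (x : ℝ) : ‖ex θ x - ex θ' x‖ ≤ ‖θ - θ'‖ :=
  (θ - θ').norm_coe_le_norm (projIcc (-1) 1 (by norm_num) x)

theorem int_sub_le (θ θ' : C(J, Z)) {x : ℝ} (hx : x ∈ Icc (-1 : ℝ) 1) :
    ‖(∫ s in (-1 : ℝ)..x, ex θ s) - ∫ s in (-1 : ℝ)..x, ex θ' s‖ ≤ 2 * ‖θ - θ'‖ := by
  rw [← intervalIntegral.integral_sub ((ex_cont θ).intervalIntegrable _ _)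
    ((ex_cont θ').intervalIntegrable _ _)]
  have h1 : ‖∫ s in (-1 : ℝ)..x, (ex θ s - ex θ' s)‖ ≤ ‖θ - θ'‖ * |x - (-1)| :=
    intervalIntegral.norm_integral_le_of_norm_le_const (fun s _ => ex_sub_le θ θ' s)
  have h2 : |x - (-1)| ≤ 2 := by
    rw [abs_of_nonneg (by linarith [hx.1])]
    linarith [hx.2]
  calc ‖∫ s in (-1 : ℝ)..x, (ex θ s - ex θ' s)‖ ≤ ‖θ - θ'‖ * |x - (-1)| := h1
    _ ≤ ‖θ - θ'‖ * 2 := mul_le_mul_of_nonneg_left h2 (norm_nonneg _)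
    _ = 2 * ‖θ - θ'‖ := mul_comm _ _

variable {g C : ℝ → Z → Z} {G L e : ℝ}

/-- The map. -/
noncomputable def Tm (hg : ContinuousOn (fun p : ℝ × Z => g p.1 p.2) (Icc (-1) 1 ×ˢ univ))
    (hC : ContinuousOn (fun p : ℝ × Z => C p.1 p.2) (Icc (-1) 1 ×ˢ univ)) (ζ : Z)
    (θ : C(J, Z)) : C(J, Z) where
  toFun x := g x (ζ + ∫ s in (-1 : ℝ)..x, ex θ s) + C x (θ x)
  continuous_toFun := by
    have h0 : Continuous fun x : ℝ => ∫ s in (-1 : ℝ)..x, ex θ s :=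
      intervalIntegral.continuous_primitive (fun a b => (ex_cont θ).intervalIntegrable a b) _
    have h1 : Continuous fun x : J => ((x : ℝ), ζ + ∫ s in (-1 : ℝ)..x, ex θ s) :=
      continuous_subtype_val.prodMk (continuous_const.add (h0.comp continuous_subtype_val))
    have h2 : Continuous fun x : J => ((x : ℝ), θ x) := continuous_subtype_val.prodMk θ.continuous
    exact (hg.comp_continuous h1 (fun x => ⟨x.2, mem_univ _⟩)).add
      (hC.comp_continuous h2 (fun x => ⟨x.2, mem_univ _⟩))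

theorem Tm_sub (hg : ContinuousOn (fun p : ℝ × Z => g p.1 p.2) (Icc (-1) 1 ×ˢ univ))
    (hC : ContinuousOn (fun p : ℝ × Z => C p.1 p.2) (Icc (-1) 1 ×ˢ univ))
    (hL : 0 ≤ L) (he : 0 ≤ e)
    (hgl : ∀ x ∈ Icc (-1 : ℝ) 1, ∀ ζ ζ', ‖g x ζ - g x ζ'‖ ≤ L * ‖ζ - ζ'‖)
    (hCl : ∀ x ∈ Icc (-1 : ℝ) 1, ∀ y y', ‖C x y - C x y'‖ ≤ e * ‖y - y'‖)
    (ζ ζ' : Z) (θ θ' : C(J, Z)) :
    ‖Tm hg hC ζ θ - Tm hg hC ζ' θ'‖ ≤ L * (‖ζ - ζ'‖ + 2 * ‖θ - θ'‖) + e * ‖θ - θ'‖ := by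
  rw [ContinuousMap.norm_le _ (by positivity)]
  intro x
  show ‖(g x (ζ + ∫ s in (-1 : ℝ)..x, ex θ s) + C x (θ x)) -
    (g x (ζ' + ∫ s in (-1 : ℝ)..x, ex θ' s) + C x (θ' x))‖ ≤ _
  rw [add_sub_add_comm]
  refine (norm_add_le _ _).trans (add_le_add ?_ ?_)
  · refine (hgl x x.2 _ _).trans (mul_le_mul_of_nonneg_left ?_ hL)
    rw [add_sub_add_comm]
    exact (norm_add_le _ _).trans (add_le_add le_rfl (int_sub_le θ θ' x.2))
  · refine (hCl x x.2 _ _).trans (mul_le_mul_of_nonneg_left ?_ he)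
    exact (θ - θ').norm_coe_le_norm x

end FixA2

open FixA2 in
/-- A2. -/
theorem claimFix : ClaimFix := by
  intro g C G L e hg hC hG hL he hK hgG hgl hC0 hCl
  have hct : ∀ ζ, ContractingWith (⟨2 * L + e, by positivity⟩ : NNReal) (Tm hg hC ζ) := by
    intro ζ
    refine ⟨NNReal.coe_lt_coe.mp (by exact hK), ?_⟩
    · refine LipschitzWith.of_dist_le_mul fun θ θ' => ?_
      rw [dist_eq_norm, dist_eq_norm]
      have := Tm_sub hg hC hL he hgl hCl ζ ζ θ θ'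
      rw [sub_self, norm_zero, zero_add] at this
      show _ ≤ (2 * L + e) * _
      linarith
  choose th hth using fun ζ => (⟨(hct ζ).fixedPoint, (hct ζ).fixedPoint_isFixedPt⟩ :
    ∃ θ : C(J, Z), Tm hg hC ζ θ = θ)
  have he1 : e < 1 := by linarith
  refine ⟨fun ζ => ex (th ζ), fun ζ => ex_cont _, ?_, ?_, ?_⟩
  · intro ζ x hx
    have h1 := congrArg (fun θ : C(J, Z) => θ ⟨x, hx⟩) (hth ζ)
    show ex (th ζ) x = g x (ζ + ∫ s in (-1 : ℝ)..x, ex (th ζ) s) + C x (ex (th ζ) x)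
    rw [ex_of_mem _ hx]
    exact h1.symm
  · intro ζ x hx
    have h1 : g x (ζ + ∫ s in (-1 : ℝ)..x, ex (th ζ) s) + C x (th ζ ⟨x, hx⟩) = th ζ ⟨x, hx⟩ :=
      congrArg (fun θ : C(J, Z) => θ ⟨x, hx⟩) (hth ζ)
    show ‖ex (th ζ) x‖ ≤ _
    rw [ex_of_mem _ hx]
    have h2 : ‖C x (th ζ ⟨x, hx⟩)‖ ≤ e * ‖th ζ ⟨x, hx⟩‖ := by
      have := hCl x hx (th ζ ⟨x, hx⟩) 0
      rwa [hC0 x hx, sub_zero, sub_zero] at this
    have h3 : ‖th ζ ⟨x, hx⟩‖ ≤ G + e * ‖th ζ ⟨x, hx⟩‖ := by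
      conv_lhs => rw [← h1]
      exact (norm_add_le _ _).trans (add_le_add (hgG x hx _) h2)
    rw [le_div_iff₀ (by linarith)]
    linarith
  · intro ζ ζ' x hx
    show ‖ex (th ζ) x - ex (th ζ') x‖ ≤ _
    refine (ex_sub_le _ _ x).trans ?_
    have h1 := Tm_sub hg hC hL he hgl hCl ζ ζ' (th ζ) (th ζ')
    rw [hth, hth] at h1
    rw [div_mul_eq_mul_div, le_div_iff₀ (by linarith)]
    linarith

end Pool.Agent.Work.MP_76acb6_an
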