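import Pool.Agent.Work.MP_76acb6_an.Claims

/-!
# Gluing the two halves of the orbit
-/

set_option autoImplicit false

namespace Pool.Agent.Work.MP_76acb6_an

open Set Filter Topology MeasureTheory

/-- Gluing at `0` of functions on the two half lines, the one on the negative half line being
given by time reversal. -/
theorem glue_deriv {E : Type*} [NormedAddCommGroup E] [NormedSpace ℝ E]
    (f g f' g' : ℝ → E) (h0 : f 0 = g 0) (h0' : f' 0 = -g' 0)
    (hf : ∀ t, 0 ≤ t → HasDerivWithinAt f (f' t) (Ici 0) t)
    (hg : ∀ t, 0 ≤ t → HasDerivWithinAt g (g' t) (Ici 0) t) (t : ℝ) :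
    HasDerivAt (fun t => if 0 ≤ t then f t else g (-t))
      (if 0 ≤ t then f' t else -g' (-t)) t := by
  rw [← hasDerivWithinAt_univ]
  have hU : (univ : Set ℝ) = Ici 0 ∪ Iic 0 := by
    ext s
    simp only [mem_univ, mem_union, mem_Ici, mem_Iic, true_iff]
    exact le_total 0 s
  rw [hU]
  apply HasDerivWithinAt.union
  · by_cases h : 0 ≤ t
    · rw [if_pos h]
      apply (hf t h).congr
      · intro s hs
        have hs' : (0 : ℝ) ≤ s := hs
        simp only [if_pos hs']
      · simp only [if_pos h]
    · apply HasFDerivWithinAt.of_notMem_closure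
      rwa [isClosed_Ici.closure_eq]
  · by_cases h : t ≤ 0
    · have hval : ∀ s ∈ Iic (0 : ℝ), (if 0 ≤ s then f s else g (-s)) = g (-s) := by
        intro s hs
        by_cases h1 : 0 ≤ s
        · have h2 : s = 0 := le_antisymm hs h1
          rw [if_pos h1, h2, neg_zero, h0]
        · rw [if_neg h1]
      have hder : (if 0 ≤ t then f' t else -g' (-t)) = -g' (-t) := by
        by_cases h1 : 0 ≤ t
        · have h2 : t = 0 := le_antisymm h h1
          rw [if_pos h1, h2, neg_zero, h0']
        · rw [if_neg h1]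
      rw [hder]
      have h3 : HasDerivWithinAt (fun s => g (-s)) (-g' (-t)) (Iic 0) t := by
        have h4 := hg (-t) (by linarith)
        have h5 : HasDerivWithinAt (fun s : ℝ => -s) (-1) (Iic 0) t :=
          (hasDerivAt_neg t).hasDerivWithinAt
        have hm : MapsTo (fun s : ℝ => -s) (Iic 0) (Ici 0) := by
          intro s hs
          have hs' : s ≤ 0 := hs
          show (0 : ℝ) ≤ -s
          linarith
        have h6 := HasDerivWithinAt.scomp t h4 h5 hm
        rw [neg_one_smul] at h6
        exact h6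
      exact h3.congr hval (hval t h)
    · apply HasFDerivWithinAt.of_notMem_closure
      rwa [isClosed_Iic.closure_eq]

/-- A10. Gluing the two halves. -/
theorem claimGlue : ClaimGlue := by
  rintro a b y ⟨Q, V, hQ0, hV0, hQV, hlV, hlQ⟩ ⟨Q', V', hQ0', hV0', hQV', hlV', hlQ'⟩
  have hd1 : Q 0 = Q' 0 := by rw [hQ0, hQ0']
  have hd2 : V 0 = -V' 0 := by rw [hV0, hV0', neg_neg]
  refine ⟨fun t => if 0 ≤ t then Q t else Q' (-t), fun t => if 0 ≤ t then V t else -V' (-t),
    ?_, ?_, ?_⟩
  · intro t
    refine ⟨?_, ?_, ?_⟩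
    · intro m
      show dd m (if 0 ≤ t then Q t else Q' (-t)) ≠ 0
      by_cases h : 0 ≤ t
      · rw [if_pos h]
        exact (hQV t h).1 m
      · rw [if_neg h]
        exact (hQV' (-t) (by linarith)).1 m
    · exact glue_deriv Q Q' V V' hd1 hd2 (fun s hs => (hQV s hs).2.1)
        (fun s hs => (hQV' s hs).2.1) t
    · have h1 := glue_deriv V (fun s => -V' s) (fun s => Fo (Q s)) (fun s => -Fo (Q' s)) hd2
        (by simp only [neg_neg, hd1]) (fun s hs => (hQV s hs).2.2)
        (fun s hs => (hQV' s hs).2.2.neg) t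
      have e : Fo (if 0 ≤ t then Q t else Q' (-t)) =
          if 0 ≤ t then Fo (Q t) else -(-Fo (Q' (-t))) := by
        by_cases h : 0 ≤ t
        · rw [if_pos h, if_pos h]
        · rw [if_neg h, if_neg h, neg_neg]
      rw [← e] at h1
      exact h1
  · refine hlQ.congr' ?_
    filter_upwards [eventually_ge_atTop 0] with t ht
    simp only [if_pos ht]
  · refine (hlQ'.comp tendsto_neg_atBot_atTop).congr' ?_
    filter_upwards [eventually_lt_atBot 0] with t ht
    simp only [Function.comp, if_neg (not_le.2 ht), abs_of_neg ht]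

end Pool.Agent.Work.MP_76acb6_an
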