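import Pool.Agent.Work.MP_76acb6_an.Claims

/-!
# B9. The step of one piece of the certificate
-/

set_option autoImplicit false

namespace Pool.Agent.Work.MP_76acb6_an

open Set Filter Topology MeasureTheory
open scoped ComplexConjugate

theorem good_N60 (n : ℕ) : 0 ≤ N60 n := by
  unfold N60
  positivity

theorem good_MQ (p : PairD) : 0 ≤ p.MQ := by
  unfold PairD.MQ
  have h1 := good_N60 p.M
  have h2 := good_N60 p.e
  positivity

theorem good_EA (p : PairD) : 0 ≤ p.EA := by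
  unfold PairD.EA
  have h1 := good_N60 p.ea
  have h2 := good_N60 p.e
  have h3 := good_MQ p
  positivity

theorem good_EB (p : PairD) : 0 ≤ p.EB := by
  unfold PairD.EB
  have h1 := good_N60 p.eb
  have h2 := good_EA p
  have h3 := good_MQ p
  positivity

theorem good_hQ (p : PD) : 0 < p.hQ := by
  unfold PD.hQ
  positivity

theorem good_mQ (p : PD) : 0 ≤ p.mQ := by
  unfold PD.mQ
  have h0 := good_hQ p
  have h1 := good_N60 p.mr
  have h2 := good_N60 p.p1.e
  have h3 := good_N60 p.p2.e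
  have h4 := good_N60 p.p3.e
  have h5 := good_N60 p.p1.M
  have h6 := good_N60 p.p2.M
  have h7 := good_N60 p.p3.M
  positivity

theorem good_DQ (p : PD) (i : Fin 3) : 0 ≤ p.DQ i := by
  unfold PD.DQ PD.D1 PD.D2 PD.D3
  split <;> exact good_N60 _

theorem good_lamQ (p : PD) : 0 ≤ p.lamQ := by
  unfold PD.lamQ
  have h0 := good_hQ p
  have h1 := good_N60 p.lj.sum
  have a1 := good_EA p.p1
  have a2 := good_EA p.p2
  have a3 := good_EA p.p3
  have b1 := good_EB p.p1
  have b2 := good_EB p.p2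
  have b3 := good_EB p.p3
  have d1 : 0 ≤ p.D1 := good_DQ p 0
  have d2 : 0 ≤ p.D2 := good_DQ p 1
  have d3 : 0 ≤ p.D3 := good_DQ p 2
  positivity

theorem good_betaQ (p : PD) : 0 ≤ p.betaQ := by
  unfold PD.betaQ
  exact div_nonneg (good_N60 _) (good_hQ p).le

theorem good_epsQ (p : PD) : 0 ≤ p.epsQ := by
  unfold PD.epsQ
  have h0 := good_hQ p
  have h1 := good_N60 p.y
  positivity

theorem claimGood (h1 : ClaimPiece) (h2 : ClaimDer) (h3 : ClaimU) (h4 : ClaimRes)
    (h5 : ClaimCols) (h6 : ClaimB) (h7 : ClaimBA) : ClaimGood := by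
  intro O om p ρ hG hρ hnum
  have hyp : PieceHyp (OR O) (p.hQ : ℝ) p.qf p.q1f p.q2f p.Wf p.W1f p.W2f (p.mQ : ℝ)
      (p.lamQ : ℝ) (p.betaQ : ℝ) (p.epsQ : ℝ) (fun i => (p.DQ i : ℝ))
      (fun i => ((p.pr i).MQ : ℝ)) :=
    { hpos := by exact_mod_cast good_hQ p
      dq := fun x => h2.1 p.q 44 x
      dq1 := fun x => h2.1 p.q.der 44 x
      cq2 := h2.2 p.q.der.der 44
      dW := fun x j => h2.1 (p.w.getD j Col.zero) 24 x
      dW1 := fun x j => h2.1 (p.w.getD j Col.zero).der 24 x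
      cW2 := fun j => h2.2 (p.w.getD j Col.zero).der.der 24
      ne := fun x hx i => ⟨(h3 O om p hG x hx i).1, (h3 O om p hG x hx i).2.1⟩
      res := h4 O om p hG
      lin := fun x hx ζ => (h5 O om p hG x hx ζ).1
      pair := fun x hx ζ i => (h5 O om p hG x hx ζ).2 i
      bB := h6 O om p hG
      bA := h7 O om p hG }
  simp only [PD.numOK, Bool.and_eq_true, decide_eq_true_eq] at hnum
  obtain ⟨⟨⟨n1, n2⟩, n3⟩, n4⟩ := hnum
  have hmain := h1 (OR O) (p.hQ : ℝ) p.qf p.q1f p.q2f p.Wf p.W1f p.W2f (p.mQ : ℝ)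
      (p.lamQ : ℝ) (p.betaQ : ℝ) (p.epsQ : ℝ) (fun i => (p.DQ i : ℝ))
      (fun i => ((p.pr i).MQ : ℝ)) (ρ : ℝ) (p.lQ ρ : ℝ) hyp (by exact_mod_cast hρ)
      (by exact_mod_cast good_mQ p) (by exact_mod_cast good_lamQ p)
      (by exact_mod_cast good_betaQ p) (by exact_mod_cast good_epsQ p)
      (fun i => by exact_mod_cast good_DQ p i)
      (fun i => by
        fin_cases i
        · have : ((p.p1.MQ * p.D1 * ρ : ℚ) : ℝ) ≤ ((1 / 64 : ℚ) : ℝ) := by exact_mod_cast n1
          push_cast at this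
          exact this
        · have : ((p.p2.MQ * p.D2 * ρ : ℚ) : ℝ) ≤ ((1 / 64 : ℚ) : ℝ) := by exact_mod_cast n2
          push_cast at this
          exact this
        · have : ((p.p3.MQ * p.D3 * ρ : ℚ) : ℝ) ≤ ((1 / 64 : ℚ) : ℝ) := by exact_mod_cast n3
          push_cast at this
          exact this)
      (by
        rw [Fin.sum_univ_three]
        unfold PD.lQ
        push_cast
        exact le_refl _)
      (by
        have : ((2 * p.betaQ * p.lQ ρ + p.epsQ : ℚ) : ℝ) ≤ ((1 / 2 : ℚ) : ℝ) := by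
          exact_mod_cast n4
        push_cast at this
        exact this)
  unfold PD.S PD.F PD.EQ PD.LQ
  push_cast
  exact hmain

end Pool.Agent.Work.MP_76acb6_an
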