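import Pool.Agent.Work.MP_76acb6_an.Claims

/-!
# Matching of the pieces at the nodes
-/

set_option autoImplicit false

namespace Pool.Agent.Work.MP_76acb6_an

open Set Filter Topology MeasureTheory
open scoped ComplexConjugate

theorem match_ev1 (l : Po) : evR l 1 = (ev1 l : ℝ) := by
  induction l with
  | nil => simp [evR, ev1]
  | cons c t ih => simp [evR, ev1, ih]

theorem match_evm (l : Po) : evR l (-1) = (evm l : ℝ) := by
  induction l with
  | nil => simp [evR, evm]
  | cons c t ih =>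
    simp only [evR, evm, ih]
    push_cast
    ring

/-- Four integers as a pair of complex numbers. -/
noncomputable def matchVec (s : ℕ) (v : ℤ × ℤ × ℤ × ℤ) : X :=
  (⟨(v.1 : ℝ) / 2 ^ s, (v.2.1 : ℝ) / 2 ^ s⟩, ⟨(v.2.2.1 : ℝ) / 2 ^ s, (v.2.2.2 : ℝ) / 2 ^ s⟩)

theorem match_f1 (s : ℕ) (c : Col) : c.f s 1 = matchVec s c.v1 := by
  simp only [Col.f, CP.f, matchVec, Col.v1, match_ev1]

theorem match_fm (s : ℕ) (c : Col) : c.f s (-1) = matchVec s c.vm := by
  simp only [Col.f, CP.f, matchVec, Col.vm, match_evm]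

theorem match_hQ (p : PD) : (p.hQ : ℝ) = 2 ^ p.hn / 8 := by
  simp [PD.hQ]

theorem match_real {m m' σ a b : ℤ} {n n' s : ℕ} (hm : m = 2 ^ n) (hm' : m' = 2 ^ n')
    (h : m' * a = σ * m * b) :
    (2 ^ n / 8 : ℝ)⁻¹ * ((a : ℝ) / 2 ^ s) = (σ : ℝ) * ((2 ^ n' / 8 : ℝ)⁻¹ * ((b : ℝ) / 2 ^ s)) := by
  have h1 : ((m' * a : ℤ) : ℝ) = ((σ * m * b : ℤ) : ℝ) := by rw [h]
  rw [hm, hm'] at h1
  push_cast at h1
  field_simp
  linarith

theorem match_scl {σ : ℤ} {n n' : ℕ} (s : ℕ) {v v' : ℤ × ℤ × ℤ × ℤ}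
    (h : scl (2 ^ n') v = scl (σ * 2 ^ n) v') :
    (2 ^ n / 8 : ℝ)⁻¹ • matchVec s v = (σ : ℝ) • (2 ^ n' / 8 : ℝ)⁻¹ • matchVec s v' := by
  simp only [scl, Prod.mk.injEq] at h
  obtain ⟨h1, h2, h3, h4⟩ := h
  have g1 := match_real (s := s) rfl rfl h1
  have g2 := match_real (s := s) rfl rfl h2
  have g3 := match_real (s := s) rfl rfl h3
  have g4 := match_real (s := s) rfl rfl h4
  apply Prod.ext
  · apply Complex.ext
    · simp only [Prod.smul_fst, Complex.smul_re, smul_eq_mul, matchVec]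
      exact g1
    · simp only [Prod.smul_fst, Complex.smul_im, smul_eq_mul, matchVec]
      exact g2
  · apply Complex.ext
    · simp only [Prod.smul_snd, Complex.smul_re, smul_eq_mul, matchVec]
      exact g3
    · simp only [Prod.smul_snd, Complex.smul_im, smul_eq_mul, matchVec]
      exact g4

theorem match_node {h h' : ℝ} {σ : ℝ} {a a' a1 a1' : X} {w w' w1 w1' : Fin 8 → X}
    (ha : a = a') (ha1 : h⁻¹ • a1 = σ • h'⁻¹ • a1') (hw : ∀ j, w j = w' j)
    (hw1 : ∀ j, h⁻¹ • w1 j = σ • h'⁻¹ • w1' j) (ζ : Z) :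
    node h a a1 w w1 ζ = ((node h' a' a1' w' w1' ζ).1, σ • (node h' a' a1' w' w1' ζ).2) := by
  have e1 : comb w ζ = comb w' ζ := by
    unfold comb
    exact Finset.sum_congr rfl fun j _ => by rw [hw j]
  have e2 : h⁻¹ • comb w1 ζ = σ • h'⁻¹ • comb w1' ζ := by
    unfold comb
    rw [Finset.smul_sum, Finset.smul_sum, Finset.smul_sum]
    refine Finset.sum_congr rfl fun j _ => ?_
    rw [smul_comm, hw1 j, smul_comm (ζ j), smul_comm (ζ j)]
  unfold node
  simp only
  rw [ha, e1, smul_add, ha1, e2, smul_add, smul_add]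

/-- The columns at a node. -/
theorem match_cols {w w' : List Col} {f g : Col → ℤ × ℤ × ℤ × ℤ} (h0 : f Col.zero = g Col.zero)
    (h : w.map f = w'.map g) (j : ℕ) : f (w.getD j Col.zero) = g (w'.getD j Col.zero) := by
  have h1 := List.getD_map (n := j) w Col.zero f
  have h2 := List.getD_map (n := j) w' Col.zero g
  rw [← h1, ← h2, h, h0]

/-- B10. Matching of consecutive pieces, and of the first pieces of the two runs. -/
theorem claimMatch : ClaimMatch := by
  constructor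
  · intro p p' h
    simp only [nodeEq, Bool.and_eq_true, decide_eq_true_eq] at h
    obtain ⟨⟨⟨⟨⟨h1, h2⟩, -⟩, -⟩, h5⟩, h6⟩ := h
    funext ζ
    have key := match_node (h := (p.hQ : ℝ)) (h' := (p'.hQ : ℝ)) (σ := ((1 : ℤ) : ℝ))
      (a := p.qf 1) (a' := p'.qf (-1)) (a1 := p.q1f 1) (a1' := p'.q1f (-1))
      (w := p.Wf 1) (w' := p'.Wf (-1)) (w1 := p.W1f 1) (w1' := p'.W1f (-1))
      (by rw [PD.qf, PD.qf, match_f1, match_fm, h1])
      (by
        rw [PD.q1f, PD.q1f, match_f1, match_fm, match_hQ, match_hQ]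
        exact match_scl 44 (by rw [one_mul]; exact h2))
      (fun j => by
        simp only [PD.Wf]
        rw [match_f1, match_fm]
        exact congrArg (matchVec 24) (match_cols (f := Col.v1) (g := Col.vm) rfl h5 j))
      (fun j => by
        simp only [PD.W1f]
        rw [match_f1, match_fm, match_hQ, match_hQ]
        apply match_scl 24
        rw [one_mul]
        exact match_cols (f := fun c => scl (2 ^ p'.hn) c.der.v1)
          (g := fun c => scl (2 ^ p.hn) c.der.vm)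
          (by simp [scl, Col.zero, Col.der, CP.der, pder, Col.v1, ev1, Col.vm, evm]) h6 j)
      ζ
    rw [Int.cast_one, one_smul] at key
    exact key
  · intro p p' h ζ
    simp only [flipEq, Bool.and_eq_true, decide_eq_true_eq] at h
    obtain ⟨⟨⟨⟨⟨h1, h2⟩, -⟩, -⟩, h5⟩, h6⟩ := h
    have key := match_node (h := (p.hQ : ℝ)) (h' := (p'.hQ : ℝ)) (σ := ((-1 : ℤ) : ℝ))
      (a := p.qf (-1)) (a' := p'.qf (-1)) (a1 := p.q1f (-1)) (a1' := p'.q1f (-1))
      (w := p.Wf (-1)) (w' := p'.Wf (-1)) (w1 := p.W1f (-1)) (w1' := p'.W1f (-1))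
      (by rw [PD.qf, PD.qf, match_fm, match_fm, h1])
      (by
        rw [PD.q1f, PD.q1f, match_fm, match_fm, match_hQ, match_hQ]
        exact match_scl 44 (by rw [neg_one_mul]; exact h2))
      (fun j => by
        simp only [PD.Wf]
        rw [match_fm, match_fm]
        exact congrArg (matchVec 24) (match_cols rfl h5 j))
      (fun j => by
        simp only [PD.W1f]
        rw [match_fm, match_fm, match_hQ, match_hQ]
        apply match_scl 24
        rw [neg_one_mul]
        exact match_cols (f := fun c => scl (2 ^ p'.hn) c.der.vm)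
          (g := fun c => scl (-2 ^ p.hn) c.der.vm)
          (by simp [scl, Col.zero, Col.der, CP.der, pder, Col.vm, evm]) h6 j)
      ζ
    have e1 : p.S ζ = node (p.hQ : ℝ) (p.qf (-1)) (p.q1f (-1)) (p.Wf (-1)) (p.W1f (-1)) ζ := rfl
    have e2 : p'.S ζ = node (p'.hQ : ℝ) (p'.qf (-1)) (p'.q1f (-1)) (p'.Wf (-1)) (p'.W1f (-1)) ζ :=
      rfl
    rw [e1, key, ← e2, Int.cast_neg, Int.cast_one, neg_one_smul, neg_neg]

end Pool.Agent.Work.MP_76acb6_an
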