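import Pool.Agent.Work.MP_76acb6_an.Claims

/-!
A1: calculus of `phi z = z / |z|^3`.
-/

set_option autoImplicit false

namespace Pool.Agent.Work.MP_76acb6_an

open Set Filter Topology MeasureTheory
open scoped ComplexConjugate

theorem phiC_inner (z w : ℂ) : z * ((inner ℝ z w : ℝ) : ℂ) * 2 = z ^ 2 * conj w + ((‖z‖ ^ 2 : ℝ) : ℂ) * w := by
  rw [Complex.inner]
  have h1 : (((w * (conj z)).re : ℝ) : ℂ) * 2 = conj z * w + z * conj w := by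
    have := Complex.add_conj (w * conj z)
    rw [map_mul, Complex.conj_conj] at this
    push_cast at this
    linear_combination -this
  have h2 : ((‖z‖ ^ 2 : ℝ) : ℂ) = z * conj z := by
    rw [Complex.mul_conj, Complex.normSq_eq_norm_sq]
  rw [mul_assoc, h1, h2]
  ring

theorem phiC_deriv (z w : ℂ) (hz : z ≠ 0) : HasDerivAt (fun s : ℝ => phi (z + s • w)) (dphi z w) 0 := by
  have h1 : HasDerivAt (fun s : ℝ => z + s • w) w 0 := by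
    have := ((hasDerivAt_id (0 : ℝ)).smul_const w).const_add z
    simpa using this
  have h2 : HasDerivAt (fun s : ℝ => ‖z + s • w‖ ^ 2) (2 * inner ℝ z w) 0 := by
    have := h1.norm_sq
    simpa using this
  have hz0 : 0 < ‖z‖ := norm_pos_iff.2 hz
  have h3 : HasDerivAt (fun s : ℝ => ‖z + s • w‖ ^ 3) (3 * ‖z‖ * inner ℝ z w) 0 := by
    have h4 := h2.sqrt (by simp [hz])
    have h5 := h4.pow 3
    have e1 : (fun s : ℝ => ‖z + s • w‖ ^ 3) = (fun s : ℝ => √(‖z + s • w‖ ^ 2)) ^ 3 := by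
      funext s
      simp [Real.sqrt_sq (norm_nonneg _)]
    rw [e1]
    refine h5.congr_deriv ?_
    simp only [zero_smul, add_zero, Real.sqrt_sq (norm_nonneg z)]
    push_cast
    field_simp
  have h4 : HasDerivAt (fun s : ℝ => ((‖z + s • w‖ ^ 3 : ℝ) : ℂ))
      ((3 * ‖z‖ * inner ℝ z w : ℝ) : ℂ) 0 := h3.ofReal_comp
  have hne : ((‖z + (0 : ℝ) • w‖ ^ 3 : ℝ) : ℂ) ≠ 0 := by
    simp [hz]
  have h5 := h1.div h4 hne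
  unfold phi
  refine h5.congr_deriv ?_
  simp only [zero_smul, add_zero]
  have hzc : ((‖z‖ : ℝ) : ℂ) ≠ 0 := by simpa using hz
  unfold dphi
  have key := phiC_inner z w
  have e2 : z * ((3 * ‖z‖ * inner ℝ z w : ℝ) : ℂ) =
      3 / 2 * (‖z‖ : ℂ) * (z ^ 2 * conj w + (‖z‖ : ℂ) ^ 2 * w) := by
    have : (z ^ 2 * conj w + (‖z‖ : ℂ) ^ 2 * w) = z * ((inner ℝ z w : ℝ) : ℂ) * 2 := by
      rw [key]; push_cast; ring
    rw [this]; push_cast; ring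
  rw [e2]
  push_cast
  field_simp
  ring

theorem phiC_inv_sub {x y : ℂ} (hx : x ≠ 0) (hy : y ≠ 0) :
    |‖x‖⁻¹ - ‖y‖⁻¹| ≤ ‖x‖⁻¹ * ‖y‖⁻¹ * ‖x - y‖ := by
  have hx0 : 0 < ‖x‖ := norm_pos_iff.2 hx
  have hy0 : 0 < ‖y‖ := norm_pos_iff.2 hy
  have : ‖x‖⁻¹ - ‖y‖⁻¹ = ‖x‖⁻¹ * ‖y‖⁻¹ * (‖y‖ - ‖x‖) := by field_simp
  rw [this, abs_mul, abs_of_pos (by positivity), abs_sub_comm]
  exact mul_le_mul_of_nonneg_left (abs_norm_sub_norm_le x y) (by positivity)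

theorem phiC_cube_sub {x y : ℂ} (hx : x ≠ 0) (hy : y ≠ 0) {M : ℝ} (hxM : ‖x‖⁻¹ ≤ M)
    (hyM : ‖y‖⁻¹ ≤ M) : |‖x‖⁻¹ ^ 3 - ‖y‖⁻¹ ^ 3| ≤ 3 * M ^ 3 * ‖y‖⁻¹ * ‖x - y‖ := by
  have hx0 : 0 < ‖x‖⁻¹ := inv_pos.2 (norm_pos_iff.2 hx)
  have hy0 : 0 < ‖y‖⁻¹ := inv_pos.2 (norm_pos_iff.2 hy)
  have h1 := phiC_inv_sub hx hy
  set a := ‖x‖⁻¹
  set b := ‖y‖⁻¹
  have : a ^ 3 - b ^ 3 = (a - b) * (a ^ 2 + a * b + b ^ 2) := by ring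
  rw [this, abs_mul, abs_of_pos (a := a ^ 2 + a * b + b ^ 2) (by positivity)]
  have h2 : a ^ 2 + a * b + b ^ 2 ≤ 3 * M ^ 2 := by nlinarith
  calc |a - b| * (a ^ 2 + a * b + b ^ 2) ≤ (a * b * ‖x - y‖) * (3 * M ^ 2) := by gcongr
    _ ≤ (M * b * ‖x - y‖) * (3 * M ^ 2) := by gcongr
    _ = _ := by ring

theorem phiC_unit {x y : ℂ} (hx : x ≠ 0) (hy : y ≠ 0) {M : ℝ} (hxM : ‖x‖⁻¹ ≤ M)
    (hyM : ‖y‖⁻¹ ≤ M) :
    ‖((‖x‖⁻¹ : ℝ) : ℂ) * x - ((‖y‖⁻¹ : ℝ) : ℂ) * y‖ ≤ M * ‖x - y‖ := by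
  have hx0 : 0 < ‖x‖ := norm_pos_iff.2 hx
  have hy0 : 0 < ‖y‖ := norm_pos_iff.2 hy
  have hM : 0 < M := (inv_pos.2 hx0).trans_le hxM
  have h1 : ‖((‖x‖⁻¹ : ℝ) : ℂ) * x - ((‖y‖⁻¹ : ℝ) : ℂ) * y‖ ^ 2 =
      ‖x‖⁻¹ * ‖y‖⁻¹ * (‖x - y‖ ^ 2 - (‖x‖ - ‖y‖) ^ 2) := by
    have e1 : ((‖x‖⁻¹ : ℝ) : ℂ) * x = ‖x‖⁻¹ • x := by simp
    have e2 : ((‖y‖⁻¹ : ℝ) : ℂ) * y = ‖y‖⁻¹ • y := by simp
    rw [e1, e2, norm_sub_sq_real, norm_sub_sq_real, norm_smul, norm_smul, inner_smul_left,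
      inner_smul_right]
    simp only [norm_inv, norm_norm, conj_trivial]
    field_simp
    ring
  have h2 : ‖x‖⁻¹ * ‖y‖⁻¹ ≤ M * M :=
    mul_le_mul hxM hyM (by positivity) hM.le
  have h3 : ‖((‖x‖⁻¹ : ℝ) : ℂ) * x - ((‖y‖⁻¹ : ℝ) : ℂ) * y‖ ^ 2 ≤ (M * ‖x - y‖) ^ 2 := by
    rw [h1]
    have h4 : ‖x‖⁻¹ * ‖y‖⁻¹ * (‖x - y‖ ^ 2 - (‖x‖ - ‖y‖) ^ 2) ≤
        ‖x‖⁻¹ * ‖y‖⁻¹ * ‖x - y‖ ^ 2 := by
      have : 0 < ‖x‖⁻¹ * ‖y‖⁻¹ := by positivity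
      nlinarith [sq_nonneg (‖x‖ - ‖y‖)]
    refine h4.trans ?_
    rw [mul_pow, sq M]
    exact mul_le_mul_of_nonneg_right h2 (sq_nonneg _)
  exact le_of_sq_le_sq h3 (by positivity)

theorem phiC_norm_unit {x : ℂ} (hx : x ≠ 0) : ‖((‖x‖⁻¹ : ℝ) : ℂ) * x‖ = 1 := by
  have hx0 : 0 < ‖x‖ := norm_pos_iff.2 hx
  rw [norm_mul, Complex.norm_real, norm_inv, norm_norm, inv_mul_cancel₀ hx0.ne']

theorem phiC_dphi_sub {x y : ℂ} (hx : x ≠ 0) (hy : y ≠ 0) {M : ℝ} (hxM : ‖x‖⁻¹ ≤ M)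
    (hyM : ‖y‖⁻¹ ≤ M) (u : ℂ) : ‖dphi x u - dphi y u‖ ≤ 9 * M ^ 4 * ‖x - y‖ * ‖u‖ := by
  have hx0 : 0 < ‖x‖ := norm_pos_iff.2 hx
  have hy0 : 0 < ‖y‖ := norm_pos_iff.2 hy
  have hM : 0 < M := (inv_pos.2 hx0).trans_le hxM
  have h1 := phiC_cube_sub hx hy hxM hyM
  have h1' : |‖x‖⁻¹ ^ 3 - ‖y‖⁻¹ ^ 3| ≤ 3 * M ^ 4 * ‖x - y‖ := by
    refine h1.trans ?_
    calc 3 * M ^ 3 * ‖y‖⁻¹ * ‖x - y‖ ≤ 3 * M ^ 3 * M * ‖x - y‖ := by gcongr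
      _ = _ := by ring
  have h2 := phiC_unit hx hy hxM hyM
  have h3 := phiC_norm_unit hx
  have h4 := phiC_norm_unit hy
  set ex := ((‖x‖⁻¹ : ℝ) : ℂ) * x with hex
  set ey := ((‖y‖⁻¹ : ℝ) : ℂ) * y with hey
  have h5 : ‖ex ^ 2 - ey ^ 2‖ ≤ 2 * (M * ‖x - y‖) := by
    have : ex ^ 2 - ey ^ 2 = (ex + ey) * (ex - ey) := by ring
    rw [this, norm_mul]
    have h6 : ‖ex + ey‖ ≤ 2 := (norm_add_le _ _).trans (by rw [h3, h4]; norm_num)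
    exact mul_le_mul h6 h2 (norm_nonneg _) (by norm_num)
  have e1 : dphi x u - dphi y u =
      ((-(1 / 2) * (‖x‖⁻¹ ^ 3 - ‖y‖⁻¹ ^ 3) : ℝ) : ℂ) * u +
      ((-(3 / 2) * (‖x‖⁻¹ ^ 3 - ‖y‖⁻¹ ^ 3) : ℝ) : ℂ) * ex ^ 2 * conj u +
      ((-(3 / 2) * ‖y‖⁻¹ ^ 3 : ℝ) : ℂ) * (ex ^ 2 - ey ^ 2) * conj u := by
    unfold dphi
    rw [hex, hey]
    push_cast
    ring
  rw [e1]
  refine (norm_add_le _ _).trans ((add_le_add_left (norm_add_le _ _) _).trans ?_)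
  have n1 : ‖((-(1 / 2) * (‖x‖⁻¹ ^ 3 - ‖y‖⁻¹ ^ 3) : ℝ) : ℂ) * u‖ ≤
      1 / 2 * (3 * M ^ 4 * ‖x - y‖) * ‖u‖ := by
    rw [norm_mul, Complex.norm_real, Real.norm_eq_abs, abs_mul]
    have : |(-(1 / 2) : ℝ)| = 1 / 2 := by norm_num
    rw [this]
    gcongr
  have n2 : ‖((-(3 / 2) * (‖x‖⁻¹ ^ 3 - ‖y‖⁻¹ ^ 3) : ℝ) : ℂ) * ex ^ 2 * conj u‖ ≤
      3 / 2 * (3 * M ^ 4 * ‖x - y‖) * ‖u‖ := by
    rw [norm_mul, norm_mul, Complex.norm_real, Real.norm_eq_abs, abs_mul, norm_pow, h3,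
      RCLike.norm_conj]
    have : |(-(3 / 2) : ℝ)| = 3 / 2 := by norm_num
    rw [this, one_pow, mul_one]
    gcongr
  have n3 : ‖((-(3 / 2) * ‖y‖⁻¹ ^ 3 : ℝ) : ℂ) * (ex ^ 2 - ey ^ 2) * conj u‖ ≤
      3 / 2 * M ^ 3 * (2 * (M * ‖x - y‖)) * ‖u‖ := by
    rw [norm_mul, norm_mul, Complex.norm_real, Real.norm_eq_abs, abs_mul, RCLike.norm_conj]
    have h7 : |(-(3 / 2) : ℝ)| = 3 / 2 := by norm_num
    have h8 : |‖y‖⁻¹ ^ 3| = ‖y‖⁻¹ ^ 3 := abs_of_pos (by positivity)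
    rw [h7, h8]
    gcongr
  calc _ ≤ 1 / 2 * (3 * M ^ 4 * ‖x - y‖) * ‖u‖ + 3 / 2 * (3 * M ^ 4 * ‖x - y‖) * ‖u‖ +
        3 / 2 * M ^ 3 * (2 * (M * ‖x - y‖)) * ‖u‖ := by
        exact add_le_add (add_le_add n1 n2) n3
    _ = _ := by ring

theorem phiC_near {z v : ℂ} {M κ : ℝ} (hz : z ≠ 0) (hM : ‖z‖⁻¹ ≤ M) (hκ : M * κ ≤ 1 / 64)
    (hv : ‖v‖ ≤ κ) : z + v ≠ 0 ∧ ‖z + v‖⁻¹ ≤ 64 / 63 * M := by
  have hz0 : 0 < ‖z‖ := norm_pos_iff.2 hz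
  have hM0 : 0 < M := (inv_pos.2 hz0).trans_le hM
  have h1 : 1 ≤ M * ‖z‖ := by
    have := mul_le_mul_of_nonneg_right hM hz0.le
    rwa [inv_mul_cancel₀ hz0.ne'] at this
  have h2 : ‖z‖ - ‖v‖ ≤ ‖z + v‖ := by
    have := norm_sub_norm_le z (-v)
    simpa using this
  have h3 : M * ‖v‖ ≤ 1 / 64 := (mul_le_mul_of_nonneg_left hv hM0.le).trans hκ
  have h4 : 63 / 64 ≤ M * ‖z + v‖ := by nlinarith
  have h5 : 0 < ‖z + v‖ := by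
    by_contra h
    push Not at h
    nlinarith
  refine ⟨norm_pos_iff.1 h5, ?_⟩
  rw [inv_le_iff_one_le_mul₀ h5]
  nlinarith

theorem phiC_main (z w w' : ℂ) (M κ : ℝ) (hz : z ≠ 0) (hM : ‖z‖⁻¹ ≤ M) (hκ : M * κ ≤ 1 / 64)
    (hw : ‖w‖ ≤ κ) (hw' : ‖w'‖ ≤ κ) :
    ‖phi (z + w) - phi (z + w') - dphi z (w - w')‖ ≤ 10 * M ^ 4 * κ * ‖w - w'‖ := by
  have hz0 : 0 < ‖z‖ := norm_pos_iff.2 hz
  have hM0 : 0 < M := (inv_pos.2 hz0).trans_le hM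
  have hκ0 : 0 ≤ κ := (norm_nonneg _).trans hw
  have hseg : ∀ t ∈ Icc (0 : ℝ) 1, ‖w' + t • (w - w')‖ ≤ κ := by
    intro t ht
    have h1 : w' + t • (w - w') ∈ Metric.closedBall (0 : ℂ) κ :=
      (convex_closedBall (0 : ℂ) κ).add_smul_sub_mem (by simpa using hw') (by simpa using hw) ht
    simpa using h1
  have hder : ∀ t ∈ Icc (0 : ℝ) 1, HasDerivWithinAt
      (fun s : ℝ => phi (z + (w' + s • (w - w'))) - s • dphi z (w - w'))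
      (dphi (z + (w' + t • (w - w'))) (w - w') - dphi z (w - w')) (Icc 0 1) t := by
    intro t ht
    have h1 := (phiC_near hz hM hκ (hseg t ht)).1
    have h2 := phiC_deriv _ (w - w') h1
    have h3 : HasDerivAt (fun s : ℝ => phi (z + (w' + s • (w - w'))))
        (dphi (z + (w' + t • (w - w'))) (w - w')) t := by
      have h4 : HasDerivAt (fun s : ℝ => s - t) 1 t := (hasDerivAt_id t).sub_const t
      have h5 := HasDerivAt.scomp t (g₁ := fun s : ℝ => phi (z + (w' + t • (w - w')) + s • (w - w')))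
        (by rw [sub_self]; exact h2) h4
      rw [one_smul] at h5
      refine h5.congr_of_eventuallyEq (Filter.Eventually.of_forall fun s => ?_)
      simp only [Function.comp]
      congr 1
      rw [sub_smul]
      ring
    have h4 : HasDerivAt (fun s : ℝ => s • dphi z (w - w')) (dphi z (w - w')) t := by
      simpa using (hasDerivAt_id t).smul_const (dphi z (w - w'))
    exact (h3.sub h4).hasDerivWithinAt
  have hbd : ∀ t ∈ Ico (0 : ℝ) 1,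
      ‖dphi (z + (w' + t • (w - w'))) (w - w') - dphi z (w - w')‖ ≤ 10 * M ^ 4 * κ * ‖w - w'‖ := by
    intro t ht
    have ht' : t ∈ Icc (0 : ℝ) 1 := Ico_subset_Icc_self ht
    obtain ⟨h1, h2⟩ := phiC_near hz hM hκ (hseg t ht')
    have h3 := phiC_dphi_sub h1 hz h2 (hM.trans (by linarith)) (w - w')
    rw [add_sub_cancel_left] at h3
    refine h3.trans ?_
    have h4 : 9 * (64 / 63 * M) ^ 4 ≤ 10 * M ^ 4 := by
      rw [mul_pow]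
      have : 0 < M ^ 4 := by positivity
      nlinarith
    have h5 := hseg t ht'
    gcongr
  have h6 := norm_image_sub_le_of_norm_deriv_le_segment_01' hder hbd
  have e : (phi (z + (w' + (1 : ℝ) • (w - w'))) - (1 : ℝ) • dphi z (w - w')) -
      (phi (z + (w' + (0 : ℝ) • (w - w'))) - (0 : ℝ) • dphi z (w - w')) =
      phi (z + w) - phi (z + w') - dphi z (w - w') := by
    simp only [one_smul, zero_smul, add_zero, sub_zero]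
    have : w' + (w - w') = w := by ring
    rw [this]
    ring
  rw [e] at h6
  exact h6

theorem phiC_eq (z : ℂ) : phi z = ((‖z‖⁻¹ ^ 3 : ℝ) : ℂ) * z := by
  unfold phi
  push_cast
  rw [div_eq_mul_inv, inv_pow, mul_comm]

theorem claimPhi : ClaimPhi := by
  refine ⟨fun z w hz => phiC_deriv z w hz, fun z w w' M κ hz hM hκ hw hw' =>
    ⟨(phiC_near hz hM hκ hw).1, phiC_main z w w' M κ hz hM hκ hw hw'⟩, ?_, ?_, ?_⟩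
  · intro z z' M hz hz' hM hM'
    have hz0 : 0 < ‖z‖ := norm_pos_iff.2 hz
    have hz0' : 0 < ‖z'‖ := norm_pos_iff.2 hz'
    have hM0 : 0 < M := (inv_pos.2 hz0).trans_le hM
    rw [phiC_eq, phiC_eq]
    have e : ((‖z‖⁻¹ ^ 3 : ℝ) : ℂ) * z - ((‖z'‖⁻¹ ^ 3 : ℝ) : ℂ) * z' =
        ((‖z‖⁻¹ ^ 3 : ℝ) : ℂ) * (z - z') + ((‖z‖⁻¹ ^ 3 - ‖z'‖⁻¹ ^ 3 : ℝ) : ℂ) * z' := by
      push_cast; ring
    rw [e]
    refine (norm_add_le _ _).trans ?_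
    rw [norm_mul, norm_mul, Complex.norm_real, Complex.norm_real, Real.norm_eq_abs,
      Real.norm_eq_abs, abs_of_pos (a := ‖z‖⁻¹ ^ 3) (by positivity)]
    have h1 := phiC_cube_sub hz hz' hM hM'
    have h2 : |‖z‖⁻¹ ^ 3 - ‖z'‖⁻¹ ^ 3| * ‖z'‖ ≤ 3 * M ^ 3 * ‖z - z'‖ := by
      calc |‖z‖⁻¹ ^ 3 - ‖z'‖⁻¹ ^ 3| * ‖z'‖ ≤ 3 * M ^ 3 * ‖z'‖⁻¹ * ‖z - z'‖ * ‖z'‖ := by gcongr
        _ = _ := by field_simp
    have h3 : ‖z‖⁻¹ ^ 3 * ‖z - z'‖ ≤ M ^ 3 * ‖z - z'‖ := by gcongr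
    linarith
  · intro z
    rw [phiC_eq, norm_mul, Complex.norm_real, Real.norm_eq_abs, abs_of_nonneg (by positivity)]
    by_cases hz : z = 0
    · simp [hz]
    · have hz0 : 0 < ‖z‖ := norm_pos_iff.2 hz
      field_simp
  · have h1 : phi = fun z => ((‖z‖⁻¹ ^ 3 : ℝ) : ℂ) * z := funext phiC_eq
    rw [h1]
    refine ContinuousOn.mul ?_ continuousOn_id
    refine Complex.continuous_ofReal.comp_continuousOn ?_
    refine ContinuousOn.pow ?_ 3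
    exact continuous_norm.continuousOn.inv₀ fun z hz => norm_ne_zero_iff.2 hz

end Pool.Agent.Work.MP_76acb6_an
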