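import Pool.Agent.Work.MP_76acb6_an.Claims

/-!
# A3: one piece of the shadowing argument
-/

set_option autoImplicit false

namespace Pool.Agent.Work.MP_76acb6_an

open Set Filter Topology MeasureTheory
open scoped ComplexConjugate

/-! ### linear algebra -/

theorem Piece_comb_add (W : Fin 8 → X) (a b : Z) : comb W (a + b) = comb W a + comb W b := by
  simp [comb, add_smul, Finset.sum_add_distrib]

theorem Piece_comb_smul (W : Fin 8 → X) (c : ℝ) (a : Z) : comb W (c • a) = c • comb W a := by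
  simp [comb, Finset.smul_sum, smul_smul]

theorem Piece_comb_zero (W : Fin 8 → X) : comb W 0 = 0 := by simp [comb]

theorem Piece_comb_sub (W : Fin 8 → X) (a b : Z) : comb W (a - b) = comb W a - comb W b := by
  simp [comb, sub_smul, Finset.sum_sub_distrib]

theorem Piece_ip_add (x y y' : X) : ip x (y + y') = ip x y + ip x y' := by
  simp [ip]; ring

theorem Piece_ip_smul (x : X) (c : ℝ) (y : X) : ip x (c • y) = c * ip x y := by
  simp [ip]; ring

theorem Piece_ip_sub (x y y' : X) : ip x (y - y') = ip x y - ip x y' := by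
  simp [ip]; ring

theorem Piece_dd_add (m : Fin 3) (a b : X) : dd m (a + b) = dd m a + dd m b := by
  fin_cases m <;> simp [dd] <;> ring

theorem Piece_dd_sub (m : Fin 3) (a b : X) : dd m (a - b) = dd m a - dd m b := by
  fin_cases m <;> simp [dd] <;> ring

/-- `ζ ↦ (comb W ζ, comb W1 ζ)` -/
noncomputable def PieceA (W W1 : Fin 8 → X) : Z →ₗ[ℝ] X × X where
  toFun ζ := (comb W ζ, comb W1 ζ)
  map_add' a b := by rw [Piece_comb_add, Piece_comb_add]; rfl
  map_smul' c a := by rw [Piece_comb_smul, Piece_comb_smul]; rfl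

noncomputable def PieceB (O : Fin 8 → Fin 8 → ℝ) (h : ℝ) (W W1 : Fin 8 → X) : X × X →ₗ[ℝ] Z where
  toFun p := fun i => h⁻¹ * ∑ j, O i j * (ip (W j) p.2 - ip (W1 j) p.1)
  map_add' a b := by
    funext i
    simp only [Prod.fst_add, Prod.snd_add, Piece_ip_add, Pi.add_apply]
    rw [← mul_add, ← Finset.sum_add_distrib]
    congr 1
    apply Finset.sum_congr rfl
    intro j _
    ring
  map_smul' c a := by
    funext i
    simp only [Prod.smul_fst, Prod.smul_snd, Piece_ip_smul, Pi.smul_apply, smul_eq_mul,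
      RingHom.id_apply]
    rw [Finset.mul_sum, Finset.mul_sum, Finset.mul_sum]
    apply Finset.sum_congr rfl
    intro j _
    ring

theorem Piece_inj {O : Fin 8 → Fin 8 → ℝ} {h eps : ℝ} {W W1 : Fin 8 → X} (he : eps < 1)
    (hBA : ∀ ζ : Z, ‖PieceB O h W W1 (PieceA W W1 ζ) - ζ‖ ≤ eps * ‖ζ‖) :
    Function.Injective (PieceB O h W W1) := by
  have h1 : Function.Injective (PieceA W W1) := by
    rw [← LinearMap.ker_eq_bot, LinearMap.ker_eq_bot']
    intro ζ hζ
    have := hBA ζ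
    rw [hζ, map_zero, zero_sub, norm_neg] at this
    by_contra hne
    have hpos : 0 < ‖ζ‖ := norm_pos_iff.mpr hne
    nlinarith
  have h2 : Function.Surjective (PieceA W W1) := by
    rw [← LinearMap.injective_iff_surjective_of_finrank_eq_finrank]
    · exact h1
    · simp [Module.finrank_prod, Complex.finrank_real_complex]
  rw [← LinearMap.ker_eq_bot, LinearMap.ker_eq_bot']
  intro p hp
  obtain ⟨ζ, rfl⟩ := h2 p
  have := hBA ζ
  rw [hp, zero_sub, norm_neg] at this
  have h3 : ζ = 0 := by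
    by_contra hne
    have hpos : 0 < ‖ζ‖ := norm_pos_iff.mpr hne
    nlinarith
  rw [h3, map_zero]

/-! ### the clamp -/

noncomputable def PieceCl (ρ : ℝ) (z : Z) : Z := fun i => max (min (z i) ρ) (-ρ)

theorem Piece_cl_norm {ρ : ℝ} (hρ : 0 < ρ) (z : Z) : ‖PieceCl ρ z‖ ≤ ρ := by
  rw [pi_norm_le_iff_of_nonneg hρ.le]
  intro i
  rw [Real.norm_eq_abs, abs_le]
  constructor
  · exact le_max_right _ _
  · exact max_le (min_le_right _ _) (by linarith)

theorem Piece_cl_eq {ρ : ℝ} {z : Z} (hz : ‖z‖ ≤ ρ) : PieceCl ρ z = z := by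
  funext i
  have h1 : |z i| ≤ ρ := (norm_le_pi_norm z i).trans hz
  rw [abs_le] at h1
  unfold PieceCl
  rw [min_eq_left h1.2, max_eq_left h1.1]

theorem Piece_cl_lip (ρ : ℝ) (z z' : Z) : ‖PieceCl ρ z - PieceCl ρ z'‖ ≤ ‖z - z'‖ := by
  rw [pi_norm_le_iff_of_nonneg (norm_nonneg _)]
  intro i
  have h1 : |z i - z' i| ≤ ‖z - z'‖ := norm_le_pi_norm (z - z') i
  refine le_trans ?_ h1
  rw [Real.norm_eq_abs]
  unfold PieceCl
  refine (abs_max_sub_max_le_abs _ _ _).trans ?_
  rw [min_comm (z i), min_comm (z' i)]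
  exact (abs_min_sub_min_le_max _ _ _ _).trans (by simp)

theorem Piece_cl_cont (ρ : ℝ) : Continuous (PieceCl ρ) := by
  unfold PieceCl
  fun_prop

/-! ### the residual -/

noncomputable def PieceR (h : ℝ) (q q2 : X) (W W2 : Fin 8 → X) (z : Z) : X :=
  (h ^ 2) • Fo (q + comb W z) - q2 - comb W2 z

theorem Piece_pt (hPhi : ClaimPhi) {q : X} {W : Fin 8 → X} {D M : Fin 3 → ℝ} {ρ : ℝ}
    (hρ : 0 < ρ) (hD : ∀ i, 0 ≤ D i) (hM : ∀ i, M i * D i * ρ ≤ 1 / 64)
    (hne : ∀ i, dd i q ≠ 0 ∧ ‖dd i q‖⁻¹ ≤ M i)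
    (hpair : ∀ (ζ : Z) (i : Fin 3), ‖dd i (comb W ζ)‖ ≤ D i * ‖ζ‖) {z z' : Z}
    (hz : ‖z‖ ≤ ρ) (hz' : ‖z'‖ ≤ ρ) (i : Fin 3) :
    dd i (q + comb W z) ≠ 0 ∧
    ‖phi (dd i (q + comb W z)) - phi (dd i (q + comb W z')) - dphi (dd i q) (dd i (comb W (z - z')))‖
      ≤ 10 * ρ * (M i ^ 4 * D i ^ 2) * ‖z - z'‖ := by
  have hb : ∀ y : Z, ‖y‖ ≤ ρ → ‖dd i (comb W y)‖ ≤ D i * ρ := fun y hy =>
    (hpair y i).trans (mul_le_mul_of_nonneg_left hy (hD i))
  obtain ⟨h1, h2⟩ := hPhi.2.1 (dd i q) (dd i (comb W z)) (dd i (comb W z')) (M i) (D i * ρ)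
    (hne i).1 (hne i).2 (by rw [← mul_assoc]; exact hM i) (hb z hz) (hb z' hz')
  rw [Piece_dd_add, Piece_dd_add, Piece_comb_sub, Piece_dd_sub]
  refine ⟨h1, h2.trans ?_⟩
  rw [← Piece_dd_sub, ← Piece_comb_sub]
  have h3 := hpair (z - z') i
  have hM0 : 0 ≤ M i := (inv_nonneg.mpr (norm_nonneg _)).trans (hne i).2
  calc 10 * M i ^ 4 * (D i * ρ) * ‖dd i (comb W (z - z'))‖ ≤
      10 * M i ^ 4 * (D i * ρ) * (D i * ‖z - z'‖) := by
        have := hD i
        gcongr
    _ = 10 * ρ * (M i ^ 4 * D i ^ 2) * ‖z - z'‖ := by ring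

theorem Piece_lip (hPhi : ClaimPhi) {h : ℝ} {q q2 : X} {W W2 : Fin 8 → X} {D M : Fin 3 → ℝ}
    {ρ l lam : ℝ} (hρ : 0 < ρ) (hD : ∀ i, 0 ≤ D i) (hM : ∀ i, M i * D i * ρ ≤ 1 / 64)
    (hne : ∀ i, dd i q ≠ 0 ∧ ‖dd i q‖⁻¹ ≤ M i)
    (hlin : ∀ ζ : Z, ‖(h ^ 2) • DFo q (comb W ζ) - comb W2 ζ‖ ≤ lam * ‖ζ‖)
    (hpair : ∀ (ζ : Z) (i : Fin 3), ‖dd i (comb W ζ)‖ ≤ D i * ‖ζ‖)
    (hl : lam + 10 * h ^ 2 * ρ * ∑ i, M i ^ 4 * D i ^ 2 ≤ l) {z z' : Z}
    (hz : ‖z‖ ≤ ρ) (hz' : ‖z'‖ ≤ ρ) :
    ‖PieceR h q q2 W W2 z - PieceR h q q2 W W2 z'‖ ≤ l * ‖z - z'‖ := by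
  have hp := fun i => (Piece_pt hPhi hρ hD hM hne hpair hz hz' i).2
  have e : PieceR h q q2 W W2 z - PieceR h q q2 W W2 z' =
      (h ^ 2) • (Fo (q + comb W z) - Fo (q + comb W z') - DFo q (comb W (z - z'))) +
      ((h ^ 2) • DFo q (comb W (z - z')) - comb W2 (z - z')) := by
    unfold PieceR
    rw [Piece_comb_sub W2]
    module
  have hS : ‖Fo (q + comb W z) - Fo (q + comb W z') - DFo q (comb W (z - z'))‖ ≤
      10 * ρ * (∑ i, M i ^ 4 * D i ^ 2) * ‖z - z'‖ := by
    have hnn : ∀ i, 0 ≤ 10 * ρ * (M i ^ 4 * D i ^ 2) * ‖z - z'‖ := fun i => by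
      have : (0 : ℝ) ≤ M i ^ 4 := by positivity
      positivity
    rw [Fin.sum_univ_three]
    have h0 := hp 0
    have h1 := hp 1
    have h2 := hp 2
    have n0 := hnn 0
    have n1 := hnn 1
    have n2 := hnn 2
    rw [Prod.norm_def]
    apply max_le
    · have e1 : (Fo (q + comb W z) - Fo (q + comb W z') - DFo q (comb W (z - z'))).1 =
          -(phi (dd 0 (q + comb W z)) - phi (dd 0 (q + comb W z')) -
              dphi (dd 0 q) (dd 0 (comb W (z - z')))) +
          (phi (dd 2 (q + comb W z)) - phi (dd 2 (q + comb W z')) -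
              dphi (dd 2 q) (dd 2 (comb W (z - z')))) := by
        simp only [Fo, DFo, Prod.fst_sub]
        ring
      rw [e1]
      refine (norm_add_le _ _).trans ?_
      rw [norm_neg]
      linarith
    · have e1 : (Fo (q + comb W z) - Fo (q + comb W z') - DFo q (comb W (z - z'))).2 =
          (phi (dd 0 (q + comb W z)) - phi (dd 0 (q + comb W z')) -
              dphi (dd 0 q) (dd 0 (comb W (z - z')))) -
          (phi (dd 1 (q + comb W z)) - phi (dd 1 (q + comb W z')) -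
              dphi (dd 1 q) (dd 1 (comb W (z - z')))) := by
        simp only [Fo, DFo, Prod.snd_sub]
        ring
      rw [e1]
      refine (norm_sub_le _ _).trans ?_
      linarith
  rw [e]
  refine (norm_add_le _ _).trans ?_
  rw [norm_smul, Real.norm_eq_abs, abs_of_nonneg (sq_nonneg h)]
  have h3 := hlin (z - z')
  have h4 : h ^ 2 * ‖Fo (q + comb W z) - Fo (q + comb W z') - DFo q (comb W (z - z'))‖ ≤
      h ^ 2 * (10 * ρ * (∑ i, M i ^ 4 * D i ^ 2) * ‖z - z'‖) :=
    mul_le_mul_of_nonneg_left hS (sq_nonneg h)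
  have h5 : (lam + 10 * h ^ 2 * ρ * ∑ i, M i ^ 4 * D i ^ 2) * ‖z - z'‖ ≤ l * ‖z - z'‖ :=
    mul_le_mul_of_nonneg_right hl (norm_nonneg _)
  linarith

/-- continuity of the force -/
theorem Piece_contFo (hPhi : ClaimPhi) {Y : Type*} [TopologicalSpace Y] {f : Y → X} {s : Set Y}
    (hf : ContinuousOn f s) (hne : ∀ y ∈ s, ∀ i, dd i (f y) ≠ 0) :
    ContinuousOn (fun y => Fo (f y)) s := by
  have hd : ∀ i, ContinuousOn (fun y => dd i (f y)) s := by
    intro i
    have h1 : ContinuousOn (fun y => (f y).1) s := continuous_fst.comp_continuousOn hf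
    have h2 : ContinuousOn (fun y => (f y).2) s := continuous_snd.comp_continuousOn hf
    fin_cases i
    · exact h1.sub h2
    · exact h1.add (continuousOn_const.mul h2)
    · exact ((continuousOn_const.mul h1).add h2).neg
  have hph : ∀ i, ContinuousOn (fun y => phi (dd i (f y))) s := fun i =>
    hPhi.2.2.2.2.comp (hd i) (fun y hy => hne y hy i)
  unfold Fo
  exact ((hph 0).neg.add (hph 2)).prodMk ((hph 0).sub (hph 1))

theorem Piece_contComb {Y : Type*} [TopologicalSpace Y] {W : Y → Fin 8 → X} {z : Y → Z} {s : Set Y}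
    (hW : ∀ j, ContinuousOn (fun y => W y j) s) (hz : ContinuousOn z s) :
    ContinuousOn (fun y => comb (W y) (z y)) s := by
  unfold comb
  apply continuousOn_finsetSum
  intro j _
  exact ((continuous_apply j).comp_continuousOn hz).smul (hW j)

theorem Piece_contIp {Y : Type*} [TopologicalSpace Y] {f g : Y → X} {s : Set Y}
    (hf : ContinuousOn f s) (hg : ContinuousOn g s) :
    ContinuousOn (fun y => ip (f y) (g y)) s := by
  have h1 : ContinuousOn (fun y => (f y).1) s := continuous_fst.comp_continuousOn hf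
  have h2 : ContinuousOn (fun y => (f y).2) s := continuous_snd.comp_continuousOn hf
  have h3 : ContinuousOn (fun y => (g y).1) s := continuous_fst.comp_continuousOn hg
  have h4 : ContinuousOn (fun y => (g y).2) s := continuous_snd.comp_continuousOn hg
  have a1 : ContinuousOn (fun y => conj (2 * (f y).1 + (f y).2)) s :=
    Complex.continuous_conj.comp_continuousOn ((continuousOn_const.mul h1).add h2)
  have a2 : ContinuousOn (fun y => conj ((f y).1 + 2 * (f y).2)) s :=
    Complex.continuous_conj.comp_continuousOn (h1.add (continuousOn_const.mul h2))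
  unfold ip
  exact Complex.continuous_re.comp_continuousOn ((a1.mul h3).add (a2.mul h4))

theorem Piece_dcomb {W W1 : ℝ → Fin 8 → X} {z z1 : ℝ → Z} {x : ℝ}
    (hW : ∀ j, HasDerivAt (fun s => W s j) (W1 x j) x) (hz : HasDerivAt z (z1 x) x) :
    HasDerivAt (fun s => comb (W s) (z s)) (comb (W1 x) (z x) + comb (W x) (z1 x)) x := by
  unfold comb
  rw [← Finset.sum_add_distrib]
  apply HasDerivAt.fun_sum
  intro j _
  have h1 : HasDerivAt (fun s => z s j) (z1 x j) x := (hasDerivAt_pi.mp hz) j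
  exact h1.smul (hW j)

theorem claimPiece (hPhi : ClaimPhi) (hFix : ClaimFix) : ClaimPiece := by
  intro O h q q1 q2 W W1 W2 m lam beta eps D M ρ l H hρ hm hlam hbeta heps hD hM hl hsmall
  have hh := H.hpos
  have hM0 : ∀ i, 0 ≤ M i := fun i =>
    (inv_nonneg.mpr (norm_nonneg _)).trans (H.ne 0 (by norm_num) i).2
  have hl0 : 0 ≤ l := by
    refine le_trans ?_ hl
    have : 0 ≤ ∑ i, M i ^ 4 * D i ^ 2 := Finset.sum_nonneg fun i _ => by
      have := hM0 i
      positivity
    positivity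
  have hbl : 0 ≤ beta * l := mul_nonneg hbeta hl0
  have heps1 : 0 < 1 - eps := by linarith
  have heps2 : 0 < 1 - eps - 2 * beta * l := by linarith
  have cq : Continuous q := continuous_iff_continuousAt.mpr fun x => (H.dq x).continuousAt
  have cW : ∀ j, Continuous fun s => W s j := fun j =>
    continuous_iff_continuousAt.mpr fun x => (H.dW x j).continuousAt
  have cW1 : ∀ j, Continuous fun s => W1 s j := fun j =>
    continuous_iff_continuousAt.mpr fun x => (H.dW1 x j).continuousAt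
  set R : ℝ → Z → X := fun x z => PieceR h (q x) (q2 x) (W x) (W2 x) z with hR
  set Bx : ℝ → X → Z := fun x y => fun i => h⁻¹ * ∑ j, O i j * ip (W x j) y with hBx
  set BA : ℝ → Z → Z := fun x z => fun i => h⁻¹ * ∑ j, O i j *
    (ip (W x j) (comb (W1 x) z) - ip (W1 x j) (comb (W x) z)) with hBAd
  have hBA : ∀ x z, BA x z = PieceB O h (W x) (W1 x) (PieceA (W x) (W1 x) z) := fun x z => rfl
  have hB0 : ∀ x y, Bx x y = PieceB O h (W x) (W1 x) (0, y) := by
    intro x y
    funext i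
    change h⁻¹ * ∑ j, O i j * ip (W x j) y = h⁻¹ * ∑ j, O i j * (ip (W x j) y - ip (W1 x j) 0)
    have : ∀ w : X, ip w 0 = 0 := fun w => by simp [ip]
    simp only [this, sub_zero]
  have hBsub : ∀ x y y', Bx x y - Bx x y' = Bx x (y - y') := by
    intro x y y'
    rw [hB0, hB0, hB0, ← map_sub]
    congr 1
    simp
  have hBAsub : ∀ x y y', BA x y - BA x y' = BA x (y - y') := by
    intro x y y'
    rw [hBA, hBA, hBA, ← map_sub, ← map_sub]
  -- bounds of the residual
  have hlip : ∀ x ∈ Icc (-1 : ℝ) 1, ∀ z z' : Z, ‖z‖ ≤ ρ → ‖z'‖ ≤ ρ →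
      ‖R x z - R x z'‖ ≤ l * ‖z - z'‖ := fun x hx z z' hz hz' =>
    Piece_lip hPhi hρ hD hM (H.ne x hx) (H.lin x hx) (H.pair x hx) hl hz hz'
  have hR0 : ∀ x ∈ Icc (-1 : ℝ) 1, ‖R x 0‖ ≤ m := by
    intro x hx
    have := H.res x hx
    simp only [hR, PieceR, Piece_comb_zero, add_zero, sub_zero]
    exact this
  have hRb : ∀ x ∈ Icc (-1 : ℝ) 1, ∀ z : Z, ‖z‖ ≤ ρ → ‖R x z‖ ≤ m + l * ρ := by
    intro x hx z hz
    have h1 := hlip x hx z 0 hz (by rw [norm_zero]; exact hρ.le)
    rw [sub_zero] at h1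
    have h2 : ‖R x z‖ ≤ ‖R x z - R x 0‖ + ‖R x 0‖ := by
      have := norm_add_le (R x z - R x 0) (R x 0)
      rwa [sub_add_cancel] at this
    have h3 : l * ‖z‖ ≤ l * ρ := mul_le_mul_of_nonneg_left hz hl0
    have h4 := hR0 x hx
    linarith
  have hneq : ∀ x ∈ Icc (-1 : ℝ) 1, ∀ z : Z, ‖z‖ ≤ ρ → ∀ i, dd i (q x + comb (W x) z) ≠ 0 :=
    fun x hx z hz i => (Piece_pt hPhi hρ hD hM (H.ne x hx) (H.pair x hx) hz hz i).1
  -- continuity
  have c1 : ContinuousOn (fun p : ℝ × Z => p.1) (Icc (-1) 1 ×ˢ univ) := continuous_fst.continuousOn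
  have c2 : ContinuousOn (fun p : ℝ × Z => PieceCl ρ p.2) (Icc (-1) 1 ×ˢ univ) :=
    ((Piece_cl_cont ρ).comp continuous_snd).continuousOn
  have c3 : ContinuousOn (fun p : ℝ × Z => p.2) (Icc (-1) 1 ×ˢ univ) := continuous_snd.continuousOn
  have cWp : ∀ j, ContinuousOn (fun p : ℝ × Z => W p.1 j) (Icc (-1) 1 ×ˢ univ) := fun j =>
    (cW j).comp_continuousOn c1
  have cW1p : ∀ j, ContinuousOn (fun p : ℝ × Z => W1 p.1 j) (Icc (-1) 1 ×ˢ univ) := fun j =>
    (cW1 j).comp_continuousOn c1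
  have cW2p : ∀ j, ContinuousOn (fun p : ℝ × Z => W2 p.1 j) (Icc (-1) 1 ×ˢ univ) := fun j =>
    (H.cW2 j).comp_continuousOn c1
  have cR : ContinuousOn (fun p : ℝ × Z => R p.1 (PieceCl ρ p.2)) (Icc (-1) 1 ×ˢ univ) := by
    simp only [hR, PieceR]
    apply ContinuousOn.sub
    · apply ContinuousOn.sub
      · have hF : ContinuousOn (fun p : ℝ × Z => Fo (q p.1 + comb (W p.1) (PieceCl ρ p.2)))
            (Icc (-1) 1 ×ˢ univ) := by
          apply Piece_contFo hPhi
          · exact (cq.comp_continuousOn c1).add (Piece_contComb cWp c2)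
          · rintro ⟨x, z⟩ ⟨hx, -⟩ i
            exact hneq x hx _ (Piece_cl_norm hρ z) i
        exact hF.const_smul (h ^ 2)
      · exact H.cq2.comp_continuousOn c1
    · exact Piece_contComb cW2p c2
  have cg : ContinuousOn (fun p : ℝ × Z => Bx p.1 (R p.1 (PieceCl ρ p.2)))
      (Icc (-1) 1 ×ˢ univ) := by
    rw [continuousOn_pi]
    intro i
    apply continuousOn_const.mul
    apply continuousOn_finsetSum
    intro j _
    exact continuousOn_const.mul (Piece_contIp (cWp j) cR)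
  have cC : ContinuousOn (fun p : ℝ × Z => p.2 - BA p.1 p.2) (Icc (-1) 1 ×ˢ univ) := by
    apply c3.sub
    rw [continuousOn_pi]
    intro i
    apply continuousOn_const.mul
    apply continuousOn_finsetSum
    intro j _
    exact continuousOn_const.mul ((Piece_contIp (cWp j) (Piece_contComb cW1p c3)).sub
      (Piece_contIp (cW1p j) (Piece_contComb cWp c3)))
  obtain ⟨th, th1, th2, th3, th4⟩ := hFix (fun x z => Bx x (R x (PieceCl ρ z)))
    (fun x z => z - BA x z) (beta * (m + l * ρ)) (beta * l) eps cg cC (by positivity) hbl heps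
    (by linarith)
    (fun x hx z => (H.bB x hx _).trans
      (mul_le_mul_of_nonneg_left (hRb x hx _ (Piece_cl_norm hρ z)) hbeta))
    (by
      intro x hx z z'
      rw [hBsub]
      refine (H.bB x hx _).trans ?_
      have h1 := hlip x hx _ _ (Piece_cl_norm hρ z) (Piece_cl_norm hρ z')
      have h2 := Piece_cl_lip ρ z z'
      calc beta * ‖R x (PieceCl ρ z) - R x (PieceCl ρ z')‖ ≤
          beta * (l * ‖PieceCl ρ z - PieceCl ρ z'‖) := mul_le_mul_of_nonneg_left h1 hbeta
        _ ≤ beta * (l * ‖z - z'‖) :=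
            mul_le_mul_of_nonneg_left (mul_le_mul_of_nonneg_left h2 hl0) hbeta
        _ = beta * l * ‖z - z'‖ := by ring)
    (by
      intro x hx
      rw [hBA, map_zero, map_zero, sub_zero])
    (by
      intro x hx y y'
      have e : y - BA x y - (y' - BA x y') = -(BA x (y - y') - (y - y')) := by
        rw [← hBAsub]; abel
      rw [e, norm_neg]
      exact H.bA x hx (y - y'))
  have he1 : 2 * beta * (m + l * ρ) / (1 - eps) = beta * (m + l * ρ) / (1 - eps) * 2 := by ring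
  have he2 : 2 * beta * l / (1 - eps - 2 * beta * l) =
      beta * l / (1 - eps - 2 * (beta * l)) * 2 := by
    rw [← mul_assoc]; ring
  refine ⟨by positivity, by positivity, fun ζ => ∫ s in (-1 : ℝ)..1, th ζ s, ?_, ?_, ?_⟩
  · intro ζ
    rw [he1]
    have := intervalIntegral.norm_integral_le_of_norm_le_const (a := -1) (b := 1)
      (f := th ζ) (C := beta * (m + l * ρ) / (1 - eps)) (fun x hx => by
        rw [uIoc_of_le (by norm_num)] at hx
        exact th3 ζ x ⟨hx.1.le, hx.2⟩)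
    refine this.trans (le_of_eq ?_)
    norm_num
  · intro ζ ζ'
    rw [he2, ← intervalIntegral.integral_sub ((th1 ζ).intervalIntegrable _ _)
      ((th1 ζ').intervalIntegrable _ _)]
    have := intervalIntegral.norm_integral_le_of_norm_le_const (a := -1) (b := 1)
      (f := fun x => th ζ x - th ζ' x)
      (C := beta * l / (1 - eps - 2 * (beta * l)) * ‖ζ - ζ'‖) (fun x hx => by
        rw [uIoc_of_le (by norm_num)] at hx
        exact th4 ζ ζ' x ⟨hx.1.le, hx.2⟩)
    refine this.trans (le_of_eq ?_)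
    norm_num
    ring
  · intro ζ hζ
    set Zc : ℝ → Z := fun x => ζ + ∫ s in (-1 : ℝ)..x, th ζ s with hZc
    have hZd : ∀ x, HasDerivAt Zc (th ζ x) x := by
      intro x
      exact (((th1 ζ).integral_hasStrictDerivAt (-1) x).hasDerivAt).const_add ζ
    have hZn : ∀ x ∈ Icc (-1 : ℝ) 1, ‖Zc x‖ ≤ ρ := by
      intro x hx
      have h1 : ‖∫ s in (-1 : ℝ)..x, th ζ s‖ ≤ 2 * beta * (m + l * ρ) / (1 - eps) := by
        have := intervalIntegral.norm_integral_le_of_norm_le_const (a := -1) (b := x)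
          (f := th ζ) (C := beta * (m + l * ρ) / (1 - eps)) (fun y hy => by
            rw [uIoc_of_le hx.1] at hy
            exact th3 ζ y ⟨hy.1.le, hy.2.trans hx.2⟩)
        refine this.trans ?_
        rw [he1]
        apply mul_le_mul_of_nonneg_left _ (by positivity)
        rw [abs_of_nonneg (by linarith [hx.1])]
        linarith [hx.2]
      refine (norm_add_le _ _).trans ?_
      linarith
    -- the equations
    have hth : ∀ x ∈ Icc (-1 : ℝ) 1, comb (W x) (th ζ x) = 0 ∧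
        comb (W1 x) (th ζ x) = R x (Zc x) := by
      intro x hx
      have h1 := th2 ζ x hx
      have h2 : BA x (th ζ x) = Bx x (R x (Zc x)) := by
        have h3 : PieceCl ρ (Zc x) = Zc x := Piece_cl_eq (hZn x hx)
        have h4 : th ζ x = Bx x (R x (PieceCl ρ (Zc x))) + (th ζ x - BA x (th ζ x)) := h1
        rw [h3] at h4
        have h5 : BA x (th ζ x) = Bx x (R x (Zc x)) + (th ζ x - BA x (th ζ x)) -
            (th ζ x - BA x (th ζ x)) := by
          rw [← h4]; abel
        rw [h5]; abel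
      rw [hBA, hB0] at h2
      have h3 := Piece_inj (by linarith) (H.bA x hx) h2
      have h4 : (comb (W x) (th ζ x), comb (W1 x) (th ζ x)) = ((0 : X), R x (Zc x)) := h3
      exact ⟨congrArg Prod.fst h4, congrArg Prod.snd h4⟩
    set Qh : ℝ → X := fun x => q x + comb (W x) (Zc x) with hQh
    set Ph : ℝ → X := fun x => q1 x + comb (W1 x) (Zc x) with hPh
    have hQd : ∀ x ∈ Icc (-1 : ℝ) 1, HasDerivAt Qh (Ph x) x := by
      intro x hx
      have h1 := (H.dq x).add (Piece_dcomb (fun j => H.dW x j) (hZd x))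
      rw [(hth x hx).1, add_zero] at h1
      exact h1
    have hPd : ∀ x ∈ Icc (-1 : ℝ) 1, HasDerivAt Ph ((h ^ 2) • Fo (Qh x)) x := by
      intro x hx
      have h1 := (H.dq1 x).add (Piece_dcomb (fun j => H.dW1 x j) (hZd x))
      rw [(hth x hx).2] at h1
      have e : q2 x + (comb (W2 x) (Zc x) + R x (Zc x)) = (h ^ 2) • Fo (Qh x) := by
        simp only [hR, PieceR, hQh]
        abel
      rw [e] at h1
      exact h1
    have hζm : Zc (-1) = ζ := by simp [hZc]
    have hlin : ∀ t, HasDerivAt (fun t : ℝ => t * h⁻¹ - 1) h⁻¹ t := fun t => by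
      have := ((hasDerivAt_id t).mul_const h⁻¹).sub_const 1
      simpa using this
    refine ⟨by positivity, fun t => Qh (t * h⁻¹ - 1), fun t => h⁻¹ • Ph (t * h⁻¹ - 1), ?_, ?_,
      ?_, ?_, ?_⟩
    · simp only [zero_mul, zero_sub, hQh, hζm]
      rfl
    · simp only [zero_mul, zero_sub, hPh, hζm]
      rfl
    · have e : 2 * h * h⁻¹ - 1 = 1 := by field_simp; norm_num
      simp only [e]
      rfl
    · have e : 2 * h * h⁻¹ - 1 = 1 := by field_simp; norm_num
      simp only [e]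
      rfl
    · intro t ht
      have hx : t * h⁻¹ - 1 ∈ Icc (-1 : ℝ) 1 := by
        have h1 : 0 ≤ t * h⁻¹ := mul_nonneg ht.1 (inv_nonneg.mpr hh.le)
        have h2 : t * h⁻¹ ≤ 2 := by
          rw [← div_eq_mul_inv, div_le_iff₀ hh]; exact ht.2
        constructor <;> linarith
      refine ⟨fun i => hneq _ hx _ (hZn _ hx) i, ?_, ?_⟩
      · exact ((hQd _ hx).scomp t (hlin t)).hasDerivWithinAt
      · have h1 := (((hPd _ hx).scomp t (hlin t)).const_smul h⁻¹).hasDerivWithinAt
          (s := Icc 0 (2 * h))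
        have e : h⁻¹ • h⁻¹ • h ^ 2 • Fo (Qh (t * h⁻¹ - 1)) = Fo (Qh (t * h⁻¹ - 1)) := by
          rw [smul_smul, smul_smul]
          have : h⁻¹ * h⁻¹ * h ^ 2 = 1 := by field_simp
          rw [this, one_smul]
        rw [e] at h1
        exact h1

end Pool.Agent.Work.MP_76acb6_an
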