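import Pool.Agent.Work.MP_76acb6_an.Claims

/-!
# B5: residual of the reference orbit
-/

set_option autoImplicit false

namespace Pool.Agent.Work.MP_76acb6_an

open Set Filter Topology
open scoped ComplexConjugate

theorem claimRes_cpf (c : CP) (s : ℕ) (x : ℝ) :
    c.f s x = (⟨evR c.re x, evR c.im x⟩ : ℂ) / 2 ^ s := by
  have e3 : (⟨evR c.re x, evR c.im x⟩ : ℂ) / 2 ^ s =
      (⟨evR c.re x, evR c.im x⟩ : ℂ) / ((2 ^ s : ℝ) : ℂ) := by push_cast; rfl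
  rw [e3]
  apply Complex.ext
  · rw [Complex.div_ofReal_re]; rfl
  · rw [Complex.div_ofReal_im]; rfl

theorem claimRes_alg (P H D3 D1 A2 a3 a1 : ℂ) (hP : P ≠ 0) :
    (H ^ 2 * (a3 * a3 * a3 * D3 - a1 * a1 * a1 * D1) - 2 ^ 6 * P ^ 3 * A2) /
      (P ^ 3 * 2 ^ 44 * 2 ^ 6) =
    (H / 8) ^ 2 * ((a3 / P) ^ 3 * (D3 / 2 ^ 44) - (a1 / P) ^ 3 * (D1 / 2 ^ 44)) -
      A2 / 2 ^ 44 := by
  field_simp
  ring

theorem claimRes_tri (h : ℝ) (x y x' y' z : ℂ) (m e1 e2 e3 : ℝ) (he : 0 ≤ e3)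
    (h1 : ‖(h : ℂ) ^ 2 * (x' - y') - z‖ ≤ m) (h2 : ‖x - x'‖ ≤ 4 * e1) (h3 : ‖y - y'‖ ≤ 4 * e2) :
    ‖((h ^ 2 : ℝ) : ℂ) * (-y + x) - z‖ ≤ m + 4 * h ^ 2 * (e1 + e2 + e3) := by
  have e : ((h ^ 2 : ℝ) : ℂ) * (-y + x) - z =
      ((h : ℂ) ^ 2 * (x' - y') - z) + (((h ^ 2 : ℝ) : ℂ) * (x - x') -
        ((h ^ 2 : ℝ) : ℂ) * (y - y')) := by
    push_cast; ring
  rw [e]
  refine (norm_add_le _ _).trans ?_
  refine (add_le_add h1 (norm_sub_le _ _)).trans ?_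
  rw [norm_mul, norm_mul, Complex.norm_real, Real.norm_of_nonneg (sq_nonneg h)]
  have hh := sq_nonneg h
  have a1 := mul_le_mul_of_nonneg_left h2 hh
  have a2 := mul_le_mul_of_nonneg_left h3 hh
  have a3 : 0 ≤ h ^ 2 * e3 := mul_nonneg hh he
  nlinarith

theorem claimRes (h1 : ClaimPK) (h2 : ClaimCK) (h3 : ClaimU) : ClaimRes := by
  intro O om p hG x hx
  obtain ⟨_, _, hc⟩ := hG
  have hG' : Good O om p := ⟨‹_›, ‹_›, hc⟩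
  unfold chk at hc
  simp only [Bool.and_eq_true] at hc
  obtain ⟨⟨⟨⟨_, hr⟩, _⟩, _⟩, _⟩ := hc
  unfold chkRes at hr
  simp only [Bool.and_eq_true] at hr
  -- the differences
  set A : ℝ → ℂ := fun x => ⟨evR p.q.a.re x, evR p.q.a.im x⟩ with hA
  set B : ℝ → ℂ := fun x => ⟨evR p.q.b.re x, evR p.q.b.im x⟩ with hB
  have rA : RepC (WK.ofCol p.q).a A := h2.ofCP p.q.a
  have rB : RepC (WK.ofCol p.q).b B := h2.ofCP p.q.b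
  have rA2 : RepC (WK.ofCol p.q.der.der).a
      fun x => ⟨evR p.q.der.der.a.re x, evR p.q.der.der.a.im x⟩ := h2.ofCP p.q.der.der.a
  have rB2 : RepC (WK.ofCol p.q.der.der).b
      fun x => ⟨evR p.q.der.der.b.re x, evR p.q.der.der.b.im x⟩ := h2.ofCP p.q.der.der.b
  have r1 := h2.sub _ _ _ _ rA rB
  have r2 := h2.add _ _ _ _ rA (h2.scN _ _ 2 rB)
  have r3 := h2.scZ _ _ (-1) (h2.add _ _ _ _ (h2.scN _ _ 2 rA) rB)
  have ru : ∀ q : PairD, Rep (((PK.ofPo q.u).mul (PK.ofPo q.u)).mul (PK.ofPo q.u))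
      fun x => evR q.u x * evR q.u x * evR q.u x := fun q =>
    h1.mul _ _ _ _ (h1.mul _ _ _ _ (h1.ofPo q.u) (h1.ofPo q.u)) (h1.ofPo q.u)
  have f1 := h2.rm _ _ _ _ (ru p.p1) r1
  have f2 := h2.rm _ _ _ _ (ru p.p2) r2
  have f3 := h2.rm _ _ _ _ (ru p.p3) r3
  have c1 := h2.bdc _ _ _ _ (h2.sub _ _ _ _ (h2.scN _ _ (2 ^ (2 * p.hn)) (h2.sub _ _ _ _ f3 f1))
    (h2.scN _ _ (2 ^ (6 + 3 * p.ue)) rA2)) hr.1 x hx
  have c2 := h2.bdc _ _ _ _ (h2.sub _ _ _ _ (h2.scN _ _ (2 ^ (2 * p.hn)) (h2.sub _ _ _ _ f1 f2))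
    (h2.scN _ _ (2 ^ (6 + 3 * p.ue)) rB2)) hr.2 x hx
  have hP : ((2 : ℂ) ^ p.ue) ≠ 0 := pow_ne_zero _ two_ne_zero
  have hq : (p.hQ : ℝ) = 2 ^ p.hn / 8 := by unfold PD.hQ; push_cast; rfl
  have e1 : ∀ D3 D1 A2 : ℂ, ∀ a3 a1 : ℝ,
      (((2 ^ (2 * p.hn) : ℕ) : ℂ) * (((a3 * a3 * a3 : ℝ) : ℂ) * D3 - ((a1 * a1 * a1 : ℝ) : ℂ) * D1) -
        ((2 ^ (6 + 3 * p.ue) : ℕ) : ℂ) * A2) / 2 ^ (3 * p.ue + PQ + 6) =
      ((p.hQ : ℝ) : ℂ) ^ 2 * (((a3 / 2 ^ p.ue : ℝ) : ℂ) ^ 3 * (D3 / 2 ^ 44) -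
        ((a1 / 2 ^ p.ue : ℝ) : ℂ) ^ 3 * (D1 / 2 ^ 44)) - A2 / 2 ^ 44 := by
    intro D3 D1 A2 a3 a1
    rw [hq]
    push_cast
    have := claimRes_alg (2 ^ p.ue) (2 ^ p.hn) D3 D1 A2 a3 a1 hP
    rw [← this]
    congr 1
    · rw [← pow_mul, ← pow_mul, pow_add, mul_comm p.hn 2, mul_comm p.ue 3]
    · rw [← pow_mul, pow_add, pow_add, mul_comm p.ue 3]
  simp only [e1] at c1 c2
  have qa : (p.qf x).1 = A x / 2 ^ 44 := claimRes_cpf p.q.a 44 x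
  have qb : (p.qf x).2 = B x / 2 ^ 44 := claimRes_cpf p.q.b 44 x
  have d0 : dd 0 (p.qf x) = (A x - B x) / 2 ^ 44 := by
    show (p.qf x).1 - (p.qf x).2 = _
    rw [qa, qb]; ring
  have d1 : dd 1 (p.qf x) = (A x + ((2 : ℕ) : ℂ) * B x) / 2 ^ 44 := by
    show (p.qf x).1 + 2 * (p.qf x).2 = _
    rw [qa, qb]; push_cast; ring
  have d2 : dd 2 (p.qf x) = (((-1 : ℤ) : ℂ) * (((2 : ℕ) : ℂ) * A x + B x)) / 2 ^ 44 := by
    show -(2 * (p.qf x).1 + (p.qf x).2) = _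
    rw [qa, qb]; push_cast; ring
  have q2a : (p.q2f x).1 = (⟨evR p.q.der.der.a.re x, evR p.q.der.der.a.im x⟩ : ℂ) / 2 ^ 44 :=
    claimRes_cpf p.q.der.der.a 44 x
  have q2b : (p.q2f x).2 = (⟨evR p.q.der.der.b.re x, evR p.q.der.der.b.im x⟩ : ℂ) / 2 ^ 44 :=
    claimRes_cpf p.q.der.der.b 44 x
  have u0 := (h3 O om p hG' x hx 0).2.2.1
  have u1 := (h3 O om p hG' x hx 1).2.2.1
  have u2 := (h3 O om p hG' x hx 2).2.2.1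
  have nn : ∀ q : PairD, 0 ≤ (N60 q.e : ℝ) * (N60 q.M : ℝ) ^ 2 := by
    intro q
    have : (0 : ℝ) ≤ (N60 q.e : ℝ) := by unfold N60; positivity
    positivity
  rw [mul_assoc] at u0 u1 u2
  simp only [PD.pr] at u0 u1 u2
  rw [d0] at u0
  rw [d1] at u1
  rw [d2] at u2
  have m : (p.mQ : ℝ) = 3 / 2 * ((p.mr : ℝ) / 2 ^ 60) + 4 * (p.hQ : ℝ) ^ 2 *
      ((N60 p.p1.e : ℝ) * (N60 p.p1.M : ℝ) ^ 2 + (N60 p.p2.e : ℝ) * (N60 p.p2.M : ℝ) ^ 2 +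
        (N60 p.p3.e : ℝ) * (N60 p.p3.M : ℝ) ^ 2) := by
    unfold PD.mQ
    push_cast
    unfold N60
    push_cast
    rfl
  refine (Prod.norm_def _).trans_le (max_le ?_ ?_)
  · have k := claimRes_tri (p.hQ : ℝ) _ _ _ _ _ _ _ _ _ (nn p.p2) c1 u2 u0
    rw [← d0, ← d2] at k
    rw [Prod.fst_sub, Prod.smul_fst, q2a, Complex.real_smul]
    refine le_trans (le_of_eq ?_) (k.trans (le_of_eq ?_))
    · rfl
    · rw [m]; ring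
  · have k := claimRes_tri (p.hQ : ℝ) _ _ _ _ _ _ _ _ _ (nn p.p3) c2 u0 u1
    rw [← d0, ← d1] at k
    rw [Prod.snd_sub, Prod.smul_snd, q2b, Complex.real_smul]
    refine le_trans (le_of_eq ?_) (k.trans (le_of_eq ?_))
    · show _ = _
      have : (Fo (p.qf x)).2 = -phi (dd 1 (p.qf x)) + phi (dd 0 (p.qf x)) := by
        show phi (dd 0 (p.qf x)) - phi (dd 1 (p.qf x)) = _
        ring
      rw [this]
    · rw [m]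

end Pool.Agent.Work.MP_76acb6_an
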