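import Pool.Agent.Work.MP_76acb6_an.Claims

/-!
# The shooting function of one run
-/

set_option autoImplicit false

namespace Pool.Agent.Work.MP_76acb6_an

open Set Filter Topology MeasureTheory
open scoped ComplexConjugate

lemma run_phi_le {z : ℂ} (hz : 1 ≤ ‖z‖) : ‖phi z‖ ≤ 1 := by
  unfold phi
  rw [norm_div, Complex.norm_real, Real.norm_eq_abs, abs_of_nonneg (by positivity)]
  have h0 : 0 < ‖z‖ := by linarith
  rw [div_le_one (by positivity)]
  calc ‖z‖ = ‖z‖ ^ 1 := (pow_one _).symm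
    _ ≤ ‖z‖ ^ 3 := pow_le_pow_right₀ hz (by norm_num)

lemma run_Fo_le {V : X} (hV : ∀ i, 1 ≤ ‖dd i V‖) : ‖Fo V‖ ≤ 2 := by
  have h0 := run_phi_le (hV 0)
  have h1 := run_phi_le (hV 1)
  have h2 := run_phi_le (hV 2)
  unfold Fo
  rw [Prod.norm_def]
  refine max_le ?_ ?_
  · refine (norm_add_le _ _).trans ?_
    rw [norm_neg]
    linarith
  · refine (norm_sub_le _ _).trans ?_
    linarith

lemma run_co_le (r : Fin 4) (x : X) : |co r x| ≤ ‖x‖ := by
  have h1 : ‖x.1‖ ≤ ‖x‖ := norm_fst_le x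
  have h2 : ‖x.2‖ ≤ ‖x‖ := norm_snd_le x
  have a1 := Complex.abs_re_le_norm x.1
  have a2 := Complex.abs_im_le_norm x.1
  have a3 := Complex.abs_re_le_norm x.2
  have a4 := Complex.abs_im_le_norm x.2
  fin_cases r
  · exact a1.trans h1
  · exact a2.trans h1
  · exact a3.trans h2
  · exact a4.trans h2

lemma run_co_add (r : Fin 4) (x y : X) : co r (x + y) = co r x + co r y := by
  fin_cases r <;> simp [co]

lemma run_co_sub (r : Fin 4) (x y : X) : co r (x - y) = co r x - co r y := by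
  fin_cases r <;> simp [co]

lemma run_comb_add (W : Fin 8 → X) (ζ ξ : Z) : comb W (ζ + ξ) = comb W ζ + comb W ξ := by
  unfold comb
  rw [← Finset.sum_add_distrib]
  exact Finset.sum_congr rfl fun j _ => by rw [Pi.add_apply, add_smul]

lemma run_comb_sub (W : Fin 8 → X) (ζ ξ : Z) : comb W (ζ - ξ) = comb W ζ - comb W ξ := by
  unfold comb
  rw [← Finset.sum_sub_distrib]
  exact Finset.sum_congr rfl fun j _ => by rw [Pi.sub_apply, sub_smul]

theorem claimRun (h : ClaimTail) : ClaimRun := by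
  intro V τ ρ T E L cW cV s c S F qT vT WT VT hV hτ hStep hρ hEρ hF hqT hcW hcV hWT hcWρ hVT hcVρ
    hc hvT hs
  obtain ⟨hE, hL, e, he, heL, hflow⟩ := hStep
  obtain ⟨Vel, hVel, hVelL⟩ := h V τ hV hτ
  have hτ0 : 0 < τ := lt_of_lt_of_le (by norm_num) hτ
  have hc0 : ∀ r, 0 ≤ c r := by
    intro r
    have h1 := (abs_nonneg _).trans (hc r (fun _ => 1))
    have h2 : ‖(fun _ => 1 : Z)‖ = 1 := by
      rw [pi_norm_const]
      exact norm_one
    rwa [h2, mul_one] at h1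
  have hball : ∀ ζ : Z, ‖ζ‖ ≤ ρ - E → ‖ζ + e ζ‖ ≤ ρ := fun ζ hζ => by
    have := norm_add_le ζ (e ζ)
    have := he ζ
    linarith
  -- the end positions
  have hpos : ∀ ζ : Z, ‖ζ‖ ≤ ρ - E → ‖qT + comb WT (ζ + e ζ) - τ • V‖ ≤ 8 := by
    intro ζ hζ
    have h1 : qT + comb WT (ζ + e ζ) - τ • V = (qT - τ • V) + comb WT (ζ + e ζ) := by abel
    rw [h1]
    refine (norm_add_le _ _).trans ?_
    have h2 := hWT (ζ + e ζ)
    have h3 : cW * ‖ζ + e ζ‖ ≤ cW * ρ := mul_le_mul_of_nonneg_left (hball ζ hζ) hcW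
    linarith
  obtain ⟨Sh, hSh⟩ : ∃ Sh : Z → X, ∀ ζ, Sh ζ = vT + comb VT (ζ + e ζ) -
    Vel (qT + comb WT (ζ + e ζ)) := ⟨_, fun _ => rfl⟩
  refine ⟨Sh, fun ζ hζ => ?_, fun r => ?_, fun r ζ ζ' hζ hζ' => ?_⟩
  · obtain ⟨t1, t2⟩ := hVel _ (hpos ζ hζ)
    have hy : ‖vT + comb VT (ζ + e ζ) - V‖ ≤ 1 / 8 := by
      have h1 : vT + comb VT (ζ + e ζ) - V = (vT - V) + comb VT (ζ + e ζ) := by abel
      rw [h1]
      refine (norm_add_le _ _).trans ?_
      have h2 := hVT (ζ + e ζ)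
      have h3 : cV * ‖ζ + e ζ‖ ≤ cV * ρ := mul_le_mul_of_nonneg_left (hball ζ hζ) hcV
      linarith
    refine ⟨?_, (qT + comb WT (ζ + e ζ), vT + comb VT (ζ + e ζ)), ?_, ?_, hy⟩
    · have h1 : Sh ζ = (vT + comb VT (ζ + e ζ) - V) -
          (Vel (qT + comb WT (ζ + e ζ)) - V + τ⁻¹ • Fo V) + τ⁻¹ • Fo V := by
        rw [hSh]
        abel
      rw [h1]
      have h2 : ‖τ⁻¹ • Fo V‖ ≤ 1 / 32 := by
        rw [norm_smul, norm_inv, Real.norm_eq_abs, abs_of_pos hτ0]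
        have h3 := run_Fo_le hV
        have h4 : τ⁻¹ ≤ 1 / 64 := by
          rw [inv_le_comm₀ hτ0 (by norm_num)]
          norm_num
          linarith [hτ, (by norm_num : (64 : ℝ) ≤ 2 ^ 16)]
        have h5 : 0 ≤ τ⁻¹ := by positivity
        have h6 := norm_nonneg (Fo V)
        nlinarith
      have h7 : 200 / τ ^ 2 ≤ 1 / 32 := by
        rw [div_le_div_iff₀ (by positivity) (by norm_num)]
        nlinarith [hτ]
      calc _ ≤ ‖(vT + comb VT (ζ + e ζ) - V) -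
            (Vel (qT + comb WT (ζ + e ζ)) - V + τ⁻¹ • Fo V)‖ + ‖τ⁻¹ • Fo V‖ := norm_add_le _ _
        _ ≤ (‖vT + comb VT (ζ + e ζ) - V‖ +
            ‖Vel (qT + comb WT (ζ + e ζ)) - V + τ⁻¹ • Fo V‖) + ‖τ⁻¹ • Fo V‖ := by
            gcongr
            exact norm_sub_le _ _
        _ ≤ (1 / 8 + 1 / 32) + 1 / 32 := by
            gcongr
            exact t2.trans h7
        _ ≤ 1 / 4 := by norm_num
    · rw [← hF]
      exact hflow ζ hζ
    · simp only
      rw [hSh, sub_sub_cancel]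
      exact t1
  · have h0 : ‖(0 : Z)‖ ≤ ρ - E := by
      rw [norm_zero]
      linarith
    obtain ⟨-, t2⟩ := hVel _ (hpos 0 h0)
    have h1 : Sh 0 = (vT - V + τ⁻¹ • Fo V) + comb VT (e 0) -
        (Vel (qT + comb WT (0 + e 0)) - V + τ⁻¹ • Fo V) := by
      rw [hSh, zero_add]
      abel
    rw [h1, run_co_sub, run_co_add]
    have h2 := hs r
    have h3 := (hc r (e 0)).trans (mul_le_mul_of_nonneg_left (he 0) (hc0 r))
    have h4 := (run_co_le r _).trans t2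
    calc _ ≤ |co r (vT - V + τ⁻¹ • Fo V) + co r (comb VT (e 0))| +
          |co r (Vel (qT + comb WT (0 + e 0)) - V + τ⁻¹ • Fo V)| := abs_sub _ _
      _ ≤ (|co r (vT - V + τ⁻¹ • Fo V)| + |co r (comb VT (e 0))|) +
          |co r (Vel (qT + comb WT (0 + e 0)) - V + τ⁻¹ • Fo V)| := by
          gcongr
          exact abs_add_le _ _
      _ ≤ s + c r * E + 200 / τ ^ 2 := by linarith
  · have h1 : Sh ζ - Sh ζ' - comb VT (ζ - ζ') = comb VT (e ζ - e ζ') -
        (Vel (qT + comb WT (ζ + e ζ)) - Vel (qT + comb WT (ζ' + e ζ'))) := by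
      rw [hSh, hSh, run_comb_sub, run_comb_sub, run_comb_add VT ζ, run_comb_add VT ζ']
      abel
    rw [h1, run_co_sub]
    have h2 := (hc r (e ζ - e ζ')).trans (mul_le_mul_of_nonneg_left (heL ζ ζ') (hc0 r))
    have h3 := hVelL _ _ (hpos ζ hζ) (hpos ζ' hζ')
    have h4 : qT + comb WT (ζ + e ζ) - (qT + comb WT (ζ' + e ζ')) =
        comb WT ((ζ - ζ') + (e ζ - e ζ')) := by
      rw [run_comb_add, run_comb_add, run_comb_add, run_comb_sub, run_comb_sub]
      abel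
    have h5 : ‖(ζ - ζ') + (e ζ - e ζ')‖ ≤ (1 + L) * ‖ζ - ζ'‖ := by
      refine (norm_add_le _ _).trans ?_
      have := heL ζ ζ'
      linarith
    have h6 : ‖qT + comb WT (ζ + e ζ) - (qT + comb WT (ζ' + e ζ'))‖ ≤
        cW * ((1 + L) * ‖ζ - ζ'‖) := by
      rw [h4]
      exact (hWT _).trans (mul_le_mul_of_nonneg_left h5 hcW)
    have h7 : 0 ≤ 50 / τ ^ 2 := by positivity
    have h8 := (run_co_le r _).trans (h3.trans (mul_le_mul_of_nonneg_left h6 h7))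
    calc _ ≤ |co r (comb VT (e ζ - e ζ'))| +
          |co r (Vel (qT + comb WT (ζ + e ζ)) - Vel (qT + comb WT (ζ' + e ζ')))| := abs_sub _ _
      _ ≤ c r * (L * ‖ζ - ζ'‖) + 50 / τ ^ 2 * (cW * ((1 + L) * ‖ζ - ζ'‖)) := add_le_add h2 h8
      _ = _ := by ring

end Pool.Agent.Work.MP_76acb6_an
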