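import Pool.Agent.Work.MP_76acb6_an.Claims

/-!
# A9: solution of the shooting problem
-/

set_option autoImplicit false

namespace Pool.Agent.Work.MP_76acb6_an

open Set Filter Topology MeasureTheory
open scoped ComplexConjugate

lemma claimSolve_co_sub (r : Fin 4) (x y : X) : co r (x - y) = co r x - co r y := by
  fin_cases r <;> simp [co]

lemma claimSolve_ext {x : X} (h : ∀ r, co r x = 0) : x = 0 := by
  have h0 := h 0
  have h1 := h 1
  have h2 := h 2
  have h3 := h 3
  simp only [co] at h0 h1 h2 h3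
  exact Prod.ext (Complex.ext h0 h1) (Complex.ext h2 h3)

lemma claimSolve_Ke_neg (v : X) : Ke (-v) = Ke v := by
  simp [Ke]

lemma claimSolve_Ke_aX : Ke aX = 1 := by
  have e1 : Real.sqrt (2 / 3) * Real.sqrt (1 / 6) = 1 / 3 := by
    rw [← Real.sqrt_mul (by norm_num)]
    rw [show (2 / 3 * (1 / 6) : ℝ) = (1 / 3) ^ 2 by norm_num]
    exact Real.sqrt_sq (by norm_num)
  have s1 : Real.sqrt (2 / 3) * Real.sqrt (2 / 3) = 2 / 3 := Real.mul_self_sqrt (by norm_num)
  have s2 : Real.sqrt (1 / 6) * Real.sqrt (1 / 6) = 1 / 6 := Real.mul_self_sqrt (by norm_num)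
  have s3 : Real.sqrt (1 / 2) * Real.sqrt (1 / 2) = 1 / 2 := Real.mul_self_sqrt (by norm_num)
  unfold Ke aX
  rw [Complex.sq_norm, Complex.sq_norm, Complex.normSq_mk, Complex.normSq_mk, Complex.mul_re,
    Complex.conj_re, Complex.conj_im]
  dsimp only
  linarith

lemma claimSolve_Ke_bX : Ke bX = 1 := by
  simp [Ke, bX]

lemma claimSolve_dd_aX (i : Fin 3) : dd i aX ≠ 0 := by
  have h3 : 0 < Real.sqrt (1 / 2) := Real.sqrt_pos.2 (by norm_num)
  intro h
  have h2 := congrArg Complex.im h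
  fin_cases i
  · simp only [dd, aX, Complex.sub_im, Complex.zero_im] at h2
    linarith
  · simp only [dd, aX, Complex.add_im, Complex.mul_im, Complex.zero_im, Complex.re_ofNat,
      Complex.im_ofNat] at h2
    linarith
  · simp only [dd, aX, Complex.add_im, Complex.neg_im, Complex.mul_im, Complex.zero_im,
      Complex.re_ofNat, Complex.im_ofNat] at h2
    linarith

lemma claimSolve_dd_bX (i : Fin 3) : dd i bX ≠ 0 := by
  fin_cases i <;> simp [dd, bX]

lemma claimSolve_mu (v w : X) (hv : ‖v - bX‖ ≤ 1 / 8) (hw : ‖w‖ ≤ 1 / 4)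
    (hc : ∀ r, r ≠ 0 → co r w = 0) (hK : Ke v = Ke (v - w)) : w = 0 := by
  have h1 := hc 1 (by decide)
  have h2 := hc 2 (by decide)
  have h3 := hc 3 (by decide)
  simp only [co] at h1 h2 h3
  have a1 : |v.1.re + 1| ≤ 1 / 8 := by
    have := (Complex.abs_re_le_norm (v - bX).1).trans ((norm_fst_le _).trans hv)
    simpa [bX] using this
  have a2 : |v.2.re| ≤ 1 / 8 := by
    have := (Complex.abs_re_le_norm (v - bX).2).trans ((norm_snd_le _).trans hv)
    simpa [bX] using this
  have a3 : |w.1.re| ≤ 1 / 4 := (Complex.abs_re_le_norm w.1).trans ((norm_fst_le _).trans hw)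
  rw [abs_le] at a1 a2 a3
  have hK2 : w.1.re * (2 * v.1.re + v.2.re - w.1.re) = 0 := by
    have := hK
    unfold Ke at this
    rw [Complex.sq_norm, Complex.sq_norm, Complex.sq_norm, Complex.sq_norm, Complex.normSq_apply,
      Complex.normSq_apply, Complex.normSq_apply, Complex.normSq_apply, Complex.mul_re,
      Complex.mul_re, Complex.conj_re, Complex.conj_im, Complex.conj_re, Complex.conj_im,
      Prod.fst_sub, Prod.snd_sub, Complex.sub_re, Complex.sub_im, Complex.sub_re, Complex.sub_im,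
      h1, h2, h3] at this
    linarith
  rcases mul_eq_zero.1 hK2 with h | h
  · exact Prod.ext (Complex.ext h h1) (Complex.ext h2 h3)
  · exfalso
    linarith

/-- Embedding of the seven unknowns. -/
noncomputable def claimSolve_emb (om : Fin 7 → ℝ) : Z :=
  fun i => if h : (i : ℕ) < 7 then om ⟨i, h⟩ else 0

lemma claimSolve_emb_sub (om om' : Fin 7 → ℝ) :
    claimSolve_emb om - claimSolve_emb om' = claimSolve_emb (om - om') := by
  funext i
  simp only [claimSolve_emb, Pi.sub_apply]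
  split_ifs
  · rfl
  · exact sub_zero 0

lemma claimSolve_emb_norm (om : Fin 7 → ℝ) : ‖claimSolve_emb om‖ ≤ ‖om‖ := by
  refine (pi_norm_le_iff_of_nonneg (norm_nonneg _)).2 fun i => ?_
  simp only [claimSolve_emb]
  split_ifs
  · exact norm_le_pi_norm om _
  · rw [norm_zero]
    exact norm_nonneg _

lemma claimSolve_emb_zero : claimSolve_emb 0 = 0 := by
  funext i
  simp only [claimSolve_emb]
  split_ifs <;> rfl

theorem claimSolve (h1 : ClaimEnergy) (h2 : ClaimTrans) : ClaimSolve := by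
  intro Tp Tm s lam eta σ SP SM VP VM ShP ShM hSM hσ hlam heta hs hP hM hP0 hM0 hPL hML hMV hPV
    hlt hsσ
  set E := claimSolve_emb with hE
  -- the map
  set Ψ : (Fin 7 → ℝ) → (Fin 7 → ℝ) := fun om =>
    ![co 0 (ShM (E om)), co 1 (ShM (E om)), co 2 (ShM (E om)), co 3 (ShM (E om)),
      co 1 (ShP (E om)), co 2 (ShP (E om)), co 3 (ShP (E om))] with hΨ
  have key : ∀ om om', ‖om‖ ≤ σ → ‖om'‖ ≤ σ →
      ‖(om - Ψ om) - (om' - Ψ om')‖ ≤ (lam + eta) * ‖om - om'‖ := by
    intro om om' ho ho'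
    have hn : ‖E om - E om'‖ ≤ ‖om - om'‖ := by
      rw [hE, claimSolve_emb_sub]
      exact claimSolve_emb_norm _
    have hoE : ‖E om‖ ≤ σ := (claimSolve_emb_norm om).trans ho
    have hoE' : ‖E om'‖ ≤ σ := (claimSolve_emb_norm om').trans ho'
    have hsub : E om - E om' = E (om - om') := claimSolve_emb_sub om om'
    have step : ∀ (x y : X) (c : X) (r : Fin 4) (d : ℝ),
        |co r (x - y - c)| ≤ lam * ‖E om - E om'‖ → |co r c - d| ≤ eta * ‖E om - E om'‖ →
        |d - (co r x - co r y)| ≤ (lam + eta) * ‖om - om'‖ := by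
      intro x y c r d ha hb
      rw [claimSolve_co_sub, claimSolve_co_sub] at ha
      have hc : |d - (co r x - co r y)| ≤ lam * ‖E om - E om'‖ + eta * ‖E om - E om'‖ := by
        rw [abs_le] at ha hb ⊢
        constructor <;> linarith
      refine hc.trans ?_
      rw [← add_mul]
      exact mul_le_mul_of_nonneg_left hn (by positivity)
    have hE0 : ∀ j : Fin 7, (E om - E om') (Fin.castSucc j) = om j - om' j := by
      intro j
      rw [hsub]
      simp [hE, claimSolve_emb]
    refine (pi_norm_le_iff_of_nonneg (by positivity)).2 fun i => ?_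
    have hm := hMV (E om - E om')
    have hp := hPV (E om - E om')
    have c0 := step _ _ _ 0 _ (hML 0 _ _ hoE hoE') hm.1
    have c1 := step _ _ _ 1 _ (hML 1 _ _ hoE hoE') hm.2.1
    have c2 := step _ _ _ 2 _ (hML 2 _ _ hoE hoE') hm.2.2.1
    have c3 := step _ _ _ 3 _ (hML 3 _ _ hoE hoE') hm.2.2.2
    have c4 := step _ _ _ 1 _ (hPL 1 _ _ (by decide) hoE hoE') hp.1
    have c5 := step _ _ _ 2 _ (hPL 2 _ _ (by decide) hoE hoE') hp.2.1
    have c6 := step _ _ _ 3 _ (hPL 3 _ _ (by decide) hoE hoE') hp.2.2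
    have g0 := hE0 0
    have g1 := hE0 1
    have g2 := hE0 2
    have g3 := hE0 3
    have g4 := hE0 4
    have g5 := hE0 5
    have g6 := hE0 6
    change (E om - E om') 0 = _ at g0
    change (E om - E om') 1 = _ at g1
    change (E om - E om') 2 = _ at g2
    change (E om - E om') 3 = _ at g3
    change (E om - E om') 4 = _ at g4
    change (E om - E om') 5 = _ at g5
    change (E om - E om') 6 = _ at g6
    rw [g0] at c0
    rw [g1] at c1
    rw [g2] at c2
    rw [g3] at c3
    rw [g4] at c4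
    rw [g5] at c5
    rw [g6] at c6
    rw [Real.norm_eq_abs]
    have e : ∀ a b c d : ℝ, a - b - (c - d) = a - c - (b - d) := fun a b c d => by ring
    fin_cases i
    · change |om 0 - co 0 (ShM (E om)) - (om' 0 - co 0 (ShM (E om')))| ≤ _
      rw [e]; exact c0
    · change |om 1 - co 1 (ShM (E om)) - (om' 1 - co 1 (ShM (E om')))| ≤ _
      rw [e]; exact c1
    · change |om 2 - co 2 (ShM (E om)) - (om' 2 - co 2 (ShM (E om')))| ≤ _
      rw [e]; exact c2
    · change |om 3 - co 3 (ShM (E om)) - (om' 3 - co 3 (ShM (E om')))| ≤ _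
      rw [e]; exact c3
    · change |om 4 - co 1 (ShP (E om)) - (om' 4 - co 1 (ShP (E om')))| ≤ _
      rw [e]; exact c4
    · change |om 5 - co 2 (ShP (E om)) - (om' 5 - co 2 (ShP (E om')))| ≤ _
      rw [e]; exact c5
    · change |om 6 - co 3 (ShP (E om)) - (om' 6 - co 3 (ShP (E om')))| ≤ _
      rw [e]; exact c6
  have h0 : ‖Ψ 0‖ ≤ s := by
    refine (pi_norm_le_iff_of_nonneg hs).2 fun i => ?_
    rw [Real.norm_eq_abs]
    have hz : E 0 = 0 := claimSolve_emb_zero
    fin_cases i
    · change |co 0 (ShM (E 0))| ≤ s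
      rw [hz]; exact hM0 0
    · change |co 1 (ShM (E 0))| ≤ s
      rw [hz]; exact hM0 1
    · change |co 2 (ShM (E 0))| ≤ s
      rw [hz]; exact hM0 2
    · change |co 3 (ShM (E 0))| ≤ s
      rw [hz]; exact hM0 3
    · change |co 1 (ShP (E 0))| ≤ s
      rw [hz]; exact hP0 1 (by decide)
    · change |co 2 (ShP (E 0))| ≤ s
      rw [hz]; exact hP0 2 (by decide)
    · change |co 3 (ShP (E 0))| ≤ s
      rw [hz]; exact hP0 3 (by decide)
  -- the fixed point
  have hmaps : MapsTo (fun om => om - Ψ om) (Metric.closedBall (0 : Fin 7 → ℝ) σ)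
      (Metric.closedBall (0 : Fin 7 → ℝ) σ) := by
    intro om ho
    rw [mem_closedBall_zero_iff] at ho ⊢
    have hk := key om 0 ho (by rw [norm_zero]; exact hσ.le)
    rw [sub_zero, zero_sub, sub_neg_eq_add] at hk
    have h3 : ‖om - Ψ om‖ ≤ ‖om - Ψ om + Ψ 0‖ + ‖Ψ 0‖ := by
      have := norm_sub_le (om - Ψ om + Ψ 0) (Ψ 0)
      rwa [add_sub_cancel_right] at this
    have h4 : (lam + eta) * ‖om‖ ≤ (lam + eta) * σ :=
      mul_le_mul_of_nonneg_left ho (by positivity)
    change ‖om - Ψ om‖ ≤ σ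
    nlinarith
  have hcon : ContractingWith ⟨lam + eta, by positivity⟩
      (hmaps.restrict (fun om => om - Ψ om) _ _) := by
    refine ⟨by
      rw [← NNReal.coe_lt_coe]
      exact hlt, LipschitzWith.of_dist_le_mul fun x y => ?_⟩
    rw [Subtype.dist_eq, Subtype.dist_eq, dist_eq_norm, dist_eq_norm]
    exact key x y (mem_closedBall_zero_iff.1 x.2) (mem_closedBall_zero_iff.1 y.2)
  obtain ⟨om, hom, hfix, -, -⟩ := hcon.exists_fixedPoint' Metric.isClosed_closedBall.isComplete
    hmaps (x := 0) (Metric.mem_closedBall_self hσ.le) (edist_ne_top _ _)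
  have hΨ0 : Ψ om = 0 := by
    have : om - Ψ om = om := hfix
    simpa using this
  rw [mem_closedBall_zero_iff] at hom
  have hoE : ‖E om‖ ≤ σ := (claimSolve_emb_norm om).trans hom
  have hM4 : ShM (E om) = 0 := by
    apply claimSolve_ext
    intro r
    fin_cases r
    · exact congrFun hΨ0 0
    · exact congrFun hΨ0 1
    · exact congrFun hΨ0 2
    · exact congrFun hΨ0 3
  have hP3 : ∀ r, r ≠ 0 → co r (ShP (E om)) = 0 := by
    intro r hr
    fin_cases r
    · exact absurd rfl hr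
    · exact congrFun hΨ0 4
    · exact congrFun hΨ0 5
    · exact congrFun hΨ0 6
  obtain ⟨hPn, yP, hPF, hPT, hPb⟩ := hP (E om) hoE
  obtain ⟨-, yM, hMF, hMT, -⟩ := hM (E om) hoE
  rw [hM4, sub_zero] at hMT
  have hTa : Tail aX (SM (E om)) := h2.2 Tm _ _ aX hMF hMT
  have e1 : Ke (SM (E om)).2 - Ue (SM (E om)).1 = 1 := by
    rw [h1.2 aX _ claimSolve_dd_aX hTa, claimSolve_Ke_aX]
  rw [hSM] at e1 hTa
  rw [claimSolve_Ke_neg] at e1
  have e2 := h1.1 Tp _ _ hPF
  have e3 := h1.2 bX _ claimSolve_dd_bX hPT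
  rw [claimSolve_Ke_bX] at e3
  dsimp only at e1 e3
  have hw := claimSolve_mu yP.2 (ShP (E om)) hPb hPn hP3 (by linarith)
  rw [hw, sub_zero] at hPT
  exact ⟨SP (E om), h2.2 Tp _ _ bX hPF hPT, hTa⟩

end Pool.Agent.Work.MP_76acb6_an
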