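import Pool.Agent.Work.MP_76acb6_an.Claims

/-!
# Composition of steps
-/

set_option autoImplicit false

namespace Pool.Agent.Work.MP_76acb6_an

open Set Filter Topology MeasureTheory

/-- A5. Composition of steps. -/
theorem claimStep (h : ClaimTrans) : ClaimStep := by
  rintro ρ T E L T' E' L' S F G ⟨hE, hL, e, he, hLe, hF⟩ ⟨hE', hL', e', he', hLe', hG⟩
  refine ⟨by linarith, by positivity, fun ζ => e ζ + e' (ζ + e ζ), ?_, ?_, ?_⟩
  · intro ζ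
    exact (norm_add_le _ _).trans (add_le_add (he ζ) (he' _))
  · intro ζ ζ'
    have h1 : e ζ + e' (ζ + e ζ) - (e ζ' + e' (ζ' + e ζ')) =
        (e ζ - e ζ') + (e' (ζ + e ζ) - e' (ζ' + e ζ')) := by abel
    have h2 : ‖(ζ + e ζ) - (ζ' + e ζ')‖ ≤ ‖ζ - ζ'‖ + L * ‖ζ - ζ'‖ := by
      have : (ζ + e ζ) - (ζ' + e ζ') = (ζ - ζ') + (e ζ - e ζ') := by abel
      rw [this]
      exact (norm_add_le _ _).trans (add_le_add le_rfl (hLe _ _))
    have h3 := (hLe' (ζ + e ζ) (ζ' + e ζ')).trans (mul_le_mul_of_nonneg_left h2 hL')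
    calc ‖e ζ + e' (ζ + e ζ) - (e ζ' + e' (ζ' + e ζ'))‖
        ≤ ‖e ζ - e ζ'‖ + ‖e' (ζ + e ζ) - e' (ζ' + e ζ')‖ := by
          rw [h1]; exact norm_add_le _ _
      _ ≤ L * ‖ζ - ζ'‖ + L' * (‖ζ - ζ'‖ + L * ‖ζ - ζ'‖) := add_le_add (hLe _ _) h3
      _ = (L + L' + L * L') * ‖ζ - ζ'‖ := by ring
  · intro ζ hζ
    have h1 := hF ζ (by linarith)
    have h2 : ‖ζ + e ζ‖ ≤ ρ - E' := by
      have := (norm_add_le ζ (e ζ)).trans (add_le_add le_rfl (he ζ))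
      linarith
    have h3 := hG (ζ + e ζ) h2
    have h4 := h.1 T T' _ _ _ h1 h3
    rwa [add_assoc] at h4

/-- Weakening of the constants of a step. -/
theorem step_mono {ρ T E L E' L' : ℝ} {S F : Z → X × X} (h : Step ρ T E L S F) (hE : E ≤ E')
    (hL : L ≤ L') : Step ρ T E' L' S F := by
  obtain ⟨h1, h2, e, h3, h4, h5⟩ := h
  refine ⟨h1.trans hE, h2.trans hL, e, fun ζ => (h3 ζ).trans hE, fun ζ ζ' => ?_, fun ζ hζ => ?_⟩
  · exact (h4 ζ ζ').trans (mul_le_mul_of_nonneg_right hL (norm_nonneg _))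
  · exact h5 ζ (by linarith)

end Pool.Agent.Work.MP_76acb6_an
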