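import Pool.Agent.Work.MP_76acb6_an.Defs

/-!
# Equilateral-to-collinear bi-hyperbolic motion: the list of claims
-/

set_option autoImplicit false

namespace Pool.Agent.Work.MP_76acb6_an

open Set Filter Topology MeasureTheory
open scoped ComplexConjugate

/-- A1. Calculus of `phi`. -/
def ClaimPhi : Prop :=
  (∀ z w : ℂ, z ≠ 0 → HasDerivAt (fun s : ℝ => phi (z + s • w)) (dphi z w) 0) ∧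
  (∀ z w w' : ℂ, ∀ M κ : ℝ, z ≠ 0 → ‖z‖⁻¹ ≤ M → M * κ ≤ 1 / 64 → ‖w‖ ≤ κ → ‖w'‖ ≤ κ →
    z + w ≠ 0 ∧ ‖phi (z + w) - phi (z + w') - dphi z (w - w')‖ ≤ 10 * M ^ 4 * κ * ‖w - w'‖) ∧
  (∀ z z' : ℂ, ∀ M : ℝ, z ≠ 0 → z' ≠ 0 → ‖z‖⁻¹ ≤ M → ‖z'‖⁻¹ ≤ M →
    ‖phi z - phi z'‖ ≤ 4 * M ^ 3 * ‖z - z'‖) ∧
  (∀ z : ℂ, ‖phi z‖ = ‖z‖⁻¹ ^ 2) ∧ ContinuousOn phi {z | z ≠ 0}

/-- A2. Abstract fixed point lemma (contraction in `C([-1,1], Z)`). -/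
def ClaimFix : Prop := ∀ (g C : ℝ → Z → Z) (G L e : ℝ),
  ContinuousOn (fun p : ℝ × Z => g p.1 p.2) (Icc (-1) 1 ×ˢ univ) →
  ContinuousOn (fun p : ℝ × Z => C p.1 p.2) (Icc (-1) 1 ×ˢ univ) →
  0 ≤ G → 0 ≤ L → 0 ≤ e → 2 * L + e < 1 →
  (∀ x ∈ Icc (-1 : ℝ) 1, ∀ ζ, ‖g x ζ‖ ≤ G) →
  (∀ x ∈ Icc (-1 : ℝ) 1, ∀ ζ ζ', ‖g x ζ - g x ζ'‖ ≤ L * ‖ζ - ζ'‖) →
  (∀ x ∈ Icc (-1 : ℝ) 1, C x 0 = 0) →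
  (∀ x ∈ Icc (-1 : ℝ) 1, ∀ y y', ‖C x y - C x y'‖ ≤ e * ‖y - y'‖) →
  ∃ th : Z → ℝ → Z, (∀ ζ, Continuous (th ζ)) ∧
    (∀ ζ, ∀ x ∈ Icc (-1 : ℝ) 1, th ζ x = g x (ζ + ∫ s in (-1 : ℝ)..x, th ζ s) + C x (th ζ x)) ∧
    (∀ ζ, ∀ x ∈ Icc (-1 : ℝ) 1, ‖th ζ x‖ ≤ G / (1 - e)) ∧
    (∀ ζ ζ', ∀ x ∈ Icc (-1 : ℝ) 1, ‖th ζ x - th ζ' x‖ ≤ L / (1 - e - 2 * L) * ‖ζ - ζ'‖)

/-- A3. One piece. -/
def ClaimPiece : Prop := ∀ (O : Fin 8 → Fin 8 → ℝ) (h : ℝ) (q q1 q2 : ℝ → X)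
  (W W1 W2 : ℝ → Fin 8 → X) (m lam beta eps : ℝ) (D M : Fin 3 → ℝ) (ρ l : ℝ),
  PieceHyp O h q q1 q2 W W1 W2 m lam beta eps D M → 0 < ρ → 0 ≤ m → 0 ≤ lam → 0 ≤ beta →
  0 ≤ eps → (∀ i, 0 ≤ D i) → (∀ i, M i * D i * ρ ≤ 1 / 64) →
  lam + 10 * h ^ 2 * ρ * ∑ i, M i ^ 4 * D i ^ 2 ≤ l → 2 * beta * l + eps ≤ 1 / 2 →
  Step ρ (2 * h) (2 * beta * (m + l * ρ) / (1 - eps)) (2 * beta * l / (1 - eps - 2 * beta * l))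
    (node h (q (-1)) (q1 (-1)) (W (-1)) (W1 (-1))) (node h (q 1) (q1 1) (W 1) (W1 1))

/-- A4. Concatenation of flows, and of a flow with a tail. -/
def ClaimTrans : Prop :=
  (∀ (T T' : ℝ) (y y' y'' : X × X), Flow T y y' → Flow T' y' y'' → Flow (T + T') y y'') ∧
  (∀ (T : ℝ) (y y' : X × X) (V : X), Flow T y y' → Tail V y' → Tail V y)

/-- A5. Composition of steps. -/
def ClaimStep : Prop :=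
  ∀ (ρ T E L T' E' L' : ℝ) (S F G : Z → X × X), Step ρ T E L S F → Step ρ T' E' L' F G →
    Step ρ (T + T') (E + E') (L + L' + L * L') S G

/-- A6. The half line problem with prescribed limit velocity. -/
def ClaimTail : Prop := ∀ (V : X) (τ : ℝ), (∀ i, 1 ≤ ‖dd i V‖) → 2 ^ 16 ≤ τ →
  ∃ Vel : X → X, (∀ p, ‖p - τ • V‖ ≤ 8 → Tail V (p, Vel p) ∧
      ‖Vel p - V + τ⁻¹ • Fo V‖ ≤ 200 / τ ^ 2) ∧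
    ∀ p p', ‖p - τ • V‖ ≤ 8 → ‖p' - τ • V‖ ≤ 8 → ‖Vel p - Vel p'‖ ≤ 50 / τ ^ 2 * ‖p - p'‖

/-- A7. Energy. -/
def ClaimEnergy : Prop :=
  (∀ (T : ℝ) (y y' : X × X), Flow T y y' → Ke y.2 - Ue y.1 = Ke y'.2 - Ue y'.1) ∧
  (∀ (V : X) (y : X × X), (∀ i, dd i V ≠ 0) → Tail V y → Ke y.2 - Ue y.1 = Ke V)

/-- A8. The shooting function of one run. -/
def ClaimRun : Prop := ∀ (V : X) (τ ρ T E L cW cV s : ℝ) (c : Fin 4 → ℝ) (S F : Z → X × X)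
  (qT vT : X) (WT VT : Fin 8 → X), (∀ i, 1 ≤ ‖dd i V‖) → 2 ^ 16 ≤ τ → Step ρ T E L S F →
  0 ≤ ρ → E ≤ ρ → (∀ ζ, F ζ = (qT + comb WT ζ, vT + comb VT ζ)) → ‖qT - τ • V‖ ≤ 5 →
  0 ≤ cW → 0 ≤ cV → (∀ ζ, ‖comb WT ζ‖ ≤ cW * ‖ζ‖) → cW * ρ ≤ 1 →
  (∀ ζ, ‖comb VT ζ‖ ≤ cV * ‖ζ‖) → cV * ρ ≤ 1 / 16 → (∀ r ζ, |co r (comb VT ζ)| ≤ c r * ‖ζ‖) →
  ‖vT - V‖ ≤ 1 / 16 → (∀ r, |co r (vT - V + τ⁻¹ • Fo V)| ≤ s) →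
  ∃ Sh : Z → X,
    (∀ ζ, ‖ζ‖ ≤ ρ - E → ‖Sh ζ‖ ≤ 1 / 4 ∧ ∃ y' : X × X, Flow T (S ζ) y' ∧
      Tail V (y'.1, y'.2 - Sh ζ) ∧ ‖y'.2 - V‖ ≤ 1 / 8) ∧
    (∀ r, |co r (Sh 0)| ≤ s + c r * E + 200 / τ ^ 2) ∧
    ∀ r ζ ζ', ‖ζ‖ ≤ ρ - E → ‖ζ'‖ ≤ ρ - E → |co r (Sh ζ - Sh ζ' - comb VT (ζ - ζ'))| ≤
      (c r * L + 50 / τ ^ 2 * (cW * (1 + L))) * ‖ζ - ζ'‖

/-- A9. Solution of the shooting problem. -/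
def ClaimSolve : Prop := ∀ (Tp Tm s lam eta σ : ℝ) (SP SM : Z → X × X) (VP VM : Fin 8 → X)
  (ShP ShM : Z → X),
  (∀ ζ, SM ζ = ((SP ζ).1, -(SP ζ).2)) → 0 < σ → 0 ≤ lam → 0 ≤ eta → 0 ≤ s →
  (∀ ζ, ‖ζ‖ ≤ σ → ‖ShP ζ‖ ≤ 1 / 4 ∧ ∃ y' : X × X, Flow Tp (SP ζ) y' ∧
    Tail bX (y'.1, y'.2 - ShP ζ) ∧ ‖y'.2 - bX‖ ≤ 1 / 8) →
  (∀ ζ, ‖ζ‖ ≤ σ → ‖ShM ζ‖ ≤ 1 / 4 ∧ ∃ y' : X × X, Flow Tm (SM ζ) y' ∧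
    Tail aX (y'.1, y'.2 - ShM ζ) ∧ ‖y'.2 - aX‖ ≤ 1 / 8) →
  (∀ r, r ≠ 0 → |co r (ShP 0)| ≤ s) → (∀ r, |co r (ShM 0)| ≤ s) →
  (∀ r ζ ζ', r ≠ 0 → ‖ζ‖ ≤ σ → ‖ζ'‖ ≤ σ →
    |co r (ShP ζ - ShP ζ' - comb VP (ζ - ζ'))| ≤ lam * ‖ζ - ζ'‖) →
  (∀ r ζ ζ', ‖ζ‖ ≤ σ → ‖ζ'‖ ≤ σ →
    |co r (ShM ζ - ShM ζ' - comb VM (ζ - ζ'))| ≤ lam * ‖ζ - ζ'‖) →
  (∀ ζ, |co 0 (comb VM ζ) - ζ 0| ≤ eta * ‖ζ‖ ∧ |co 1 (comb VM ζ) - ζ 1| ≤ eta * ‖ζ‖ ∧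
    |co 2 (comb VM ζ) - ζ 2| ≤ eta * ‖ζ‖ ∧ |co 3 (comb VM ζ) - ζ 3| ≤ eta * ‖ζ‖) →
  (∀ ζ, |co 1 (comb VP ζ) - ζ 4| ≤ eta * ‖ζ‖ ∧ |co 2 (comb VP ζ) - ζ 5| ≤ eta * ‖ζ‖ ∧
    |co 3 (comb VP ζ) - ζ 6| ≤ eta * ‖ζ‖) →
  lam + eta < 1 → s ≤ (1 - lam - eta) * σ →
  ∃ y : X × X, Tail bX y ∧ Tail aX (y.1, -y.2)

/-- A10. Gluing the two halves. -/
def ClaimGlue : Prop := ∀ (a b : X) (y : X × X), Tail b y → Tail a (y.1, -y.2) →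
  ∃ Q V : ℝ → X, (∀ t, (∀ m, dd m (Q t) ≠ 0) ∧ HasDerivAt Q (V t) t ∧
    HasDerivAt V (Fo (Q t)) t) ∧ Tendsto (fun t : ℝ => t⁻¹ • Q t) atTop (𝓝 b) ∧
    Tendsto (fun t : ℝ => |t|⁻¹ • Q t) atBot (𝓝 a)

/-- A11. Back to the original problem (rotation class of `z`, scaling, three bodies). -/
def ClaimBack : Prop :=
  (∃ Q V : ℝ → X, (∀ t, (∀ m, dd m (Q t) ≠ 0) ∧ HasDerivAt Q (V t) t ∧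
    HasDerivAt V (Fo (Q t)) t) ∧ Tendsto (fun t : ℝ => t⁻¹ • Q t) atTop (𝓝 bX) ∧
    Tendsto (fun t : ℝ => |t|⁻¹ • Q t) atBot (𝓝 aX)) →
  ∀ h : ℝ, 0 < h → ∀ z : ℂ, z ^ 3 = 1 → z ≠ 1 → ∃ x : ℝ → Fin 3 → ℂ, IsMotion x ∧
    (∀ i, (fun t : ℝ => x t i - ((|t| : ℝ) : ℂ) * aShape h z i) =o[atBot] fun t : ℝ => t) ∧
    (∀ i, (fun t : ℝ => x t i - (t : ℂ) * bShape h i) =o[atTop] fun t : ℝ => t)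

/-! ### B. Soundness of the checker -/

/-- B1. Packed polynomials. -/
structure ClaimPK : Prop where
  ofPo : ∀ l : Po, Rep (PK.ofPo l) (evR l)
  const : ∀ c : ℤ, Rep (PK.const c) (fun _ => (c : ℝ))
  add : ∀ (k l : PK) (f g : ℝ → ℝ), Rep k f → Rep l g → Rep (k.add l) fun x => f x + g x
  sub : ∀ (k l : PK) (f g : ℝ → ℝ), Rep k f → Rep l g → Rep (k.sub l) fun x => f x - g x
  mul : ∀ (k l : PK) (f g : ℝ → ℝ), Rep k f → Rep l g → Rep (k.mul l) fun x => f x * g x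
  scN : ∀ (k : PK) (f : ℝ → ℝ) (c : ℕ), Rep k f → Rep (k.scN c) fun x => (c : ℝ) * f x
  scZ : ∀ (k : PK) (f : ℝ → ℝ) (c : ℤ), Rep k f → Rep (PK.scZ c k) fun x => (c : ℝ) * f x
  zero : Rep ⟨0, 0, 0, 0⟩ (fun _ => 0)
  sup : ∀ (k : PK) (f : ℝ → ℝ), Rep k f → Nat.blt k.b (2 ^ 383) = true →
    ∀ x ∈ Icc (-1 : ℝ) 1, |f x| * 2 ^ k.d ≤ k.supN
  bd : ∀ (k : PK) (f : ℝ → ℝ) (s b : ℕ), Rep k f → k.bd s b = true →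
    ∀ x ∈ Icc (-1 : ℝ) 1, |f x / 2 ^ s| ≤ b / 2 ^ 60
  bdSq : ∀ (k : PK) (f : ℝ → ℝ) (s b : ℕ), Rep k f → k.bdSq s b = true →
    ∀ x ∈ Icc (-1 : ℝ) 1, |f x / 2 ^ s| ≤ (b / 2 ^ 60) ^ 2

/-- Representation of complex valued functions. -/
def RepC (k : CK) (f : ℝ → ℂ) : Prop := Rep k.re (fun x => (f x).re) ∧ Rep k.im fun x => (f x).im

def RepX (k : WK) (f : ℝ → X) : Prop := RepC k.a (fun x => (f x).1) ∧ RepC k.b fun x => (f x).2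

/-- B2. Complex packed polynomials. -/
structure ClaimCK : Prop where
  ofCP : ∀ c : CP, RepC (CK.ofCP c) fun x => ⟨evR c.re x, evR c.im x⟩
  add : ∀ (k l : CK) (f g : ℝ → ℂ), RepC k f → RepC l g → RepC (k.add l) fun x => f x + g x
  sub : ∀ (k l : CK) (f g : ℝ → ℂ), RepC k f → RepC l g → RepC (k.sub l) fun x => f x - g x
  scN : ∀ (k : CK) (f : ℝ → ℂ) (c : ℕ), RepC k f → RepC (k.scN c) fun x => (c : ℂ) * f x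
  scZ : ∀ (k : CK) (f : ℝ → ℂ) (c : ℤ), RepC k f → RepC (CK.scZ c k) fun x => (c : ℂ) * f x
  rm : ∀ (p : PK) (k : CK) (f : ℝ → ℝ) (g : ℝ → ℂ), Rep p f → RepC k g →
    RepC (CK.rm p k) fun x => (f x : ℂ) * g x
  nsq : ∀ (k : CK) (f : ℝ → ℂ), RepC k f → Rep k.nsq fun x => ‖f x‖ ^ 2
  sq : ∀ (k : CK) (f : ℝ → ℂ), RepC k f → RepC k.sq fun x => f x ^ 2
  mulConj : ∀ (k l : CK) (f g : ℝ → ℂ), RepC k f → RepC l g →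
    RepC (k.mulConj l) fun x => f x * conj (g x)
  rip : ∀ (k l : CK) (f g : ℝ → ℂ), RepC k f → RepC l g →
    Rep (k.rip l) fun x => (conj (f x) * g x).re
  bdc : ∀ (k : CK) (f : ℝ → ℂ) (s b : ℕ), RepC k f → k.bdc s b = true →
    ∀ x ∈ Icc (-1 : ℝ) 1, ‖f x / 2 ^ s‖ ≤ 3 / 2 * (b / 2 ^ 60)

/-- B3. Derivatives of the piece functions. -/
def ClaimDer : Prop :=
  (∀ (c : Col) (s : ℕ) (x : ℝ), HasDerivAt (c.f s) (c.der.f s x) x) ∧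
  (∀ (c : Col) (s : ℕ), Continuous (c.f s))

/-- Common hypotheses. -/
def Good (O om : List (List ℤ)) (p : PD) : Prop :=
  chkO O om = true ∧ p.shape = true ∧ chk O om p = true

/-- The difference `dd i` of the reference orbit as used by the checker. -/
def PD.pr (p : PD) (i : Fin 3) : PairD := match i with
  | 0 => p.p1
  | 1 => p.p2
  | 2 => p.p3

def PD.DQ (p : PD) (i : Fin 3) : ℚ := match i with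
  | 0 => p.D1
  | 1 => p.D2
  | 2 => p.D3

/-- B4. Distances: `u = evR u / 2^ue` approximates `1/|d|`. -/
def ClaimU : Prop := ∀ (O om : List (List ℤ)) (p : PD), Good O om p → ∀ x ∈ Icc (-1 : ℝ) 1,
  ∀ i : Fin 3, dd i (p.qf x) ≠ 0 ∧ ‖dd i (p.qf x)‖⁻¹ ≤ ((p.pr i).MQ : ℝ) ∧
    ‖phi (dd i (p.qf x)) - ((evR (p.pr i).u x / 2 ^ p.ue : ℝ) : ℂ) ^ 3 * dd i (p.qf x)‖ ≤
      4 * (N60 (p.pr i).e : ℝ) * (N60 (p.pr i).M : ℝ) ^ 2 ∧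
    |evR (p.pr i).al x / 2 ^ p.ae - (-(1 / 2) * ‖dd i (p.qf x)‖⁻¹ ^ 3)| ≤ ((p.pr i).EA : ℝ) ∧
    ‖(p.pr i).be.f p.ae x - ((-(3 / 2) * ‖dd i (p.qf x)‖⁻¹ ^ 5 : ℝ) : ℂ) * dd i (p.qf x) ^ 2‖ ≤
      ((p.pr i).EB : ℝ)

/-- B5. Residual of the reference orbit. -/
def ClaimRes : Prop := ∀ (O om : List (List ℤ)) (p : PD), Good O om p → ∀ x ∈ Icc (-1 : ℝ) 1,
  ‖((p.hQ : ℝ) ^ 2) • Fo (p.qf x) - p.q2f x‖ ≤ (p.mQ : ℝ)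

/-- B6. Residual of the linearised solutions. -/
def ClaimCols : Prop := ∀ (O om : List (List ℤ)) (p : PD), Good O om p → ∀ x ∈ Icc (-1 : ℝ) 1,
  ∀ ζ : Z, ‖((p.hQ : ℝ) ^ 2) • DFo (p.qf x) (comb (p.Wf x) ζ) - comb (p.W2f x) ζ‖
      ≤ (p.lamQ : ℝ) * ‖ζ‖ ∧
    ∀ i, ‖dd i (comb (p.Wf x) ζ)‖ ≤ (p.DQ i : ℝ) * ‖ζ‖

/-- B7. The approximate inverse. -/
def ClaimB : Prop := ∀ (O om : List (List ℤ)) (p : PD), Good O om p → ∀ x ∈ Icc (-1 : ℝ) 1,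
  ∀ y : X, ‖(fun i => (p.hQ : ℝ)⁻¹ * ∑ j, OR O i j * ip (p.Wf x j) y : Z)‖ ≤ (p.betaQ : ℝ) * ‖y‖

/-- B8. `B A` is close to the identity. -/
def ClaimBA : Prop := ∀ (O om : List (List ℤ)) (p : PD), Good O om p → ∀ x ∈ Icc (-1 : ℝ) 1,
  ∀ ζ : Z, ‖(fun i => (p.hQ : ℝ)⁻¹ * ∑ j, OR O i j * (ip (p.Wf x j) (comb (p.W1f x) ζ) -
    ip (p.W1f x j) (comb (p.Wf x) ζ)) : Z) - ζ‖ ≤ (p.epsQ : ℝ) * ‖ζ‖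

/-- B9. The step of one piece of the certificate. -/
def ClaimGood : Prop := ∀ (O om : List (List ℤ)) (p : PD) (ρ : ℚ), Good O om p → 0 < ρ →
  p.numOK ρ = true →
  Step (ρ : ℝ) (2 * (p.hQ : ℝ)) (p.EQ ρ : ℝ) (p.LQ ρ : ℝ) p.S p.F

/-- B10. Matching of consecutive pieces, and of the first pieces of the two runs. -/
def ClaimMatch : Prop :=
  (∀ p p' : PD, nodeEq p p' = true → p.F = p'.S) ∧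
  (∀ p p' : PD, flipEq p p' = true → ∀ ζ, p'.S ζ = ((p.S ζ).1, -(p.S ζ).2))

end Pool.Agent.Work.MP_76acb6_an
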