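import Mathlib
import Pool.Agent.Work.MP_76acb6_an.Claims

set_option autoImplicit false

/-! A6. The half line problem with prescribed limit velocity. -/

namespace Pool.Agent.Work.MP_76acb6_an

open Set Filter Topology MeasureTheory
open scoped ComplexConjugate BoundedContinuousFunction

theorem tail_dd_sub (i : Fin 3) (a b : X) : dd i (a - b) = dd i a - dd i b := by
  fin_cases i <;> simp [dd] <;> ring

theorem tail_dd_smul (i : Fin 3) (s : ℝ) (a : X) : dd i (s • a) = (s : ℂ) * dd i a := by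
  fin_cases i <;> simp [dd] <;> ring

theorem tail_dd_norm (i : Fin 3) (a : X) : ‖dd i a‖ ≤ 3 * ‖a‖ := by
  have h1 := norm_fst_le a
  have h2 := norm_snd_le a
  have e2 : ‖(2 : ℂ)‖ = 2 := by norm_num
  fin_cases i
  · calc ‖a.1 - a.2‖ ≤ ‖a.1‖ + ‖a.2‖ := norm_sub_le _ _
      _ ≤ 3 * ‖a‖ := by linarith [norm_nonneg a]
  · calc ‖a.1 + 2 * a.2‖ ≤ ‖a.1‖ + ‖2 * a.2‖ := norm_add_le _ _
      _ = ‖a.1‖ + 2 * ‖a.2‖ := by rw [norm_mul, e2]
      _ ≤ 3 * ‖a‖ := by linarith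
  · calc ‖-(2 * a.1 + a.2)‖ = ‖2 * a.1 + a.2‖ := norm_neg _
      _ ≤ ‖2 * a.1‖ + ‖a.2‖ := norm_add_le _ _
      _ = 2 * ‖a.1‖ + ‖a.2‖ := by rw [norm_mul, e2]
      _ ≤ 3 * ‖a‖ := by linarith

theorem tail_dd_cont (i : Fin 3) : Continuous (dd i) := by
  fin_cases i
  · exact continuous_fst.sub continuous_snd
  · exact continuous_fst.add (continuous_const.mul continuous_snd)
  · exact ((continuous_const.mul continuous_fst).add continuous_snd).neg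

section cone

variable {V : X} {s : ℝ} {q q' : X}

theorem tail_low (hV : ∀ i, 1 ≤ ‖dd i V‖) (hs : 0 < s) (hq : ‖q - s • V‖ ≤ s / 100)
    (i : Fin 3) : 97 / 100 * s ≤ ‖dd i q‖ := by
  have h1 : dd i (s • V) = dd i q - dd i (q - s • V) := by rw [tail_dd_sub]; ring
  have h2 : ‖dd i (s • V)‖ ≤ ‖dd i q‖ + ‖dd i (q - s • V)‖ := by
    rw [h1]; exact norm_sub_le _ _
  have h3 : ‖dd i (s • V)‖ = s * ‖dd i V‖ := by
    rw [tail_dd_smul, norm_mul, Complex.norm_real, Real.norm_of_nonneg hs.le]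
  have h4 := tail_dd_norm i (q - s • V)
  have h5 : s * 1 ≤ s * ‖dd i V‖ := mul_le_mul_of_nonneg_left (hV i) hs.le
  linarith

theorem tail_ne (hV : ∀ i, 1 ≤ ‖dd i V‖) (hs : 0 < s) (hq : ‖q - s • V‖ ≤ s / 100)
    (i : Fin 3) : dd i q ≠ 0 := by
  intro h
  have := tail_low hV hs hq i
  rw [h, norm_zero] at this
  linarith

theorem tail_inv (hV : ∀ i, 1 ≤ ‖dd i V‖) (hs : 0 < s) (hq : ‖q - s • V‖ ≤ s / 100)
    (i : Fin 3) : ‖dd i q‖⁻¹ ≤ 100 / 97 * s⁻¹ := by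
  have h := tail_low hV hs hq i
  calc ‖dd i q‖⁻¹ ≤ (97 / 100 * s)⁻¹ := inv_anti₀ (by positivity) h
    _ = 100 / 97 * s⁻¹ := by rw [mul_inv]; norm_num

theorem tail_Fo_norm (h : ClaimPhi) (hV : ∀ i, 1 ≤ ‖dd i V‖) (hs : 0 < s)
    (hq : ‖q - s • V‖ ≤ s / 100) : ‖Fo q‖ ≤ 213 / 100 * s⁻¹ ^ 2 := by
  have hp : ∀ i, ‖phi (dd i q)‖ ≤ (100 / 97) ^ 2 * s⁻¹ ^ 2 := fun i => by
    rw [h.2.2.2.1, ← mul_pow]
    exact pow_le_pow_left₀ (by positivity) (tail_inv hV hs hq i) 2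
  have hs2 : 0 ≤ s⁻¹ ^ 2 := by positivity
  rw [Fo, Prod.norm_def]
  refine max_le ?_ ?_
  · calc ‖-phi (dd 0 q) + phi (dd 2 q)‖ ≤ ‖-phi (dd 0 q)‖ + ‖phi (dd 2 q)‖ := norm_add_le _ _
      _ = ‖phi (dd 0 q)‖ + ‖phi (dd 2 q)‖ := by rw [norm_neg]
      _ ≤ 213 / 100 * s⁻¹ ^ 2 := by nlinarith [hp 0, hp 2]
  · calc ‖phi (dd 0 q) - phi (dd 1 q)‖ ≤ ‖phi (dd 0 q)‖ + ‖phi (dd 1 q)‖ := norm_sub_le _ _
      _ ≤ 213 / 100 * s⁻¹ ^ 2 := by nlinarith [hp 0, hp 1]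

theorem tail_Fo_lip (h : ClaimPhi) (hV : ∀ i, 1 ≤ ‖dd i V‖) (hs : 0 < s)
    (hq : ‖q - s • V‖ ≤ s / 100) (hq' : ‖q' - s • V‖ ≤ s / 100) :
    ‖Fo q - Fo q'‖ ≤ 27 * s⁻¹ ^ 3 * ‖q - q'‖ := by
  have hp : ∀ i, ‖phi (dd i q) - phi (dd i q')‖ ≤ 27 / 2 * s⁻¹ ^ 3 * ‖q - q'‖ := fun i => by
    have h1 := h.2.2.1 (dd i q) (dd i q') (100 / 97 * s⁻¹) (tail_ne hV hs hq i)
      (tail_ne hV hs hq' i) (tail_inv hV hs hq i) (tail_inv hV hs hq' i)
    have h2 := tail_dd_norm i (q - q')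
    rw [tail_dd_sub] at h2
    have h3 : 0 ≤ s⁻¹ ^ 3 := by positivity
    calc ‖phi (dd i q) - phi (dd i q')‖ ≤ 4 * (100 / 97 * s⁻¹) ^ 3 * ‖dd i q - dd i q'‖ := h1
      _ ≤ 4 * (100 / 97 * s⁻¹) ^ 3 * (3 * ‖q - q'‖) := by gcongr
      _ = (12 * (100 / 97) ^ 3) * (s⁻¹ ^ 3 * ‖q - q'‖) := by ring
      _ ≤ (27 / 2) * (s⁻¹ ^ 3 * ‖q - q'‖) := by gcongr; norm_num
      _ = 27 / 2 * s⁻¹ ^ 3 * ‖q - q'‖ := by ring
  rw [Fo, Fo, Prod.mk_sub_mk, Prod.norm_def]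
  refine max_le ?_ ?_
  · calc ‖-phi (dd 0 q) + phi (dd 2 q) - (-phi (dd 0 q') + phi (dd 2 q'))‖
        = ‖(phi (dd 2 q) - phi (dd 2 q')) - (phi (dd 0 q) - phi (dd 0 q'))‖ := by
          congr 1; ring
      _ ≤ ‖phi (dd 2 q) - phi (dd 2 q')‖ + ‖phi (dd 0 q) - phi (dd 0 q')‖ := norm_sub_le _ _
      _ ≤ 27 * s⁻¹ ^ 3 * ‖q - q'‖ := by linarith [hp 0, hp 2]
  · calc ‖phi (dd 0 q) - phi (dd 1 q) - (phi (dd 0 q') - phi (dd 1 q'))‖
        = ‖(phi (dd 0 q) - phi (dd 0 q')) - (phi (dd 1 q) - phi (dd 1 q'))‖ := by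
          congr 1; ring
      _ ≤ ‖phi (dd 0 q) - phi (dd 0 q')‖ + ‖phi (dd 1 q) - phi (dd 1 q')‖ := norm_sub_le _ _
      _ ≤ 27 * s⁻¹ ^ 3 * ‖q - q'‖ := by linarith [hp 0, hp 1]

end cone

theorem tail_Fo_cont (h : ClaimPhi) : ContinuousOn Fo {q | ∀ i, dd i q ≠ 0} := by
  have hc : ∀ i, ContinuousOn (fun q => phi (dd i q)) {q | ∀ i, dd i q ≠ 0} := fun i =>
    h.2.2.2.2.comp (tail_dd_cont i).continuousOn fun q hq => hq i
  exact ((hc 0).neg.add (hc 2)).prodMk ((hc 0).sub (hc 1))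

theorem tail_phi_smul (s : ℝ) (hs : 0 < s) (z : ℂ) :
    phi ((s : ℂ) * z) = ((s⁻¹ ^ 2 : ℝ) : ℂ) * phi z := by
  have hs' : (s : ℂ) ≠ 0 := by exact_mod_cast hs.ne'
  by_cases hz : z = 0
  · simp [phi, hz]
  have hz' : ((‖z‖ : ℝ) : ℂ) ≠ 0 := by exact_mod_cast (norm_ne_zero_iff.2 hz)
  simp only [phi, norm_mul, Complex.norm_real, Real.norm_of_nonneg hs.le]
  push_cast
  field_simp

theorem tail_Fo_smul (s : ℝ) (hs : 0 < s) (q : X) :
    Fo (s • q) = s⁻¹ ^ 2 • Fo q := by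
  ext1
  · simp only [Fo, tail_dd_smul, tail_phi_smul s hs, Prod.smul_mk, Complex.real_smul]
    ring
  · simp only [Fo, tail_dd_smul, tail_phi_smul s hs, Prod.smul_mk, Complex.real_smul]
    ring

/-! ### Integrals of powers -/

section powers

variable {τ a : ℝ}

theorem tail_tend (τ : ℝ) : Tendsto (fun t : ℝ => (τ + t)⁻¹) atTop (𝓝 0) :=
  tendsto_inv_atTop_zero.comp (tendsto_atTop_add_const_left _ _ tendsto_id)

theorem tail_d2 (hτ : 0 < τ) {t : ℝ} (ht : 0 ≤ t) :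
    HasDerivAt (fun t : ℝ => -(τ + t)⁻¹) ((τ + t)⁻¹ ^ 2) t := by
  have h0 : τ + t ≠ 0 := by positivity
  have h1 : HasDerivAt (fun t : ℝ => τ + t) 1 t := (hasDerivAt_id t).const_add τ
  have h2 : HasDerivAt (fun t : ℝ => -(τ + t)⁻¹) (-(-1 / (τ + t) ^ 2)) t := (h1.inv h0).neg
  exact h2.congr_deriv (by rw [neg_div, neg_neg, one_div, inv_pow])

theorem tail_d3 (hτ : 0 < τ) {t : ℝ} (ht : 0 ≤ t) :
    HasDerivAt (fun t : ℝ => -(1 / 2 * (τ + t)⁻¹ ^ 2)) ((τ + t)⁻¹ ^ 3) t := by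
  have h0 : τ + t ≠ 0 := by positivity
  have h1 : HasDerivAt (fun t : ℝ => τ + t) 1 t := (hasDerivAt_id t).const_add τ
  have h2 : HasDerivAt (fun t : ℝ => -(1 / 2 * (τ + t)⁻¹ ^ 2))
      (-(1 / 2 * (((2 : ℕ) : ℝ) * (τ + t)⁻¹ ^ (2 - 1) * (-1 / (τ + t) ^ 2)))) t :=
    (((h1.inv h0).pow 2).const_mul (1 / 2 : ℝ)).neg
  refine h2.congr_deriv ?_
  norm_num
  field_simp

theorem tail_i2 (hτ : 0 < τ) (ha : 0 ≤ a) : IntegrableOn (fun t : ℝ => (τ + t)⁻¹ ^ 2) (Ioi a) ∧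
    ∫ t in Ioi a, (τ + t)⁻¹ ^ 2 = (τ + a)⁻¹ := by
  have hl : Tendsto (fun t : ℝ => -(τ + t)⁻¹) atTop (𝓝 0) := by
    simpa using (tail_tend τ).neg
  have hd : ∀ x ∈ Ici a, HasDerivAt (fun t : ℝ => -(τ + t)⁻¹) ((τ + x)⁻¹ ^ 2) x :=
    fun x hx => tail_d2 hτ (ha.trans hx)
  refine ⟨integrableOn_Ioi_deriv_of_nonneg' hd (fun x _ => by positivity) hl, ?_⟩
  rw [integral_Ioi_of_hasDerivAt_of_nonneg' hd (fun x _ => by positivity) hl]
  ring

theorem tail_i3 (hτ : 0 < τ) (ha : 0 ≤ a) : IntegrableOn (fun t : ℝ => (τ + t)⁻¹ ^ 3) (Ioi a) ∧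
    ∫ t in Ioi a, (τ + t)⁻¹ ^ 3 = 1 / 2 * (τ + a)⁻¹ ^ 2 := by
  have hl : Tendsto (fun t : ℝ => -(1 / 2 * (τ + t)⁻¹ ^ 2)) atTop (𝓝 0) := by
    simpa using (((tail_tend τ).pow 2).const_mul (1 / 2 : ℝ)).neg
  have hp : ∀ x ∈ Ioi a, 0 ≤ (τ + x)⁻¹ ^ 3 := fun x hx => by
    have : 0 < x := lt_of_le_of_lt ha hx
    positivity
  have hd : ∀ x ∈ Ici a, HasDerivAt (fun t : ℝ => -(1 / 2 * (τ + t)⁻¹ ^ 2)) ((τ + x)⁻¹ ^ 3) x :=
    fun x hx => tail_d3 hτ (ha.trans hx)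
  refine ⟨integrableOn_Ioi_deriv_of_nonneg' hd hp hl, ?_⟩
  rw [integral_Ioi_of_hasDerivAt_of_nonneg' hd hp hl]
  ring

end powers

/-! ### The orbit of a velocity perturbation -/

/-- The orbit. -/
noncomputable def tailQ (V p : X) (u : ℝ → X) (t : ℝ) : X := p + t • V + ∫ s in (0 : ℝ)..t, u s

/-- The force along the orbit. -/
noncomputable def tailF (V p : X) (u : ℝ → X) (t : ℝ) : X := Fo (tailQ V p u (max t 0))

/-- Admissible data. -/
structure TailOK (V p : X) (τ : ℝ) (u : ℝ → X) : Prop where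
  hV : ∀ i, 1 ≤ ‖dd i V‖
  hτ : 2 ^ 16 ≤ τ
  hp : ‖p - τ • V‖ ≤ 8
  cu : Continuous u
  bu : ∀ t, ‖u t‖ ≤ 1 / 200

section orbit

variable {V p p' : X} {τ : ℝ} {u u' : ℝ → X}

theorem TailOK.pos (H : TailOK V p τ u) : 0 < τ := by linarith [H.hτ, (by norm_num : (0:ℝ) < 2 ^ 16)]

theorem tail_diff (V p : X) (τ : ℝ) (u : ℝ → X) (t : ℝ) : tailQ V p u t - (τ + t) • V
    = (p - τ • V) + ∫ s in (0 : ℝ)..t, u s := by
  simp only [tailQ, add_smul]; abel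

theorem TailOK.cone (H : TailOK V p τ u) {t : ℝ} (ht : 0 ≤ t) :
    ‖tailQ V p u t - (τ + t) • V‖ ≤ (τ + t) / 100 := by
  rw [tail_diff]
  have h1 : ‖∫ s in (0 : ℝ)..t, u s‖ ≤ 1 / 200 * |t - 0| :=
    intervalIntegral.norm_integral_le_of_norm_le_const fun x _ => H.bu x
  rw [sub_zero, abs_of_nonneg ht] at h1
  have h2 := norm_add_le (p - τ • V) (∫ s in (0 : ℝ)..t, u s)
  have h3 := H.hp
  have h4 := H.hτ
  norm_num at h4
  linarith

theorem TailOK.contQ (H : TailOK V p τ u) : Continuous (tailQ V p u) := by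
  unfold tailQ
  exact (continuous_const.add (continuous_id.smul continuous_const)).add
    (intervalIntegral.continuous_primitive (fun a b => H.cu.intervalIntegrable a b) 0)

theorem TailOK.ne (H : TailOK V p τ u) {t : ℝ} (ht : 0 ≤ t) (i : Fin 3) :
    dd i (tailQ V p u t) ≠ 0 :=
  tail_ne H.hV (by linarith [H.pos]) (H.cone ht) i

theorem TailOK.contF (h : ClaimPhi) (H : TailOK V p τ u) : Continuous (tailF V p u) := by
  unfold tailF
  exact (tail_Fo_cont h).comp_continuous (H.contQ.comp (continuous_id.max continuous_const))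
    fun t i => H.ne (le_max_right _ _) i

theorem TailOK.normF (h : ClaimPhi) (H : TailOK V p τ u) {t : ℝ} (ht : 0 ≤ t) :
    ‖tailF V p u t‖ ≤ 213 / 100 * (τ + t)⁻¹ ^ 2 := by
  unfold tailF
  rw [max_eq_left ht]
  exact tail_Fo_norm h H.hV (by linarith [H.pos]) (H.cone ht)

theorem TailOK.intF (h : ClaimPhi) (H : TailOK V p τ u) {a : ℝ} (ha : 0 ≤ a) :
    IntegrableOn (tailF V p u) (Ioi a) := by
  refine Integrable.mono' ((tail_i2 H.pos ha).1.const_mul (213 / 100))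
    (H.contF h).aestronglyMeasurable ?_
  filter_upwards [self_mem_ae_restrict measurableSet_Ioi] with t ht
  exact H.normF h (ha.trans (le_of_lt ht))

/-- The new velocity perturbation. -/
noncomputable def tailT (V p : X) (u : ℝ → X) (t : ℝ) : X :=
  (∫ s in (0 : ℝ)..(max t 0), tailF V p u s) - ∫ s in Ioi 0, tailF V p u s

theorem TailOK.T_eq (h : ClaimPhi) (H : TailOK V p τ u) {t : ℝ} (ht : 0 ≤ t) :
    tailT V p u t = -∫ s in Ioi t, tailF V p u s := by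
  unfold tailT
  rw [max_eq_left ht, ← intervalIntegral.integral_Ioi_sub_Ioi (H.intF h le_rfl) ht]
  abel

theorem TailOK.contT (h : ClaimPhi) (H : TailOK V p τ u) : Continuous (tailT V p u) := by
  unfold tailT
  exact ((intervalIntegral.continuous_primitive
    (fun a b => (H.contF h).intervalIntegrable a b) 0).comp
    (continuous_id.max continuous_const)).sub continuous_const

theorem TailOK.T_norm (h : ClaimPhi) (H : TailOK V p τ u) {t : ℝ} (ht : 0 ≤ t) :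
    ‖tailT V p u t‖ ≤ 213 / 100 * (τ + t)⁻¹ := by
  rw [H.T_eq h ht, norm_neg]
  have h2 := tail_i2 H.pos ht
  calc ‖∫ s in Ioi t, tailF V p u s‖ ≤ ∫ s in Ioi t, 213 / 100 * (τ + s)⁻¹ ^ 2 := by
        refine norm_integral_le_of_norm_le (h2.1.const_mul (213 / 100)) ?_
        filter_upwards [self_mem_ae_restrict measurableSet_Ioi] with s hs
        exact H.normF h (ht.trans (le_of_lt hs))
    _ = 213 / 100 * (τ + t)⁻¹ := by rw [integral_const_mul, h2.2]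

theorem tail_T_max (V p : X) (u : ℝ → X) (t : ℝ) : tailT V p u t = tailT V p u (max t 0) := by
  unfold tailT; simp

theorem TailOK.T_bound (h : ClaimPhi) (H : TailOK V p τ u) (t : ℝ) :
    ‖tailT V p u t‖ ≤ 1 / 200 := by
  rw [tail_T_max]
  have h1 := H.T_norm h (le_max_right t 0)
  have h2 : (τ + max t 0)⁻¹ ≤ (2 ^ 16 : ℝ)⁻¹ :=
    inv_anti₀ (by norm_num) (by linarith [H.hτ, le_max_right t 0])
  refine h1.trans ?_
  norm_num at h2 ⊢
  linarith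

theorem tail_T_diff (h : ClaimPhi) (H : TailOK V p τ u) (H' : TailOK V p' τ u') {D : ℝ}
    (hD : ∀ t, 0 ≤ t → ‖u t - u' t‖ ≤ D) {t : ℝ} (ht : 0 ≤ t) :
    ‖tailT V p u t - tailT V p' u' t‖ ≤ 27 / 2 * ‖p - p'‖ * τ⁻¹ ^ 2 + 27 * D * τ⁻¹ := by
  have hD0 : 0 ≤ D := (norm_nonneg _).trans (hD 0 le_rfl)
  have hτ := H.pos
  rw [H.T_eq h ht, H'.T_eq h ht]
  have hi2 := tail_i2 hτ ht
  have hi3 := tail_i3 hτ ht
  have key : ∀ s, t < s → ‖tailF V p u s - tailF V p' u' s‖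
      ≤ 27 * ‖p - p'‖ * (τ + s)⁻¹ ^ 3 + 27 * D * (τ + s)⁻¹ ^ 2 := by
    intro s hs
    have hs0 : 0 ≤ s := ht.trans hs.le
    have hpos : 0 < τ + s := by linarith
    unfold tailF
    rw [max_eq_left hs0]
    have h1 := tail_Fo_lip h H.hV hpos (H.cone hs0) (H'.cone hs0)
    have h2 : ‖tailQ V p u s - tailQ V p' u' s‖ ≤ ‖p - p'‖ + D * (τ + s) := by
      have e : tailQ V p u s - tailQ V p' u' s = (p - p') + ∫ r in (0 : ℝ)..s, (u r - u' r) := by
        rw [intervalIntegral.integral_sub (H.cu.intervalIntegrable _ _)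
          (H'.cu.intervalIntegrable _ _)]
        simp only [tailQ]; abel
      rw [e]
      have h3 : ‖∫ r in (0 : ℝ)..s, (u r - u' r)‖ ≤ D * |s - 0| := by
        refine intervalIntegral.norm_integral_le_of_norm_le_const fun x hx => hD x ?_
        rw [uIoc_of_le hs0] at hx
        exact hx.1.le
      rw [sub_zero, abs_of_nonneg hs0] at h3
      have h4 := norm_add_le (p - p') (∫ r in (0 : ℝ)..s, (u r - u' r))
      nlinarith
    calc ‖Fo (tailQ V p u s) - Fo (tailQ V p' u' s)‖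
        ≤ 27 * (τ + s)⁻¹ ^ 3 * ‖tailQ V p u s - tailQ V p' u' s‖ := h1
      _ ≤ 27 * (τ + s)⁻¹ ^ 3 * (‖p - p'‖ + D * (τ + s)) := by gcongr
      _ = 27 * ‖p - p'‖ * (τ + s)⁻¹ ^ 3 + 27 * D * (τ + s)⁻¹ ^ 2 := by
          field_simp
  have e1 : -(∫ s in Ioi t, tailF V p u s) - -(∫ s in Ioi t, tailF V p' u' s)
      = -∫ s in Ioi t, (tailF V p u s - tailF V p' u' s) := by
    rw [integral_sub (H.intF h ht) (H'.intF h ht)]; abel
  rw [e1, norm_neg]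
  have hle : (τ + t)⁻¹ ≤ τ⁻¹ := inv_anti₀ hτ (by linarith)
  have hnn : 0 ≤ (τ + t)⁻¹ := by positivity
  calc ‖∫ s in Ioi t, (tailF V p u s - tailF V p' u' s)‖
      ≤ ∫ s in Ioi t, (27 * ‖p - p'‖ * (τ + s)⁻¹ ^ 3 + 27 * D * (τ + s)⁻¹ ^ 2) := by
        refine norm_integral_le_of_norm_le
          ((hi3.1.const_mul _).add (hi2.1.const_mul _)) ?_
        filter_upwards [self_mem_ae_restrict measurableSet_Ioi] with s hs
        exact key s hs
    _ = 27 * ‖p - p'‖ * (1 / 2 * (τ + t)⁻¹ ^ 2) + 27 * D * (τ + t)⁻¹ := by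
        rw [integral_add (hi3.1.const_mul _) (hi2.1.const_mul _), integral_const_mul,
          integral_const_mul, hi2.2, hi3.2]
    _ ≤ 27 * ‖p - p'‖ * (1 / 2 * τ⁻¹ ^ 2) + 27 * D * τ⁻¹ := by gcongr
    _ = _ := by ring

end orbit

/-- The ball of velocity perturbations. -/
abbrev TailBall := ↥(Metric.closedBall (0 : ℝ →ᵇ X) (1 / 200))

theorem tail_exists (h : ClaimPhi) {V p : X} {τ : ℝ} (hV : ∀ i, 1 ≤ ‖dd i V‖)
    (hτ : 2 ^ 16 ≤ τ) (hp : ‖p - τ • V‖ ≤ 8) :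
    ∃ u : ℝ → X, TailOK V p τ u ∧ ∀ t, u t = tailT V p u t := by
  have ok : ∀ u : TailBall, TailOK V p τ u.1 := fun u =>
    ⟨hV, hτ, hp, u.1.continuous, fun t => (u.1.norm_coe_le_norm t).trans
      (by simpa using u.2)⟩
  let T : TailBall → TailBall := fun u =>
    ⟨BoundedContinuousFunction.ofNormedAddCommGroup (tailT V p u.1) ((ok u).contT h) (1 / 200)
      ((ok u).T_bound h), by
      rw [mem_closedBall_zero_iff]
      exact BoundedContinuousFunction.norm_ofNormedAddCommGroup_le _ (by norm_num) _⟩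
  have hT : ContractingWith (1 / 2) T := by
    refine ⟨by
      rw [← NNReal.coe_lt_coe]; norm_num, LipschitzWith.of_dist_le_mul fun u u' => ?_⟩
    rw [Subtype.dist_eq, Subtype.dist_eq]
    refine (BoundedContinuousFunction.dist_le (by positivity)).2 fun t => ?_
    have h1 := tail_T_diff h (ok u) (ok u') (D := dist u.1 u'.1)
      (fun t _ => by rw [← dist_eq_norm]; exact BoundedContinuousFunction.dist_coe_le_dist t)
      (le_max_right t 0)
    rw [← tail_T_max, ← tail_T_max, sub_self, norm_zero, mul_zero, zero_mul, zero_add] at h1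
    have h2 : τ⁻¹ ≤ (2 ^ 16 : ℝ)⁻¹ := inv_anti₀ (by norm_num) hτ
    have h3 : 0 ≤ dist u.1 u'.1 := dist_nonneg
    have h4 : dist ((T u).1 t) ((T u').1 t) = ‖tailT V p u.1 t - tailT V p u'.1 t‖ :=
      dist_eq_norm _ _
    rw [h4]
    have h5 : 27 * dist u.1 u'.1 * τ⁻¹ ≤ 27 * dist u.1 u'.1 * (2 ^ 16 : ℝ)⁻¹ := by gcongr
    have h6 : (((1 / 2 : NNReal) : NNReal) : ℝ) = 1 / 2 := by norm_num
    rw [h6]
    norm_num at h5 ⊢
    linarith
  have : Nonempty TailBall := ⟨⟨0, by simp⟩⟩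
  have : CompleteSpace TailBall := Metric.isClosed_closedBall.completeSpace_coe
  refine ⟨(ContractingWith.fixedPoint T hT).1, ok _, fun t => ?_⟩
  have hu := ContractingWith.fixedPoint_isFixedPt hT
  exact (congrArg (fun w : TailBall => w.1 t) hu).symm

section final

variable {V p p' : X} {τ : ℝ} {u u' : ℝ → X}

theorem tail_u_norm (h : ClaimPhi) (H : TailOK V p τ u) (hu : ∀ t, u t = tailT V p u t) {t : ℝ}
    (ht : 0 ≤ t) : ‖u t‖ ≤ 213 / 100 * (τ + t)⁻¹ := by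
  rw [hu t]; exact H.T_norm h ht

theorem tail_u_tend (h : ClaimPhi) (H : TailOK V p τ u) (hu : ∀ t, u t = tailT V p u t) :
    Tendsto u atTop (𝓝 0) := by
  refine squeeze_zero_norm' (a := fun t => 213 / 100 * (τ + t)⁻¹) ?_ ?_
  · filter_upwards [eventually_ge_atTop 0] with t ht
    exact tail_u_norm h H hu ht
  · simpa using (tail_tend τ).const_mul (213 / 100)

theorem tail_int_u (h : ClaimPhi) (H : TailOK V p τ u) (hu : ∀ t, u t = tailT V p u t) {t : ℝ}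
    (ht : 0 ≤ t) : ‖∫ s in (0 : ℝ)..t, u s‖ ≤ 213 / 100 * (Real.log (τ + t) - Real.log τ) := by
  have hτ := H.pos
  have hd : ∀ x ∈ uIcc 0 t, HasDerivAt (fun x => 213 / 100 * Real.log (τ + x))
      (213 / 100 * (τ + x)⁻¹) x := by
    intro x hx
    rw [uIcc_of_le ht] at hx
    have h0 : τ + x ≠ 0 := by linarith [hx.1]
    have h1 : HasDerivAt (fun x : ℝ => τ + x) 1 x := (hasDerivAt_id x).const_add τ
    have h2 := (h1.log h0).const_mul (213 / 100 : ℝ)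
    rwa [one_div] at h2
  have hc : ContinuousOn (fun x => 213 / 100 * (τ + x)⁻¹) (uIcc 0 t) := by
    rw [uIcc_of_le ht]
    refine continuousOn_const.mul (ContinuousOn.inv₀ (by fun_prop) fun x hx => ?_)
    linarith [hx.1]
  have h1 := intervalIntegral.norm_integral_le_of_norm_le (f := u) (μ := volume) ht
    (g := fun x => 213 / 100 * (τ + x)⁻¹)
    (Eventually.of_forall fun x hx => tail_u_norm h H hu hx.1.le) hc.intervalIntegrable
  rw [intervalIntegral.integral_eq_sub_of_hasDerivAt hd hc.intervalIntegrable] at h1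
  rw [add_zero] at h1
  linarith

theorem tail_tail (h : ClaimPhi) (H : TailOK V p τ u) (hu : ∀ t, u t = tailT V p u t) :
    Tail V (p, V + u 0) := by
  have hτ := H.pos
  have hvt : ∀ t, 0 ≤ t → V + ((∫ s in (0 : ℝ)..t, tailF V p u s)
      - ∫ s in Ioi 0, tailF V p u s) = V + u t := fun t ht => by
    rw [hu t]; simp only [tailT, max_eq_left ht]
  refine ⟨tailQ V p u, fun t => V + ((∫ s in (0 : ℝ)..t, tailF V p u s)
    - ∫ s in Ioi 0, tailF V p u s), ?_, hvt 0 le_rfl, ?_, ?_, ?_⟩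
  · simp [tailQ]
  · intro t ht
    refine ⟨fun i => H.ne ht i, ?_, ?_⟩
    · dsimp only
      rw [hvt t ht]
      have h1 : HasDerivAt (fun t : ℝ => p + t • V) V t := by
        simpa using ((hasDerivAt_id t).smul_const V).const_add p
      exact (h1.add (H.cu.integral_hasStrictDerivAt 0 t).hasDerivAt).hasDerivWithinAt
    · have h1 := ((((H.contF h).integral_hasStrictDerivAt 0 t).hasDerivAt.sub_const
        (∫ s in Ioi 0, tailF V p u s)).const_add V).hasDerivWithinAt (s := Ici 0)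
      have h2 : tailF V p u t = Fo (tailQ V p u t) := by simp only [tailF, max_eq_left ht]
      rwa [h2] at h1
  · have h1 : Tendsto (fun t => V + u t) atTop (𝓝 V) := by
      simpa using (tail_u_tend h H hu).const_add V
    refine h1.congr' ?_
    filter_upwards [eventually_ge_atTop 0] with t ht
    exact (hvt t ht).symm
  · have h1 : Tendsto (fun t : ℝ => t⁻¹ • p) atTop (𝓝 0) := by
      simpa using (tendsto_inv_atTop_zero (𝕜 := ℝ)).smul_const p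
    have h2 : Tendsto (fun t : ℝ => t⁻¹ • ∫ s in (0 : ℝ)..t, u s) atTop (𝓝 0) := by
      have h3 : Tendsto (fun t : ℝ => 213 / 100 * (Real.log (τ + t) / (τ + t) * (1 + τ * t⁻¹)
          - Real.log τ * t⁻¹)) atTop (𝓝 0) := by
        have h4 : Tendsto (fun t : ℝ => Real.log (τ + t) / (τ + t)) atTop (𝓝 0) :=
          (Real.isLittleO_log_id_atTop.tendsto_div_nhds_zero).comp
            (tendsto_atTop_add_const_left _ _ tendsto_id)
        have h5 : Tendsto (fun t : ℝ => 1 + τ * t⁻¹) atTop (𝓝 1) := by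
          simpa using (tendsto_inv_atTop_zero.const_mul τ).const_add 1
        have h6 := ((h4.mul h5).sub (tendsto_inv_atTop_zero.const_mul (Real.log τ))).const_mul
          (213 / 100)
        simpa using h6
      refine squeeze_zero_norm' ?_ h3
      filter_upwards [eventually_gt_atTop 0] with t ht
      have ht' : τ + t ≠ 0 := by positivity
      rw [norm_smul, norm_inv, Real.norm_of_nonneg ht.le]
      have h7 := tail_int_u h H hu ht.le
      calc t⁻¹ * ‖∫ s in (0 : ℝ)..t, u s‖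
          ≤ t⁻¹ * (213 / 100 * (Real.log (τ + t) - Real.log τ)) := by gcongr
        _ = _ := by field_simp; ring
    have h3 : Tendsto (fun t : ℝ => t⁻¹ • p + V + t⁻¹ • ∫ s in (0 : ℝ)..t, u s) atTop (𝓝 V) := by
      simpa using (h1.add_const V).add h2
    refine h3.congr' ?_
    filter_upwards [eventually_gt_atTop 0] with t ht
    simp only [tailQ, smul_add, smul_smul, inv_mul_cancel₀ ht.ne', one_smul]

theorem tail_err (h : ClaimPhi) (H : TailOK V p τ u) (hu : ∀ t, u t = tailT V p u t) :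
    ‖V + u 0 - V + τ⁻¹ • Fo V‖ ≤ 200 / τ ^ 2 := by
  have hτ := H.pos
  have hi2 := tail_i2 hτ (le_refl (0 : ℝ))
  have hi3 := tail_i3 hτ (le_refl (0 : ℝ))
  rw [add_zero] at hi2 hi3
  have e1 : V + u 0 - V + τ⁻¹ • Fo V
      = ∫ s in Ioi (0 : ℝ), ((τ + s)⁻¹ ^ 2 • Fo V - tailF V p u s) := by
    rw [integral_sub (hi2.1.smul_const _) (H.intF h le_rfl), integral_smul_const, hi2.2, hu 0,
      H.T_eq h le_rfl]
    abel
  rw [e1]
  have key : ∀ s, 0 < s → ‖(τ + s)⁻¹ ^ 2 • Fo V - tailF V p u s‖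
      ≤ 27 * 8 * (τ + s)⁻¹ ^ 3 + 27 * (213 / 100 * τ⁻¹) * (τ + s)⁻¹ ^ 2 := by
    intro s hs
    have hpos : 0 < τ + s := by linarith
    rw [← tail_Fo_smul _ hpos, norm_sub_rev]
    unfold tailF
    rw [max_eq_left hs.le]
    have h1 := tail_Fo_lip h H.hV hpos (H.cone hs.le) (q' := (τ + s) • V)
      (by rw [sub_self, norm_zero]; positivity)
    have h2 : ‖tailQ V p u s - (τ + s) • V‖ ≤ 8 + 213 / 100 * τ⁻¹ * (τ + s) := by
      rw [tail_diff]
      have h3 : ‖∫ r in (0 : ℝ)..s, u r‖ ≤ 213 / 100 * τ⁻¹ * |s - 0| := by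
        refine intervalIntegral.norm_integral_le_of_norm_le_const fun x hx => ?_
        rw [uIoc_of_le hs.le] at hx
        refine (tail_u_norm h H hu hx.1.le).trans ?_
        have : (τ + x)⁻¹ ≤ τ⁻¹ := inv_anti₀ hτ (by linarith [hx.1])
        gcongr
      rw [sub_zero, abs_of_nonneg hs.le] at h3
      have h4 := norm_add_le (p - τ • V) (∫ r in (0 : ℝ)..s, u r)
      have h5 := H.hp
      have h6 : 0 ≤ 213 / 100 * τ⁻¹ * τ := by positivity
      nlinarith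
    calc ‖Fo (tailQ V p u s) - Fo ((τ + s) • V)‖
        ≤ 27 * (τ + s)⁻¹ ^ 3 * ‖tailQ V p u s - (τ + s) • V‖ := h1
      _ ≤ 27 * (τ + s)⁻¹ ^ 3 * (8 + 213 / 100 * τ⁻¹ * (τ + s)) := by gcongr
      _ = 27 * 8 * (τ + s)⁻¹ ^ 3 + 27 * (213 / 100 * τ⁻¹) * (τ + s)⁻¹ ^ 2 := by
          field_simp
  calc ‖∫ s in Ioi (0 : ℝ), ((τ + s)⁻¹ ^ 2 • Fo V - tailF V p u s)‖
      ≤ ∫ s in Ioi (0 : ℝ), (27 * 8 * (τ + s)⁻¹ ^ 3
        + 27 * (213 / 100 * τ⁻¹) * (τ + s)⁻¹ ^ 2) := by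
        refine norm_integral_le_of_norm_le ((hi3.1.const_mul _).add (hi2.1.const_mul _)) ?_
        filter_upwards [self_mem_ae_restrict measurableSet_Ioi] with s hs
        exact key s hs
    _ = 27 * 8 * (1 / 2 * τ⁻¹ ^ 2) + 27 * (213 / 100 * τ⁻¹) * τ⁻¹ := by
        rw [integral_add (hi3.1.const_mul _) (hi2.1.const_mul _), integral_const_mul,
          integral_const_mul, hi2.2, hi3.2]
    _ = (27 * 8 * (1 / 2) + 27 * (213 / 100)) / τ ^ 2 := by field_simp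
    _ ≤ 200 / τ ^ 2 := by gcongr; norm_num

theorem tail_lip (h : ClaimPhi) (H : TailOK V p τ u) (hu : ∀ t, u t = tailT V p u t)
    (H' : TailOK V p' τ u') (hu' : ∀ t, u' t = tailT V p' u' t) :
    ‖u 0 - u' 0‖ ≤ 50 / τ ^ 2 * ‖p - p'‖ := by
  have hτ := H.pos
  have hb : BddAbove (range fun t : Ici (0 : ℝ) => ‖u t - u' t‖) := by
    refine ⟨1 / 100, ?_⟩
    rintro _ ⟨t, rfl⟩
    have h1 := norm_sub_le (u t) (u' t)
    have h2 := H.bu t
    have h3 := H'.bu t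
    dsimp only
    linarith
  have h1 : ∀ t, 0 ≤ t → ‖u t - u' t‖ ≤ ⨆ t : Ici (0 : ℝ), ‖u t - u' t‖ := fun t ht =>
    le_ciSup hb ⟨t, ht⟩
  have h2 : (⨆ t : Ici (0 : ℝ), ‖u t - u' t‖) ≤ 27 / 2 * ‖p - p'‖ * τ⁻¹ ^ 2
      + 27 * (⨆ t : Ici (0 : ℝ), ‖u t - u' t‖) * τ⁻¹ := by
    have : Nonempty (Ici (0 : ℝ)) := ⟨⟨0, le_refl (0 : ℝ)⟩⟩
    refine ciSup_le fun t => ?_
    have h3 := tail_T_diff h H H' h1 t.2
    rwa [← hu, ← hu'] at h3
  have h3 := h1 0 le_rfl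
  set S := ⨆ t : Ici (0 : ℝ), ‖u t - u' t‖
  have hS : 0 ≤ S := (norm_nonneg _).trans h3
  have h4 : τ⁻¹ ≤ (2 ^ 16 : ℝ)⁻¹ := inv_anti₀ (by norm_num) H.hτ
  have h5 : 27 * S * τ⁻¹ ≤ 27 * S * (2 ^ 16 : ℝ)⁻¹ := by gcongr
  have h6 : 50 / τ ^ 2 * ‖p - p'‖ = 50 * (‖p - p'‖ * τ⁻¹ ^ 2) := by field_simp
  have h7 : 0 ≤ ‖p - p'‖ * τ⁻¹ ^ 2 := by positivity
  rw [h6]
  norm_num at h5
  nlinarith

end final

open Classical in
theorem claimTail (h : ClaimPhi) : ClaimTail := by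
  intro V τ hV hτ
  refine ⟨fun p => if hp : ‖p - τ • V‖ ≤ 8 then
    V + Classical.choose (tail_exists h hV hτ hp) 0 else 0, ?_, ?_⟩
  · intro p hp
    obtain ⟨H, hu⟩ := Classical.choose_spec (tail_exists h hV hτ hp)
    simp only [dif_pos hp]
    exact ⟨tail_tail h H hu, tail_err h H hu⟩
  · intro p p' hp hp'
    obtain ⟨H, hu⟩ := Classical.choose_spec (tail_exists h hV hτ hp)
    obtain ⟨H', hu'⟩ := Classical.choose_spec (tail_exists h hV hτ hp')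
    simp only [dif_pos hp, dif_pos hp', add_sub_add_left_eq_sub]
    exact tail_lip h H hu H' hu'

end Pool.Agent.Work.MP_76acb6_an
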