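import Pool.Agent.Work.MP_76acb6_an.Claims

/-!
# Concatenation of flows
-/

set_option autoImplicit false

namespace Pool.Agent.Work.MP_76acb6_an

open Set Filter Topology MeasureTheory

/-- Gluing of a function on `[0,T]` with a function on `T + S`. -/
theorem trans_glue {E : Type*} [NormedAddCommGroup E] [NormedSpace ℝ E] (T : ℝ) (S U : Set ℝ)
    (f g f' g' : ℝ → E) (hS : S ⊆ Ici 0) (h0 : (0 : ℝ) ∈ S) (hfg : f T = g 0)
    (hfg' : f' T = g' 0) (hU : U = Icc 0 T ∪ (fun t => t - T) ⁻¹' S)
    (hf : ∀ t ∈ Icc 0 T, HasDerivWithinAt f (f' t) (Icc 0 T) t)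
    (hg : ∀ t ∈ S, HasDerivWithinAt g (g' t) S t) :
    ∀ t ∈ U, HasDerivWithinAt (fun t => if t ≤ T then f t else g (t - T))
      (if t ≤ T then f' t else g' (t - T)) U t := by
  intro t ht
  have hsub : (fun t => t - T) ⁻¹' S ⊆ Ici T := by
    intro s hs
    have := hS hs
    simp only [mem_Ici] at this ⊢
    linarith
  rw [hU] at ht ⊢
  apply HasDerivWithinAt.union
  · by_cases h : t ∈ Icc 0 T
    · rw [if_pos h.2]
      apply (hf t h).congr
      · intro s hs
        simp only [if_pos hs.2]
      · simp only [if_pos h.2]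
    · apply HasFDerivWithinAt.of_notMem_closure
      rwa [isClosed_Icc.closure_eq]
  · by_cases h : t ∈ (fun t => t - T) ⁻¹' S
    · have hTt : T ≤ t := hsub h
      have hval : ∀ s ∈ (fun t => t - T) ⁻¹' S,
          (if s ≤ T then f s else g (s - T)) = g (s - T) := by
        intro s hs
        by_cases h1 : s ≤ T
        · have h2 : s = T := le_antisymm h1 (hsub hs)
          rw [if_pos h1, h2, hfg, sub_self]
        · rw [if_neg h1]
      have hder : (if t ≤ T then f' t else g' (t - T)) = g' (t - T) := by
        by_cases h1 : t ≤ T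
        · have h2 : t = T := le_antisymm h1 hTt
          rw [if_pos h1, h2, hfg', sub_self]
        · rw [if_neg h1]
      rw [hder]
      have h3 : HasDerivWithinAt (fun s => g (s - T)) (g' (t - T)) ((fun t => t - T) ⁻¹' S) t := by
        have h4 := hg (t - T) h
        have h5 : HasDerivWithinAt (fun s : ℝ => s - T) 1 ((fun t => t - T) ⁻¹' S) t :=
          ((hasDerivAt_id t).sub_const T).hasDerivWithinAt
        have h6 := HasDerivWithinAt.scomp t h4 h5 (mapsTo_preimage _ _)
        rw [one_smul] at h6
        exact h6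
      exact h3.congr hval (hval t h)
    · apply HasFDerivWithinAt.of_notMem_closure
      intro hc
      have hc' : T ≤ t := (closure_minimal hsub isClosed_Ici) hc
      rcases ht with h7 | h7
      · have h8 : t = T := le_antisymm h7.2 hc'
        apply h
        show t - T ∈ S
        rw [h8, sub_self]
        exact h0
      · exact h h7

/-- A4. Concatenation of flows, and of a flow with a tail. -/
theorem claimTrans : ClaimTrans := by
  constructor
  · rintro T T' y y' y'' ⟨hT, Q, V, hQ0, hV0, hQT, hVT, hQV⟩
      ⟨hT', Q', V', hQ0', hV0', hQT', hVT', hQV'⟩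
    have hU : Icc 0 (T + T') = Icc 0 T ∪ (fun t => t - T) ⁻¹' (Icc 0 T') := by
      ext t
      simp only [mem_Icc, mem_union, mem_preimage]
      constructor
      · rintro ⟨h1, h2⟩
        rcases le_total t T with h | h
        · left; exact ⟨h1, h⟩
        · right; constructor <;> linarith
      · rintro (⟨h1, h2⟩ | ⟨h1, h2⟩) <;> constructor <;> linarith
    have hd1 : Q T = Q' 0 := by rw [hQT, hQ0']
    have hd2 : V T = V' 0 := by rw [hVT, hV0']
    have hend : T + T' ≤ T → T' = 0 := fun h => le_antisymm (by linarith) hT'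
    have hval : ∀ (f g : ℝ → X), f T = g 0 →
        (if T + T' ≤ T then f (T + T') else g (T + T' - T)) = g T' := by
      intro f g hfg
      by_cases h : T + T' ≤ T
      · rw [if_pos h, hend h, add_zero, hfg]
      · rw [if_neg h]
        congr 1
        ring
    refine ⟨by linarith, fun t => if t ≤ T then Q t else Q' (t - T),
      fun t => if t ≤ T then V t else V' (t - T), ?_, ?_, ?_, ?_, ?_⟩
    · simp only [if_pos hT]
      exact hQ0
    · simp only [if_pos hT]
      exact hV0
    · show (if T + T' ≤ T then Q (T + T') else Q' (T + T' - T)) = _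
      rw [hval Q Q' hd1, hQT']
    · show (if T + T' ≤ T then V (T + T') else V' (T + T' - T)) = _
      rw [hval V V' hd2, hVT']
    · intro t ht
      refine ⟨?_, ?_, ?_⟩
      · intro m
        show dd m (if t ≤ T then Q t else Q' (t - T)) ≠ 0
        by_cases h : t ≤ T
        · rw [if_pos h]
          exact (hQV t ⟨ht.1, h⟩).1 m
        · rw [if_neg h]
          exact (hQV' (t - T) ⟨by linarith, by linarith [ht.2]⟩).1 m
      · exact trans_glue T (Icc 0 T') _ Q Q' V V' Icc_subset_Ici_self ⟨le_rfl, hT'⟩ hd1 hd2 hU
          (fun s hs => (hQV s hs).2.1) (fun s hs => (hQV' s hs).2.1) t ht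
      · have h1 := trans_glue T (Icc 0 T') _ V V' (fun s => Fo (Q s)) (fun s => Fo (Q' s))
          Icc_subset_Ici_self ⟨le_rfl, hT'⟩ hd2 (by simp only [hd1]) hU
          (fun s hs => (hQV s hs).2.2) (fun s hs => (hQV' s hs).2.2) t ht
        have e : Fo (if t ≤ T then Q t else Q' (t - T)) =
            if t ≤ T then Fo (Q t) else Fo (Q' (t - T)) := by
          by_cases h : t ≤ T
          · rw [if_pos h, if_pos h]
          · rw [if_neg h, if_neg h]
        rw [← e] at h1
        exact h1
  · rintro T y y' V0 ⟨hT, Q, V, hQ0, hV0, hQT, hVT, hQV⟩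
      ⟨Q', V', hQ0', hV0', hQV', hlimV, hlimQ⟩
    have hU : Ici 0 = Icc 0 T ∪ (fun t => t - T) ⁻¹' (Ici 0) := by
      ext t
      simp only [mem_Icc, mem_union, mem_preimage, mem_Ici]
      constructor
      · intro h1
        rcases le_total t T with h | h
        · left; exact ⟨h1, h⟩
        · right; linarith
      · rintro (⟨h1, h2⟩ | h1) <;> linarith
    have hd1 : Q T = Q' 0 := by rw [hQT, hQ0']
    have hd2 : V T = V' 0 := by rw [hVT, hV0']
    refine ⟨fun t => if t ≤ T then Q t else Q' (t - T),
      fun t => if t ≤ T then V t else V' (t - T), ?_, ?_, ?_, ?_, ?_⟩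
    · simp only [if_pos hT]
      exact hQ0
    · simp only [if_pos hT]
      exact hV0
    · intro t ht
      refine ⟨?_, ?_, ?_⟩
      · intro m
        show dd m (if t ≤ T then Q t else Q' (t - T)) ≠ 0
        by_cases h : t ≤ T
        · rw [if_pos h]
          exact (hQV t ⟨ht, h⟩).1 m
        · rw [if_neg h]
          exact (hQV' (t - T) (by linarith)).1 m
      · exact trans_glue T (Ici 0) _ Q Q' V V' subset_rfl (mem_Ici.2 le_rfl) hd1 hd2 hU
          (fun s hs => (hQV s hs).2.1) (fun s hs => (hQV' s hs).2.1) t ht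
      · have h1 := trans_glue T (Ici 0) _ V V' (fun s => Fo (Q s)) (fun s => Fo (Q' s))
          subset_rfl (mem_Ici.2 le_rfl) hd2 (by simp only [hd1]) hU
          (fun s hs => (hQV s hs).2.2) (fun s hs => (hQV' s hs).2.2) t ht
        have e : Fo (if t ≤ T then Q t else Q' (t - T)) =
            if t ≤ T then Fo (Q t) else Fo (Q' (t - T)) := by
          by_cases h : t ≤ T
          · rw [if_pos h, if_pos h]
          · rw [if_neg h, if_neg h]
        rw [← e] at h1
        exact h1
    · have hs : Tendsto (fun t : ℝ => t - T) atTop atTop := tendsto_atTop_add_const_right _ _ tendsto_id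
      refine (hlimV.comp hs).congr' ?_
      filter_upwards [eventually_gt_atTop T] with t ht
      simp only [Function.comp, if_neg (not_le.2 ht)]
    · have hs : Tendsto (fun t : ℝ => t - T) atTop atTop := tendsto_atTop_add_const_right _ _ tendsto_id
      have h1 : Tendsto (fun t : ℝ => (t - T)⁻¹ • Q' (t - T)) atTop (𝓝 V0) := hlimQ.comp hs
      have h2 : Tendsto (fun t : ℝ => t⁻¹ * (t - T)) atTop (𝓝 1) := by
        have h3 : Tendsto (fun t : ℝ => 1 - T * t⁻¹) atTop (𝓝 (1 - T * 0)) :=
          tendsto_const_nhds.sub (tendsto_const_nhds.mul tendsto_inv_atTop_zero)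
        rw [mul_zero, sub_zero] at h3
        refine h3.congr' ?_
        filter_upwards [eventually_gt_atTop 0] with t ht
        field_simp
      have h4 := h2.smul h1
      rw [one_smul] at h4
      refine h4.congr' ?_
      filter_upwards [eventually_gt_atTop T, eventually_gt_atTop 0] with t ht ht0
      simp only [if_neg (not_le.2 ht)]
      rw [smul_smul, mul_assoc, mul_inv_cancel₀ (by linarith), mul_one]

end Pool.Agent.Work.MP_76acb6_an
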