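import Pool.Agent.Work.MP_76acb6_an.Claims

/-!
# B4: the distances, `u = evR u / 2^ue` approximates `1/|d|`
-/

set_option autoImplicit false

namespace Pool.Agent.Work.MP_76acb6_an

open Set Filter Topology MeasureTheory
open scoped ComplexConjugate

/-- The estimates on the real line. -/
theorem U_real (u r e M : ℝ) (hu : 0 < u) (hr : 0 ≤ r) (he0 : 0 ≤ e) (he : e ≤ 1 / 32)
    (h : |u ^ 2 * r ^ 2 - 1| ≤ e) (hM : u ≤ M) :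
    0 < r ∧ r⁻¹ ≤ M * (1 + 2 * e) ∧ u ^ 2 * |(u * r)⁻¹ ^ 2 - u * r| ≤ 4 * e * M ^ 2 ∧
      |1 - (u * r) ^ 3| ≤ 4 * e := by
  have h' := abs_le.1 h
  have hr2 : 0 < r := by
    rcases hr.lt_or_eq with h0 | h0
    · exact h0
    · exfalso
      rw [← h0] at h'
      have := h'.1
      norm_num at this
      linarith
  obtain ⟨X, hX⟩ : ∃ X, X = u * r := ⟨_, rfl⟩
  have hXp : 0 < X := hX ▸ mul_pos hu hr2
  have hX2 : |X ^ 2 - 1| ≤ e := by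
    rw [hX, mul_pow]; exact h
  have hX2' := abs_le.1 hX2
  have hX1 : |X - 1| ≤ e := by
    have h1 : |X ^ 2 - 1| = |X - 1| * (X + 1) := by
      rw [← abs_of_pos (by linarith : 0 < X + 1), ← abs_mul]
      congr 1; ring
    rw [h1] at hX2
    nlinarith [abs_nonneg (X - 1)]
  have hX1' := abs_le.1 hX1
  have hcube : |1 - X ^ 3| ≤ e * (3 + 3 * e + e ^ 2) := by
    have h1 : |1 - X ^ 3| = |X - 1| * (1 + X + X ^ 2) := by
      rw [← abs_of_pos (by positivity : 0 < 1 + X + X ^ 2), ← abs_mul, ← abs_neg]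
      congr 1; ring
    rw [h1]
    apply mul_le_mul hX1 _ (by positivity) he0
    nlinarith
  have hinv : r⁻¹ = u / X := by
    rw [hX]; field_simp
  refine ⟨hr2, ?_, ?_, ?_⟩
  · rw [hinv, div_le_iff₀ hXp]
    have h1 : 1 ≤ (1 + 2 * e) * X := by nlinarith
    have h2 : 0 ≤ M := hu.le.trans hM
    nlinarith
  · rw [← hX]
    have h1 : |X⁻¹ ^ 2 - X| = |1 - X ^ 3| / X ^ 2 := by
      have e0 : X⁻¹ ^ 2 - X = (1 - X ^ 3) / X ^ 2 := by field_simp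
      rw [e0, abs_div, abs_of_pos (by positivity : 0 < X ^ 2)]
    rw [h1]
    have h2 : |1 - X ^ 3| / X ^ 2 ≤ 4 * e := by
      rw [div_le_iff₀ (by positivity)]
      have h3 : (31 / 32 : ℝ) ^ 2 ≤ X ^ 2 := by
        apply pow_le_pow_left₀ (by norm_num)
        linarith
      have h4 : e * (3 + 3 * e + e ^ 2) ≤ 4 * e * (31 / 32 : ℝ) ^ 2 := by
        have : 3 + 3 * e + e ^ 2 ≤ 4 * (31 / 32 : ℝ) ^ 2 := by nlinarith
        nlinarith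
      calc _ ≤ _ := hcube
        _ ≤ _ := h4
        _ ≤ _ := by gcongr
    calc u ^ 2 * (|1 - X ^ 3| / X ^ 2) ≤ M ^ 2 * (4 * e) := by
          apply mul_le_mul _ h2 (by positivity) (by positivity)
          exact pow_le_pow_left₀ hu.le hM 2
      _ = _ := by ring
  · rw [← hX]
    refine hcube.trans ?_
    have : 3 + 3 * e + e ^ 2 ≤ 4 := by nlinarith
    nlinarith

/-- The estimates for one pair, in abstract form. -/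
theorem U_abs (u e M ea eb al : ℝ) (D be : ℂ) (hu : 0 < u) (he0 : 0 ≤ e) (he : e ≤ 1 / 32)
    (h : |u ^ 2 * ‖D‖ ^ 2 - 1| ≤ e) (hM : u ≤ M)
    (hal : |2 * al + u ^ 3| ≤ ea)
    (hbe : ‖((‖D‖ ^ 2 : ℝ) : ℂ) * be - 3 * ((al : ℂ) * D ^ 2)‖ ≤ 3 / 2 * eb) :
    D ≠ 0 ∧ ‖D‖⁻¹ ≤ M * (1 + 2 * e) ∧
    ‖phi D - (u : ℂ) ^ 3 * D‖ ≤ 4 * e * M ^ 2 ∧
    |al - (-(1 / 2) * ‖D‖⁻¹ ^ 3)| ≤ ea / 2 + 2 * e * (M * (1 + 2 * e)) ^ 3 ∧
    ‖be - ((-(3 / 2) * ‖D‖⁻¹ ^ 5 : ℝ) : ℂ) * D ^ 2‖ ≤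
      3 * (ea / 2 + 2 * e * (M * (1 + 2 * e)) ^ 3) + 3 / 2 * eb * (M * (1 + 2 * e)) ^ 2 := by
  obtain ⟨h1, h2, h3, h4⟩ := U_real u ‖D‖ e M hu (norm_nonneg _) he0 he h hM
  have hD : D ≠ 0 := norm_pos_iff.1 h1
  obtain ⟨r, hr⟩ : ∃ r, r = ‖D‖ := ⟨_, rfl⟩
  rw [← hr] at h1 h2 h3 h4
  obtain ⟨Q, hQ⟩ : ∃ Q, Q = M * (1 + 2 * e) := ⟨_, rfl⟩
  have hrc : (r : ℂ) ≠ 0 := by exact_mod_cast h1.ne'
  have hal2 : |al - (-(1 / 2) * r⁻¹ ^ 3)| ≤ ea / 2 + 2 * e * Q ^ 3 := by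
    have e1 : al - (-(1 / 2) * r⁻¹ ^ 3) = (2 * al + u ^ 3) / 2 + r⁻¹ ^ 3 * (1 - (u * r) ^ 3) / 2 := by
      field_simp
      ring
    have e2 : r⁻¹ ^ 3 * |1 - (u * r) ^ 3| ≤ Q ^ 3 * (4 * e) := by
      apply mul_le_mul _ h4 (abs_nonneg _) _
      · exact pow_le_pow_left₀ (by positivity) (by rw [hQ]; exact h2) 3
      · have : 0 ≤ Q := by
          rw [hQ]; exact le_trans (by positivity) h2
        positivity
    calc |al - (-(1 / 2) * r⁻¹ ^ 3)| ≤ |(2 * al + u ^ 3) / 2| + |r⁻¹ ^ 3 * (1 - (u * r) ^ 3) / 2| := by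
          rw [e1]; exact abs_add_le _ _
      _ = |2 * al + u ^ 3| / 2 + r⁻¹ ^ 3 * |1 - (u * r) ^ 3| / 2 := by
          rw [abs_div, abs_div, abs_mul, abs_of_pos (by positivity : 0 < r⁻¹ ^ 3),
            abs_of_pos (by norm_num : (0 : ℝ) < 2)]
      _ ≤ _ := by linarith
  refine ⟨hD, by rw [← hr]; exact h2, ?_, by rw [← hr, ← hQ]; exact hal2, ?_⟩
  · have e1 : phi D - (u : ℂ) ^ 3 * D = (((u ^ 2 * ((u * r)⁻¹ ^ 2 - u * r)) / r : ℝ) : ℂ) * D := by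
      have huc : (u : ℂ) ≠ 0 := by exact_mod_cast hu.ne'
      unfold phi
      rw [← hr]
      push_cast
      field_simp
    rw [e1, norm_mul, Complex.norm_real, Real.norm_eq_abs, abs_div, ← hr, abs_of_pos h1,
      div_mul_cancel₀ _ h1.ne', abs_mul, abs_of_pos (by positivity : 0 < u ^ 2)]
    exact h3
  · rw [← hr, ← hQ]
    rw [← hr] at hbe
    have e1 : be - ((-(3 / 2) * r⁻¹ ^ 5 : ℝ) : ℂ) * D ^ 2 =
        ((r⁻¹ ^ 2 : ℝ) : ℂ) * (((r ^ 2 : ℝ) : ℂ) * be - 3 * ((al : ℂ) * D ^ 2)) +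
        ((3 * r⁻¹ ^ 2 * (al - (-(1 / 2) * r⁻¹ ^ 3)) : ℝ) : ℂ) * D ^ 2 := by
      push_cast
      field_simp
      ring
    rw [e1]
    refine (norm_add_le _ _).trans ?_
    rw [norm_mul, norm_mul, Complex.norm_real, Complex.norm_real, norm_pow D 2, ← hr,
      Real.norm_eq_abs, Real.norm_eq_abs, abs_mul, abs_of_pos (by positivity : 0 < r⁻¹ ^ 2),
      abs_of_pos (by positivity : 0 < 3 * r⁻¹ ^ 2)]
    have e2 : 3 * r⁻¹ ^ 2 * |al - -(1 / 2) * r⁻¹ ^ 3| * r ^ 2 = 3 * |al - -(1 / 2) * r⁻¹ ^ 3| := by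
      field_simp
    rw [e2]
    have e3 : r⁻¹ ^ 2 ≤ Q ^ 2 := pow_le_pow_left₀ (by positivity) (by rw [hQ]; exact h2) 2
    have e4 : r⁻¹ ^ 2 * ‖((r ^ 2 : ℝ) : ℂ) * be - 3 * ((al : ℂ) * D ^ 2)‖ ≤ Q ^ 2 * (3 / 2 * eb) :=
      mul_le_mul e3 hbe (norm_nonneg _) (by positivity)
    linarith

/-- The soundness of the checks of one pair. -/
theorem U_pair (h1 : ClaimPK) (h2 : ClaimCK) (ue ae : ℕ) (d : CK) (p : PairD) (D : ℝ → ℂ)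
    (hd : RepC d fun x => ((2 ^ 44 : ℕ) : ℂ) * D x)
    (hU : chkU ue d (PK.ofPo p.u) p = true)
    (hAB : chkAB ue ae d (PK.ofPo p.u) (PK.ofPo p.al) (CK.ofCP p.be) p = true)
    (hae : ae ≤ 3 * ue) (he : p.e ≤ 2 ^ 55) (x : ℝ) (hx : x ∈ Icc (-1 : ℝ) 1) :
    D x ≠ 0 ∧ ‖D x‖⁻¹ ≤ (p.MQ : ℝ) ∧
    ‖phi (D x) - ((evR p.u x / 2 ^ ue : ℝ) : ℂ) ^ 3 * D x‖ ≤
      4 * (N60 p.e : ℝ) * (N60 p.M : ℝ) ^ 2 ∧
    |evR p.al x / 2 ^ ae - (-(1 / 2) * ‖D x‖⁻¹ ^ 3)| ≤ (p.EA : ℝ) ∧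
    ‖p.be.f ae x - ((-(3 / 2) * ‖D x‖⁻¹ ^ 5 : ℝ) : ℂ) * D x ^ 2‖ ≤ (p.EB : ℝ) := by
  unfold chkU at hU
  simp only [Bool.and_eq_true] at hU
  obtain ⟨⟨ha, hb1, hb2⟩, hc⟩ := hU
  unfold chkAB at hAB
  rw [Bool.and_eq_true] at hAB
  obtain ⟨hA, hB⟩ := hAB
  have ru := h1.ofPo p.u
  have ral := h1.ofPo p.al
  have rbe := h2.ofCP p.be
  -- first check
  have A1 := h1.bd _ _ _ _ (h1.sub _ _ _ _ (h1.mul _ _ _ _ (h1.mul _ _ _ _ ru ru)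
    (h2.nsq _ _ hd)) (h1.const (Int.ofNat (2 ^ (2 * PQ + 2 * ue))))) ha x hx
  -- second check
  have A2 := h1.sup _ _ (h1.sub _ _ _ _ ru (h1.const (Int.ofNat p.u0))) hb1 x hx
  -- third check
  have A3 := h1.bd _ _ _ _ ru hc x hx
  -- fourth check
  have A4 := h1.bd _ _ _ _ (h1.add _ _ _ _ (h1.scN _ _ (2 ^ (3 * ue - ae + 1)) ral)
    (h1.mul _ _ _ _ (h1.mul _ _ _ _ ru ru) ru)) hA x hx
  -- fifth check
  have A5 := h2.bdc _ _ _ _ (h2.sub _ _ _ _ (h2.rm _ _ _ _ (h2.nsq _ _ hd) rbe)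
    (h2.scN _ _ 3 (h2.rm _ _ _ _ ral (h2.sq _ _ hd)))) hB x hx
  have hP : (0 : ℝ) < 2 ^ ue := by positivity
  have hnD : ‖((2 ^ 44 : ℕ) : ℂ) * D x‖ = 2 ^ 44 * ‖D x‖ := by
    rw [norm_mul, Complex.norm_natCast]
    norm_num
  have B := U_abs (evR p.u x / 2 ^ ue) ((p.e : ℝ) / 2 ^ 60) ((p.M : ℝ) / 2 ^ 60)
    ((p.ea : ℝ) / 2 ^ 60) ((p.eb : ℝ) / 2 ^ 60) (evR p.al x / 2 ^ ae) (D x) (p.be.f ae x)
    ?_ (by positivity) ?_ ?_ ?_ ?_ ?_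
  · obtain ⟨b1, b2, b3, b4, b5⟩ := B
    have eM : (p.MQ : ℝ) = (p.M : ℝ) / 2 ^ 60 * (1 + 2 * ((p.e : ℝ) / 2 ^ 60)) := by
      unfold PairD.MQ N60
      push_cast
      ring
    have eE : (p.EA : ℝ) = (p.ea : ℝ) / 2 ^ 60 / 2 + 2 * ((p.e : ℝ) / 2 ^ 60) * (p.MQ : ℝ) ^ 3 := by
      unfold PairD.EA N60
      push_cast
      ring
    have eB : (p.EB : ℝ) = 3 * (p.EA : ℝ) + 3 / 2 * ((p.eb : ℝ) / 2 ^ 60) * (p.MQ : ℝ) ^ 2 := by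
      unfold PairD.EB N60
      push_cast
      ring
    have eN : ∀ n : ℕ, ((N60 n : ℚ) : ℝ) = (n : ℝ) / 2 ^ 60 := by
      intro n
      unfold N60
      push_cast
      ring
    refine ⟨b1, by rw [eM]; exact b2, ?_, ?_, ?_⟩
    · rw [eN, eN]
      push_cast
      push_cast at b3
      exact b3
    · rw [eE, eM]; exact b4
    · rw [eB, eE, eM]; exact b5
  · apply div_pos _ hP
    have hlt : ((PK.ofPo p.u).sub (PK.const (Int.ofNat p.u0))).supN <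
        p.u0 * 2 ^ ((PK.ofPo p.u).sub (PK.const (Int.ofNat p.u0))).d := by
      simpa [Nat.blt_eq] using hb2
    generalize ((PK.ofPo p.u).sub (PK.const (Int.ofNat p.u0))).supN = sN at *
    generalize ((PK.ofPo p.u).sub (PK.const (Int.ofNat p.u0))).d = dd at *
    have h3 : ((sN : ℕ) : ℝ) < (p.u0 : ℝ) * 2 ^ dd := by exact_mod_cast hlt
    have h4 : |evR p.u x - ((Int.ofNat p.u0 : ℤ) : ℝ)| * 2 ^ dd < (p.u0 : ℝ) * 2 ^ dd :=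
      lt_of_le_of_lt A2 h3
    have h5 := lt_of_mul_lt_mul_right h4 (by positivity)
    have h6 := (abs_lt.1 h5).1
    have h7 : ((Int.ofNat p.u0 : ℤ) : ℝ) = (p.u0 : ℝ) := by simp
    rw [h7] at h6
    linarith
  · rw [div_le_iff₀ (by positivity)]
    have : (p.e : ℝ) ≤ 2 ^ 55 := by exact_mod_cast he
    norm_num at this ⊢
    linarith
  · have e1 : (evR p.u x * evR p.u x * ‖((2 ^ 44 : ℕ) : ℂ) * D x‖ ^ 2 -
        ((Int.ofNat (2 ^ (2 * PQ + 2 * ue)) : ℤ) : ℝ)) / 2 ^ (2 * PQ + 2 * ue) =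
        (evR p.u x / 2 ^ ue) ^ 2 * ‖D x‖ ^ 2 - 1 := by
      rw [hnD]
      have e2 : ((Int.ofNat (2 ^ (2 * PQ + 2 * ue)) : ℤ) : ℝ) = (2 : ℝ) ^ 88 * (2 ^ ue) ^ 2 := by
        have e0 : ∀ n : ℕ, ((Int.ofNat n : ℤ) : ℝ) = (n : ℝ) := fun n => by
          rw [Int.ofNat_eq_natCast, Int.cast_natCast]
        rw [e0, Nat.cast_pow, Nat.cast_ofNat]
        simp only [PQ]
        ring
      have e3 : (2 : ℝ) ^ (2 * PQ + 2 * ue) = (2 : ℝ) ^ 88 * (2 ^ ue) ^ 2 := by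
        simp only [PQ]
        ring
      rw [e2, e3]
      field_simp
    rw [← e1]
    exact A1
  · exact (le_abs_self _).trans A3
  · have e1 : (((2 ^ (3 * ue - ae + 1) : ℕ) : ℝ) * evR p.al x +
        evR p.u x * evR p.u x * evR p.u x) / 2 ^ (3 * ue) =
        2 * (evR p.al x / 2 ^ ae) + (evR p.u x / 2 ^ ue) ^ 3 := by
      have e2 : ((2 ^ (3 * ue - ae + 1) : ℕ) : ℝ) * 2 ^ ae = 2 * 2 ^ (3 * ue) := by
        push_cast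
        rw [← pow_add, ← pow_succ']
        congr 1
        omega
      have e3 : (2 : ℝ) ^ (3 * ue) = (2 ^ ue) ^ 3 := by ring
      have e4 : ((2 ^ (3 * ue - ae + 1) : ℕ) : ℝ) = 2 * (2 ^ ue) ^ 3 / 2 ^ ae := by
        rw [eq_div_iff (by positivity), e2, e3]
      rw [e4, e3]
      field_simp
    rw [← e1]
    exact A4
  · have e1 : (((‖((2 ^ 44 : ℕ) : ℂ) * D x‖ ^ 2 : ℝ) : ℂ) * (⟨evR p.be.re x, evR p.be.im x⟩ : ℂ) -
        ((3 : ℕ) : ℂ) * (((evR p.al x : ℝ) : ℂ) * (((2 ^ 44 : ℕ) : ℂ) * D x) ^ 2)) /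
          2 ^ (ae + 2 * PQ) =
        ((‖D x‖ ^ 2 : ℝ) : ℂ) * p.be.f ae x -
          3 * (((evR p.al x / 2 ^ ae : ℝ) : ℂ) * D x ^ 2) := by
      rw [hnD]
      have e2 : p.be.f ae x = (⟨evR p.be.re x, evR p.be.im x⟩ : ℂ) / 2 ^ ae := by
        unfold CP.f
        rw [show (2 : ℂ) ^ ae = (((2 : ℝ) ^ ae : ℝ) : ℂ) by push_cast; rfl]
        apply Complex.ext
        · simp only [Complex.div_ofReal_re]
        · simp only [Complex.div_ofReal_im]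
      have e3 : (2 : ℂ) ^ (ae + 2 * PQ) = (2 : ℂ) ^ ae * 2 ^ 88 := by
        simp only [PQ]
        ring
      rw [e2, e3]
      push_cast
      field_simp
      ring
    rw [← e1]
    exact A5

/-- The scaled function of a pair of polynomials. -/
theorem U_ofCP (h2 : ClaimCK) (c : CP) (s : ℕ) :
    RepC (CK.ofCP c) fun x => ((2 ^ s : ℕ) : ℂ) * c.f s x := by
  have h := h2.ofCP c
  have e : (fun x : ℝ => ((2 ^ s : ℕ) : ℂ) * c.f s x) = fun x => ⟨evR c.re x, evR c.im x⟩ := by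
    funext x
    unfold CP.f
    rw [show ((2 ^ s : ℕ) : ℂ) = (((2 : ℝ) ^ s : ℝ) : ℂ) by push_cast; rfl]
    apply Complex.ext
    · rw [Complex.re_ofReal_mul]
      field_simp
    · rw [Complex.im_ofReal_mul]
      field_simp
  rw [e]
  exact h

/-- The difference `d1` of a column. -/
theorem U_d1 (h2 : ClaimCK) (c : Col) (s : ℕ) :
    RepC (WK.ofCol c).d1 fun x => ((2 ^ s : ℕ) : ℂ) * dd 0 (c.f s x) := by
  have h := h2.sub _ _ _ _ (U_ofCP h2 c.a s) (U_ofCP h2 c.b s)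
  have e : (fun x : ℝ => ((2 ^ s : ℕ) : ℂ) * dd 0 (c.f s x)) =
      fun x => ((2 ^ s : ℕ) : ℂ) * c.a.f s x - ((2 ^ s : ℕ) : ℂ) * c.b.f s x := by
    funext x
    simp only [dd, Col.f]
    ring
  rw [e]
  exact h

/-- The difference `d2` of a column. -/
theorem U_d2 (h2 : ClaimCK) (c : Col) (s : ℕ) :
    RepC (WK.ofCol c).d2 fun x => ((2 ^ s : ℕ) : ℂ) * dd 1 (c.f s x) := by
  have h := h2.add _ _ _ _ (U_ofCP h2 c.a s) (h2.scN _ _ 2 (U_ofCP h2 c.b s))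
  have e : (fun x : ℝ => ((2 ^ s : ℕ) : ℂ) * dd 1 (c.f s x)) =
      fun x => ((2 ^ s : ℕ) : ℂ) * c.a.f s x + ((2 : ℕ) : ℂ) * (((2 ^ s : ℕ) : ℂ) * c.b.f s x) := by
    funext x
    simp only [dd, Col.f]
    push_cast
    ring
  rw [e]
  exact h

/-- The difference `d3` of a column. -/
theorem U_d3 (h2 : ClaimCK) (c : Col) (s : ℕ) :
    RepC (WK.ofCol c).d3 fun x => ((2 ^ s : ℕ) : ℂ) * dd 2 (c.f s x) := by
  have h := h2.scZ _ _ (-1) (h2.add _ _ _ _ (h2.scN _ _ 2 (U_ofCP h2 c.a s)) (U_ofCP h2 c.b s))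
  have e : (fun x : ℝ => ((2 ^ s : ℕ) : ℂ) * dd 2 (c.f s x)) =
      fun x => ((-1 : ℤ) : ℂ) * (((2 : ℕ) : ℂ) * (((2 ^ s : ℕ) : ℂ) * c.a.f s x) +
        ((2 ^ s : ℕ) : ℂ) * c.b.f s x) := by
    funext x
    simp only [dd, Col.f]
    push_cast
    ring
  rw [e]
  exact h

/-- B4. -/
theorem claimU (h1 : ClaimPK) (h2 : ClaimCK) : ClaimU := by
  intro O om p hG x hx i
  obtain ⟨_, hsh, hchk⟩ := hG
  unfold PD.shape at hsh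
  simp only [Bool.and_eq_true, decide_eq_true_eq] at hsh
  obtain ⟨⟨⟨⟨⟨_, _⟩, hae⟩, he1⟩, he2⟩, he3⟩ := hsh
  unfold chk at hchk
  simp only [Bool.and_eq_true] at hchk
  obtain ⟨⟨⟨⟨⟨⟨⟨⟨⟨u1, u2⟩, u3⟩, a1⟩, a2⟩, a3⟩, _⟩, _⟩, _⟩, _⟩ := hchk
  fin_cases i
  · exact U_pair h1 h2 p.ue p.ae _ p.p1 (fun x => dd 0 (p.qf x)) (U_d1 h2 p.q 44) u1 a1 hae he1
      x hx
  · exact U_pair h1 h2 p.ue p.ae _ p.p2 (fun x => dd 1 (p.qf x)) (U_d2 h2 p.q 44) u2 a2 hae he2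
      x hx
  · exact U_pair h1 h2 p.ue p.ae _ p.p3 (fun x => dd 2 (p.qf x)) (U_d3 h2 p.q 44) u3 a3 hae he3
      x hx

end Pool.Agent.Work.MP_76acb6_an
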