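import Mathlib

/-!
# The certificate checker: integer polynomials on `[-1,1]`, packed in one large integer
-/

set_option autoImplicit false

namespace Pool.Agent.Work.MP_76acb6_an

/-- Integer polynomials in the monomial basis. -/
abbrev Po := List ℤ

/-- A polynomial `f` on `[-1,1]`, represented by the integer polynomial
`F(z) = (2z)^d f((z+1/z)/2)`; `p - n = F(2^384)`, and `b` bounds the sum of the absolute
values of the coefficients of `F`. -/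
structure PK where
  p : ℕ
  n : ℕ
  b : ℕ
  d : ℕ

namespace PK

def lift (e : ℕ) (k : PK) : PK :=
  ⟨k.p * 2 ^ (385 * e), k.n * 2 ^ (385 * e), k.b * 2 ^ e, k.d + e⟩

def add (k l : PK) : PK :=
  let a := k.lift (l.d - k.d)
  let c := l.lift (k.d - l.d)
  ⟨a.p + c.p, a.n + c.n, a.b + c.b, a.d⟩

def sub (k l : PK) : PK :=
  let a := k.lift (l.d - k.d)
  let c := l.lift (k.d - l.d)
  ⟨a.p + c.n, a.n + c.p, a.b + c.b, a.d⟩

def mul (k l : PK) : PK :=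
  ⟨k.p * l.p + k.n * l.n, k.p * l.n + k.n * l.p, k.b * l.b, k.d + l.d⟩

/-- Multiplication by a natural number. -/
def scN (c : ℕ) (k : PK) : PK := ⟨c * k.p, c * k.n, c * k.b, k.d⟩

def scZ : ℤ → PK → PK
  | Int.ofNat c, k => ⟨c * k.p, c * k.n, c * k.b, k.d⟩
  | Int.negSucc c, k => ⟨(c + 1) * k.n, (c + 1) * k.p, (c + 1) * k.b, k.d⟩

def const : ℤ → PK
  | Int.ofNat c => ⟨c, 0, c, 0⟩
  | Int.negSucc c => ⟨0, c + 1, c + 1, 0⟩

def ofPo : Po → PK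
  | [] => ⟨0, 0, 0, 0⟩
  | c :: t =>
    match t with
    | [] => const c
    | _ :: _ =>
      let k := ofPo t
      let a := (const c).lift (k.d + 1)
      ⟨a.p + k.p * (2 ^ 768 + 1), a.n + k.n * (2 ^ 768 + 1), a.b + 2 * k.b, k.d + 1⟩

/-- `Σ_{i<l} 2^383 2^(384 i)`. -/
def off : ℕ → ℕ
  | 0 => 0
  | l + 1 => off l * 2 ^ 384 + 2 ^ 383

/-- Sum of the absolute values of the balanced digits. -/
def l1 : ℕ → ℕ → ℕ
  | 0, _ => 0
  | l + 1, x => ((x % 2 ^ 384 - 2 ^ 383) + (2 ^ 383 - x % 2 ^ 384)) + l1 l (x / 2 ^ 384)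

/-- `|f| ≤ supN / 2^d` on `[-1,1]` if `k.b < 2^383`. -/
def supN (k : PK) : ℕ := l1 (2 * k.d + 1) (k.p + off (2 * k.d + 1) - k.n)

/-- `|f| / 2^s ≤ b / 2^60` on `[-1,1]`. -/
def bd (k : PK) (s b : ℕ) : Bool :=
  Nat.blt k.b (2 ^ 383) && Nat.ble (k.supN * 2 ^ 60) (b * 2 ^ (s + k.d))

/-- `|f| / 2^s ≤ (b / 2^60)^2` on `[-1,1]`. -/
def bdSq (k : PK) (s b : ℕ) : Bool :=
  Nat.blt k.b (2 ^ 383) && Nat.ble (k.supN * 2 ^ 120) (b ^ 2 * 2 ^ (s + k.d))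

end PK

def pderAux (k : ℤ) : Po → Po
  | [] => []
  | x :: a => (k * x) :: pderAux (k + 1) a

/-- Derivative. -/
def pder : Po → Po
  | [] => []
  | _ :: a => pderAux 1 a

/-- Complex polynomials (data). -/
structure CP where
  re : Po
  im : Po

def CP.der (a : CP) : CP := ⟨pder a.re, pder a.im⟩

/-- A pair of complex polynomials (bodies 1 and 2). -/
structure Col where
  a : CP
  b : CP

def Col.der (c : Col) : Col := ⟨c.a.der, c.b.der⟩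

/-- Packed complex polynomials. -/
structure CK where
  re : PK
  im : PK

namespace CK
def ofCP (c : CP) : CK := ⟨PK.ofPo c.re, PK.ofPo c.im⟩
def add (a b : CK) : CK := ⟨a.re.add b.re, a.im.add b.im⟩
def sub (a b : CK) : CK := ⟨a.re.sub b.re, a.im.sub b.im⟩
def scN (c : ℕ) (a : CK) : CK := ⟨a.re.scN c, a.im.scN c⟩
def scZ (c : ℤ) (a : CK) : CK := ⟨PK.scZ c a.re, PK.scZ c a.im⟩
/-- Real polynomial times complex polynomial. -/
def rm (p : PK) (a : CK) : CK := ⟨p.mul a.re, p.mul a.im⟩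
/-- `|a|^2`. -/
def nsq (a : CK) : PK := (a.re.mul a.re).add (a.im.mul a.im)
def sq (a : CK) : CK := ⟨(a.re.mul a.re).sub (a.im.mul a.im), (a.re.mul a.im).scN 2⟩
/-- `b * conj e`. -/
def mulConj (b e : CK) : CK :=
  ⟨(b.re.mul e.re).add (b.im.mul e.im), (b.im.mul e.re).sub (b.re.mul e.im)⟩
def bdc (a : CK) (s b : ℕ) : Bool := a.re.bd s b && a.im.bd s b
/-- real part of `conj x * y`. -/
def rip (x y : CK) : PK := (x.re.mul y.re).add (x.im.mul y.im)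
end CK

structure WK where
  a : CK
  b : CK

namespace WK
def ofCol (c : Col) : WK := ⟨CK.ofCP c.a, CK.ofCP c.b⟩
def d1 (c : WK) : CK := c.a.sub c.b
def d2 (c : WK) : CK := c.a.add (c.b.scN 2)
def d3 (c : WK) : CK := CK.scZ (-1) ((c.a.scN 2).add c.b)
/-- `(2a + b, a + 2b)`. -/
def mm (c : WK) : WK := ⟨(c.a.scN 2).add c.b, c.a.add (c.b.scN 2)⟩
def scZ (k : ℤ) (c : WK) : WK := ⟨c.a.scZ k, c.b.scZ k⟩
def add (c d : WK) : WK := ⟨c.a.add d.a, c.b.add d.b⟩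
end WK

/-- Approximation data of one pair of bodies: `u ≈ 1/|d|`, `al ≈ -1/2 |d|^-3`,
`be ≈ -3/2 d^2 |d|^-5`, and bounds. -/
structure PairD where
  u : Po
  al : Po
  be : CP
  e : ℕ
  M : ℕ
  u0 : ℕ
  ea : ℕ
  eb : ℕ

/-- One piece. The half length is `2^hn / 8`; `q` has scale `2^44`, `w` has scale `2^24`. -/
structure PD where
  hn : ℕ
  ue : ℕ
  ae : ℕ
  q : Col
  w : List Col
  p1 : PairD
  p2 : PairD
  p3 : PairD
  mr : ℕ
  lj : List ℕ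
  Dj : List (ℕ × ℕ × ℕ)
  bj : List (ℕ × ℕ)
  y : ℕ

abbrev PQ : ℕ := 44
abbrev PWW : ℕ := 24

/-- Check of `u`: `|u^2 |d|^2 - 1| ≤ e`, `|u - u0| < u0`, `|u| ≤ M`. -/
def chkU (ue : ℕ) (d : CK) (u : PK) (p : PairD) : Bool :=
  (((u.mul u).mul d.nsq).sub (PK.const (Int.ofNat (2 ^ (2 * PQ + 2 * ue))))).bd (2 * PQ + 2 * ue) p.e &&
  (let v := u.sub (PK.const (Int.ofNat p.u0))
   Nat.blt v.b (2 ^ 383) && Nat.blt v.supN (p.u0 * 2 ^ v.d)) &&
  u.bd ue p.M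

/-- Check of `al`, `be`. -/
def chkAB (ue ae : ℕ) (d : CK) (u al : PK) (be : CK) (p : PairD) : Bool :=
  ((al.scN (2 ^ (3 * ue - ae + 1))).add ((u.mul u).mul u)).bd (3 * ue) p.ea &&
  ((CK.rm d.nsq be).sub (CK.scN 3 (CK.rm al d.sq))).bdc (ae + 2 * PQ) p.eb

/-- Check of the residual of `q`. -/
def chkRes (hn ue : ℕ) (d1 d2 d3 : CK) (u1 u2 u3 : PK) (q2 : WK) (mr : ℕ) : Bool :=
  let f1 := CK.rm ((u1.mul u1).mul u1) d1
  let f2 := CK.rm ((u2.mul u2).mul u2) d2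
  let f3 := CK.rm ((u3.mul u3).mul u3) d3
  ((CK.scN (2 ^ (2 * hn)) (f3.sub f1)).sub (CK.scN (2 ^ (6 + 3 * ue)) q2.a)).bdc
    (3 * ue + PQ + 6) mr &&
  ((CK.scN (2 ^ (2 * hn)) (f1.sub f2)).sub (CK.scN (2 ^ (6 + 3 * ue)) q2.b)).bdc
    (3 * ue + PQ + 6) mr

/-- `al * e + be * conj e`. -/
def dpp (al : PK) (be : CK) (e : CK) : CK := (CK.rm al e).add (be.mulConj e)

/-- Check of one column. -/
def chkCol (hn ae : ℕ) (al1 al2 al3 : PK) (be1 be2 be3 : CK) (w w2 : WK) (l : ℕ)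
    (D : ℕ × ℕ × ℕ) : Bool :=
  let e1 := w.d1
  let e2 := w.d2
  let e3 := w.d3
  let g1 := dpp al1 be1 e1
  let g2 := dpp al2 be2 e2
  let g3 := dpp al3 be3 e3
  ((CK.scN (2 ^ (2 * hn)) (g3.sub g1)).sub (CK.scN (2 ^ (6 + ae)) w2.a)).bdc (ae + PWW + 6) l &&
  ((CK.scN (2 ^ (2 * hn)) (g1.sub g2)).sub (CK.scN (2 ^ (6 + ae)) w2.b)).bdc (ae + PWW + 6) l &&
  e1.nsq.bdSq (2 * PWW) D.1 && e2.nsq.bdSq (2 * PWW) D.2.1 && e3.nsq.bdSq (2 * PWW) D.2.2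

def chkCols (hn ae : ℕ) (al1 al2 al3 : PK) (be1 be2 be3 : CK) :
    List Col → List ℕ → List (ℕ × ℕ × ℕ) → Bool
  | w :: ws, l :: ls, D :: Ds =>
    chkCol hn ae al1 al2 al3 be1 be2 be3 (WK.ofCol w) (WK.ofCol w.der.der) l D &&
      chkCols hn ae al1 al2 al3 be1 be2 be3 ws ls Ds
  | [], [], [] => true
  | _, _, _ => false

/-- linear combination. -/
def lc : List ℤ → List WK → WK
  | c :: cs, w :: ws => (w.scZ c).add (lc cs ws)
  | _, _ => ⟨⟨⟨0, 0, 0, 0⟩, ⟨0, 0, 0, 0⟩⟩, ⟨⟨0, 0, 0, 0⟩, ⟨0, 0, 0, 0⟩⟩⟩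

/-- Check of the rows of `B`: `O` integer matrix of scale `2^24`. -/
def chkB (mw : List WK) : List (List ℤ) → List (ℕ × ℕ) → Bool
  | r :: rs, b :: bs =>
    let c := lc r mw
    c.a.nsq.bdSq (2 * (24 + PWW)) b.1 && c.b.nsq.bdSq (2 * (24 + PWW)) b.2 && chkB mw rs bs
  | [], [] => true
  | _, _ => false

/-- Entry of `A^T J A - h Ω`. -/
def chkY1 (hn y : ℕ) (mj mj' : WK) (wk wk' : WK) (om : ℤ) : Bool :=
  ((((mj.a.rip wk'.a).add (mj.b.rip wk'.b)).sub ((mj'.a.rip wk.a).add (mj'.b.rip wk.b))).sub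
    (PK.const (om * 2 ^ hn))).bd (2 * PWW) y

def chkYr (hn y : ℕ) (mj mj' : WK) : List WK → List WK → List ℤ → Bool
  | w :: ws, w' :: ws', o :: os => chkY1 hn y mj mj' w w' o && chkYr hn y mj mj' ws ws' os
  | [], [], [] => true
  | _, _, _ => false

/-- upper triangle: `om` is the list of rows `[Ω_{j,k}]_{k>j}`. -/
def chkY (hn y : ℕ) : List WK → List WK → List (List ℤ) → Bool
  | w :: ws, w' :: ws', o :: os =>
    chkYr hn y w.mm w'.mm ws ws' o && chkY hn y ws ws' os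
  | [], [], [] => true
  | _, _, _ => false

/-- All polynomial checks of one piece. -/
def chk (O : List (List ℤ)) (om : List (List ℤ)) (p : PD) : Bool :=
  let q := WK.ofCol p.q
  let d1 := q.d1
  let d2 := q.d2
  let d3 := q.d3
  let u1 := PK.ofPo p.p1.u
  let u2 := PK.ofPo p.p2.u
  let u3 := PK.ofPo p.p3.u
  let al1 := PK.ofPo p.p1.al
  let al2 := PK.ofPo p.p2.al
  let al3 := PK.ofPo p.p3.al
  let be1 := CK.ofCP p.p1.be
  let be2 := CK.ofCP p.p2.be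
  let be3 := CK.ofCP p.p3.be
  let wk := p.w.map WK.ofCol
  chkU p.ue d1 u1 p.p1 && chkU p.ue d2 u2 p.p2 && chkU p.ue d3 u3 p.p3 &&
  chkAB p.ue p.ae d1 u1 al1 be1 p.p1 && chkAB p.ue p.ae d2 u2 al2 be2 p.p2 &&
  chkAB p.ue p.ae d3 u3 al3 be3 p.p3 &&
  chkRes p.hn p.ue d1 d2 d3 u1 u2 u3 (WK.ofCol p.q.der.der) p.mr &&
  chkCols p.hn p.ae al1 al2 al3 be1 be2 be3 p.w p.lj p.Dj &&
  chkB (wk.map WK.mm) O p.bj &&
  chkY p.hn p.y wk (p.w.map fun c => WK.ofCol c.der) om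

end Pool.Agent.Work.MP_76acb6_an
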