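import Pool.Agent.Work.MP_76acb6_an.Check

/-!
# Equilateral-to-collinear bi-hyperbolic motion: definitions for the analysis
-/

set_option autoImplicit false

namespace Pool.Agent.Work.MP_76acb6_an

open Set Filter Topology
open scoped ComplexConjugate

/-! ### The problem -/

/-- Newton's equations of the planar three body problem with unit masses, no collisions. -/
def IsMotion (x : ℝ → Fin 3 → ℂ) : Prop :=
  (∀ t i j, i ≠ j → x t i ≠ x t j) ∧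
  ∃ v : ℝ → Fin 3 → ℂ, (∀ t i, HasDerivAt (fun s => x s i) (v t i) t) ∧
    ∀ t i, HasDerivAt (fun s => v s i)
      (∑ j ∈ Finset.univ.erase i, (x t j - x t i) / ((‖x t j - x t i‖ ^ 3 : ℝ) : ℂ)) t

/-- `a_h = √(2h/3) (1, z, z²)`. -/
noncomputable def aShape (h : ℝ) (z : ℂ) : Fin 3 → ℂ :=
  ![(Real.sqrt (2 * h / 3) : ℂ), Real.sqrt (2 * h / 3) * z, Real.sqrt (2 * h / 3) * z ^ 2]

/-- `b_h = √h (-1, 0, 1)`. -/
noncomputable def bShape (h : ℝ) : Fin 3 → ℂ := ![-(Real.sqrt h : ℂ), 0, (Real.sqrt h : ℂ)]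

/-! ### The reduced equation: positions of bodies 1 and 2 -/

/-- Positions of bodies 1 and 2; body 3 is at `-(q.1+q.2)`. -/
abbrev X := ℂ × ℂ

/-- The mutual differences `r1 - r2`, `r2 - r3`, `r3 - r1`. -/
def dd (m : Fin 3) (q : X) : ℂ :=
  match m with
  | 0 => q.1 - q.2
  | 1 => q.1 + 2 * q.2
  | 2 => -(2 * q.1 + q.2)

noncomputable def phi (z : ℂ) : ℂ := z / ((‖z‖ ^ 3 : ℝ) : ℂ)

/-- The derivative of `phi`. -/
noncomputable def dphi (z w : ℂ) : ℂ :=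
  ((-(1 / 2) * ‖z‖⁻¹ ^ 3 : ℝ) : ℂ) * w + ((-(3 / 2) * ‖z‖⁻¹ ^ 5 : ℝ) : ℂ) * z ^ 2 * conj w

noncomputable def Fo (q : X) : X :=
  (-phi (dd 0 q) + phi (dd 2 q), phi (dd 0 q) - phi (dd 1 q))

noncomputable def DFo (q w : X) : X :=
  (-dphi (dd 0 q) (dd 0 w) + dphi (dd 2 q) (dd 2 w),
    dphi (dd 0 q) (dd 0 w) - dphi (dd 1 q) (dd 1 w))

/-- A solution on `[0,T]` from the state `y` to the state `y'`. -/
def Flow (T : ℝ) (y y' : X × X) : Prop :=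
  0 ≤ T ∧ ∃ Q V : ℝ → X, Q 0 = y.1 ∧ V 0 = y.2 ∧ Q T = y'.1 ∧ V T = y'.2 ∧
    ∀ t ∈ Icc 0 T, (∀ m, dd m (Q t) ≠ 0) ∧ HasDerivWithinAt Q (V t) (Icc 0 T) t ∧
      HasDerivWithinAt V (Fo (Q t)) (Icc 0 T) t

/-- The state `y` has the future limit velocity `V0`. -/
def Tail (V0 : X) (y : X × X) : Prop :=
  ∃ Q V : ℝ → X, Q 0 = y.1 ∧ V 0 = y.2 ∧
    (∀ t, 0 ≤ t → (∀ m, dd m (Q t) ≠ 0) ∧ HasDerivWithinAt Q (V t) (Ici 0) t ∧
      HasDerivWithinAt V (Fo (Q t)) (Ici 0) t) ∧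
    Tendsto V atTop (𝓝 V0) ∧ Tendsto (fun t : ℝ => t⁻¹ • Q t) atTop (𝓝 V0)

/-- Kinetic energy. -/
noncomputable def Ke (v : X) : ℝ := ‖v.1‖ ^ 2 + ‖v.2‖ ^ 2 + (v.1 * conj v.2).re

/-- Potential. -/
noncomputable def Ue (q : X) : ℝ := ∑ m, ‖dd m q‖⁻¹

/-- The equilateral configuration for `h = 1`, `z = exp(2πi/3)`. -/
noncomputable def aX : X :=
  (⟨Real.sqrt (2 / 3), 0⟩, ⟨-(Real.sqrt (1 / 6)), Real.sqrt (1 / 2)⟩)

/-- The collinear configuration for `h = 1`. -/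
def bX : X := (-1, 0)

/-! ### Steps -/

abbrev Z := Fin 8 → ℝ

noncomputable def comb (W : Fin 8 → X) (ζ : Z) : X := ∑ j, ζ j • W j

/-- The state with coordinates `ζ` at a node. -/
noncomputable def node (h : ℝ) (a a1 : X) (w w1 : Fin 8 → X) (ζ : Z) : X × X :=
  (a + comb w ζ, h⁻¹ • (a1 + comb w1 ζ))

/-- The flow from the coordinates `S` to the coordinates `F` is close to the identity. -/
def Step (ρ T E L : ℝ) (S F : Z → X × X) : Prop :=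
  0 ≤ E ∧ 0 ≤ L ∧ ∃ e : Z → Z, (∀ ζ, ‖e ζ‖ ≤ E) ∧ (∀ ζ ζ', ‖e ζ - e ζ'‖ ≤ L * ‖ζ - ζ'‖) ∧
    ∀ ζ, ‖ζ‖ ≤ ρ - E → Flow T (S ζ) (F (ζ + e ζ))

/-- The (mass weighted) inner product. -/
noncomputable def ip (x y : X) : ℝ := (conj (2 * x.1 + x.2) * y.1 + conj (x.1 + 2 * x.2) * y.2).re

/-- Real components. -/
def co (r : Fin 4) (x : X) : ℝ := match r with
  | 0 => x.1.re
  | 1 => x.1.im
  | 2 => x.2.re
  | 3 => x.2.im

/-- The hypotheses of one piece, in the normalised time `[-1,1]`. -/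
structure PieceHyp (O : Fin 8 → Fin 8 → ℝ) (h : ℝ) (q q1 q2 : ℝ → X)
    (W W1 W2 : ℝ → Fin 8 → X) (m lam beta eps : ℝ) (D M : Fin 3 → ℝ) : Prop where
  hpos : 0 < h
  dq : ∀ x, HasDerivAt q (q1 x) x
  dq1 : ∀ x, HasDerivAt q1 (q2 x) x
  cq2 : Continuous q2
  dW : ∀ x j, HasDerivAt (fun s => W s j) (W1 x j) x
  dW1 : ∀ x j, HasDerivAt (fun s => W1 s j) (W2 x j) x
  cW2 : ∀ j, Continuous fun s => W2 s j
  ne : ∀ x ∈ Icc (-1 : ℝ) 1, ∀ i, dd i (q x) ≠ 0 ∧ ‖dd i (q x)‖⁻¹ ≤ M i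
  res : ∀ x ∈ Icc (-1 : ℝ) 1, ‖(h ^ 2) • Fo (q x) - q2 x‖ ≤ m
  lin : ∀ x ∈ Icc (-1 : ℝ) 1, ∀ ζ : Z,
    ‖(h ^ 2) • DFo (q x) (comb (W x) ζ) - comb (W2 x) ζ‖ ≤ lam * ‖ζ‖
  pair : ∀ x ∈ Icc (-1 : ℝ) 1, ∀ (ζ : Z) (i : Fin 3), ‖dd i (comb (W x) ζ)‖ ≤ D i * ‖ζ‖
  bB : ∀ x ∈ Icc (-1 : ℝ) 1, ∀ y : X,
    ‖(fun i => h⁻¹ * ∑ j, O i j * ip (W x j) y : Z)‖ ≤ beta * ‖y‖
  bA : ∀ x ∈ Icc (-1 : ℝ) 1, ∀ ζ : Z,
    ‖(fun i => h⁻¹ * ∑ j, O i j * (ip (W x j) (comb (W1 x) ζ) - ip (W1 x j) (comb (W x) ζ)) : Z)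
      - ζ‖ ≤ eps * ‖ζ‖

/-! ### Real functions of the certificate -/

noncomputable def evR : Po → ℝ → ℝ
  | [], _ => 0
  | c :: t, x => c + x * evR t x

/-- `s` is the scale. -/
noncomputable def CP.f (s : ℕ) (a : CP) (x : ℝ) : ℂ := ⟨evR a.re x / 2 ^ s, evR a.im x / 2 ^ s⟩

noncomputable def Col.f (s : ℕ) (c : Col) (x : ℝ) : X := (c.a.f s x, c.b.f s x)

def Col.zero : Col := ⟨⟨[], []⟩, ⟨[], []⟩⟩

noncomputable def PD.qf (p : PD) : ℝ → X := p.q.f 44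
noncomputable def PD.q1f (p : PD) : ℝ → X := p.q.der.f 44
noncomputable def PD.q2f (p : PD) : ℝ → X := p.q.der.der.f 44
noncomputable def PD.Wf (p : PD) (x : ℝ) (j : Fin 8) : X := (p.w.getD j Col.zero).f 24 x
noncomputable def PD.W1f (p : PD) (x : ℝ) (j : Fin 8) : X := (p.w.getD j Col.zero).der.f 24 x
noncomputable def PD.W2f (p : PD) (x : ℝ) (j : Fin 8) : X := (p.w.getD j Col.zero).der.der.f 24 x

/-! ### Rational constants of a piece -/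

def N60 (n : ℕ) : ℚ := n / 2 ^ 60

/-- half length of the time interval -/
def PD.hQ (p : PD) : ℚ := 2 ^ p.hn / 8

/-- bound of `1/|d|` -/
def PairD.MQ (p : PairD) : ℚ := N60 p.M * (1 + 2 * N60 p.e)
def PairD.EA (p : PairD) : ℚ := N60 p.ea / 2 + 2 * N60 p.e * p.MQ ^ 3
def PairD.EB (p : PairD) : ℚ := 3 * p.EA + 3 / 2 * N60 p.eb * p.MQ ^ 2

def PD.mQ (p : PD) : ℚ :=
  3 / 2 * N60 p.mr + 4 * p.hQ ^ 2 *
    (N60 p.p1.e * N60 p.p1.M ^ 2 + N60 p.p2.e * N60 p.p2.M ^ 2 + N60 p.p3.e * N60 p.p3.M ^ 2)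

def PD.D1 (p : PD) : ℚ := N60 (p.Dj.map fun d => d.1).sum
def PD.D2 (p : PD) : ℚ := N60 (p.Dj.map fun d => d.2.1).sum
def PD.D3 (p : PD) : ℚ := N60 (p.Dj.map fun d => d.2.2).sum

def PD.lamQ (p : PD) : ℚ :=
  3 / 2 * N60 p.lj.sum + p.hQ ^ 2 * ((p.p1.EA + p.p1.EB) * p.D1 + (p.p2.EA + p.p2.EB) * p.D2 +
    (p.p3.EA + p.p3.EB) * p.D3)

def PD.betaQ (p : PD) : ℚ := N60 ((p.bj.map fun b => b.1 + b.2).foldr max 0) / p.hQ

/-- `‖BA - 1‖` -/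
def PD.epsQ (p : PD) : ℚ := 1 / 2 ^ 17 + 6 * N60 p.y / p.hQ

def PD.lQ (ρ : ℚ) (p : PD) : ℚ :=
  p.lamQ + 10 * p.hQ ^ 2 * ρ *
    (p.p1.MQ ^ 4 * p.D1 ^ 2 + p.p2.MQ ^ 4 * p.D2 ^ 2 + p.p3.MQ ^ 4 * p.D3 ^ 2)

def PD.EQ (ρ : ℚ) (p : PD) : ℚ := 2 * p.betaQ * (p.mQ + p.lQ ρ * ρ) / (1 - p.epsQ)
def PD.LQ (ρ : ℚ) (p : PD) : ℚ :=
  2 * p.betaQ * p.lQ ρ / (1 - p.epsQ - 2 * p.betaQ * p.lQ ρ)

/-- Numerical conditions for one piece. -/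
def PD.numOK (ρ : ℚ) (p : PD) : Bool :=
  decide (p.p1.MQ * p.D1 * ρ ≤ 1 / 64) && decide (p.p2.MQ * p.D2 * ρ ≤ 1 / 64) &&
  decide (p.p3.MQ * p.D3 * ρ ≤ 1 / 64) && decide (2 * p.betaQ * p.lQ ρ + p.epsQ ≤ 1 / 2)

/-- Shape conditions. -/
def PD.shape (p : PD) : Bool :=
  decide (p.w.length = 8) && decide (p.bj.length = 8) && decide (p.ae ≤ 3 * p.ue) &&
  decide (p.p1.e ≤ 2 ^ 55) && decide (p.p2.e ≤ 2 ^ 55) && decide (p.p3.e ≤ 2 ^ 55)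

/-- Entries of the matrix `O` (scale `2^24`). -/
def Oent (O : List (List ℤ)) (i j : Fin 8) : ℤ := (O.getD i []).getD j 0

/-- Entries of the antisymmetric matrix `Ω` (scale `2^45`) from its upper triangle. -/
def Ment (om : List (List ℤ)) (j k : Fin 8) : ℤ :=
  if j < k then (om.getD j []).getD (k - j - 1 : ℕ) 0
  else if k < j then -(om.getD k []).getD (j - k - 1 : ℕ) 0 else 0

noncomputable def OR (O : List (List ℤ)) (i j : Fin 8) : ℝ := (Oent O i j : ℝ) / 2 ^ 24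

/-- `O` is an approximate inverse of `Ω`. -/
def chkO (O om : List (List ℤ)) : Bool :=
  decide (O.length = 8) && (O.all fun r => decide (r.length = 8)) &&
  decide (∀ i : Fin 8, ∑ j : Fin 8, (Oent O i j).natAbs ≤ 3 * 2 ^ 22) &&
  decide (∀ i : Fin 8, ∑ k : Fin 8,
    (∑ j : Fin 8, Oent O i j * Ment om j k - if i = k then 2 ^ 69 else 0).natAbs ≤ 2 ^ 52)

/-- The coordinates of a piece at its left end. -/
noncomputable def PD.S (p : PD) : Z → X × X :=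
  node (p.hQ : ℝ) (p.qf (-1)) (p.q1f (-1)) (p.Wf (-1)) (p.W1f (-1))

/-- The coordinates of a piece at its right end. -/
noncomputable def PD.F (p : PD) : Z → X × X :=
  node (p.hQ : ℝ) (p.qf 1) (p.q1f 1) (p.Wf 1) (p.W1f 1)

/-! ### Matching of the pieces at the nodes -/

/-- Value at `1`. -/
def ev1 : Po → ℤ
  | [] => 0
  | c :: t => c + ev1 t

/-- Value at `-1`. -/
def evm : Po → ℤ
  | [] => 0
  | c :: t => c - evm t

def Col.v1 (c : Col) : ℤ × ℤ × ℤ × ℤ := (ev1 c.a.re, ev1 c.a.im, ev1 c.b.re, ev1 c.b.im)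
def Col.vm (c : Col) : ℤ × ℤ × ℤ × ℤ := (evm c.a.re, evm c.a.im, evm c.b.re, evm c.b.im)

def scl (k : ℤ) (v : ℤ × ℤ × ℤ × ℤ) : ℤ × ℤ × ℤ × ℤ := (k * v.1, k * v.2.1, k * v.2.2.1, k * v.2.2.2)

/-- The right end of `p` is the left end of `p'`. -/
def nodeEq (p p' : PD) : Bool :=
  decide (p.q.v1 = p'.q.vm) &&
  decide (scl (2 ^ p'.hn) p.q.der.v1 = scl (2 ^ p.hn) p'.q.der.vm) &&
  decide (p.w.length = 8) && decide (p'.w.length = 8) &&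
  decide (p.w.map Col.v1 = p'.w.map Col.vm) &&
  decide (p.w.map (fun c => scl (2 ^ p'.hn) c.der.v1) = p'.w.map fun c => scl (2 ^ p.hn) c.der.vm)

/-- The left ends of `p` and `p'` agree up to the sign of the velocities. -/
def flipEq (p p' : PD) : Bool :=
  decide (p.q.vm = p'.q.vm) &&
  decide (scl (2 ^ p'.hn) p.q.der.vm = scl (-2 ^ p.hn) p'.q.der.vm) &&
  decide (p.w.length = 8) && decide (p'.w.length = 8) &&
  decide (p.w.map Col.vm = p'.w.map Col.vm) &&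
  decide (p.w.map (fun c => scl (2 ^ p'.hn) c.der.vm) = p'.w.map fun c => scl (-2 ^ p.hn) c.der.vm)

/-! ### Meaning of the packed polynomials -/

def evZ : List ℤ → ℤ → ℤ
  | [], _ => 0
  | c :: t, x => c + x * evZ t x

noncomputable def evC : List ℤ → ℂ → ℂ
  | [], _ => 0
  | c :: t, x => c + x * evC t x

def l1Z : List ℤ → ℕ
  | [] => 0
  | c :: t => c.natAbs + l1Z t

/-- `k` represents the function `f` on `[-1,1]`. -/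
def Rep (k : PK) (f : ℝ → ℝ) : Prop :=
  ∃ F : List ℤ, F.length ≤ 2 * k.d + 1 ∧ (k.p : ℤ) - k.n = evZ F (2 ^ 384) ∧ l1Z F ≤ k.b ∧
    ∀ θ : ℝ, evC F (Complex.exp (θ * Complex.I)) =
      (2 * Complex.exp (θ * Complex.I)) ^ k.d * (f (Real.cos θ) : ℂ)

end Pool.Agent.Work.MP_76acb6_an
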