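import Pool.Agent.Work.MP_76acb6_an.Bd.B02

/-!
# Final assembly
-/

set_option autoImplicit false
set_option maxRecDepth 100000

namespace Pool.Agent.Work.MP_76acb6_an

open Set Filter Topology

lemma evR_one (l : Po) : evR l 1 = ev1 l := by
  induction l with
  | nil => simp [evR, ev1]
  | cons c t ih => simp [evR, ev1, ih]

def cmp (r : Fin 4) (v : ℤ × ℤ × ℤ × ℤ) : ℤ := match r with
  | 0 => v.1
  | 1 => v.2.1
  | 2 => v.2.2.1
  | 3 => v.2.2.2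

lemma co_f (r : Fin 4) (c : Col) (s : ℕ) : co r (c.f s 1) = cmp r c.v1 / 2 ^ s := by
  fin_cases r <;> simp [co, Col.f, CP.f, cmp, Col.v1, evR_one]

lemma co_add (r : Fin 4) (x y : X) : co r (x + y) = co r x + co r y := by
  fin_cases r <;> simp [co]

lemma co_sub (r : Fin 4) (x y : X) : co r (x - y) = co r x - co r y := by
  fin_cases r <;> simp [co]

lemma co_smul (r : Fin 4) (k : ℝ) (x : X) : co r (k • x) = k * co r x := by
  fin_cases r <;> simp [co]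

lemma co_comb (r : Fin 4) (W : Fin 8 → X) (ζ : Z) : co r (comb W ζ) = ∑ j, ζ j * co r (W j) := by
  have h : ∀ s : Finset (Fin 8), co r (∑ j ∈ s, ζ j • W j) = ∑ j ∈ s, ζ j * co r (W j) := by
    intro s
    induction s using Finset.induction_on with
    | empty => fin_cases r <;> simp [co]
    | insert a s ha ih => rw [Finset.sum_insert ha, Finset.sum_insert ha, co_add, co_smul, ih]
  exact h Finset.univ

lemma comb_smul (k : ℝ) (W : Fin 8 → X) (ζ : Z) : comb (fun j => k • W j) ζ = k • comb W ζ := by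
  unfold comb
  rw [Finset.smul_sum]
  exact Finset.sum_congr rfl fun j _ => smul_comm _ _ _

lemma F_form (p : PD) (ζ : Z) : p.F ζ = (p.qf 1 + comb (p.Wf 1) ζ,
    (p.hQ : ℝ)⁻¹ • p.q1f 1 + comb (fun j => (p.hQ : ℝ)⁻¹ • p.W1f 1 j) ζ) := by
  simp only [PD.F, node, comb_smul, smul_add]

/-- entries of `W(1)` -/
def wI (p : PD) (r : Fin 4) (j : Fin 8) : ℤ := cmp r (p.w.getD j Col.zero).v1

/-- entries of `W'(1)` -/
def vI (p : PD) (r : Fin 4) (j : Fin 8) : ℤ := cmp r (p.w.getD j Col.zero).der.v1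

lemma abs_sum_le (ζ : Z) (a : Fin 8 → ℝ) : |∑ j, ζ j * a j| ≤ (∑ j, |a j|) * ‖ζ‖ := by
  rw [Finset.sum_mul]
  refine (Finset.abs_sum_le_sum_abs _ _).trans (Finset.sum_le_sum fun j _ => ?_)
  rw [abs_mul, mul_comm]
  exact mul_le_mul_of_nonneg_left (norm_le_pi_norm ζ j) (abs_nonneg _)

lemma co_W (p : PD) (r : Fin 4) (K : ℕ) (h : ∑ j : Fin 8, (wI p r j).natAbs ≤ K) (ζ : Z) :
    |co r (comb (p.Wf 1) ζ)| ≤ (K / 2 ^ 24 : ℝ) * ‖ζ‖ := by
  rw [co_comb]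
  refine (abs_sum_le _ _).trans (mul_le_mul_of_nonneg_right ?_ (norm_nonneg _))
  have h1 : ∀ j : Fin 8, |co r (p.Wf 1 j)| = ((wI p r j).natAbs : ℝ) / 2 ^ 24 := by
    intro j
    rw [PD.Wf, co_f, abs_div, abs_of_pos (by positivity : (0:ℝ) < 2 ^ 24)]
    simp only [wI, Nat.cast_natAbs, Int.cast_abs]
  rw [Finset.sum_congr rfl fun j _ => h1 j, ← Finset.sum_div]
  gcongr
  exact_mod_cast h

lemma co_V (p : PD) (r : Fin 4) (K : ℕ) (δ : Fin 8 → ℤ)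
    (h : ∑ j : Fin 8, (vI p r j - δ j * 2 ^ (21 + p.hn)).natAbs ≤ K) (ζ : Z) :
    |co r (comb (fun j => (p.hQ : ℝ)⁻¹ • p.W1f 1 j) ζ) - ∑ j, (δ j : ℝ) * ζ j| ≤
      (K / 2 ^ (21 + p.hn) : ℝ) * ‖ζ‖ := by
  rw [co_comb]
  have h1 : ∀ j : Fin 8, co r ((p.hQ : ℝ)⁻¹ • p.W1f 1 j) - δ j =
      ((vI p r j - δ j * 2 ^ (21 + p.hn) : ℤ) : ℝ) / 2 ^ (21 + p.hn) := by
    intro j
    rw [co_smul, PD.W1f, co_f]
    have h2 : (p.hQ : ℝ) = 2 ^ p.hn / 8 := by simp [PD.hQ]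
    rw [h2]
    simp only [vI]
    push_cast
    field_simp
    ring
  have h3 : ∑ j, ζ j * co r ((p.hQ : ℝ)⁻¹ • p.W1f 1 j) - ∑ j, (δ j : ℝ) * ζ j =
      ∑ j, ζ j * (co r ((p.hQ : ℝ)⁻¹ • p.W1f 1 j) - δ j) := by
    rw [← Finset.sum_sub_distrib]
    exact Finset.sum_congr rfl fun j _ => by ring
  rw [h3]
  refine (abs_sum_le _ _).trans (mul_le_mul_of_nonneg_right ?_ (norm_nonneg _))
  have h4 : ∀ j : Fin 8, |co r ((p.hQ : ℝ)⁻¹ • p.W1f 1 j) - δ j| =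
      ((vI p r j - δ j * 2 ^ (21 + p.hn)).natAbs : ℝ) / 2 ^ (21 + p.hn) := by
    intro j
    rw [h1, abs_div, abs_of_pos (by positivity : (0:ℝ) < 2 ^ (21 + p.hn))]
    simp only [Nat.cast_natAbs, Int.cast_abs]
  rw [Finset.sum_congr rfl fun j _ => h4 j, ← Finset.sum_div]
  gcongr
  exact_mod_cast h

lemma norm_le_co (x : X) (a b : ℝ) (h1 : |co 0 x| + |co 1 x| ≤ a) (h2 : |co 2 x| + |co 3 x| ≤ b)
    (c : ℝ) (ha : a ≤ c) (hb : b ≤ c) : ‖x‖ ≤ c := by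
  rw [Prod.norm_def]
  refine max_le ?_ ?_
  · exact (Complex.norm_le_abs_re_add_abs_im _).trans (h1.trans ha)
  · exact (Complex.norm_le_abs_re_add_abs_im _).trans (h2.trans hb)

/-- Velocities and positions at the right end. -/
lemma co_q (p : PD) (r : Fin 4) : co r (p.qf 1) = cmp r p.q.v1 / 2 ^ 44 := by
  rw [PD.qf, co_f]

lemma co_dq (p : PD) (r : Fin 4) :
    co r ((p.hQ : ℝ)⁻¹ • p.q1f 1) = cmp r p.q.der.v1 / 2 ^ (41 + p.hn) := by
  rw [co_smul, PD.q1f, co_f]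
  have h2 : (p.hQ : ℝ) = 2 ^ p.hn / 8 := by simp [PD.hQ]
  rw [h2]
  field_simp
  ring

theorem q45 : p_45.q.v1 = (-1153101620263870900, 24159624036608, -17856609648556, -68716085996040) := by
  decide +kernel
theorem dq45 : p_45.q.der.v1 = (-144117936390273220, 1128132, 5534308, 5334908) := by
  decide +kernel
theorem q39 : m_39.q.v1 = (941556108432214608, 354074346244, -470763324801672428, 815358202579106504) := by
  decide +kernel
theorem dq39 : m_39.q.der.v1 = (117671462387355200, -2161464, -58835731201794380, 101906475724356240) := by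
  decide +kernel
theorem hn45 : p_45.hn = 16 := rfl
theorem hn39 : m_39.hn = 16 := rfl

/-! ### Limit velocities -/

lemma phi_real (x : ℝ) (_hx : 0 < x) (z : ℂ) (hz : ‖z‖ = x) : phi z = ((x ^ 3)⁻¹ : ℝ) • z := by
  unfold phi
  rw [hz, Complex.real_smul]
  push_cast
  rw [div_eq_inv_mul]

lemma Fo_bX : Fo bX = (5 / 4, 0) := by
  have h0 : phi (dd 0 bX) = -1 := by
    have : dd 0 bX = -1 := by simp [dd, bX]
    rw [this, phi_real 1 one_pos _ (by simp)]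
    norm_num
  have h1 : phi (dd 1 bX) = -1 := by
    have : dd 1 bX = -1 := by simp [dd, bX]
    rw [this, phi_real 1 one_pos _ (by simp)]
    norm_num
  have h2 : phi (dd 2 bX) = 1 / 4 := by
    have : dd 2 bX = 2 := by simp [dd, bX]
    rw [this, phi_real 2 two_pos _ (by simp)]
    rw [Complex.real_smul]
    push_cast
    norm_num
  unfold Fo
  rw [h0, h1, h2]
  norm_num

lemma dd_bX (i : Fin 3) : 1 ≤ ‖dd i bX‖ := by
  fin_cases i <;> simp [dd, bX]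

lemma sq23 : Real.sqrt (2 / 3) ^ 2 = 2 / 3 := Real.sq_sqrt (by norm_num)
lemma sq16 : Real.sqrt (1 / 6) ^ 2 = 1 / 6 := Real.sq_sqrt (by norm_num)
lemma sq12 : Real.sqrt (1 / 2) ^ 2 = 1 / 2 := Real.sq_sqrt (by norm_num)
lemma s23 : Real.sqrt (2 / 3) = 2 * Real.sqrt (1 / 6) := by
  have : (2 / 3 : ℝ) = 2 ^ 2 * (1 / 6) := by norm_num
  rw [this, Real.sqrt_mul (by norm_num), Real.sqrt_sq (by norm_num)]

lemma dd_xy (x y : ℝ) (i : Fin 3) : dd i ((⟨2 * x, 0⟩, ⟨-x, y⟩) : X) =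
    (match i with
      | 0 => ⟨3 * x, -y⟩
      | 1 => ⟨0, 2 * y⟩
      | 2 => ⟨-(3 * x), -y⟩ : ℂ) := by
  fin_cases i
  · apply Complex.ext <;> simp [dd]; ring
  · apply Complex.ext <;> simp [dd]
  · apply Complex.ext <;> simp [dd]; ring

lemma aX_eq : aX = ((⟨2 * Real.sqrt (1 / 6), 0⟩, ⟨-(Real.sqrt (1 / 6)), Real.sqrt (1 / 2)⟩) : X) := by
  unfold aX
  rw [s23]

lemma norm_dd_xy (x y : ℝ) (hx : x ^ 2 = 1 / 6) (hy : y ^ 2 = 1 / 2) (i : Fin 3) :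
    ‖dd i ((⟨2 * x, 0⟩, ⟨-x, y⟩) : X)‖ = Real.sqrt 2 := by
  rw [← Real.sqrt_sq (norm_nonneg (dd i _)), ← Complex.normSq_eq_norm_sq]
  congr 1
  rw [dd_xy]
  fin_cases i <;> simp only [Complex.normSq_apply] <;> nlinarith

lemma norm_dd_aX (i : Fin 3) : ‖dd i aX‖ = Real.sqrt 2 := by
  rw [aX_eq]
  exact norm_dd_xy _ _ sq16 sq12 i

lemma dd_aX (i : Fin 3) : 1 ≤ ‖dd i aX‖ := by
  rw [norm_dd_aX]
  exact Real.one_le_sqrt.mpr (by norm_num)

/-- `Fo aX = -κ aX` with `κ = 3/(2√2)`. -/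
lemma Fo_aX : Fo aX = -(3 * (Real.sqrt 2 ^ 3)⁻¹) • aX := by
  have h : ∀ i, phi (dd i aX) = ((Real.sqrt 2 ^ 3)⁻¹ : ℝ) • dd i aX := fun i =>
    phi_real _ (by positivity) _ (norm_dd_aX i)
  unfold Fo
  rw [h 0, h 1, h 2]
  apply Prod.ext
  · simp only [dd, Prod.smul_fst, Complex.real_smul]
    push_cast
    ring
  · simp only [dd, Prod.smul_snd, Complex.real_smul]
    push_cast
    ring


lemma x16_bd : 0.408248290463863 ≤ Real.sqrt (1 / 6) ∧ Real.sqrt (1 / 6) ≤ 0.408248290463864 := by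
  constructor
  · apply Real.le_sqrt_of_sq_le; norm_num
  · rw [Real.sqrt_le_left (by norm_num)]; norm_num

lemma x12_bd : 0.707106781186547 ≤ Real.sqrt (1 / 2) ∧ Real.sqrt (1 / 2) ≤ 0.707106781186548 := by
  constructor
  · apply Real.le_sqrt_of_sq_le; norm_num
  · rw [Real.sqrt_le_left (by norm_num)]; norm_num

/-- `κ = 3/(2√2)` -/
lemma kap_bd : 1.06066017 ≤ 3 * (Real.sqrt 2 ^ 3)⁻¹ ∧ 3 * (Real.sqrt 2 ^ 3)⁻¹ ≤ 1.06066018 := by
  have h2 : Real.sqrt 2 ^ 2 = 2 := Real.sq_sqrt (by norm_num)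
  have h0 : 0 < Real.sqrt 2 := by positivity
  have h3 : 3 * (Real.sqrt 2 ^ 3)⁻¹ = 3 / 4 * Real.sqrt 2 := by
    have : Real.sqrt 2 ^ 3 = 2 * Real.sqrt 2 := by rw [pow_succ, h2]
    rw [this]
    field_simp
    nlinarith
  rw [h3]
  constructor
  · have : 1.41421356 ≤ Real.sqrt 2 := by apply Real.le_sqrt_of_sq_le; norm_num
    linarith
  · have : Real.sqrt 2 ≤ 1.4142135724 := by
      rw [Real.sqrt_le_left (by norm_num)]; norm_num
    linarith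

/-- numerical end data of one run -/
structure EndOK (p : PD) (V : X) (τ cW : ℝ) (c : Fin 4 → ℝ) : Prop where
  pos : ‖p.qf 1 - τ • V‖ ≤ 5
  vel : ‖(p.hQ : ℝ)⁻¹ • p.q1f 1 - V‖ ≤ 1 / 16
  vel' : ∀ r, |co r ((p.hQ : ℝ)⁻¹ • p.q1f 1 - V + τ⁻¹ • Fo V)| ≤ 1 / 10 ^ 9
  W : ∀ ζ, ‖comb (p.Wf 1) ζ‖ ≤ cW * ‖ζ‖
  V' : ∀ r ζ, |co r (comb (fun j => (p.hQ : ℝ)⁻¹ • p.W1f 1 j) ζ)| ≤ c r * ‖ζ‖

lemma co_V1 (p : PD) (r : Fin 4) (k : Fin 8)
    (h : ∑ j : Fin 8, (vI p r j - (if j = k then 1 else 0) * 2 ^ (21 + p.hn)).natAbs ≤ 2 ^ 24)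
    (hn : p.hn = 16) (ζ : Z) :
    |co r (comb (fun j => (p.hQ : ℝ)⁻¹ • p.W1f 1 j) ζ) - ζ k| ≤ 1 / 2 ^ 13 * ‖ζ‖ := by
  have := co_V p r (2 ^ 24) (fun j => if j = k then 1 else 0) h ζ
  rw [hn] at this
  have e : ∑ j : Fin 8, (((if j = k then 1 else 0 : ℤ)) : ℝ) * ζ j = ζ k := by
    rw [Finset.sum_eq_single k]
    · simp
    · intro b _ hb; simp [hb]
    · intro h; exact absurd (Finset.mem_univ k) h
  rw [e] at this
  refine this.trans (le_of_eq ?_)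
  norm_num

lemma co_V1' (p : PD) (r : Fin 4) (k : Fin 8)
    (h : ∑ j : Fin 8, (vI p r j - (if j = k then 1 else 0) * 2 ^ (21 + p.hn)).natAbs ≤ 2 ^ 24)
    (hn : p.hn = 16) (ζ : Z) :
    |co r (comb (fun j => (p.hQ : ℝ)⁻¹ • p.W1f 1 j) ζ)| ≤ 1001 / 1000 * ‖ζ‖ := by
  have h1 := co_V1 p r k h hn ζ
  have h2 : |ζ k| ≤ ‖ζ‖ := norm_le_pi_norm ζ k
  have h3 := norm_nonneg ζ
  have h4 := abs_sub_abs_le_abs_sub (co r (comb (fun j => (p.hQ : ℝ)⁻¹ • p.W1f 1 j) ζ)) (ζ k)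
  have h5 : (1 / 2 ^ 13 : ℝ) * ‖ζ‖ ≤ 1 / 1000 * ‖ζ‖ :=
    mul_le_mul_of_nonneg_right (by norm_num) h3
  linarith

theorem hP1 : ∑ j : Fin 8, (vI p_45 1 j - (if j = 4 then 1 else 0) * 2 ^ (21 + p_45.hn)).natAbs
    ≤ 2 ^ 24 := by decide +kernel
theorem hP2 : ∑ j : Fin 8, (vI p_45 2 j - (if j = 5 then 1 else 0) * 2 ^ (21 + p_45.hn)).natAbs
    ≤ 2 ^ 24 := by decide +kernel
theorem hP3 : ∑ j : Fin 8, (vI p_45 3 j - (if j = 6 then 1 else 0) * 2 ^ (21 + p_45.hn)).natAbs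
    ≤ 2 ^ 24 := by decide +kernel
theorem hM0 : ∑ j : Fin 8, (vI m_39 0 j - (if j = 0 then 1 else 0) * 2 ^ (21 + m_39.hn)).natAbs
    ≤ 2 ^ 24 := by decide +kernel
theorem hM1 : ∑ j : Fin 8, (vI m_39 1 j - (if j = 1 then 1 else 0) * 2 ^ (21 + m_39.hn)).natAbs
    ≤ 2 ^ 24 := by decide +kernel
theorem hM2 : ∑ j : Fin 8, (vI m_39 2 j - (if j = 2 then 1 else 0) * 2 ^ (21 + m_39.hn)).natAbs
    ≤ 2 ^ 24 := by decide +kernel
theorem hM3 : ∑ j : Fin 8, (vI m_39 3 j - (if j = 3 then 1 else 0) * 2 ^ (21 + m_39.hn)).natAbs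
    ≤ 2 ^ 24 := by decide +kernel

lemma W_of_co (p : PD) (k0 k1 k2 k3 : ℕ) (cW : ℝ)
    (h0 : ∑ j : Fin 8, (wI p 0 j).natAbs ≤ k0) (h1 : ∑ j : Fin 8, (wI p 1 j).natAbs ≤ k1)
    (h2 : ∑ j : Fin 8, (wI p 2 j).natAbs ≤ k2) (h3 : ∑ j : Fin 8, (wI p 3 j).natAbs ≤ k3)
    (ha : ((k0 : ℝ) + k1) / 2 ^ 24 ≤ cW) (hb : ((k2 : ℝ) + k3) / 2 ^ 24 ≤ cW) (ζ : Z) :
    ‖comb (p.Wf 1) ζ‖ ≤ cW * ‖ζ‖ := by
  have e0 := co_W p 0 k0 h0 ζ
  have e1 := co_W p 1 k1 h1 ζ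
  have e2 := co_W p 2 k2 h2 ζ
  have e3 := co_W p 3 k3 h3 ζ
  have hn := norm_nonneg ζ
  refine norm_le_co _ (((k0 : ℝ) + k1) / 2 ^ 24 * ‖ζ‖) (((k2 : ℝ) + k3) / 2 ^ 24 * ‖ζ‖) ?_ ?_ _
    (mul_le_mul_of_nonneg_right ha hn) (mul_le_mul_of_nonneg_right hb hn)
  · rw [add_div, add_mul]; linarith
  · rw [add_div, add_mul]; linarith

theorem endP : EndOK p_45 bX 65546 210000 (fun r => if r = 0 then 3 else 1001 / 1000) := by
  have q0 : co 0 (p_45.qf 1) = -1153101620263870900 / 2 ^ 44 := by rw [co_q, q45]; norm_num [cmp]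
  have q1 : co 1 (p_45.qf 1) = 24159624036608 / 2 ^ 44 := by rw [co_q, q45]; norm_num [cmp]
  have q2 : co 2 (p_45.qf 1) = -17856609648556 / 2 ^ 44 := by rw [co_q, q45]; norm_num [cmp]
  have q3 : co 3 (p_45.qf 1) = -68716085996040 / 2 ^ 44 := by rw [co_q, q45]; norm_num [cmp]
  have v0 : co 0 ((p_45.hQ : ℝ)⁻¹ • p_45.q1f 1) = -144117936390273220 / 2 ^ 57 := by
    rw [co_dq, dq45, hn45]; norm_num [cmp]
  have v1 : co 1 ((p_45.hQ : ℝ)⁻¹ • p_45.q1f 1) = 1128132 / 2 ^ 57 := by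
    rw [co_dq, dq45, hn45]; norm_num [cmp]
  have v2 : co 2 ((p_45.hQ : ℝ)⁻¹ • p_45.q1f 1) = 5534308 / 2 ^ 57 := by
    rw [co_dq, dq45, hn45]; norm_num [cmp]
  have v3 : co 3 ((p_45.hQ : ℝ)⁻¹ • p_45.q1f 1) = 5334908 / 2 ^ 57 := by
    rw [co_dq, dq45, hn45]; norm_num [cmp]
  have b0 : co 0 bX = -1 := rfl
  have b1 : co 1 bX = 0 := by simp [co, bX]
  have b2 : co 2 bX = 0 := by simp [co, bX]
  have b3 : co 3 bX = 0 := by simp [co, bX]
  have f0 : co 0 (Fo bX) = 5 / 4 := by rw [Fo_bX]; simp [co]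
  have f1 : co 1 (Fo bX) = 0 := by rw [Fo_bX]; simp [co]
  have f2 : co 2 (Fo bX) = 0 := by rw [Fo_bX]; simp [co]
  have f3 : co 3 (Fo bX) = 0 := by rw [Fo_bX]; simp [co]
  refine ⟨?_, ?_, ?_, ?_, ?_⟩
  · apply norm_le_co _ 5 5 _ _ _ le_rfl le_rfl
    · rw [co_sub, co_sub, co_smul, co_smul, q0, q1, b0, b1]; norm_num [abs_of_pos, abs_of_neg]
    · rw [co_sub, co_sub, co_smul, co_smul, q2, q3, b2, b3]; norm_num [abs_of_pos, abs_of_neg]
  · apply norm_le_co _ (1 / 16) (1 / 16) _ _ _ le_rfl le_rfl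
    · rw [co_sub, co_sub, v0, v1, b0, b1]; norm_num [abs_of_pos, abs_of_neg]
    · rw [co_sub, co_sub, v2, v3, b2, b3]; norm_num [abs_of_pos, abs_of_neg]
  · intro r
    rw [co_add, co_sub, co_smul r (65546 : ℝ)⁻¹]
    fin_cases r
    · simp only [Fin.zero_eta]; rw [v0, b0, f0]; norm_num [abs_of_pos, abs_of_neg, abs_le]
    · simp only [Fin.mk_one]; rw [v1, b1, f1]; norm_num [abs_of_pos, abs_of_neg, abs_le]
    · simp only [Fin.reduceFinMk]; rw [v2, b2, f2]; norm_num [abs_of_pos, abs_of_neg, abs_le]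
    · simp only [Fin.reduceFinMk]; rw [v3, b3, f3]; norm_num [abs_of_pos, abs_of_neg, abs_le]
  · exact W_of_co p_45 (142374 * 2 ^ 24) (65566 * 2 ^ 24) (65566 * 2 ^ 24) (65600 * 2 ^ 24) _
      (by decide +kernel) (by decide +kernel) (by decide +kernel) (by decide +kernel)
      (by norm_num) (by norm_num)
  · intro r ζ
    have hn := norm_nonneg ζ
    fin_cases r
    · have := co_V p_45 0 (3 * 2 ^ 37) (fun _ => 0) (by decide +kernel) ζ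
      rw [hn45] at this
      simp only [Fin.zero_eta, if_true]
      norm_num at this ⊢
      linarith
    · simpa using co_V1' p_45 1 4 hP1 hn45 ζ
    · simpa using co_V1' p_45 2 5 hP2 hn45 ζ
    · simpa using co_V1' p_45 3 6 hP3 hn45 ζ

theorem endM : EndOK m_39 aX 65548 210000 (fun _ => 1001 / 1000) := by
  have q0 : co 0 (m_39.qf 1) = 941556108432214608 / 2 ^ 44 := by rw [co_q, q39]; norm_num [cmp]
  have q1 : co 1 (m_39.qf 1) = 354074346244 / 2 ^ 44 := by rw [co_q, q39]; norm_num [cmp]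
  have q2 : co 2 (m_39.qf 1) = -470763324801672428 / 2 ^ 44 := by rw [co_q, q39]; norm_num [cmp]
  have q3 : co 3 (m_39.qf 1) = 815358202579106504 / 2 ^ 44 := by rw [co_q, q39]; norm_num [cmp]
  have v0 : co 0 ((m_39.hQ : ℝ)⁻¹ • m_39.q1f 1) = 117671462387355200 / 2 ^ 57 := by
    rw [co_dq, dq39, hn39]; norm_num [cmp]
  have v1 : co 1 ((m_39.hQ : ℝ)⁻¹ • m_39.q1f 1) = -2161464 / 2 ^ 57 := by
    rw [co_dq, dq39, hn39]; norm_num [cmp]
  have v2 : co 2 ((m_39.hQ : ℝ)⁻¹ • m_39.q1f 1) = -58835731201794380 / 2 ^ 57 := by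
    rw [co_dq, dq39, hn39]; norm_num [cmp]
  have v3 : co 3 ((m_39.hQ : ℝ)⁻¹ • m_39.q1f 1) = 101906475724356240 / 2 ^ 57 := by
    rw [co_dq, dq39, hn39]; norm_num [cmp]
  obtain ⟨x1, x2⟩ := x16_bd
  obtain ⟨y1, y2⟩ := x12_bd
  obtain ⟨k1, k2⟩ := kap_bd
  set κ := 3 * (Real.sqrt 2 ^ 3)⁻¹ with hκ
  have b0 : co 0 aX = 2 * Real.sqrt (1 / 6) := by rw [aX_eq]; rfl
  have b1 : co 1 aX = 0 := by rw [aX_eq]; rfl
  have b2 : co 2 aX = -Real.sqrt (1 / 6) := by rw [aX_eq]; rfl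
  have b3 : co 3 aX = Real.sqrt (1 / 2) := by rw [aX_eq]; rfl
  have f0 : co 0 (Fo aX) = -κ * (2 * Real.sqrt (1 / 6)) := by rw [Fo_aX, co_smul, b0]
  have f1 : co 1 (Fo aX) = 0 := by rw [Fo_aX, co_smul, b1, mul_zero]
  have f2 : co 2 (Fo aX) = -κ * (-Real.sqrt (1 / 6)) := by rw [Fo_aX, co_smul, b2]
  have f3 : co 3 (Fo aX) = -κ * Real.sqrt (1 / 2) := by rw [Fo_aX, co_smul, b3]
  generalize Real.sqrt (1 / 6) = x at *
  generalize Real.sqrt (1 / 2) = y at *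
  have kx1 : 0.43301269 ≤ κ * x := by nlinarith
  have kx2 : κ * x ≤ 0.43301271 := by nlinarith
  have ky1 : 0.74999999 ≤ κ * y := by nlinarith
  have ky2 : κ * y ≤ 0.75000001 := by nlinarith
  refine ⟨?_, ?_, ?_, ?_, ?_⟩
  · apply norm_le_co _ 5 5 _ _ _ le_rfl le_rfl
    · rw [co_sub, co_sub, co_smul, co_smul, q0, q1, b0, b1]
      have : |(941556108432214608 / 2 ^ 44 - 65548 * (2 * x) : ℝ)| ≤ 4 := by
        rw [abs_le]; constructor <;> linarith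
      have : |(354074346244 / 2 ^ 44 - 65548 * 0 : ℝ)| ≤ 1 := by
        rw [abs_le]; constructor <;> norm_num
      linarith
    · rw [co_sub, co_sub, co_smul, co_smul, q2, q3, b2, b3]
      have : |(-470763324801672428 / 2 ^ 44 - 65548 * (-x) : ℝ)| ≤ 2 := by
        rw [abs_le]; constructor <;> linarith
      have : |(815358202579106504 / 2 ^ 44 - 65548 * y : ℝ)| ≤ 3 := by
        rw [abs_le]; constructor <;> linarith
      linarith
  · apply norm_le_co _ (1 / 16) (1 / 16) _ _ _ le_rfl le_rfl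
    · rw [co_sub, co_sub, v0, v1, b0, b1]
      have : |(117671462387355200 / 2 ^ 57 - 2 * x : ℝ)| ≤ 1 / 32 := by
        rw [abs_le]; constructor <;> linarith
      have : |(-2161464 / 2 ^ 57 - 0 : ℝ)| ≤ 1 / 32 := by
        rw [abs_le]; constructor <;> norm_num
      linarith
    · rw [co_sub, co_sub, v2, v3, b2, b3]
      have : |(-58835731201794380 / 2 ^ 57 - -x : ℝ)| ≤ 1 / 32 := by
        rw [abs_le]; constructor <;> linarith
      have : |(101906475724356240 / 2 ^ 57 - y : ℝ)| ≤ 1 / 32 := by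
        rw [abs_le]; constructor <;> linarith
      linarith
  · intro r
    rw [co_add, co_sub, co_smul r (65548 : ℝ)⁻¹]
    fin_cases r
    · simp only [Fin.zero_eta]; rw [v0, b0, f0, abs_le]; constructor <;> linarith
    · simp only [Fin.mk_one]; rw [v1, b1, f1, abs_le]; constructor <;> norm_num
    · simp only [Fin.reduceFinMk]; rw [v2, b2, f2, abs_le]; constructor <;> linarith
    · simp only [Fin.reduceFinMk]; rw [v3, b3, f3, abs_le]; constructor <;> linarith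
  · exact W_of_co m_39 (65566 * 2 ^ 24) (65566 * 2 ^ 24) (65566 * 2 ^ 24) (65600 * 2 ^ 24) _
      (by decide +kernel) (by decide +kernel) (by decide +kernel) (by decide +kernel)
      (by norm_num) (by norm_num)
  · intro r ζ
    fin_cases r
    · exact co_V1' m_39 0 0 hM0 hn39 ζ
    · exact co_V1' m_39 1 1 hM1 hn39 ζ
    · exact co_V1' m_39 2 2 hM2 hn39 ζ
    · exact co_V1' m_39 3 3 hM3 hn39 ζ

lemma V_norm (p : PD) (c : Fin 4 → ℝ) (cV : ℝ) (hc : c 0 + c 1 ≤ cV) (hc' : c 2 + c 3 ≤ cV)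
    (h : ∀ r ζ, |co r (comb (fun j => (p.hQ : ℝ)⁻¹ • p.W1f 1 j) ζ)| ≤ c r * ‖ζ‖) (ζ : Z) :
    ‖comb (fun j => (p.hQ : ℝ)⁻¹ • p.W1f 1 j) ζ‖ ≤ cV * ‖ζ‖ := by
  have hn := norm_nonneg ζ
  refine norm_le_co _ ((c 0 + c 1) * ‖ζ‖) ((c 2 + c 3) * ‖ζ‖) ?_ ?_ _
    (mul_le_mul_of_nonneg_right hc hn) (mul_le_mul_of_nonneg_right hc' hn)
  · have := h 0 ζ; have := h 1 ζ; linarith
  · have := h 2 ζ; have := h 3 ζ; linarith

theorem exists_state (hG : ClaimGood) (hS : ClaimStep) (hM : ClaimMatch) (hR : ClaimRun)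
    (hV : ClaimSolve) : ∃ y : X × X, Tail bX y ∧ Tail aX (y.1, -y.2) := by
  obtain ⟨Tp, sp⟩ := run_P hG hS hM
  obtain ⟨Tm, sm⟩ := run_M hG hS hM
  obtain ⟨ShP, P1, P2, P3⟩ := hR bX 65546 (3 / 10 ^ 7) Tp _ _ 210000 5 (1 / 10 ^ 9) _ _ _ _ _ _ _
    dd_bX (by norm_num) sp (by norm_num) (by norm_num) (F_form p_45) endP.pos (by norm_num)
    (by norm_num) endP.W (by norm_num)
    (V_norm p_45 _ 5 (by norm_num)
      (by rw [if_neg (by decide : ¬ ((2 : Fin 4) = 0)), if_neg (by decide : ¬ ((3 : Fin 4) = 0))]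
          norm_num) endP.V') (by norm_num) endP.V' endP.vel endP.vel'
  obtain ⟨ShM, M1, M2, M3⟩ := hR aX 65548 (3 / 10 ^ 7) Tm _ _ 210000 5 (1 / 10 ^ 9) _ _ _ _ _ _ _
    dd_aX (by norm_num) sm (by norm_num) (by norm_num) (F_form m_39) endM.pos (by norm_num)
    (by norm_num) endM.W (by norm_num)
    (V_norm m_39 _ 5 (by norm_num) (by norm_num) endM.V') (by norm_num) endM.V' endM.vel endM.vel'
  refine hV Tp Tm (125 / 10 ^ 9) (26 / 100) (1 / 2 ^ 13) (225 / 10 ^ 9) p_00.S m_00.S _ _ ShP ShM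
    (hM.2 _ _ flip0) (by norm_num) (by norm_num) (by norm_num) (by norm_num)
    (fun ζ hζ => P1 ζ (hζ.trans (by norm_num))) (fun ζ hζ => M1 ζ (hζ.trans (by norm_num)))
    (fun r hr => (P2 r).trans ?_) (fun r => (M2 r).trans ?_)
    (fun r ζ ζ' hr h1 h2 => (P3 r ζ ζ' (h1.trans (by norm_num)) (h2.trans (by norm_num))).trans
      (mul_le_mul_of_nonneg_right ?_ (norm_nonneg _)))
    (fun r ζ ζ' h1 h2 => (M3 r ζ ζ' (h1.trans (by norm_num)) (h2.trans (by norm_num))).trans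
      (mul_le_mul_of_nonneg_right ?_ (norm_nonneg _)))
    (fun ζ => ⟨co_V1 m_39 0 0 hM0 hn39 ζ, co_V1 m_39 1 1 hM1 hn39 ζ, co_V1 m_39 2 2 hM2 hn39 ζ,
      co_V1 m_39 3 3 hM3 hn39 ζ⟩)
    (fun ζ => ⟨co_V1 p_45 1 4 hP1 hn45 ζ, co_V1 p_45 2 5 hP2 hn45 ζ, co_V1 p_45 3 6 hP3 hn45 ζ⟩)
    (by norm_num) (by norm_num)
  · simp only [hr, if_false]; norm_num
  · norm_num
  · simp only [hr, if_false]; norm_num
  · norm_num

end Pool.Agent.Work.MP_76acb6_an
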