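import Pool.Agent.Work.MP_76acb6_an.Claims

/-!
# B1: packed integer polynomials
-/

set_option autoImplicit false

namespace Pool.Agent.Work.MP_76acb6_an

open Set Filter Topology

/-! ### Polynomials as lists -/

def PKladd : List ℤ → List ℤ → List ℤ
  | [], b => b
  | x :: a, [] => x :: a
  | x :: a, y :: b => (x + y) :: PKladd a b

def PKlsc (c : ℤ) : List ℤ → List ℤ
  | [] => []
  | x :: a => (c * x) :: PKlsc c a

def PKlmul : List ℤ → List ℤ → List ℤ
  | [], _ => []
  | x :: a, b => PKladd (PKlsc x b) (0 :: PKlmul a b)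

/-- `z^e F(z)`. -/
def PKsh : ℕ → List ℤ → List ℤ
  | 0, a => a
  | e + 1, a => 0 :: PKsh e a

theorem PKevZ_ladd (a b : List ℤ) (x : ℤ) : evZ (PKladd a b) x = evZ a x + evZ b x := by
  induction a generalizing b with
  | nil => simp [PKladd, evZ]
  | cons u a ih =>
    cases b with
    | nil => simp [PKladd, evZ]
    | cons v b => simp only [PKladd, evZ, ih]; ring

theorem PKevC_ladd (a b : List ℤ) (x : ℂ) : evC (PKladd a b) x = evC a x + evC b x := by
  induction a generalizing b with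
  | nil => simp [PKladd, evC]
  | cons u a ih =>
    cases b with
    | nil => simp [PKladd, evC]
    | cons v b => simp only [PKladd, evC, ih]; push_cast; ring

theorem PKl1_ladd (a b : List ℤ) : l1Z (PKladd a b) ≤ l1Z a + l1Z b := by
  induction a generalizing b with
  | nil => simp [PKladd, l1Z]
  | cons u a ih =>
    cases b with
    | nil => simp [PKladd, l1Z]
    | cons v b =>
      simp only [PKladd, l1Z]
      have h1 := ih b
      have h2 := Int.natAbs_add_le u v
      omega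

theorem PKlen_ladd (a b : List ℤ) (m : ℕ) (ha : a.length ≤ m) (hb : b.length ≤ m) :
    (PKladd a b).length ≤ m := by
  induction a generalizing b m with
  | nil => simpa [PKladd] using hb
  | cons u a ih =>
    cases b with
    | nil => simpa [PKladd] using ha
    | cons v b =>
      simp only [PKladd, List.length_cons] at *
      cases m with
      | zero => omega
      | succ m =>
        have := ih b m (by omega) (by omega)
        omega

theorem PKevZ_lsc (c : ℤ) (a : List ℤ) (x : ℤ) : evZ (PKlsc c a) x = c * evZ a x := by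
  induction a with
  | nil => simp [PKlsc, evZ]
  | cons u a ih => simp only [PKlsc, evZ, ih]; ring

theorem PKevC_lsc (c : ℤ) (a : List ℤ) (x : ℂ) : evC (PKlsc c a) x = (c : ℂ) * evC a x := by
  induction a with
  | nil => simp [PKlsc, evC]
  | cons u a ih => simp only [PKlsc, evC, ih]; push_cast; ring

theorem PKl1_lsc (c : ℤ) (a : List ℤ) : l1Z (PKlsc c a) = c.natAbs * l1Z a := by
  induction a with
  | nil => simp [PKlsc, l1Z]
  | cons u a ih => simp only [PKlsc, l1Z, ih, Int.natAbs_mul]; ring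

theorem PKlen_lsc (c : ℤ) (a : List ℤ) : (PKlsc c a).length = a.length := by
  induction a with
  | nil => simp [PKlsc]
  | cons u a ih => simp [PKlsc, ih]

theorem PKevZ_lmul (a b : List ℤ) (x : ℤ) : evZ (PKlmul a b) x = evZ a x * evZ b x := by
  induction a with
  | nil => simp [PKlmul, evZ]
  | cons u a ih => simp only [PKlmul, evZ, PKevZ_ladd, PKevZ_lsc, ih]; ring

theorem PKevC_lmul (a b : List ℤ) (x : ℂ) : evC (PKlmul a b) x = evC a x * evC b x := by
  induction a with
  | nil => simp [PKlmul, evC]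
  | cons u a ih => simp only [PKlmul, evC, PKevC_ladd, PKevC_lsc, ih]; push_cast; ring

theorem PKl1_lmul (a b : List ℤ) : l1Z (PKlmul a b) ≤ l1Z a * l1Z b := by
  induction a with
  | nil => simp [PKlmul, l1Z]
  | cons u a ih =>
    simp only [PKlmul, l1Z]
    refine (PKl1_ladd _ _).trans ?_
    simp only [l1Z, PKl1_lsc, Int.natAbs_zero, zero_add, add_mul]
    omega

theorem PKlen_lmul (a b : List ℤ) (m k : ℕ) (ha : a.length ≤ m + 1) (hb : b.length ≤ k + 1) :
    (PKlmul a b).length ≤ m + k + 1 := by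
  induction a generalizing m with
  | nil => simp [PKlmul]
  | cons u a ih =>
    simp only [PKlmul]
    apply PKlen_ladd
    · rw [PKlen_lsc]; omega
    · simp only [List.length_cons] at *
      cases m with
      | zero =>
        have : a = [] := List.eq_nil_of_length_eq_zero (by omega)
        subst this
        simp [PKlmul]
      | succ m =>
        have := ih m (by omega)
        omega

theorem PKevZ_sh (e : ℕ) (a : List ℤ) (x : ℤ) : evZ (PKsh e a) x = x ^ e * evZ a x := by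
  induction e with
  | zero => simp [PKsh]
  | succ e ih => simp only [PKsh, evZ, ih]; ring

theorem PKevC_sh (e : ℕ) (a : List ℤ) (x : ℂ) : evC (PKsh e a) x = x ^ e * evC a x := by
  induction e with
  | zero => simp [PKsh]
  | succ e ih => simp only [PKsh, evC, ih]; push_cast; ring

theorem PKl1_sh (e : ℕ) (a : List ℤ) : l1Z (PKsh e a) = l1Z a := by
  induction e with
  | zero => simp [PKsh]
  | succ e ih => simp [PKsh, l1Z, ih]

theorem PKlen_sh (e : ℕ) (a : List ℤ) : (PKsh e a).length = a.length + e := by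
  induction e with
  | zero => simp [PKsh]
  | succ e ih => simp only [PKsh, List.length_cons, ih]; omega

/-! ### The ring operations -/

theorem PKrep_congr {k l : PK} {f g : ℝ → ℝ} (h : Rep k f) (hk : k = l) (hf : f = g) :
    Rep l g := by subst hk; subst hf; exact h

theorem PKrep_zero : Rep ⟨0, 0, 0, 0⟩ (fun _ => 0) :=
  ⟨[], by simp, by simp [evZ], by simp [l1Z], fun θ => by simp [evC]⟩

theorem PKrep_const (c : ℤ) : Rep (PK.const c) (fun _ => (c : ℝ)) := by
  cases c with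
  | ofNat c => exact ⟨[(c : ℤ)], by simp, by simp [evZ, PK.const], by simp [l1Z, PK.const],
      fun θ => by simp [evC, PK.const]⟩
  | negSucc c =>
    refine ⟨[Int.negSucc c], by simp, ?_, ?_, fun θ => by simp [evC, PK.const]⟩
    · simp [evZ, PK.const, Int.negSucc_eq]
    · simp [l1Z, PK.const]

theorem PKrep_lift {k : PK} {f : ℝ → ℝ} (e : ℕ) (h : Rep k f) : Rep (k.lift e) f := by
  obtain ⟨F, h1, h2, h3, h4⟩ := h
  refine ⟨PKsh e (PKlsc (2 ^ e) F), ?_, ?_, ?_, ?_⟩
  · rw [PKlen_sh, PKlen_lsc]; simp only [PK.lift]; omega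
  · rw [PKevZ_sh, PKevZ_lsc, ← h2]
    simp only [PK.lift]
    push_cast
    have : (2 : ℤ) ^ (385 * e) = (2 ^ 384) ^ e * 2 ^ e := by
      rw [← pow_mul, ← pow_add]; congr 1; omega
    rw [this]; ring
  · rw [PKl1_sh, PKl1_lsc]
    simp only [PK.lift]
    have : ((2 : ℤ) ^ e).natAbs = 2 ^ e := by simp [Int.natAbs_pow]
    rw [this, mul_comm]
    exact Nat.mul_le_mul_right _ h3
  · intro θ
    rw [PKevC_sh, PKevC_lsc, h4]
    simp only [PK.lift]
    push_cast
    ring

theorem PKrep_lin {a c : PK} {f g : ℝ → ℝ} (ha : Rep a f) (hc : Rep c g) (hd : a.d = c.d) :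
    Rep ⟨a.p + c.p, a.n + c.n, a.b + c.b, a.d⟩ (fun x => f x + g x) ∧
    Rep ⟨a.p + c.n, a.n + c.p, a.b + c.b, a.d⟩ (fun x => f x - g x) := by
  obtain ⟨F, h1, h2, h3, h4⟩ := ha
  obtain ⟨G, g1, g2, g3, g4⟩ := hc
  constructor
  · refine ⟨PKladd F G, PKlen_ladd _ _ _ h1 (hd ▸ g1), ?_,
      (PKl1_ladd _ _).trans (Nat.add_le_add h3 g3), ?_⟩
    · rw [PKevZ_ladd, ← h2, ← g2]; push_cast; ring
    · intro θ
      rw [PKevC_ladd, h4, g4, ← hd]; push_cast; ring
  · refine ⟨PKladd F (PKlsc (-1) G), PKlen_ladd _ _ _ h1 (by rw [PKlen_lsc]; exact hd ▸ g1), ?_,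
      (PKl1_ladd _ _).trans ?_, ?_⟩
    · rw [PKevZ_ladd, PKevZ_lsc, ← h2, ← g2]; push_cast; ring
    · rw [PKl1_lsc]; simpa using Nat.add_le_add h3 g3
    · intro θ
      rw [PKevC_ladd, PKevC_lsc, h4, g4, ← hd]; push_cast; ring

theorem PKrep_add {k l : PK} {f g : ℝ → ℝ} (hk : Rep k f) (hl : Rep l g) :
    Rep (k.add l) fun x => f x + g x :=
  (PKrep_lin (PKrep_lift (l.d - k.d) hk) (PKrep_lift (k.d - l.d) hl)
    (by simp only [PK.lift]; omega)).1

theorem PKrep_sub {k l : PK} {f g : ℝ → ℝ} (hk : Rep k f) (hl : Rep l g) :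
    Rep (k.sub l) fun x => f x - g x :=
  (PKrep_lin (PKrep_lift (l.d - k.d) hk) (PKrep_lift (k.d - l.d) hl)
    (by simp only [PK.lift]; omega)).2

theorem PKrep_mul {k l : PK} {f g : ℝ → ℝ} (hk : Rep k f) (hl : Rep l g) :
    Rep (k.mul l) fun x => f x * g x := by
  obtain ⟨F, h1, h2, h3, h4⟩ := hk
  obtain ⟨G, g1, g2, g3, g4⟩ := hl
  refine ⟨PKlmul F G, ?_, ?_, (PKl1_lmul _ _).trans (Nat.mul_le_mul h3 g3), ?_⟩
  · have := PKlen_lmul F G _ _ h1 g1
    simp only [PK.mul]
    omega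
  · rw [PKevZ_lmul, ← h2, ← g2]
    simp only [PK.mul]
    push_cast
    ring
  · intro θ
    rw [PKevC_lmul, h4, g4]
    simp only [PK.mul]
    push_cast
    ring

theorem PKrep_scN {k : PK} {f : ℝ → ℝ} (c : ℕ) (hk : Rep k f) :
    Rep (k.scN c) fun x => (c : ℝ) * f x := by
  obtain ⟨F, h1, h2, h3, h4⟩ := hk
  refine ⟨PKlsc c F, by rw [PKlen_lsc]; exact h1, ?_, ?_, ?_⟩
  · rw [PKevZ_lsc, ← h2]
    simp only [PK.scN]
    push_cast
    ring
  · rw [PKl1_lsc]
    simp only [PK.scN, Int.natAbs_natCast]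
    exact Nat.mul_le_mul_left _ h3
  · intro θ
    rw [PKevC_lsc, h4]
    simp only [PK.scN]
    push_cast
    ring

theorem PKrep_scZ {k : PK} {f : ℝ → ℝ} (c : ℤ) (hk : Rep k f) :
    Rep (PK.scZ c k) fun x => (c : ℝ) * f x := by
  obtain ⟨F, h1, h2, h3, h4⟩ := hk
  cases c with
  | ofNat c =>
    refine ⟨PKlsc c F, by rw [PKlen_lsc]; exact h1, ?_, ?_, ?_⟩
    · rw [PKevZ_lsc, ← h2]
      simp only [PK.scZ]
      push_cast
      ring
    · rw [PKl1_lsc]
      simp only [PK.scZ, Int.natAbs_natCast]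
      exact Nat.mul_le_mul_left _ h3
    · intro θ
      rw [PKevC_lsc, h4]
      simp only [PK.scZ, Int.ofNat_eq_natCast]
      push_cast
      ring
  | negSucc c =>
    refine ⟨PKlsc (Int.negSucc c) F, by rw [PKlen_lsc]; exact h1, ?_, ?_, ?_⟩
    · rw [PKevZ_lsc, ← h2]
      simp only [PK.scZ, Int.negSucc_eq]
      push_cast
      ring
    · rw [PKl1_lsc]
      simp only [PK.scZ, Int.natAbs_negSucc]
      exact Nat.mul_le_mul_left _ h3
    · intro θ
      rw [PKevC_lsc, h4]
      simp only [PK.scZ, Int.negSucc_eq]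
      push_cast
      ring

theorem PKtwo_cos (θ : ℝ) : 2 * Complex.exp (θ * Complex.I) * ((Real.cos θ : ℝ) : ℂ) =
    Complex.exp (θ * Complex.I) ^ 2 + 1 := by
  rw [Complex.ofReal_cos, Complex.cos]
  have h : Complex.exp (θ * Complex.I) * Complex.exp (-θ * Complex.I) = 1 := by
    rw [← Complex.exp_add]; simp
  linear_combination h

theorem PKrep_ofPo (l : Po) : Rep (PK.ofPo l) (evR l) := by
  induction l with
  | nil => exact PKrep_congr PKrep_zero (by simp [PK.ofPo]) (by funext x; simp [evR])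
  | cons c t ih =>
    cases t with
    | nil =>
      exact PKrep_congr (PKrep_const c) (by simp [PK.ofPo]) (by funext x; simp [evR])
    | cons c' t' =>
      have hl := PKrep_lift ((PK.ofPo (c' :: t')).d + 1) (PKrep_const c)
      obtain ⟨F, h1, h2, h3, h4⟩ := hl
      obtain ⟨G, g1, g2, g3, g4⟩ := ih
      have e : PK.ofPo (c :: c' :: t') =
          ⟨((PK.const c).lift ((PK.ofPo (c' :: t')).d + 1)).p +
              (PK.ofPo (c' :: t')).p * (2 ^ 768 + 1),
            ((PK.const c).lift ((PK.ofPo (c' :: t')).d + 1)).n +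
              (PK.ofPo (c' :: t')).n * (2 ^ 768 + 1),
            ((PK.const c).lift ((PK.ofPo (c' :: t')).d + 1)).b + 2 * (PK.ofPo (c' :: t')).b,
            (PK.ofPo (c' :: t')).d + 1⟩ := by
        conv_lhs => rw [PK.ofPo]
      rw [e]
      have hcd : (PK.const c).d = 0 := by cases c <;> rfl
      have hd : ((PK.const c).lift ((PK.ofPo (c' :: t')).d + 1)).d =
          (PK.ofPo (c' :: t')).d + 1 := by simp [PK.lift, hcd]
      generalize PK.ofPo (c' :: t') = k at *
      generalize (PK.const c).lift (k.d + 1) = a at *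
      refine ⟨PKladd F (PKlmul [1, 0, 1] G), ?_, ?_, ?_, ?_⟩
      · apply PKlen_ladd
        · simp only; omega
        · have := PKlen_lmul [1, 0, 1] G 2 _ (by simp) g1
          simp only
          omega
      · rw [PKevZ_ladd, PKevZ_lmul, ← h2, ← g2]
        simp only [evZ]
        push_cast
        ring
      · refine (PKl1_ladd _ _).trans ?_
        have := PKl1_lmul [1, 0, 1] G
        simp only [l1Z, Int.natAbs_one, Int.natAbs_zero] at this
        simp only
        omega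
      · intro θ
        rw [PKevC_ladd, PKevC_lmul, h4, g4, hd]
        have h6 : evR (c :: c' :: t') (Real.cos θ) =
          c + Real.cos θ * evR (c' :: t') (Real.cos θ) := rfl
        simp only [evC]
        rw [h6]
        generalize evR (c' :: t') (Real.cos θ) = y
        have h5 := PKtwo_cos θ
        push_cast at h5 ⊢
        linear_combination (-(2 * Complex.exp (θ * Complex.I)) ^ k.d *
          (y : ℂ)) * h5

/-! ### The bound -/

theorem PKdist (H d : ℕ) (c : ℤ) (h : (d : ℤ) = c + (H : ℤ)) :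
    (d - H) + (H - d) = c.natAbs := by omega

theorem PKl1_key (l : ℕ) (F : List ℤ) (hl : F.length ≤ l) (hF : ∀ c ∈ F, c.natAbs < 2 ^ 383) :
    ∃ x : ℕ, (x : ℤ) = evZ F (2 ^ 384) + PK.off l ∧ PK.l1 l x = l1Z F := by
  induction l generalizing F with
  | zero =>
    have : F = [] := List.eq_nil_of_length_eq_zero (by omega)
    subst this
    exact ⟨0, by simp [evZ, PK.off], by simp [PK.l1, l1Z]⟩
  | succ l ih =>
    have key : ∀ (c : ℤ) (t : List ℤ), t.length ≤ l → (∀ c ∈ t, c.natAbs < 2 ^ 383) →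
        c.natAbs < 2 ^ 383 → ∃ x : ℕ, (x : ℤ) = c + 2 ^ 384 * evZ t (2 ^ 384) + PK.off (l + 1) ∧
          PK.l1 (l + 1) x = c.natAbs + l1Z t := by
      intro c t h1 h2 h3
      obtain ⟨x', hx1, hx2⟩ := ih t h1 h2
      have e384 : (2 : ℕ) ^ 384 = 2 * 2 ^ 383 := by rw [← pow_succ']
      have e384' : (2 : ℤ) ^ 384 = 2 * 2 ^ 383 := by rw [← pow_succ']
      obtain ⟨d, hd⟩ : ∃ d : ℕ, (d : ℤ) = c + 2 ^ 383 := by
        refine ⟨(c + 2 ^ 383).toNat, ?_⟩
        rw [Int.toNat_of_nonneg]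
        have : (c.natAbs : ℤ) < 2 ^ 383 := by exact_mod_cast h3
        omega
      have hd2 : d < 2 ^ 384 := by
        have : (c.natAbs : ℤ) < 2 ^ 383 := by exact_mod_cast h3
        have : (d : ℤ) < 2 ^ 384 := by rw [e384', hd]; omega
        exact_mod_cast this
      refine ⟨d + 2 ^ 384 * x', ?_, ?_⟩
      · push_cast
        rw [hd, hx1]
        simp only [PK.off]
        push_cast
        ring
      · simp only [PK.l1]
        rw [Nat.add_mul_mod_self_left, Nat.mod_eq_of_lt hd2,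
          Nat.add_mul_div_left _ _ (by positivity), Nat.div_eq_of_lt hd2, zero_add, hx2]
        rw [PKdist (2 ^ 383) d c (by rw [hd]; norm_cast)]
    cases F with
    | nil =>
      obtain ⟨x, h1, h2⟩ := key 0 [] (by simp) (by simp) (by simp)
      refine ⟨x, ?_, ?_⟩
      · rw [h1]; simp [evZ]
      · rw [h2]; simp [l1Z]
    | cons c t =>
      obtain ⟨x, h1, h2⟩ := key c t (by simpa using hl) (fun c' h => hF c' (by simp [h]))
        (hF c (by simp))
      exact ⟨x, by rw [h1]; simp [evZ], by rw [h2]; simp [l1Z]⟩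

theorem PKmem_le (F : List ℤ) (c : ℤ) (h : c ∈ F) : c.natAbs ≤ l1Z F := by
  induction F with
  | nil => simp at h
  | cons u a ih =>
    simp only [l1Z]
    rcases List.mem_cons.1 h with rfl | h
    · omega
    · have := ih h
      omega

theorem PKnorm_evC (F : List ℤ) (z : ℂ) (hz : ‖z‖ = 1) : ‖evC F z‖ ≤ l1Z F := by
  induction F with
  | nil => simp [evC, l1Z]
  | cons u a ih =>
    simp only [evC, l1Z]
    refine (norm_add_le _ _).trans ?_
    rw [norm_mul, hz, one_mul]
    push_cast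
    gcongr
    rw [Complex.norm_intCast, Nat.cast_natAbs]
    push_cast
    exact le_rfl

theorem PKrep_sup {k : PK} {f : ℝ → ℝ} (hk : Rep k f) (hb : Nat.blt k.b (2 ^ 383) = true)
    {x : ℝ} (hx : x ∈ Icc (-1 : ℝ) 1) : |f x| * 2 ^ k.d ≤ k.supN := by
  obtain ⟨F, h1, h2, h3, h4⟩ := hk
  have hb' : k.b < 2 ^ 383 := by
    rw [Nat.blt_eq] at hb; exact hb
  obtain ⟨y, hy1, hy2⟩ := PKl1_key (2 * k.d + 1) F h1
    (fun c hc => ((PKmem_le F c hc).trans h3).trans_lt hb')
  have hy3 : k.p + PK.off (2 * k.d + 1) - k.n = y := by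
    rw [← h2] at hy1
    omega
  have h5 := h4 (Real.arccos x)
  rw [Real.cos_arccos hx.1 hx.2] at h5
  have hz : ‖Complex.exp ((Real.arccos x : ℝ) * Complex.I)‖ = 1 :=
    Complex.norm_exp_ofReal_mul_I _
  have h6 := PKnorm_evC F _ hz
  rw [h5, norm_mul, norm_pow, norm_mul, hz, Complex.norm_real, Real.norm_eq_abs] at h6
  simp only [Complex.norm_ofNat, mul_one] at h6
  rw [PK.supN, hy3, hy2, mul_comm]
  exact h6

theorem PKrep_bd {k : PK} {f : ℝ → ℝ} {s b : ℕ} (hk : Rep k f) (hb : k.bd s b = true)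
    {x : ℝ} (hx : x ∈ Icc (-1 : ℝ) 1) : |f x / 2 ^ s| ≤ b / 2 ^ 60 := by
  simp only [PK.bd, Bool.and_eq_true] at hb
  have h1 := PKrep_sup hk hb.1 hx
  have h2 : k.supN * 2 ^ 60 ≤ b * 2 ^ (s + k.d) := Nat.le_of_ble_eq_true hb.2
  have h3 : (k.supN : ℝ) * 2 ^ 60 ≤ b * 2 ^ (s + k.d) := by exact_mod_cast h2
  rw [abs_div, abs_of_pos (show (0 : ℝ) < 2 ^ s by positivity),
    div_le_div_iff₀ (by positivity) (by positivity)]
  have h4 : (0 : ℝ) < 2 ^ k.d := by positivity
  have h5 : |f x| * 2 ^ 60 * 2 ^ k.d ≤ (b : ℝ) * 2 ^ s * 2 ^ k.d := by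
    calc |f x| * 2 ^ 60 * 2 ^ k.d = (|f x| * 2 ^ k.d) * 2 ^ 60 := by ring
      _ ≤ (k.supN : ℝ) * 2 ^ 60 := by gcongr
      _ ≤ (b : ℝ) * 2 ^ (s + k.d) := h3
      _ = b * 2 ^ s * 2 ^ k.d := by ring
  exact le_of_mul_le_mul_right h5 h4

theorem PKrep_bdSq {k : PK} {f : ℝ → ℝ} {s b : ℕ} (hk : Rep k f) (hb : k.bdSq s b = true)
    {x : ℝ} (hx : x ∈ Icc (-1 : ℝ) 1) : |f x / 2 ^ s| ≤ (b / 2 ^ 60) ^ 2 := by
  simp only [PK.bdSq, Bool.and_eq_true] at hb
  have h1 := PKrep_sup hk hb.1 hx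
  have h2 : k.supN * 2 ^ 120 ≤ b ^ 2 * 2 ^ (s + k.d) := Nat.le_of_ble_eq_true hb.2
  have h3 : (k.supN : ℝ) * 2 ^ 120 ≤ b ^ 2 * 2 ^ (s + k.d) := by exact_mod_cast h2
  rw [abs_div, abs_of_pos (show (0 : ℝ) < 2 ^ s by positivity), div_pow, ← pow_mul,
    div_le_div_iff₀ (by positivity) (by positivity)]
  have h4 : (0 : ℝ) < 2 ^ k.d := by positivity
  have h5 : |f x| * 2 ^ (60 * 2) * 2 ^ k.d ≤ (b : ℝ) ^ 2 * 2 ^ s * 2 ^ k.d := by
    calc |f x| * 2 ^ (60 * 2) * 2 ^ k.d = (|f x| * 2 ^ k.d) * 2 ^ 120 := by ring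
      _ ≤ (k.supN : ℝ) * 2 ^ 120 := by gcongr
      _ ≤ (b : ℝ) ^ 2 * 2 ^ (s + k.d) := h3
      _ = b ^ 2 * 2 ^ s * 2 ^ k.d := by ring
  exact le_of_mul_le_mul_right h5 h4

theorem claimPK : ClaimPK where
  ofPo := PKrep_ofPo
  const := PKrep_const
  add := fun _ _ _ _ hk hl => PKrep_add hk hl
  sub := fun _ _ _ _ hk hl => PKrep_sub hk hl
  mul := fun _ _ _ _ hk hl => PKrep_mul hk hl
  scN := fun _ _ c hk => PKrep_scN c hk
  scZ := fun _ _ c hk => PKrep_scZ c hk
  zero := PKrep_zero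
  sup := fun _ _ hk hb _ hx => PKrep_sup hk hb hx
  bd := fun _ _ _ _ hk hb _ hx => PKrep_bd hk hb hx
  bdSq := fun _ _ _ _ hk hb _ hx => PKrep_bdSq hk hb hx

end Pool.Agent.Work.MP_76acb6_an
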